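import Mathlib

/-! Hoelder spaces, half-regular squares and the Pythagoras numbers. -/

namespace Pool.Agent.Lib.MP_ca9be0_an

variable {n : ℕ}

/-- `f` lies in `C^{k,α}(ℝ^n)`: it is `k` times continuously differentiable and every derivative
of order `k` along coordinate directions has finite `α`-Hoelder seminorm -/
def InC (k : ℕ) (α : ℝ) (f : EuclideanSpace ℝ (Fin n) → ℝ) : Prop :=
  ContDiff ℝ k f ∧ ∀ β : Fin k → Fin n, ∃ C : ℝ, ∀ x y,
    |iteratedFDeriv ℝ k f x (fun i => EuclideanSpace.single (β i) 1) -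
      iteratedFDeriv ℝ k f y (fun i => EuclideanSpace.single (β i) 1)| ≤ C * ‖x - y‖ ^ α

/-- the half-regular space attached to `C^{k,α}(ℝ^n)` -/
def InHalf (k : ℕ) (α : ℝ) (g : EuclideanSpace ℝ (Fin n) → ℝ) : Prop :=
  if Even k then InC (k / 2) (α / 2) g else InC ((k - 1) / 2) ((1 + α) / 2) g

/-- `f` is a sum of `m` squares of half-regular functions -/
def SumSq (k : ℕ) (α : ℝ) (m : ℕ) (f : EuclideanSpace ℝ (Fin n) → ℝ) : Prop :=
  ∃ g : Fin m → EuclideanSpace ℝ (Fin n) → ℝ, (∀ j, InHalf k α (g j)) ∧ ∀ x, f x = ∑ j, g j x ^ 2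

/-- the Pythagoras number `p_{k,n}` (infinite if no bound exists) -/
noncomputable def pyth (k n : ℕ) (α : ℝ) : ℕ∞ :=
  sInf ((fun m : ℕ => (m : ℕ∞)) '' {m : ℕ | ∀ f : EuclideanSpace ℝ (Fin n) → ℝ, InC k α f →
    (∃ M, SumSq k α M f) → ∃ m' ≤ m, SumSq k α m' f})

end Pool.Agent.Lib.MP_ca9be0_an
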