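import Mathlib

/-! Polynomials of bounded degree on Euclidean space, pointwise jets and uniformly tame families. -/

namespace Pool.Agent.Lib.MP_ca9be0_an.PyF

open Finset

abbrev E (n : ℕ) := EuclideanSpace ℝ (Fin n)

variable {n : ℕ}

def gen (n : ℕ) : Option (Fin n) → E n → ℝ
  | none => fun _ => 1
  | some i => fun y => y i

/-- polynomial functions of degree at most `d` -/
def Pd (n d : ℕ) : Submodule ℝ (E n → ℝ) := Submodule.span ℝ (Set.range (gen n)) ^ d

lemma gen_mem (o : Option (Fin n)) : gen n o ∈ Pd n 1 := by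
  rw [Pd, pow_one]; exact Submodule.subset_span ⟨o, rfl⟩

lemma Pd_mono {a b : ℕ} (h : a ≤ b) : Pd n a ≤ Pd n b := by
  unfold Pd
  refine pow_le_pow_right' ?_ h
  rw [Submodule.one_le]
  exact Submodule.subset_span ⟨none, rfl⟩

lemma const_mem (d : ℕ) (c : ℝ) : (fun _ : E n => c) ∈ Pd n d := by
  refine Pd_mono (Nat.zero_le d) ?_
  rw [Pd, pow_zero, Submodule.mem_one]
  exact ⟨c, by ext y; simp⟩

lemma Pd_mul {a b : ℕ} {p q : E n → ℝ} (hp : p ∈ Pd n a) (hq : q ∈ Pd n b) :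
    (fun y => p y * q y) ∈ Pd n (a + b) := by
  unfold Pd at *; rw [pow_add]; exact Submodule.mul_mem_mul hp hq

lemma Pd_add {a : ℕ} {p q : E n → ℝ} (hp : p ∈ Pd n a) (hq : q ∈ Pd n a) :
    (fun y => p y + q y) ∈ Pd n a := Submodule.add_mem _ hp hq

lemma Pd_sub {a : ℕ} {p q : E n → ℝ} (hp : p ∈ Pd n a) (hq : q ∈ Pd n a) :
    (fun y => p y - q y) ∈ Pd n a := Submodule.sub_mem _ hp hq

lemma Pd_smul {a : ℕ} {p : E n → ℝ} (c : ℝ) (hp : p ∈ Pd n a) :
    (fun y => c * p y) ∈ Pd n a := Submodule.smul_mem _ c hp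

lemma Pd_sum {a : ℕ} {ι : Type*} (t : Finset ι) {p : ι → E n → ℝ} (hp : ∀ i ∈ t, p i ∈ Pd n a) :
    (fun y => ∑ i ∈ t, p i y) ∈ Pd n a := by
  have := Submodule.sum_mem (Pd n a) hp
  convert this using 1
  ext y; simp

lemma coord_mem (i : Fin n) (c : ℝ) : (fun y : E n => y i - c) ∈ Pd n 1 :=
  Pd_sub (gen_mem (some i)) (const_mem 1 c)

lemma normsq_mem (z : E n) : (fun y : E n => ‖y - z‖ ^ 2) ∈ Pd n 2 := by
  have h := Pd_sum (n := n) (a := 2) univ (p := fun i y => (y i - z i) * (y i - z i))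
    (fun i _ => Pd_mul (coord_mem i (z i)) (coord_mem i (z i)))
  convert h using 1
  ext y
  rw [EuclideanSpace.norm_sq_eq]
  refine sum_congr rfl fun i _ => ?_
  simp [sq]

lemma aff_dec {m : E n → ℝ} (hm : m ∈ Submodule.span ℝ (Set.range (gen n))) (x : E n)
    (τ : ℝ) (v : E n) : m (x + τ • v) - m x = τ * (m (x + v) - m x) := by
  induction hm using Submodule.span_induction with
  | mem f hf =>
    obtain ⟨o, rfl⟩ := hf
    cases o with
    | none => simp [gen]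
    | some i => simp [gen]
  | zero => simp
  | add f g _ _ hf hg => simp only [Pi.add_apply]; linarith
  | smul c f _ hf =>
    simp only [Pi.smul_apply, smul_eq_mul]
    rw [← mul_sub, hf]; ring

/-- homogeneous decomposition around `x` -/
lemma hom_dec (x : E n) {k : ℕ} {u : E n → ℝ} (hu : u ∈ Pd n k) :
    ∃ H : ℕ → E n → ℝ, (∀ j, H j ∈ Pd n j) ∧
      (∀ j τ v, H j (x + τ • v) = τ ^ j * H j (x + v)) ∧ (∀ j, k < j → H j = 0) ∧
      ∀ y, u y = ∑ j ∈ range (k + 1), H j y := by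
  unfold Pd at hu
  induction hu using Submodule.pow_induction_on_left' with
  | algebraMap r =>
    refine ⟨fun j => if j = 0 then fun _ => r else 0, ?_, ?_, ?_, ?_⟩
    · intro j; by_cases h : j = 0
      · simp only [h, if_true]; exact const_mem 0 r
      · simp only [h, if_false]; exact zero_mem _
    · intro j τ v; by_cases h : j = 0 <;> simp [h]
    · intro j hj; simp [hj.ne']
    · intro y; simp
  | add a b i ha hb iha ihb =>
    obtain ⟨H, h1, h2, h3, h4⟩ := iha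
    obtain ⟨G, g1, g2, g3, g4⟩ := ihb
    refine ⟨fun j y => H j y + G j y, fun j => Pd_add (h1 j) (g1 j), ?_, ?_, ?_⟩
    · intro j τ v; simp only [h2, g2]; ring
    · intro j hj; ext y; simp [h3 j hj, g3 j hj]
    · intro y; simp only [Pi.add_apply, h4, g4, sum_add_distrib]
  | mem_mul m hm i a ha ih =>
    obtain ⟨H, h1, h2, h3, h4⟩ := ih
    have hm1 : (fun y => m y - m x) ∈ Pd n 1 :=
      Pd_sub (by rw [Pd, pow_one]; exact hm) (const_mem 1 _)
    refine ⟨fun j y => m x * H j y + (if j = 0 then 0 else (m y - m x) * H (j - 1) y), ?_, ?_, ?_, ?_⟩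
    · intro j
      refine Pd_add (Pd_smul _ (h1 j)) ?_
      rcases j with _ | j
      · simp only [if_true]; exact const_mem 0 0
      · simp only [Nat.succ_ne_zero, if_false, Nat.add_sub_cancel]
        rw [add_comm j 1]; exact Pd_mul hm1 (h1 j)
    · intro j τ v
      rcases j with _ | j
      · simp [h2]
      · simp only [Nat.succ_ne_zero, if_false, Nat.add_sub_cancel, h2, aff_dec hm x τ v]; ring
    · intro j hj
      ext y
      have : j ≠ 0 := by omega
      simp [h3 j (by omega), h3 (j - 1) (by omega), this]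
    · intro y
      rw [sum_add_distrib, ← mul_sum, sum_range_succ, h3 (i + 1) (by omega),
        sum_range_succ' _ (i + 1)]
      simp only [Nat.succ_ne_zero, if_false, Nat.add_sub_cancel, if_true, Pi.mul_apply,
        Pi.zero_apply, add_zero, ← mul_sum, ← h4]
      ring

lemma coef_bound (e : ℕ) : ∃ K : ℝ, 0 < K ∧ ∀ (c : ℕ → ℝ) (m : ℝ),
    (∀ τ : ℝ, 0 ≤ τ → τ ≤ 1 → |∑ j ∈ range (e + 1), τ ^ j * c j| ≤ m) →
    ∀ j, j ≤ e → |c j| ≤ K * m := by
  let v : Fin (e + 1) → ℝ := fun i => (i : ℝ) / (e + 1)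
  have hv : Function.Injective v := by
    intro i j hij
    have h1 : (0 : ℝ) < e + 1 := by positivity
    have : ((i : ℕ) : ℝ) = (j : ℕ) := by
      have := (div_left_inj' h1.ne').1 hij
      exact this
    exact Fin.ext (by exact_mod_cast this)
  let V := Matrix.vandermonde v
  have hdet : IsUnit V.det := by
    rw [isUnit_iff_ne_zero]; exact Matrix.det_vandermonde_ne_zero_iff.2 hv
  refine ⟨1 + ∑ a, ∑ b, |V⁻¹ a b|, by positivity, fun c m h j hj => ?_⟩
  have hm : 0 ≤ m := (abs_nonneg _).trans (h 0 le_rfl zero_le_one)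
  let c' : Fin (e + 1) → ℝ := fun i => c i
  have h1 : ∀ i, |(V.mulVec c') i| ≤ m := by
    intro i
    have := h (v i) (by positivity) (by
      rw [div_le_one (by positivity)]; exact_mod_cast i.2.le)
    rw [Finset.sum_range] at this
    simpa [Matrix.mulVec, dotProduct, V, Matrix.vandermonde_apply, c'] using this
  have h2 : c' = V⁻¹.mulVec (V.mulVec c') := by
    rw [Matrix.mulVec_mulVec, Matrix.nonsing_inv_mul _ hdet, Matrix.one_mulVec]
  let j' : Fin (e + 1) := ⟨j, by omega⟩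
  have h3 : c j = ∑ b, V⁻¹ j' b * (V.mulVec c') b := congrFun h2 j'
  rw [h3]
  calc _ ≤ ∑ b, |V⁻¹ j' b| * m := by
        refine (abs_sum_le_sum_abs _ _).trans (sum_le_sum fun b _ => ?_)
        rw [abs_mul]; exact mul_le_mul_of_nonneg_left (h1 b) (abs_nonneg _)
    _ ≤ _ := by
        rw [← sum_mul]
        refine mul_le_mul_of_nonneg_right ?_ hm
        have := single_le_sum (f := fun a => ∑ b, |V⁻¹ a b|)
          (fun a _ => sum_nonneg fun b _ => abs_nonneg _) (mem_univ j')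
        linarith

/-- `p` is bounded by `m` on the closed ball -/
def PB (p : E n → ℝ) (x : E n) (r m : ℝ) : Prop := ∀ y, ‖y - x‖ ≤ r → |p y| ≤ m

lemma PB.nonneg {p : E n → ℝ} {x : E n} {r m : ℝ} (h : PB p x r m) (hr : 0 ≤ r) : 0 ≤ m :=
  (abs_nonneg _).trans (h x (by simpa using hr))

lemma PB.mono {p : E n → ℝ} {x : E n} {r m r' m' : ℝ} (h : PB p x r m) (hr : r' ≤ r)
    (hm : m ≤ m') : PB p x r' m' := fun y hy => (h y (hy.trans hr)).trans hm

lemma hom_bound (n e : ℕ) : ∃ K : ℝ, 0 < K ∧ ∀ u ∈ Pd n e, ∀ (x : E n) (r m : ℝ), 0 < r →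
    PB u x r m → ∃ H : ℕ → E n → ℝ, (∀ j, H j ∈ Pd n j) ∧
      (∀ y, u y = ∑ j ∈ range (e + 1), H j y) ∧
      ∀ j y, |H j y| ≤ K * m * (‖y - x‖ / r) ^ j := by
  obtain ⟨K, hK, hc⟩ := coef_bound e
  refine ⟨K, hK, fun u hu x r m hr hb => ?_⟩
  obtain ⟨H, h1, h2, h3, h4⟩ := hom_dec x hu
  have hm := hb.nonneg hr.le
  refine ⟨H, h1, h4, fun j y => ?_⟩
  by_cases hj : e < j
  · rw [h3 j hj]; simp only [Pi.zero_apply, abs_zero]; positivity
  obtain ⟨v, hv, hy⟩ : ∃ v : E n, ‖v‖ ≤ r ∧ y = x + (‖y - x‖ / r) • v := by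
    by_cases h0 : ‖y - x‖ = 0
    · refine ⟨0, by simpa using hr.le, ?_⟩
      rw [norm_eq_zero, sub_eq_zero] at h0; simp [h0]
    · refine ⟨(r / ‖y - x‖) • (y - x), ?_, ?_⟩
      · rw [norm_smul, Real.norm_eq_abs, abs_of_nonneg (by positivity), div_mul_cancel₀ _ h0]
      · rw [smul_smul, show ‖y - x‖ / r * (r / ‖y - x‖) = 1 by field_simp]; simp
  have h5 := hc (fun j => H j (x + v)) m (fun τ h0 h1' => by
    have := hb (x + τ • v) (by
      rw [add_sub_cancel_left, norm_smul, Real.norm_eq_abs, abs_of_nonneg h0]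
      nlinarith [norm_nonneg v])
    rw [h4] at this
    simpa only [h2] using this) j (by omega)
  have h6 : H j y = (‖y - x‖ / r) ^ j * H j (x + v) := by
    conv_lhs => rw [hy]
    exact h2 j _ v
  rw [h6, abs_mul, abs_of_nonneg (by positivity), mul_comm]
  exact mul_le_mul_of_nonneg_right h5 (by positivity)

lemma exists_Kg (n e : ℕ) : ∃ K : ℝ, 1 ≤ K ∧
    (∀ u ∈ Pd n e, ∀ (x : E n) (r m : ℝ), 0 < r → PB u x r m →
      ∀ y, |u y| ≤ K * m * (max 1 (‖y - x‖ / r)) ^ e) ∧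
    (∀ d : ℕ, ∀ u ∈ Pd n e, ∀ (x : E n) (r m : ℝ), 0 < r → PB u x r m →
      ∃ p ∈ Pd n d, ∀ y, ‖y - x‖ ≤ r → |p y| ≤ K * m ∧
        |u y - p y| ≤ K * m * (‖y - x‖ / r) ^ (d + 1)) := by
  obtain ⟨K, hK, h⟩ := hom_bound n e
  have he : (1 : ℝ) ≤ e + 1 := by simp
  refine ⟨(e + 1) * (K + 1), by nlinarith, fun u hu x r m hr hb y => ?_,
    fun d u hu x r m hr hb => ?_⟩
  · obtain ⟨H, h1, h2, h3⟩ := h u hu x r m hr hb
    have hm := hb.nonneg hr.le
    rw [h2]
    refine (abs_sum_le_sum_abs _ _).trans ((sum_le_card_nsmul _ _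
      ((K + 1) * m * (max 1 (‖y - x‖ / r)) ^ e) fun j hj => ?_).trans (by simp; ring_nf; rfl))
    refine (h3 j y).trans ?_
    have : (‖y - x‖ / r) ^ j ≤ (max 1 (‖y - x‖ / r)) ^ e :=
      (pow_le_pow_left₀ (by positivity) (le_max_right _ _) j).trans
        (pow_le_pow_right₀ (le_max_left _ _) (by simpa [Nat.lt_succ_iff] using hj))
    gcongr; linarith
  · obtain ⟨H, h1, h2, h3⟩ := h u hu x r m hr hb
    have hm := hb.nonneg hr.le
    refine ⟨fun y => ∑ j ∈ range (e + 1), if j ≤ d then H j y else 0, ?_, fun y hy => ⟨?_, ?_⟩⟩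
    · refine Pd_sum _ fun j _ => ?_
      by_cases hj : j ≤ d
      · simp only [hj, if_true]; exact Pd_mono hj (h1 j)
      · simp only [hj, if_false]; exact const_mem d 0
    · refine (abs_sum_le_sum_abs _ _).trans ((sum_le_card_nsmul _ _
        ((K + 1) * m) fun j hj => ?_).trans (by simp; ring_nf; rfl))
      split_ifs
      · refine (h3 j y).trans ?_
        have : (‖y - x‖ / r) ^ j ≤ 1 := pow_le_one₀ (by positivity) ((div_le_one hr).2 hy)
        nlinarith [mul_nonneg hK.le hm]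
      · simp only [abs_zero]; positivity
    · rw [h2, ← sum_sub_distrib]
      refine (abs_sum_le_sum_abs _ _).trans ((sum_le_card_nsmul _ _
        ((K + 1) * m * (‖y - x‖ / r) ^ (d + 1)) fun j hj => ?_).trans (by simp; ring_nf; rfl))
      split_ifs with hjd
      · simp only [sub_self, abs_zero]; positivity
      · rw [sub_zero]
        refine (h3 j y).trans ?_
        have : (‖y - x‖ / r) ^ j ≤ (‖y - x‖ / r) ^ (d + 1) :=
          pow_le_pow_of_le_one (by positivity) ((div_le_one hr).2 hy) (by omega)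
        gcongr; linarith

/-- the growth and truncation constant -/
noncomputable def Kg (n e : ℕ) : ℝ := (exists_Kg n e).choose

lemma one_le_Kg (n e : ℕ) : 1 ≤ Kg n e := (exists_Kg n e).choose_spec.1

lemma Kg_pos (n e : ℕ) : 0 < Kg n e := lt_of_lt_of_le one_pos (one_le_Kg n e)

lemma PB.grow {e : ℕ} {u : E n → ℝ} {x : E n} {r m : ℝ} (h : PB u x r m) (hu : u ∈ Pd n e)
    (hr : 0 < r) (y : E n) : |u y| ≤ Kg n e * m * (max 1 (‖y - x‖ / r)) ^ e :=
  (exists_Kg n e).choose_spec.2.1 u hu x r m hr h y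

lemma PB.trunc {e : ℕ} {u : E n → ℝ} {x : E n} {r m : ℝ} (h : PB u x r m) (hu : u ∈ Pd n e)
    (hr : 0 < r) (d : ℕ) : ∃ p ∈ Pd n d, ∀ y, ‖y - x‖ ≤ r → |p y| ≤ Kg n e * m ∧
        |u y - p y| ≤ Kg n e * m * (‖y - x‖ / r) ^ (d + 1) :=
  (exists_Kg n e).choose_spec.2.2 d u hu x r m hr h

lemma Pd_zero_const {p : E n → ℝ} (hp : p ∈ Pd n 0) (x y : E n) : p y = p x := by
  rw [Pd, pow_zero, Submodule.mem_one] at hp
  obtain ⟨c, rfl⟩ := hp; rfl

lemma PB.lip {e : ℕ} {u : E n → ℝ} {x : E n} {r m : ℝ} (h : PB u x r m) (hu : u ∈ Pd n e)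
    (hr : 0 < r) (y : E n) (hy : ‖y - x‖ ≤ r) : |u y - u x| ≤ Kg n e * m * (‖y - x‖ / r) := by
  obtain ⟨p, hp, h1⟩ := h.trunc hu hr 0
  have h2 := (h1 x (by simpa using hr.le)).2
  have h3 := (h1 y hy).2
  simp only [sub_self, norm_zero, zero_div, zero_add, pow_one, mul_zero, abs_nonpos_iff] at h2 h3
  rw [Pd_zero_const hp x y] at h3
  rwa [show u x = p x by linarith]

/-- growth in the scale-invariant form -/
lemma PB.grow_s {d : ℕ} {s : ℝ} {u : E n → ℝ} {x : E n} {r R c : ℝ} (h : PB u x r (c * r ^ s))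
    (hu : u ∈ Pd n d) (hr : 0 < r) (hR : r ≤ R) :
    PB u x R (Kg n d * c * (r / R) ^ (s - d) * R ^ s) := by
  intro y hy
  refine (h.grow hu hr y).trans ?_
  have hm := h.nonneg hr.le
  have hR0 : 0 < R := hr.trans_le hR
  have h1 : max 1 (‖y - x‖ / r) ≤ R / r :=
    max_le ((one_le_div hr).2 hR) (div_le_div_of_nonneg_right hy hr.le)
  have h2 : (r / R) ^ (s - d) * R ^ s = r ^ s * (R / r) ^ d := by
    rw [Real.div_rpow hr.le hR0.le, Real.rpow_sub hr, Real.rpow_sub hR0, Real.rpow_natCast,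
      Real.rpow_natCast, div_pow]
    have := Real.rpow_pos_of_pos hR0 s
    field_simp
  have := Kg_pos n d
  calc _ ≤ Kg n d * (c * r ^ s) * (R / r) ^ d := by gcongr
    _ = _ := by rw [mul_assoc (Kg n d * c), h2]; ring

lemma Pd_eq_zero {d : ℕ} {s : ℝ} (hs : (d : ℝ) < s) {p : E n → ℝ} (hp : p ∈ Pd n d) (x : E n)
    {r C : ℝ} (hr : 0 < r) (h : ∀ y, ‖y - x‖ ≤ r → |p y| ≤ C * ‖y - x‖ ^ s) (y : E n) :
    p y = 0 := by
  have hs0 : 0 < s := lt_of_le_of_lt (Nat.cast_nonneg d) hs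
  set R := max r ‖y - x‖ with hR
  have hR0 : 0 < R := hr.trans_le (le_max_left _ _)
  have h1 : ∀ ε : ℝ, 0 < ε → ε ≤ r → |p y| ≤ Kg n d * |C| * (ε / R) ^ (s - d) * R ^ s := by
    intro ε hε hεr
    have hb : PB p x ε (|C| * ε ^ s) := fun y' hy' =>
      (h y' (hy'.trans hεr)).trans (by gcongr; exact le_abs_self C)
    exact hb.grow_s hp hε (hεr.trans (le_max_left _ _)) y (le_max_right _ _)
  have h2 : Filter.Tendsto (fun ε : ℝ => Kg n d * |C| * (ε / R) ^ (s - d) * R ^ s)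
      (nhdsWithin 0 (Set.Ioi 0)) (nhds (Kg n d * |C| * (0 / R) ^ (s - d) * R ^ s)) := by
    refine Filter.Tendsto.mono_left (Continuous.tendsto ?_ 0) nhdsWithin_le_nhds
    have : Continuous fun ε : ℝ => (ε / R) ^ (s - d) :=
      (Real.continuous_rpow_const (by linarith)).comp (by fun_prop)
    fun_prop
  rw [zero_div, Real.zero_rpow (by linarith), mul_zero, zero_mul] at h2
  have h3 : |p y| ≤ 0 := ge_of_tendsto h2 (by
    filter_upwards [Ioo_mem_nhdsGT hr] with ε hε using h1 ε hε.1 hε.2.le)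
  exact abs_nonpos_iff.1 h3

lemma Pd_le_span (n d : ℕ) : Pd n d ≤ Submodule.span ℝ
    (Set.range fun m : Sym (Option (Fin n)) d => ((m : Multiset _).map (gen n)).prod) := by
  induction d with
  | zero =>
    rw [Pd, pow_zero, Submodule.one_le]
    exact Submodule.subset_span ⟨Sym.nil, by simp⟩
  | succ d ih =>
    rw [Pd, pow_succ']
    refine (mul_le_mul_right ih _).trans ?_
    rw [Submodule.span_mul_span]
    refine Submodule.span_mono ?_
    rintro _ ⟨_, ⟨o, rfl⟩, _, ⟨m, rfl⟩, rfl⟩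
    exact ⟨Sym.cons o m, by simp only [Sym.coe_cons, Multiset.map_cons, Multiset.prod_cons]⟩

instance Pd_fin (n d : ℕ) : FiniteDimensional ℝ (Pd n d) := by
  classical
  have := FiniteDimensional.span_of_finite ℝ (Set.finite_range
    fun m : Sym (Option (Fin n)) d => ((m : Multiset _).map (gen n)).prod)
  exact Submodule.finiteDimensional_of_le (Pd_le_span n d)

lemma finrank_Pd (n d : ℕ) : Module.finrank ℝ (Pd n d) ≤ (n + d).choose d := by
  classical
  have := FiniteDimensional.span_of_finite ℝ (Set.finite_range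
    fun m : Sym (Option (Fin n)) d => ((m : Multiset _).map (gen n)).prod)
  refine (Submodule.finrank_mono (Pd_le_span n d)).trans ((finrank_range_le_card _).trans ?_)
  rw [Sym.card_sym_eq_choose]
  simp [add_right_comm]

lemma Pd_tsum {d : ℕ} {q : ℕ → E n → ℝ} (hq : ∀ l, q l ∈ Pd n d)
    (hs : ∀ y, Summable fun l => q l y) : (fun y => ∑' l, q l y) ∈ Pd n d := by
  have hc : IsClosed (Pd n d : Set (E n → ℝ)) := Submodule.closed_of_finiteDimensional _
  have h1 : HasSum q fun y => ∑' l, q l y := Pi.hasSum.2 fun y => (hs y).hasSum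
  exact hc.mem_of_tendsto h1 (Filter.Eventually.of_forall fun t => Submodule.sum_mem _ fun l _ => hq l)

lemma Pd_contDiff {d : ℕ} {p : E n → ℝ} (hp : p ∈ Pd n d) (k : ℕ∞) : ContDiff ℝ k p := by
  unfold Pd at hp
  induction hp using Submodule.pow_induction_on_left' with
  | algebraMap r => exact contDiff_const
  | add a b i ha hb iha ihb => exact iha.add ihb
  | mem_mul m hm i a ha ih =>
    refine ContDiff.mul ?_ ih
    clear ih ha
    induction hm using Submodule.span_induction with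
    | mem f hf =>
      obtain ⟨o, rfl⟩ := hf
      cases o with
      | none => exact contDiff_const
      | some i => exact (EuclideanSpace.proj i : E n →L[ℝ] ℝ).contDiff
    | zero => exact contDiff_const
    | add f g _ _ hf hg => exact hf.add hg
    | smul c f _ hf => exact hf.const_smul c

lemma Pd_diff {d : ℕ} {p : E n → ℝ} (hp : p ∈ Pd n d) : Differentiable ℝ p :=
  (Pd_contDiff hp 1).differentiable (by simp)

lemma aff_fderiv {m : E n → ℝ} (hm : m ∈ Submodule.span ℝ (Set.range (gen n))) (e : E n) :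
    ∃ c : ℝ, ∀ y, fderiv ℝ m y e = c := by
  have hd : Differentiable ℝ m := Pd_diff (d := 1) (by rw [Pd, pow_one]; exact hm)
  refine ⟨m (0 + e) - m 0, fun y => ?_⟩
  have h1 : HasDerivAt (fun τ : ℝ => m (y + τ • e)) (fderiv ℝ m y e) 0 := by
    have := (hd y).hasFDerivAt.hasLineDerivAt e
    exact this
  have h2 : HasDerivAt (fun τ : ℝ => m (y + τ • e)) (m (y + e) - m y) 0 := by
    have : (fun τ : ℝ => m (y + τ • e)) = fun τ => m y + τ * (m (y + e) - m y) := by
      ext τ; rw [← aff_dec hm y τ e]; ring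
    rw [this]
    simpa using ((hasDerivAt_id (0 : ℝ)).mul_const (m (y + e) - m y)).const_add (m y)
  rw [h1.unique h2]
  have a1 := aff_dec hm 0 (1 / 2) (y + e)
  have a2 := aff_dec hm y (1 / 2) (e - y)
  have e1 : (0 : E n) + (1 / 2 : ℝ) • (y + e) = y + (1 / 2 : ℝ) • (e - y) := by module
  have e2 : y + (e - y) = 0 + e := by abel
  rw [e1, zero_add] at a1
  rw [e2] at a2
  linarith

lemma Pd_fderiv {d : ℕ} {p : E n → ℝ} (hp : p ∈ Pd n d) (e : E n) :
    (fun y => fderiv ℝ p y e) ∈ Pd n (d - 1) ∧ (d = 0 → ∀ y, fderiv ℝ p y e = 0) := by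
  unfold Pd at hp
  induction hp using Submodule.pow_induction_on_left' with
  | algebraMap r =>
    have : ∀ y : E n, fderiv ℝ (algebraMap ℝ (E n → ℝ) r) y e = 0 := by
      intro y
      have : algebraMap ℝ (E n → ℝ) r = fun _ => r := rfl
      rw [this]; simp
    exact ⟨by simp only [this]; exact const_mem _ 0, fun _ => this⟩
  | add a b i ha hb iha ihb =>
    have h : ∀ y, fderiv ℝ (a + b) y e = fderiv ℝ a y e + fderiv ℝ b y e := by
      intro y; rw [fderiv_add (Pd_diff ha y) (Pd_diff hb y)]; rfl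
    exact ⟨by simp only [h]; exact Pd_add iha.1 ihb.1,
      fun hi y => by rw [h, iha.2 hi, ihb.2 hi, add_zero]⟩
  | mem_mul m hm i a ha ih =>
    have hm1 : m ∈ Pd n 1 := by rw [Pd, pow_one]; exact hm
    obtain ⟨c, hc⟩ := aff_fderiv hm e
    have h : ∀ y, fderiv ℝ (m * a) y e = m y * fderiv ℝ a y e + c * a y := by
      intro y
      rw [fderiv_mul (Pd_diff hm1 y) (Pd_diff ha y)]
      simp [hc, mul_comm]
    refine ⟨?_, fun hi => absurd hi (Nat.succ_ne_zero i)⟩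
    simp only [h, Nat.succ_sub_one]
    refine Pd_add ?_ (Pd_smul c ha)
    rcases i with _ | i
    · simp only [ih.2 rfl, mul_zero]; exact const_mem _ 0
    · rw [add_comm i 1]; exact Pd_mul hm1 ih.1

end Pool.Agent.Lib.MP_ca9be0_an.PyF

namespace Pool.Agent.Lib.MP_ca9be0_an.PyF

open Finset

variable {n d : ℕ}

def Sp (n d : ℕ) : Bool → Submodule ℝ (E n → ℝ)
  | true => Pd n d
  | false => ⊥

/-- `a` has a jet of order `d` at `x` of size `m` at scale `r` (a vanishing jet if `b = false`) -/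
def J (d : ℕ) (b : Bool) (a : E n → ℝ) (x : E n) (r m : ℝ) : Prop :=
  ∃ p ∈ Sp n d b, ∀ y, ‖y - x‖ ≤ r → |p y| ≤ m ∧ |a y - p y| ≤ m * (‖y - x‖ / r) ^ (d + 1)

section J
variable {b : Bool} {a a' : E n → ℝ} {x : E n} {r m r' m' : ℝ}

lemma Sp_le (b : Bool) : Sp n d b ≤ Pd n d := by
  cases b
  · exact bot_le
  · exact le_rfl

lemma ratio_le_one {t r : ℝ} (ht : 0 ≤ t) (h : t ≤ r) (k : ℕ) : (t / r) ^ k ≤ 1 :=
  pow_le_one₀ (div_nonneg ht (ht.trans h)) (div_le_one_of_le₀ h (ht.trans h))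

lemma J.nonneg (h : J d b a x r m) (hr : 0 ≤ r) : 0 ≤ m := by
  obtain ⟨p, -, h⟩ := h
  exact (abs_nonneg _).trans (h x (by simpa using hr)).1

lemma J.mono (h : J d b a x r m) (h0 : 0 ≤ r') (hr : r' ≤ r) (hm : m ≤ m') : J d b a x r' m' := by
  have hm0 := h.nonneg (h0.trans hr)
  obtain ⟨p, hp, h⟩ := h
  refine ⟨p, hp, fun y hy => ⟨(h y (hy.trans hr)).1.trans hm, (h y (hy.trans hr)).2.trans ?_⟩⟩
  have : ‖y - x‖ / r ≤ ‖y - x‖ / r' := by
    rcases h0.eq_or_lt with h1 | h1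
    · have : ‖y - x‖ = 0 := le_antisymm (h1 ▸ hy) (norm_nonneg _)
      simp [this]
    · exact div_le_div_of_nonneg_left (norm_nonneg _) h1 hr
  have h2 : 0 ≤ ‖y - x‖ / r := div_nonneg (norm_nonneg _) (h0.trans hr)
  gcongr
  exact hm0.trans hm

lemma J.abs_le (h : J d b a x r m) {y : E n} (hy : ‖y - x‖ ≤ r) : |a y| ≤ 2 * m := by
  have hm0 := h.nonneg ((norm_nonneg _).trans hy)
  obtain ⟨p, -, h⟩ := h
  have h1 := (h y hy).1
  have h2 := (h y hy).2.trans (mul_le_of_le_one_right hm0 (ratio_le_one (norm_nonneg _) hy _))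
  have := abs_add_le (a y - p y) (p y)
  rw [sub_add_cancel] at this
  linarith

lemma J.congr (h : J d b a x r m) (he : ∀ y, ‖y - x‖ ≤ r → a y = a' y) : J d b a' x r m := by
  obtain ⟨p, hp, h⟩ := h
  exact ⟨p, hp, fun y hy => he y hy ▸ h y hy⟩

lemma J.add (h : J d b a x r m) (h' : J d b a' x r m') :
    J d b (fun y => a y + a' y) x r (m + m') := by
  obtain ⟨p, hp, h⟩ := h
  obtain ⟨q, hq, h'⟩ := h'
  refine ⟨p + q, add_mem hp hq, fun y hy => ⟨?_, ?_⟩⟩
  · exact (abs_add_le _ _).trans (add_le_add (h y hy).1 (h' y hy).1)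
  · rw [Pi.add_apply, add_sub_add_comm, add_mul]
    exact (abs_add_le _ _).trans (add_le_add (h y hy).2 (h' y hy).2)

lemma J.neg (h : J d b a x r m) : J d b (fun y => - a y) x r m := by
  obtain ⟨p, hp, h⟩ := h
  refine ⟨-p, neg_mem hp, fun y hy => ⟨by simpa using (h y hy).1, ?_⟩⟩
  rw [Pi.neg_apply, neg_sub_neg, abs_sub_comm]; exact (h y hy).2

lemma J.zero (hm : 0 ≤ m) : J d b (fun _ => (0 : ℝ)) x r m :=
  ⟨0, zero_mem _, fun y hy => ⟨by simpa using hm, by
    have : 0 ≤ ‖y - x‖ / r := div_nonneg (norm_nonneg _) ((norm_nonneg _).trans hy)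
    simp only [Pi.zero_apply, sub_zero, abs_zero]; positivity⟩⟩

lemma J.sum {α : Type*} (t : Finset α) {u : α → E n → ℝ} {w : α → ℝ}
    (h : ∀ i ∈ t, J d b (u i) x r (w i)) : J d b (fun y => ∑ i ∈ t, u i y) x r (∑ i ∈ t, w i) := by
  classical
  induction t using Finset.induction_on with
  | empty => simpa using J.zero le_rfl
  | insert i t hi ih =>
    simp only [sum_insert hi]
    exact (h i (mem_insert_self _ _)).add (ih fun j hj => h j (mem_insert_of_mem hj))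

lemma J.const {c : ℝ} (hc : |c| ≤ m) : J d true (fun _ => c) x r m :=
  ⟨fun _ => c, const_mem d c, fun y hy => ⟨hc, by
    have : 0 ≤ ‖y - x‖ / r := div_nonneg (norm_nonneg _) ((norm_nonneg _).trans hy)
    have := (abs_nonneg c).trans hc
    simp only [sub_self, abs_zero]; positivity⟩⟩

lemma J.weaken (h : J d false a x r m) : J d b a x r m := by
  obtain ⟨p, hp, h⟩ := h
  exact ⟨p, (show Sp n d false ≤ Sp n d b from bot_le) hp, h⟩

lemma J.false_iff (hr : 0 ≤ r) : J d false a x r m ↔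
    0 ≤ m ∧ ∀ y, ‖y - x‖ ≤ r → |a y| ≤ m * (‖y - x‖ / r) ^ (d + 1) := by
  constructor
  · intro h
    refine ⟨h.nonneg hr, fun y hy => ?_⟩
    obtain ⟨p, hp, h⟩ := h
    have : p = 0 := (Submodule.mem_bot ℝ).1 hp
    simpa [this] using (h y hy).2
  · rintro ⟨hm, h⟩
    exact ⟨0, zero_mem _, fun y hy => ⟨by simpa using hm, by simpa using h y hy⟩⟩

lemma eq_of_norm_le_zero {y x : E n} (h : ‖y - x‖ ≤ 0) : y = x := by
  rwa [norm_le_zero_iff, sub_eq_zero] at h

lemma J.poly {e : ℕ} (ha : a ∈ Pd n e) (h : PB a x r m) (hr : 0 ≤ r) :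
    J d true a x r (Kg n e * m) := by
  rcases hr.eq_or_lt with rfl | h1
  · refine (J.const (c := a x) ((h x (by simp)).trans ?_)).congr fun y hy => ?_
    · exact le_mul_of_one_le_left (h.nonneg le_rfl) (one_le_Kg n e)
    · rw [eq_of_norm_le_zero hy]
  · exact h.trunc ha h1 d

lemma J.mul (h : J d true a x r m) (h' : J d b a' x r m') (hr : 0 ≤ r) :
    J d b (fun y => a y * a' y) x r ((Kg n (d + d) + 3) * (m * m')) := by
  have hm := h.nonneg hr
  have hm' := h'.nonneg hr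
  have hK := Kg_pos n (d + d)
  cases b with
  | false =>
    rw [J.false_iff hr] at h' ⊢
    refine ⟨by positivity, fun y hy => ?_⟩
    have h1 := h.abs_le hy
    have h2 := h'.2 y hy
    have h3 : 0 ≤ (‖y - x‖ / r) ^ (d + 1) := by positivity
    rw [abs_mul]
    calc _ ≤ (2 * m) * (m' * (‖y - x‖ / r) ^ (d + 1)) := by gcongr
      _ ≤ _ := by nlinarith [mul_nonneg (mul_nonneg hm hm') h3]
  | true =>
    have hb := fun y hy => h'.abs_le (y := y) hy
    obtain ⟨p, hp, h⟩ := h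
    obtain ⟨q, hq, h'⟩ := h'
    have h1 : J d true (fun y => p y * q y) x r (Kg n (d + d) * (m * m')) :=
      J.poly (Pd_mul hp hq) (fun y hy => by
        rw [abs_mul]; exact mul_le_mul (h y hy).1 (h' y hy).1 (abs_nonneg _) hm) hr
    have h2 : J d false (fun y => a y * a' y - p y * q y) x r (3 * (m * m')) := by
      rw [J.false_iff hr]
      refine ⟨by positivity, fun y hy => ?_⟩
      rw [show a y * a' y - p y * q y = (a y - p y) * a' y + p y * (a' y - q y) by ring]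
      refine (abs_add_le _ _).trans ?_
      rw [abs_mul, abs_mul]
      have h3 : 0 ≤ (‖y - x‖ / r) ^ (d + 1) := by positivity
      calc _ ≤ (m * (‖y - x‖ / r) ^ (d + 1)) * (2 * m') + m * (m' * (‖y - x‖ / r) ^ (d + 1)) := by
            gcongr
            exacts [(h y hy).2, hb y hy, (h y hy).1, (h' y hy).2]
        _ = _ := by ring
    rw [add_mul]
    exact (h1.add h2.weaken).congr fun y _ => by ring

lemma J.jet (h : J d true a x r m) (hr : 0 ≤ r) : ∃ p ∈ Pd n d,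
    J d false (fun y => a y - p y) x r m ∧ ∀ y, |p y| ≤ Kg n d * m * (max 1 (‖y - x‖ / r)) ^ d := by
  have hm := h.nonneg hr
  obtain ⟨p, hp, h⟩ := h
  rcases hr.eq_or_lt with rfl | h1
  · refine ⟨fun _ => p x, const_mem d _, (J.false_iff le_rfl).2 ⟨hm, fun y hy => ?_⟩, fun y => ?_⟩
    · rw [eq_of_norm_le_zero hy]; exact (h x (by simp)).2
    · simp only [div_zero, max_eq_left zero_le_one, one_pow, mul_one]
      exact (h x (by simp)).1.trans (le_mul_of_one_le_left hm (one_le_Kg n d))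
  · exact ⟨p, hp, (J.false_iff hr).2 ⟨hm, fun y hy => (h y hy).2⟩,
      PB.grow (fun y hy => (h y hy).1) hp h1⟩

lemma J.lip (h : J d true a x r m) {y : E n} (hy : ‖y - x‖ ≤ r) :
    |a y - a x| ≤ (Kg n d + 1) * m * (‖y - x‖ / r) := by
  have hr := (norm_nonneg _).trans hy
  have hm := h.nonneg hr
  rcases hr.eq_or_lt with rfl | h1
  · simp [eq_of_norm_le_zero hy]
  obtain ⟨p, hp, h⟩ := h
  have h2 := PB.lip (fun y hy => (h y hy).1) hp h1 y hy
  have h3 := (h x (by simpa using hr)).2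
  simp only [sub_self, norm_zero, zero_div, ne_eq, Nat.add_eq_zero_iff, one_ne_zero, and_false,
    not_false_eq_true, zero_pow, mul_zero, abs_nonpos_iff] at h3
  have h4 : |a y - p y| ≤ m * (‖y - x‖ / r) := by
    refine (h y hy).2.trans (mul_le_mul_of_nonneg_left ?_ hm)
    rw [pow_succ]
    exact mul_le_of_le_one_left (by positivity) (ratio_le_one (norm_nonneg _) hy _)
  rw [show a y - a x = (a y - p y) + (p y - p x) by linarith]
  refine (abs_add_le _ _).trans ?_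
  linarith

lemma ratio_pow_le {s t r : ℝ} (hs0 : 0 < s) (hs : s ≤ d + 1) (ht : 0 ≤ t) (h : t ≤ r) :
    r ^ s * (t / r) ^ (d + 1) ≤ t ^ s := by
  rcases (ht.trans h).eq_or_lt with rfl | hr
  · simp [Real.zero_rpow hs0.ne']; positivity
  have h1 : (t / r) ^ (d + 1) ≤ (t / r) ^ s := by
    rw [← Real.rpow_natCast]
    exact Real.rpow_le_rpow_of_exponent_ge' (by positivity) ((div_le_one hr).2 h) hs0.le
      (by push_cast; exact hs)
  calc _ ≤ r ^ s * (t / r) ^ s := by gcongr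
    _ = _ := by
      rw [Real.div_rpow ht hr.le]
      have := Real.rpow_pos_of_pos hr s
      field_simp

lemma J.to_false {s C : ℝ} (hs : (d : ℝ) < s) (hs' : s ≤ d + 1) (h : J d true a x r m)
    (hr : 0 ≤ r) (hr' : 0 < r → 0 < r') (h0 : 0 ≤ r')
    (ha : ∀ y, ‖y - x‖ ≤ r' → |a y| ≤ C * ‖y - x‖ ^ s) : J d false a x r m := by
  have hs0 : 0 < s := lt_of_le_of_lt (Nat.cast_nonneg d) hs
  have hm := h.nonneg hr
  rcases hr.eq_or_lt with rfl | h1
  · refine (J.zero hm).congr fun y hy => ?_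
    have := ha x (by simpa using h0)
    simp [Real.zero_rpow hs0.ne'] at this
    rw [eq_of_norm_le_zero hy, this]
  obtain ⟨p, hp, h⟩ := h
  have h2 : ∀ y, p y = 0 := by
    refine Pd_eq_zero hs hp x (lt_min h1 (hr' h1)) (C := C + m / r ^ s) fun y hy => ?_
    have h3 := ha y (hy.trans (min_le_right _ _))
    have h4 := (h y (hy.trans (min_le_left _ _))).2
    have h5 := ratio_pow_le hs0 hs' (norm_nonneg (y - x)) (hy.trans (min_le_left _ _))
    have h6 := Real.rpow_pos_of_pos h1 s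
    have h7 : m * (‖y - x‖ / r) ^ (d + 1) ≤ m / r ^ s * ‖y - x‖ ^ s := by
      rw [div_mul_eq_mul_div, le_div_iff₀ h6]
      nlinarith [mul_le_mul_of_nonneg_left h5 hm]
    have h8 := abs_sub (a y) (a y - p y)
    rw [sub_sub_cancel] at h8
    linarith
  exact (J.false_iff hr).2 ⟨hm, fun y hy => by simpa [h2] using (h y hy).2⟩

end J

/-- a uniformly tame family: jets at `x i` at scale comparable to `r i` of size `O (w i)` -/
def TN (d : ℕ) (b : Bool) {ι : Type} (x : ι → E n) (r : ι → ℝ) (u : ι → E n → ℝ) (w : ι → ℝ) :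
    Prop :=
  ∃ C η : ℝ, 0 < C ∧ 0 < η ∧ ∀ i, 0 ≤ r i ∧ J d b (u i) (x i) (η * r i) (C * w i)

section TN
variable {b : Bool} {ι : Type} {x : ι → E n} {r r' w w' : ι → ℝ} {u v : ι → E n → ℝ}

lemma TN.r_nonneg (h : TN d b x r u w) (i : ι) : 0 ≤ r i := by
  obtain ⟨C, η, -, -, h⟩ := h; exact (h i).1

lemma TN.w_nonneg (h : TN d b x r u w) (i : ι) : 0 ≤ w i := by
  obtain ⟨C, η, hC, hη, h⟩ := h
  exact nonneg_of_mul_nonneg_right ((h i).2.nonneg (mul_nonneg hη.le (h i).1)) hC |> fun h => h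

lemma TN.out (h : TN d b x r u w) {η₀ : ℝ} (h0 : 0 < η₀) : ∃ C η : ℝ, 0 < C ∧ 0 < η ∧ η ≤ η₀ ∧
    ∀ i, J d b (u i) (x i) (η * r i) (C * w i) := by
  obtain ⟨C, η, hC, hη, h⟩ := h
  have := lt_min hη h0
  exact ⟨C, min η η₀, hC, this, min_le_right _ _, fun i => (h i).2.mono
    (mul_nonneg this.le (h i).1) (mul_le_mul_of_nonneg_right (min_le_left _ _) (h i).1) le_rfl⟩

lemma TN.comp (h : TN d b x r u w) {κ : Type} (f : κ → ι) :
    TN d b (fun k => x (f k)) (fun k => r (f k)) (fun k => u (f k)) (fun k => w (f k)) := by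
  obtain ⟨C, η, hC, hη, h⟩ := h
  exact ⟨C, η, hC, hη, fun k => h (f k)⟩

lemma TN.mono (h : TN d b x r u w) (L : ℝ) (hL : 0 < L) (h0 : ∀ i, 0 ≤ r' i)
    (hr : ∀ i, r' i ≤ L * r i) (hw : ∀ i, w i ≤ L * w' i) : TN d b x r' u w' := by
  obtain ⟨C, η, hC, hη, h⟩ := h
  refine ⟨C * L, η / L, by positivity, by positivity, fun i => ⟨h0 i, (h i).2.mono
    (mul_nonneg (by positivity) (h0 i)) ?_ ?_⟩⟩
  · rw [div_mul_eq_mul_div, div_le_iff₀ hL]; nlinarith [hr i]
  · rw [mul_assoc]; exact mul_le_mul_of_nonneg_left (hw i) hC.le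

lemma TN.mono_w (h : TN d b x r u w) (L : ℝ) (hw : ∀ i, w i ≤ L * w' i) (h0 : ∀ i, 0 ≤ w' i) :
    TN d b x r u w' :=
  h.mono (max L 1) (by positivity) h.r_nonneg
    (fun i => le_mul_of_one_le_left (h.r_nonneg i) (le_max_right _ _))
    (fun i => (hw i).trans (mul_le_mul_of_nonneg_right (le_max_left _ _) (h0 i)))

lemma TN.mono_r (h : TN d b x r u w) (L : ℝ) (h0 : ∀ i, 0 ≤ r' i) (hr : ∀ i, r' i ≤ L * r i) :
    TN d b x r' u w :=
  h.mono (max L 1) (by positivity) h0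
    (fun i => (hr i).trans (mul_le_mul_of_nonneg_right (le_max_left _ _) (h.r_nonneg i)))
    (fun i => le_mul_of_one_le_left (h.w_nonneg i) (le_max_right _ _))

lemma TN.congr (h : TN d b x r u w) {η₀ : ℝ} (h0 : 0 < η₀)
    (he : ∀ i y, ‖y - x i‖ ≤ η₀ * r i → u i y = v i y) : TN d b x r v w := by
  obtain ⟨C, η, hC, hη, hle, h'⟩ := h.out h0
  exact ⟨C, η, hC, hη, fun i => ⟨h.r_nonneg i, (h' i).congr fun y hy =>
    he i y (hy.trans (mul_le_mul_of_nonneg_right hle (h.r_nonneg i)))⟩⟩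

lemma TN.congr' (h : TN d b x r u w) (he : ∀ i y, u i y = v i y) : TN d b x r v w :=
  h.congr one_pos fun i y _ => he i y

lemma TN.two {b' : Bool} (h : TN d b x r u w) (h' : TN d b' x r v w') : ∃ C η : ℝ, 0 < C ∧ 0 < η ∧
    ∀ i, J d b (u i) (x i) (η * r i) (C * w i) ∧ J d b' (v i) (x i) (η * r i) (C * w' i) := by
  obtain ⟨C', η', hC', hη', h2⟩ := id h'
  obtain ⟨C, η, hC, hη, hle, h1⟩ := h.out hη'
  refine ⟨max C C', η, by positivity, hη, fun i => ⟨(h1 i).mono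
    (mul_nonneg hη.le (h.r_nonneg i)) le_rfl ?_, (h2 i).2.mono
    (mul_nonneg hη.le (h.r_nonneg i)) (mul_le_mul_of_nonneg_right hle (h.r_nonneg i)) ?_⟩⟩
  · exact mul_le_mul_of_nonneg_right (le_max_left _ _) (h.w_nonneg i)
  · exact mul_le_mul_of_nonneg_right (le_max_right _ _) (h'.w_nonneg i)

lemma TN.add (h : TN d b x r u w) (h' : TN d b x r v w) :
    TN d b x r (fun i y => u i y + v i y) w := by
  obtain ⟨C, η, hC, hη, h1⟩ := h.two h'
  exact ⟨2 * C, η, by positivity, hη, fun i => ⟨h.r_nonneg i, by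
    convert (h1 i).1.add (h1 i).2 using 1; ring⟩⟩

lemma TN.neg (h : TN d b x r u w) : TN d b x r (fun i y => - u i y) w := by
  obtain ⟨C, η, hC, hη, h⟩ := h
  exact ⟨C, η, hC, hη, fun i => ⟨(h i).1, (h i).2.neg⟩⟩

lemma TN.sub (h : TN d b x r u w) (h' : TN d b x r v w) :
    TN d b x r (fun i y => u i y - v i y) w :=
  (h.add h'.neg).congr' fun i y => by ring

lemma TN.zero (hr : ∀ i, 0 ≤ r i) (hw : ∀ i, 0 ≤ w i) : TN d b x r (fun _ _ => (0 : ℝ)) w :=
  ⟨1, 1, one_pos, one_pos, fun i => ⟨hr i, J.zero (by simpa using hw i)⟩⟩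

lemma TN.sum {α : Type*} (t : Finset α) {U : α → ι → E n → ℝ} (hr : ∀ i, 0 ≤ r i)
    (hw : ∀ i, 0 ≤ w i) (h : ∀ a ∈ t, TN d b x r (U a) w) :
    TN d b x r (fun i y => ∑ a ∈ t, U a i y) w := by
  classical
  induction t using Finset.induction_on with
  | empty => simpa using TN.zero hr hw
  | insert a t ha ih =>
    simp only [sum_insert ha]
    exact (h a (mem_insert_self _ _)).add (ih fun j hj => h j (mem_insert_of_mem hj))

lemma TN.const {c : ι → ℝ} (hr : ∀ i, 0 ≤ r i) (hc : ∀ i, |c i| ≤ w i) :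
    TN d true x r (fun i _ => c i) w :=
  ⟨1, 1, one_pos, one_pos, fun i => ⟨hr i, J.const (by simpa using hc i)⟩⟩

lemma TN.const1 {c : ι → ℝ} (hr : ∀ i, 0 ≤ r i) (L : ℝ) (hc : ∀ i, |c i| ≤ L) :
    TN d true x r (fun i _ => c i) (fun _ => 1) :=
  (TN.const (w := fun _ => L) hr hc).mono_w L (fun i => by simp) (fun _ => zero_le_one)

lemma TN.weaken (h : TN d false x r u w) : TN d b x r u w := by
  obtain ⟨C, η, hC, hη, h⟩ := h
  exact ⟨C, η, hC, hη, fun i => ⟨(h i).1, (h i).2.weaken⟩⟩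

lemma TN.mul (h : TN d true x r u w) (h' : TN d b x r v w') :
    TN d b x r (fun i y => u i y * v i y) (fun i => w i * w' i) := by
  obtain ⟨C, η, hC, hη, h1⟩ := h.two h'
  have := Kg_pos n (d + d)
  exact ⟨(Kg n (d + d) + 3) * (C * C), η, by positivity, hη, fun i => ⟨h.r_nonneg i, by
    convert (h1 i).1.mul (h1 i).2 (mul_nonneg hη.le (h.r_nonneg i)) using 1; ring⟩⟩

lemma TN.mul1 (h : TN d true x r u (fun _ => 1)) (h' : TN d b x r v w) :
    TN d b x r (fun i y => u i y * v i y) w := by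
  simpa using h.mul h'

lemma TN.mul1' (h' : TN d b x r v w) (h : TN d true x r u (fun _ => 1)) :
    TN d b x r (fun i y => v i y * u i y) w :=
  (h.mul1 h').congr' fun _ _ => mul_comm _ _

lemma TN.pow (h : TN d true x r u (fun _ => 1)) (k : ℕ) :
    TN d true x r (fun i y => u i y ^ k) (fun _ => 1) := by
  induction k with
  | zero => simpa using TN.const1 (c := fun _ => 1) h.r_nonneg 1 (fun _ => by simp)
  | succ k ih => simpa only [pow_succ] using ih.mul1 h

lemma TN.poly {e : ℕ} (hu : ∀ i, u i ∈ Pd n e) (hr : ∀ i, 0 ≤ r i) (hw : ∀ i, 0 ≤ w i) {η C : ℝ}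
    (hη : 0 < η) (h : ∀ i, PB (u i) (x i) (η * r i) (C * w i)) : TN d true x r u w := by
  have := Kg_pos n e
  refine ⟨Kg n e * (|C| + 1), η, by positivity, hη, fun i => ⟨hr i, ?_⟩⟩
  rw [mul_assoc]
  refine J.poly (hu i) ((h i).mono le_rfl (mul_le_mul_of_nonneg_right ?_ (hw i)))
    (mul_nonneg hη.le (hr i))
  linarith [le_abs_self C]

lemma TN.bound (h : TN d b x r u w) : ∃ C η : ℝ, 0 < C ∧ 0 < η ∧
    ∀ i, PB (u i) (x i) (η * r i) (C * w i) := by
  obtain ⟨C, η, hC, hη, h⟩ := h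
  exact ⟨2 * C, η, by positivity, hη, fun i y hy => by
    rw [mul_assoc]; exact (h i).2.abs_le hy⟩

lemma TN.fin {α : Type} [Finite α] {U : α → ι → E n → ℝ} (hr : ∀ i, 0 ≤ r i) (hw : ∀ i, 0 ≤ w i)
    (h : ∀ a, TN d b x r (U a) w) : TN d b (fun p : α × ι => x p.2) (fun p => r p.2)
      (fun p => U p.1 p.2) (fun p => w p.2) := by
  classical
  have := Fintype.ofFinite α
  have h1 : ∀ a, TN d b (fun p : α × ι => x p.2) (fun p => r p.2)
      (fun p y => (if p.1 = a then (1 : ℝ) else 0) * U a p.2 y) (fun p => w p.2) := fun a =>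
    (TN.const1 (fun p : α × ι => hr p.2) 1 fun p => by split_ifs <;> simp).mul1
      ((h a).comp Prod.snd)
  refine (TN.sum univ (fun p : α × ι => hr p.2) (fun p : α × ι => hw p.2) fun a _ => h1 a).congr' fun p y => ?_
  simp

lemma TN.zero_or (h : TN d b x r u w) {η₀ : ℝ} (h0 : 0 < η₀) (L : ℝ) (hw : ∀ i, 0 ≤ w' i)
    (hc : ∀ i, w i ≤ L * w' i ∨ ∀ y, ‖y - x i‖ ≤ η₀ * r i → u i y = 0) : TN d b x r u w' := by
  obtain ⟨C, η, hC, hη, hle, h1⟩ := h.out h0
  refine ⟨C * (|L| + 1), η, by positivity, hη, fun i => ⟨h.r_nonneg i, ?_⟩⟩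
  rcases hc i with h2 | h2
  · refine (h1 i).mono (mul_nonneg hη.le (h.r_nonneg i)) le_rfl ?_
    rw [mul_assoc]
    refine mul_le_mul_of_nonneg_left (h2.trans (mul_le_mul_of_nonneg_right ?_ (hw i))) hC.le
    linarith [le_abs_self L]
  · refine (J.zero (by have := hw i; positivity)).congr fun y hy => (h2 y ?_).symm
    exact hy.trans (mul_le_mul_of_nonneg_right hle (h.r_nonneg i))

lemma TN.to_false {s : ℝ} (hs : (d : ℝ) < s) (hs' : s ≤ d + 1) (h : TN d true x r u w) {η₀ : ℝ}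
    (h0 : 0 < η₀) (ha : ∀ i, ∃ C, ∀ y, ‖y - x i‖ ≤ η₀ * r i → |u i y| ≤ C * ‖y - x i‖ ^ s) :
    TN d false x r u w := by
  obtain ⟨C, η, hC, hη, h⟩ := h
  refine ⟨C, η, hC, hη, fun i => ⟨(h i).1, ?_⟩⟩
  obtain ⟨C', hC'⟩ := ha i
  exact (h i).2.to_false hs hs' (mul_nonneg hη.le (h i).1)
    (fun h1 => mul_pos h0 (pos_of_mul_pos_right h1 hη.le)) (mul_nonneg h0.le (h i).1) hC'

lemma TN.resc {s : ℝ} (hs0 : 0 < s) (hs : s ≤ d + 1) (h : TN d false x r u (fun i => r i ^ s))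
    (L : ℝ) (hL : 0 < L) (h0 : ∀ i, 0 ≤ r' i) (hr : ∀ i, r' i ≤ L * r i) :
    TN d false x r' u (fun i => r' i ^ s) := by
  have h1 : TN d false x (fun i => L * r i) u (fun i => (L * r i) ^ s) := by
    refine (h.mono_r L (fun i => mul_nonneg hL.le (h.r_nonneg i)) fun i => le_rfl).mono_w
      (1 / L ^ s) (fun i => ?_) fun i => Real.rpow_nonneg (mul_nonneg hL.le (h.r_nonneg i)) _
    rw [Real.mul_rpow hL.le (h.r_nonneg i)]
    have := Real.rpow_pos_of_pos hL s
    apply le_of_eq; field_simp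
  obtain ⟨C, η, hC, hη, h2⟩ := h1
  refine ⟨C, η, hC, hη, fun i => ⟨h0 i, ?_⟩⟩
  obtain ⟨h3, h4⟩ := h2 i
  rw [J.false_iff (mul_nonneg hη.le h3)] at h4
  rw [J.false_iff (mul_nonneg hη.le (h0 i))]
  refine ⟨mul_nonneg hC.le (Real.rpow_nonneg (h0 i) _), fun y hy => ?_⟩
  refine (h4.2 y (hy.trans (mul_le_mul_of_nonneg_left (hr i) hη.le))).trans ?_
  rcases (h0 i).eq_or_lt with h5 | h5
  · have : ‖y - x i‖ = 0 := le_antisymm (by simpa [← h5] using hy) (norm_nonneg _)
    simp [this]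
  have h6 := ratio_pow_le (d := d) hs0 hs h5.le (hr i)
  have h7 : 0 < L * r i := h5.trans_le (hr i)
  beta_reduce
  rw [mul_assoc C, mul_assoc C, show ‖y - x i‖ / (η * (L * r i)) =
    r' i / (L * r i) * (‖y - x i‖ / (η * r' i)) by
      have : r i ≠ 0 := by intro h8; simp [h8] at h7
      field_simp, mul_pow, ← mul_assoc (_ ^ s)]
  gcongr

lemma TN.of_lip (h : TN d true x r u (fun _ => 1)) {η₀ L : ℝ} (h0 : 0 < η₀)
    (hv : ∀ i y, ‖y - x i‖ ≤ η₀ * r i → |v i y| ≤ L * |u i y - u i (x i)| ^ (d + 1)) :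
    TN d false x r v (fun _ => 1) := by
  obtain ⟨C, η, hC, hη, hle, h1⟩ := h.out h0
  have := Kg_pos n d
  refine ⟨(|L| + 1) * ((Kg n d + 1) * C) ^ (d + 1), η, by positivity, hη, fun i =>
    ⟨h.r_nonneg i, (J.false_iff (mul_nonneg hη.le (h.r_nonneg i))).2
      ⟨by positivity, fun y hy => ?_⟩⟩⟩
  refine (hv i y (hy.trans (mul_le_mul_of_nonneg_right hle (h.r_nonneg i)))).trans ?_
  have h2 := (h1 i).lip hy
  rw [mul_one] at h2 ⊢
  rw [mul_assoc, ← mul_pow]
  gcongr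
  linarith [le_abs_self L]

lemma taylor1 (k : ℕ) : ∀ (Φ : ℕ → ℝ → ℝ) (lo hi : ℝ),
    (∀ j, ∀ t ∈ Set.Icc lo hi, HasDerivAt (Φ j) (Φ (j + 1) t) t) →
    ∃ C, ∀ s ∈ Set.Icc lo hi, ∀ t ∈ Set.Icc lo hi,
      |Φ 0 t - ∑ j ∈ range k, Φ j s / j.factorial * (t - s) ^ j| ≤ C * |t - s| ^ k := by
  induction k with
  | zero =>
    intro Φ lo hi h
    obtain ⟨C, hC⟩ := isCompact_Icc.exists_bound_of_continuousOn (f := Φ 0)
      (fun t ht => (h 0 t ht).continuousAt.continuousWithinAt)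
    exact ⟨C, fun s _ t ht => by simpa using hC t ht⟩
  | succ k ih =>
    intro Φ lo hi h
    obtain ⟨C, hC⟩ := ih (fun j => Φ (j + 1)) lo hi (fun j => h (j + 1))
    refine ⟨|C|, fun s hs t ht => ?_⟩
    have hsub : Set.uIcc s t ⊆ Set.Icc lo hi := Set.uIcc_subset_Icc hs ht
    have h1 : ∀ z ∈ Set.uIcc s t, HasDerivWithinAt
        (fun z => Φ 0 z - ∑ j ∈ range (k + 1), Φ j s / j.factorial * (z - s) ^ j)
        (Φ 1 z - ∑ j ∈ range k, Φ (j + 1) s / j.factorial * (z - s) ^ j) (Set.uIcc s t) z := by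
      intro z hz
      refine ((h 0 z (hsub hz)).sub ?_).hasDerivWithinAt
      simp only [sum_range_succ', pow_zero]
      refine HasDerivAt.add_const _ (HasDerivAt.fun_sum (𝕜 := ℝ) (F := ℝ) fun j _ => ?_)
      have := (((hasDerivAt_id z).sub_const s).pow (j + 1)).const_mul (Φ (j + 1) s / (j + 1).factorial)
      refine this.congr_deriv ?_
      simp only [id, Nat.factorial_succ, Nat.add_sub_cancel]
      push_cast
      field_simp
    have h2 := Convex.norm_image_sub_le_of_norm_hasDerivWithin_le (C := |C| * |t - s| ^ k)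
      h1 (fun z hz => by
        refine (hC s hs z (hsub hz)).trans ?_
        have := Set.abs_sub_left_of_mem_uIcc hz
        gcongr
        exact le_abs_self C) (convex_uIcc s t) Set.left_mem_uIcc Set.right_mem_uIcc
    simp only [sum_range_succ' _ k, sub_self, ne_eq, Nat.add_eq_zero_iff, one_ne_zero, and_false,
      not_false_eq_true, zero_pow, mul_zero, sum_const_zero, Nat.factorial_zero, Nat.cast_one,
      div_one, pow_zero, mul_one, zero_add, sub_zero, Real.norm_eq_abs] at h2 ⊢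
    rwa [pow_succ, ← mul_assoc]

lemma TN.comp1 (h : TN d true x r u (fun _ => 1)) (Φ : ℕ → ℝ → ℝ) (lo hi : ℝ)
    (hΦ : ∀ j, ∀ t ∈ Set.Icc lo hi, HasDerivAt (Φ j) (Φ (j + 1) t) t) {η₀ : ℝ} (h0 : 0 < η₀)
    (hu : ∀ i y, ‖y - x i‖ ≤ η₀ * r i → u i y ∈ Set.Icc lo hi) :
    TN d true x r (fun i y => Φ 0 (u i y)) (fun _ => 1) := by
  have hx : ∀ i, u i (x i) ∈ Set.Icc lo hi := fun i =>
    hu i _ (by simpa using mul_nonneg h0.le (h.r_nonneg i))
  obtain ⟨C, hC⟩ := taylor1 (d + 1) Φ lo hi hΦ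
  have h1 := h.of_lip (L := C) h0 (v := fun i y => Φ 0 (u i y) - ∑ j ∈ range (d + 1),
    Φ j (u i (x i)) / j.factorial * (u i y - u i (x i)) ^ j) fun i y hy =>
      hC _ (hx i) _ (hu i y hy)
  have h2 : TN d true x r (fun i y => ∑ j ∈ range (d + 1),
      Φ j (u i (x i)) / j.factorial * (u i y - u i (x i)) ^ j) (fun _ => 1) := by
    refine TN.sum _ h.r_nonneg (fun _ => zero_le_one) fun j _ => ?_
    obtain ⟨B, hB⟩ := isCompact_Icc.exists_bound_of_continuousOn (f := fun t => Φ j t / j.factorial)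
      (fun t ht => ((hΦ j t ht).continuousAt.div_const _).continuousWithinAt)
    refine (TN.const1 h.r_nonneg B fun i => hB _ (hx i)).mul1 (TN.pow (h.sub ?_) j)
    exact TN.const1 h.r_nonneg (max |lo| |hi|) fun i => abs_le_max_abs_abs (hx i).1 (hx i).2
  exact (h1.weaken.add h2).congr' fun i y => by ring

lemma TN.rpow (h : TN d true x r u (fun _ => 1)) (p : ℝ) {c η₀ : ℝ} (hc : 0 < c) (h0 : 0 < η₀)
    (hu : ∀ i y, ‖y - x i‖ ≤ η₀ * r i → c ≤ u i y) :
    TN d true x r (fun i y => u i y ^ p) (fun _ => 1) := by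
  obtain ⟨C, η, hC, hη, hb⟩ := h.bound
  have h1 := h.comp1 (fun j t => (∏ l ∈ range j, (p - l)) * t ^ (p - j)) c C (fun j t ht => by
      have := (Real.hasDerivAt_rpow_const (x := t) (p := p - j)
        (Or.inl (hc.trans_le ht.1).ne')).const_mul (∏ l ∈ range j, (p - l))
      refine this.congr_deriv ?_
      rw [prod_range_succ]; push_cast; rw [sub_add_eq_sub_sub]; ring)
    (lt_min h0 hη) fun i y hy => ⟨hu i y (hy.trans (mul_le_mul_of_nonneg_right (min_le_left _ _)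
      (h.r_nonneg i))), by
        have := hb i y (hy.trans (mul_le_mul_of_nonneg_right (min_le_right _ _) (h.r_nonneg i)))
        linarith [le_abs_self (u i y)]⟩
  simpa using h1

lemma TN.posPow (h : TN d true x r u (fun _ => 1)) :
    TN d true x r (fun i y => max (u i y) 0 ^ (d + 1)) (fun _ => 1) := by
  have h1 := h.of_lip (L := 1) one_pos (v := fun i y => max (u i y) 0 ^ (d + 1) -
    (if 0 ≤ u i (x i) then 1 else 0) * u i y ^ (d + 1)) fun i y _ => by
      rw [one_mul]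
      rcases le_total (u i y) 0 with h1 | h1 <;> split_ifs with h2
      · simp only [max_eq_right h1, ne_eq, Nat.add_eq_zero_iff, one_ne_zero, and_false,
          not_false_eq_true, zero_pow, one_mul, zero_sub, abs_neg, abs_pow]
        refine pow_le_pow_left₀ (abs_nonneg _) ?_ _
        rw [abs_of_nonpos h1, abs_of_nonpos (by linarith)]; linarith
      · simp [max_eq_right h1]
      · simp [max_eq_left h1]
      · simp only [max_eq_left h1, zero_mul, sub_zero, abs_pow]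
        refine pow_le_pow_left₀ (abs_nonneg _) ?_ _
        rw [abs_of_nonneg h1, abs_of_nonneg (by linarith)]; linarith
  have h2 := (TN.const1 (x := x) (d := d) (c := fun i => if 0 ≤ u i (x i) then (1 : ℝ) else 0)
    h.r_nonneg 1 fun i => by split_ifs <;> simp).mul1 (h.pow (d + 1))
  exact (h1.weaken.add h2).congr' fun i y => by ring

end TN

section Part

abbrev Col (n : ℕ) := ZMod 4 × (Fin n → ZMod (4 * n + 5))

lemma card_Col (n : ℕ) : Fintype.card (Col n) = 4 * (4 * n + 5) ^ n := by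
  simp [ZMod.card]

def Adm (σ : E n → ℝ) : Prop := (∀ x, 0 ≤ σ x) ∧ ∀ x y, σ x ≤ σ y + ‖x - y‖ / 100

def Lip1 (ρ : E n → ℝ) : Prop := (∀ x, 0 ≤ ρ x) ∧ ∀ x y, ρ x ≤ ρ y + ‖x - y‖

lemma Lip1.adm {ρ : E n → ℝ} (h : Lip1 ρ) {γ : ℝ} (h0 : 0 < γ) (h1 : γ ≤ 1 / 100) :
    Adm fun y => γ * ρ y :=
  ⟨fun x => mul_nonneg h0.le (h.1 x), fun x y => by
    nlinarith [h.2 x y, norm_nonneg (x - y), mul_le_mul_of_nonneg_left (h.2 x y) h0.le]⟩

lemma Lip1.le' {ρ : E n → ℝ} (h : Lip1 ρ) (x y : E n) : ρ x ≤ ρ y + ‖y - x‖ := by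
  rw [norm_sub_rev]; exact h.2 x y

noncomputable def ctr (q : ℤ × (Fin n → ℤ)) : E n :=
  WithLp.toLp 2 fun i => (2 : ℝ) ^ q.1 / (n + 1) * q.2 i

def pred (σ : E n → ℝ) (x : E n) (c : Col n) (q : ℤ × (Fin n → ℤ)) : Prop :=
  ((q.1 : ZMod 4), fun i => (q.2 i : ZMod (4 * n + 5))) = c ∧ (2 : ℝ) ^ q.1 ≤ 2 * σ (ctr q) ∧
    σ (ctr q) ≤ 4 * 2 ^ q.1 ∧ ‖x - ctr q‖ ≤ 2 * 2 ^ q.1

variable {σ σ' : E n → ℝ} {x y : E n} {c : Col n} {q q' : ℤ × (Fin n → ℤ)}

lemma pred.bounds (hσ : Adm σ) (h : pred σ x c q) :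
    0.48 * (2 : ℝ) ^ q.1 ≤ σ x ∧ σ x ≤ 4.02 * 2 ^ q.1 := by
  obtain ⟨-, h1, h2, h3⟩ := h
  have a1 := hσ.2 x (ctr q)
  have a2 := hσ.2 (ctr q) x
  rw [norm_sub_rev] at a2
  constructor <;> linarith

lemma pred.unique (hσ : Adm σ) (h : pred σ x c q) (h' : pred σ x c q') : q = q' := by
  have key : ∀ {q q' : ℤ × (Fin n → ℤ)}, pred σ x c q → pred σ x c q' → ¬ q.1 + 4 ≤ q'.1 := by
    intro q q' h h' hl
    have h1 : (2 : ℝ) ^ (q.1 + 4) ≤ 2 ^ q'.1 := zpow_le_zpow_right₀ one_le_two hl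
    rw [zpow_add₀ two_ne_zero] at h1
    have := (h.bounds hσ).2
    have := (h'.bounds hσ).1
    have : (0 : ℝ) < 2 ^ q.1 := by positivity
    norm_num at h1
    linarith
  have hc := h.1.trans h'.1.symm
  have h1 : q.1 = q'.1 := by
    have := (ZMod.intCast_eq_intCast_iff_dvd_sub _ _ _).1 (congrArg Prod.fst hc)
    have := key h h'
    have := key h' h
    omega
  refine Prod.ext h1 (funext fun i => ?_)
  have h2 := (ZMod.intCast_eq_intCast_iff_dvd_sub _ _ _).1 (congrFun (congrArg Prod.snd hc) i)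
  have h3 : ‖ctr q' - ctr q‖ ≤ 4 * 2 ^ q.1 := by
    have := norm_sub_le_norm_sub_add_norm_sub (ctr q') x (ctr q)
    rw [norm_sub_rev _ x] at this
    have := h.2.2.2
    have := h'.2.2.2
    rw [← h1] at this
    linarith
  have h4 := (PiLp.norm_apply_le (ctr q' - ctr q) i).trans h3
  simp only [ctr, ← h1, PiLp.sub_apply, ← mul_sub, norm_mul, Real.norm_eq_abs] at h4
  have h5 : (0 : ℝ) < 2 ^ q.1 := by positivity
  rw [abs_of_pos (by positivity), div_mul_eq_mul_div, div_le_iff₀ (by positivity)] at h4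
  have h6 : |((q'.2 i - q.2 i : ℤ) : ℝ)| < ((4 * n + 5 : ℕ) : ℤ) := by
    push_cast
    nlinarith
  have h7 := Int.eq_zero_of_abs_lt_dvd h2 (by exact_mod_cast h6)
  omega

noncomputable def quad (q : ℤ × (Fin n → ℤ)) (y : E n) : ℝ := 1 - ‖y - ctr q‖ ^ 2 / (2 ^ q.1) ^ 2

open Classical in
noncomputable def bump (d : ℕ) (σ : E n → ℝ) (c : Col n) (x : E n) : ℝ :=
  if h : ∃ q, pred σ x c q then max (quad h.choose x) 0 ^ (d + 1) else 0

open Classical in
noncomputable def zeta (σ : E n → ℝ) (c : Col n) (x : E n) : E n :=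
  if h : ∃ q, pred σ x c q then ctr h.choose else x

open Classical in
noncomputable def phi (d : ℕ) (σ : E n → ℝ) (c : Col n) (x : E n) : ℝ :=
  if σ x = 0 then (if c = 0 then 1 else 0) else
    bump d σ c x * (∑ c', bump d σ c' x ^ 2) ^ (-(1 / 2) : ℝ)

lemma pred.bump_eq (hσ : Adm σ) (h : pred σ x c q) : bump d σ c x = max (quad q x) 0 ^ (d + 1) := by
  have h1 : ∃ q, pred σ x c q := ⟨q, h⟩
  rw [bump, dif_pos h1, h1.choose_spec.unique hσ h]

lemma pred.zeta_eq (hσ : Adm σ) (h : pred σ x c q) : zeta σ c x = ctr q := by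
  have h1 : ∃ q, pred σ x c q := ⟨q, h⟩
  rw [zeta, dif_pos h1, h1.choose_spec.unique hσ h]

lemma quad_nonpos (h : 2 ^ q.1 ≤ ‖y - ctr q‖) : max (quad q y) 0 ^ (d + 1) = 0 := by
  have h5 : (0 : ℝ) < 2 ^ q.1 := by positivity
  have : quad q y ≤ 0 := by
    rw [quad, sub_nonpos, one_le_div (by positivity)]; gcongr
  simp [max_eq_right this]

lemma bump_ne (hσ : Adm σ) (hy : ‖y - x‖ ≤ σ x / 10) (h : bump d σ c y ≠ 0) :
    ∃ q, pred σ y c q ∧ pred σ x c q := by
  by_cases h1 : ∃ q, pred σ y c q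
  · obtain ⟨q, hq⟩ := h1
    rw [hq.bump_eq hσ] at h
    have h2 : ‖y - ctr q‖ < 2 ^ q.1 := by
      by_contra h3; exact h (quad_nonpos (not_lt.1 h3))
    refine ⟨q, hq, hq.1, hq.2.1, hq.2.2.1, ?_⟩
    have h3 := norm_sub_le_norm_sub_add_norm_sub x y (ctr q)
    rw [norm_sub_rev x y] at h3
    have := hσ.2 x (ctr q)
    have := hq.2.2.1
    have := norm_nonneg (y - ctr q)
    linarith
  · rw [bump, dif_neg h1] at h; exact absurd rfl h

lemma pred.bump_near (hσ : Adm σ) (h : pred σ x c q) (hy : ‖y - x‖ ≤ σ x / 10) :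
    bump d σ c y = max (quad q y) 0 ^ (d + 1) := by
  by_cases h1 : ‖y - ctr q‖ ≤ 2 * 2 ^ q.1
  · exact pred.bump_eq hσ ⟨h.1, h.2.1, h.2.2.1, h1⟩
  · have h5 : (0 : ℝ) < 2 ^ q.1 := by positivity
    rw [quad_nonpos (by linarith)]
    by_contra h2
    obtain ⟨q', h3, h4⟩ := bump_ne hσ hy h2
    exact h1 (h4.unique hσ h ▸ h3.2.2.2)

lemma bump_lower (hσ : Adm σ) (hx : 0 < σ x) : ∃ c, (3 / 4 : ℝ) ^ (d + 1) ≤ bump d σ c x := by
  obtain ⟨l, h1, h2⟩ := exists_mem_Ico_zpow hx one_lt_two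
  rw [zpow_add_one₀ two_ne_zero] at h2
  have h5 : (0 : ℝ) < 2 ^ l := by positivity
  let q : ℤ × (Fin n → ℤ) := (l, fun i => round (x i / (2 ^ l / (n + 1))))
  have h3 : ‖x - ctr q‖ ^ 2 ≤ (2 ^ l / 2) ^ 2 := by
    rw [EuclideanSpace.norm_sq_eq]
    have h6 : ∀ i, ‖(x - ctr q) i‖ ^ 2 ≤ (2 ^ l / (n + 1) / 2) ^ 2 := by
      intro i
      have h7 := abs_sub_round (x i / (2 ^ l / (n + 1)))
      have h8 : (x - ctr q) i = 2 ^ l / (n + 1) * (x i / (2 ^ l / (n + 1)) -
          round (x i / (2 ^ l / (n + 1)))) := by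
        simp only [PiLp.sub_apply, ctr, q]; field_simp
      rw [h8, Real.norm_eq_abs, abs_mul, abs_of_pos (by positivity)]
      gcongr
      rw [div_eq_mul_one_div _ (2 : ℝ)]
      gcongr
    refine (sum_le_card_nsmul _ _ _ fun i _ => h6 i).trans ?_
    simp only [card_univ, Fintype.card_fin, nsmul_eq_mul]
    rw [show (n : ℝ) * (2 ^ l / (n + 1) / 2) ^ 2 = n / (n + 1) ^ 2 * (2 ^ l / 2) ^ 2 by field_simp]
    refine mul_le_of_le_one_left (by positivity) ?_
    rw [div_le_one (by positivity)]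
    nlinarith [Nat.cast_nonneg (α := ℝ) n]
  have h4 : ‖x - ctr q‖ ≤ 2 ^ l / 2 := le_of_sq_le_sq h3 (by positivity) |> fun h => h
  have a1 := hσ.2 x (ctr q)
  have a2 := hσ.2 (ctr q) x
  rw [norm_sub_rev] at a2
  have hq : pred σ x _ q := ⟨rfl, by simp only [q] at *; linarith, by simp only [q] at *; linarith,
    by simp only [q] at *; linarith⟩
  refine ⟨((q.1 : ZMod 4), fun i => (q.2 i : ZMod (4 * n + 5))), ?_⟩
  rw [hq.bump_eq hσ]
  refine pow_le_pow_left₀ (by norm_num) (le_max_of_le_left ?_) _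
  have : ‖x - ctr q‖ ^ 2 / (2 ^ l) ^ 2 ≤ 1 / 4 := by
    rw [div_le_iff₀ (by positivity)]; linarith
  simp only [quad, q] at *
  linarith

lemma sum_bump_lower (hσ : Adm σ) (hx : 0 < σ x) :
    ((3 / 4 : ℝ) ^ (d + 1)) ^ 2 ≤ ∑ c, bump d σ c x ^ 2 := by
  obtain ⟨c, hc⟩ := bump_lower (d := d) hσ hx
  refine le_trans ?_ (single_le_sum (f := fun c => bump d σ c x ^ 2) (fun _ _ => sq_nonneg _)
    (mem_univ c))
  gcongr

lemma phi_sq (hσ : Adm σ) (x : E n) : ∑ c, phi d σ c x ^ 2 = 1 := by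
  by_cases h : σ x = 0
  · simp [phi, h]
  · have h1 : 0 < ∑ c, bump d σ c x ^ 2 :=
      lt_of_lt_of_le (by positivity) (sum_bump_lower hσ ((hσ.1 x).lt_of_ne' h))
    simp only [phi, h, if_false, mul_pow, ← sum_mul]
    rw [← Real.rpow_natCast, ← Real.rpow_mul h1.le]
    norm_num
    rw [Real.rpow_neg_one, mul_inv_cancel₀ h1.ne']

lemma Adm.pos_near (hσ : Adm σ) (hx : 0 < σ x) (hy : ‖y - x‖ ≤ σ x / 10) : 0 < σ y := by
  have := hσ.2 x y
  rw [norm_sub_rev] at this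
  linarith

lemma phi_loc (hσ : Adm σ) (hy : ‖y - x‖ ≤ σ x / 10) (h : phi d σ c y ≠ 0) :
    zeta σ c y = zeta σ c x := by
  rcases (hσ.1 x).eq_or_lt with h1 | h1
  · rw [eq_of_norm_le_zero (by simpa [← h1] using hy : ‖y - x‖ ≤ 0)]
  rw [phi, if_neg (hσ.pos_near h1 hy).ne'] at h
  obtain ⟨q, h2, h3⟩ := bump_ne hσ hy (left_ne_zero_of_mul h)
  rw [h2.zeta_eq hσ, h3.zeta_eq hσ]

lemma pred.near (hσ : Adm σ) (h : pred σ x c q) : ‖ctr q - x‖ ≤ 5 * σ x := by
  have := (h.bounds hσ).1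
  have := h.2.2.2
  have := hσ.1 x
  rw [norm_sub_rev]; linarith

lemma zeta_near (hσ : Adm σ) (c : Col n) (x : E n) : ‖zeta σ c x - x‖ ≤ 5 * σ x := by
  by_cases h : ∃ q, pred σ x c q
  · obtain ⟨q, h⟩ := h
    rw [h.zeta_eq hσ]; exact h.near hσ
  · rw [zeta, dif_neg h]; simpa using hσ.1 x

lemma phi_congr (hσ : Adm σ) (hσ' : Adm σ') (h : ∀ y, ‖y - x‖ ≤ 5 * σ x → σ y = σ' y) (c : Col n) :
    phi d σ c x = phi d σ' c x ∧ zeta σ c x = zeta σ' c x := by
  have hx : σ x = σ' x := h x (by simpa using hσ.1 x)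
  have h1 : ∀ c, pred σ x c = pred σ' x c := by
    intro c; ext q
    constructor
    · intro hq
      have := h _ (hq.near hσ)
      unfold pred at *; rwa [← this]
    · intro hq
      have := h _ (hx ▸ hq.near hσ')
      unfold pred at *; rwa [this]
  have h2 : ∀ c, bump d σ c x = bump d σ' c x := fun c => by unfold bump; rw [h1]
  exact ⟨by simp only [phi, h2, hx], by unfold zeta; rw [h1]⟩

lemma bump_TN {ι : Type} {σ : ι → E n → ℝ} (hσ : ∀ i, Adm (σ i)) (x : ι → E n) (c : Col n) :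
    TN d true x (fun i => σ i (x i)) (fun i => bump d (σ i) c) (fun _ => 1) := by
  classical
  have h1 : TN d true x (fun i => σ i (x i)) (fun i y =>
      if h : ∃ q, pred (σ i) (x i) c q then quad h.choose y else 0) (fun _ => 1) := by
    refine TN.poly (e := 2) (η := 1 / 10) (C := 10) (fun i => ?_) (fun i => (hσ i).1 _)
      (fun _ => zero_le_one) (by norm_num) fun i y hy => ?_
    · by_cases h : ∃ q, pred (σ i) (x i) c q
      · simp only [h, dif_pos, quad, div_eq_inv_mul]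
        exact Pd_sub (const_mem 2 1) (Pd_smul _ (normsq_mem _))
      · simp only [h, dif_neg, not_false_eq_true]; exact const_mem 2 0
    · split_ifs with h
      · have h2 := (h.choose_spec.bounds (hσ i)).2
        have h3 := h.choose_spec.2.2.2
        have h4 := norm_sub_le_norm_sub_add_norm_sub y (x i) (ctr h.choose)
        have h5 : (0 : ℝ) < 2 ^ h.choose.1 := by positivity
        have h6 : ‖y - ctr h.choose‖ ^ 2 / (2 ^ h.choose.1) ^ 2 ≤ 9 := by
          rw [div_le_iff₀ (by positivity), show (9 : ℝ) = 3 ^ 2 by norm_num, ← mul_pow]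
          gcongr; linarith
        have h7 : 0 ≤ ‖y - ctr h.choose‖ ^ 2 / (2 ^ h.choose.1) ^ 2 := by positivity
        rw [quad, abs_le]; constructor <;> linarith
      · simp
  refine h1.posPow.congr (η₀ := 1 / 10) (by norm_num) fun i y hy => ?_
  have hy' : ‖y - x i‖ ≤ σ i (x i) / 10 := by linarith
  split_ifs with h
  · exact (h.choose_spec.bump_near (hσ i) hy').symm
  · by_contra h2
    have : bump d (σ i) c y ≠ 0 := fun h3 => h2 (by simp [h3])
    obtain ⟨q, -, h4⟩ := bump_ne (hσ i) hy' this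
    exact h ⟨q, h4⟩

lemma phi_TN {ι : Type} {σ : ι → E n → ℝ} (hσ : ∀ i, Adm (σ i)) (x : ι → E n) (c : Col n) :
    TN d true x (fun i => σ i (x i)) (fun i => phi d (σ i) c) (fun _ => 1) := by
  classical
  have hr : ∀ i, 0 ≤ σ i (x i) := fun i => (hσ i).1 _
  have h1 : TN d true x (fun i => σ i (x i)) (fun i y => ∑ c', bump d (σ i) c' y ^ 2 +
      (if σ i (x i) = 0 then 1 else 0)) (fun _ => 1) :=
    (TN.sum _ hr (fun _ => zero_le_one) fun c' _ => (bump_TN hσ x c').pow 2).add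
      (TN.const1 hr 1 fun i => by split_ifs <;> simp)
  have h2 := h1.rpow (-(1 / 2)) (c := ((3 / 4 : ℝ) ^ (d + 1)) ^ 2) (η₀ := 1 / 10) (by positivity)
    (by norm_num) fun i y hy => by
      split_ifs with h
      · have : ((3 / 4 : ℝ) ^ (d + 1)) ^ 2 ≤ 1 :=
          pow_le_one₀ (by positivity) (pow_le_one₀ (by norm_num) (by norm_num))
        have : 0 ≤ ∑ c', bump d (σ i) c' y ^ 2 := by positivity
        linarith
      · rw [add_zero]
        exact sum_bump_lower (hσ i) ((hσ i).pos_near ((hr i).lt_of_ne' h) (by linarith))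
  have h3 := ((bump_TN hσ x c).mul1 h2).add (TN.const1 (c := fun i =>
    if σ i (x i) = 0 then (if c = 0 then (1 : ℝ) else 0) else 0) hr 1
      fun i => by split_ifs <;> simp)
  refine h3.congr (η₀ := 1 / 10) (by norm_num) fun i y hy => ?_
  by_cases h : σ i (x i) = 0
  · have h4 : y = x i := eq_of_norm_le_zero (by simpa [h] using hy)
    have h5 : bump d (σ i) c (x i) = 0 := by
      rw [bump, dif_neg]
      rintro ⟨q, hq⟩
      have := (hq.bounds (hσ i)).1
      have : (0 : ℝ) < 2 ^ q.1 := by positivity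
      linarith
    simp [h4, h, h5, phi]
  · have h4 := (hσ i).pos_near (y := y) ((hr i).lt_of_ne' h) (by linarith)
    simp [phi, h, h4.ne']

lemma phi_mul_loc (hσ : Adm σ) (hy : ‖y - x‖ ≤ σ x / 10) (F : E n → ℝ) :
    phi d σ c y * F (zeta σ c y) = phi d σ c y * F (zeta σ c x) := by
  by_cases h : phi d σ c y = 0
  · simp [h]
  · rw [phi_loc hσ hy h]

lemma abs_phi_le (hσ : Adm σ) (c : Col n) (x : E n) : |phi d σ c x| ≤ 1 := by
  rw [← sq_le_one_iff_abs_le_one, ← phi_sq (d := d) hσ x]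
  exact single_le_sum (f := fun c => phi d σ c x ^ 2) (fun _ _ => sq_nonneg _) (mem_univ c)

end Part

end Pool.Agent.Lib.MP_ca9be0_an.PyF
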