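import Pool.Agent.Lib.MP_ca9be0_an.FinA
import Pool.Agent.Lib.MP_ca9be0_an.Defs

/-! Hoelder functions through their jets, and the rotation step. -/

namespace Pool.Agent.Lib.MP_ca9be0_an.PyF

open Finset Filter Topology

variable {n d : ℕ} {s : ℝ}

/-- a function with a field of jets of order `d` and remainder of order `s` -/
structure CF (n d : ℕ) (s : ℝ) where
  f : E n → ℝ
  P : E n → E n → ℝ
  mem : ∀ x, P x ∈ Pd n d
  bd : ∃ C, 0 ≤ C ∧ ∀ x y, |f y - P x y| ≤ C * ‖y - x‖ ^ s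

lemma CF.center (u : CF n d s) (hs : 0 < s) (x : E n) : u.P x x = u.f x := by
  obtain ⟨C, -, h⟩ := u.bd
  have := h x x
  simp only [sub_self, norm_zero, Real.zero_rpow hs.ne', mul_zero, abs_nonpos_iff] at this
  linarith

lemma CF.fin {W : Type} [Finite W] (g : W → CF n d s) :
    ∃ C, 0 ≤ C ∧ ∀ w x y, |(g w).f y - (g w).P x y| ≤ C * ‖y - x‖ ^ s := by
  have := Fintype.ofFinite W
  choose C h0 h using fun w => (g w).bd
  refine ⟨∑ w, C w, sum_nonneg fun w _ => h0 w, fun w x y => (h w x y).trans ?_⟩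
  exact mul_le_mul_of_nonneg_right (single_le_sum (fun w _ => h0 w) (mem_univ w)) (by positivity)

lemma CF.whitney {W : Type} [Finite W] (g : W → CF n d s) : ∃ C, 0 ≤ C ∧ ∀ w x x' y,
    |(g w).P x y - (g w).P x' y| ≤ C * (‖y - x‖ ^ s + ‖y - x'‖ ^ s) := by
  obtain ⟨C, h0, h⟩ := CF.fin g
  refine ⟨C, h0, fun w x x' y => ?_⟩
  have h1 := abs_sub_le ((g w).P x y) ((g w).f y) ((g w).P x' y)
  rw [abs_sub_comm _ ((g w).f y)] at h1
  linarith [h w x y, h w x' y]

lemma rpow_pred {t s : ℝ} (ht : 0 ≤ t) (hs : 1 ≤ s) : t ^ s = t ^ (s - 1) * t := by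
  conv_lhs => rw [show s = (s - 1) + 1 by ring]
  rw [Real.rpow_add_of_nonneg ht (by linarith) zero_le_one, Real.rpow_one]

lemma CF.hasFDerivAt (u : CF n d s) (hs : 1 < s) (x : E n) :
    HasFDerivAt u.f (fderiv ℝ (u.P x) x) x := by
  obtain ⟨C, hC, h⟩ := u.bd
  have h1 : HasFDerivAt (fun y => u.f y - u.P x y) (0 : E n →L[ℝ] ℝ) x := by
    rw [hasFDerivAt_iff_isLittleO, Asymptotics.isLittleO_iff]
    intro c hc
    have h2 : Tendsto (fun y : E n => C * ‖y - x‖ ^ (s - 1)) (𝓝 x) (𝓝 (C * ‖x - x‖ ^ (s - 1))) := by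
      refine Continuous.tendsto ?_ x
      have : Continuous fun y : E n => ‖y - x‖ ^ (s - 1) :=
        (Real.continuous_rpow_const (by linarith)).comp (by fun_prop)
      fun_prop
    rw [sub_self, norm_zero, Real.zero_rpow (by linarith), mul_zero] at h2
    filter_upwards [h2.eventually (gt_mem_nhds hc)] with y hy
    simp only [u.center (by linarith) x, sub_self, sub_zero, zero_apply,
      Real.norm_eq_abs]
    refine (h x y).trans ?_
    rw [rpow_pred (norm_nonneg _) hs.le, ← mul_assoc]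
    gcongr
  have := h1.fun_add (Pd_diff (u.mem x) x).hasFDerivAt
  simpa using this

lemma PB.fderiv_le {p : E n → ℝ} {x : E n} {r m : ℝ} (h : PB p x r m) (hp : p ∈ Pd n d)
    (hr : 0 < r) : ‖fderiv ℝ p x‖ ≤ Kg n d * m / r := by
  have := Kg_pos n d
  have := h.nonneg hr.le
  refine (Pd_diff hp x).hasFDerivAt.le_of_lip' (by positivity) ?_
  filter_upwards [Metric.closedBall_mem_nhds x hr] with y hy
  rw [mem_closedBall_iff_norm] at hy
  refine (h.lip hp hr y hy).trans (le_of_eq ?_)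
  ring

lemma CF.deriv (u : CF n (d + 1) s) (hs : 1 < s) (e : E n) :
    ∃ v : CF n d (s - 1), v.f = fun y => fderiv ℝ u.f y e := by
  refine ⟨⟨fun y => fderiv ℝ u.f y e, fun x y => fderiv ℝ (u.P x) y e,
    fun x => (Pd_fderiv (u.mem x) e).1, ?_⟩, rfl⟩
  obtain ⟨C, hC, h⟩ := CF.whitney (fun _ : Unit => u)
  have hK := Kg_pos n (d + 1)
  refine ⟨Kg n (d + 1) * (C * (1 + 2 ^ s)) * ‖e‖, by positivity, fun x y => ?_⟩
  rw [(u.hasFDerivAt hs y).fderiv]
  rcases (norm_nonneg (y - x)).eq_or_lt with h0 | h0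
  · rw [eq_of_norm_le_zero h0.ge]; simp; positivity
  have h1 : PB (fun z => u.P y z - u.P x z) y ‖y - x‖ (C * (1 + 2 ^ s) * ‖y - x‖ ^ s) := by
    intro z hz
    refine (h () y x z).trans ?_
    have h2 : ‖z - x‖ ≤ 2 * ‖y - x‖ := by
      linarith [norm_sub_le_norm_sub_add_norm_sub z y x]
    rw [mul_assoc, add_mul, one_mul, ← Real.mul_rpow zero_le_two h0.le]
    gcongr
  have h2 := h1.fderiv_le (Pd_sub (u.mem y) (u.mem x)) h0
  rw [fderiv_fun_sub (Pd_diff (u.mem y) y) (Pd_diff (u.mem x) y)] at h2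
  rw [← sub_apply, ← Real.norm_eq_abs]
  refine (ContinuousLinearMap.le_opNorm _ e).trans
    ((mul_le_mul_of_nonneg_right h2 (norm_nonneg e)).trans (le_of_eq ?_))
  rw [Real.rpow_sub_one h0.ne']
  field_simp

lemma iter_succ {f : E n → ℝ} (hf : ContDiff ℝ ((d + 1 : ℕ) : WithTop ℕ∞) f)
    (m : Fin (d + 1) → E n) (x : E n) : iteratedFDeriv ℝ (d + 1) f x m =
      iteratedFDeriv ℝ d (fun y => fderiv ℝ f y (m (Fin.last d))) x (Fin.init m) := by
  rw [iteratedFDeriv_succ_apply_right, iteratedFDeriv_clm_apply_const_apply (n := d)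
    (hf.fderiv_right (by push_cast; rfl)) le_rfl]

lemma CF.inC {β : ℝ} (hβ : 0 < β) (d : ℕ) : ∀ (s : ℝ) (_ : s = d + β) (u : CF n d s),
    InC d β u.f := by
  induction d with
  | zero =>
    intro s hs u
    simp only [Nat.cast_zero, zero_add] at hs
    subst hs
    obtain ⟨C, hC, h⟩ := u.bd
    have h1 : ∀ x y, |u.f y - u.f x| ≤ C * ‖y - x‖ ^ s := fun x y => by
      rw [← u.center hβ x, ← Pd_zero_const (u.mem x) x y]; exact h x y
    refine ⟨?_, fun b => ⟨C, fun x y => by simpa using h1 y x⟩⟩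
    rw [Nat.cast_zero, contDiff_zero, continuous_iff_continuousAt]
    intro x
    rw [ContinuousAt, tendsto_iff_norm_sub_tendsto_zero]
    refine squeeze_zero (fun _ => norm_nonneg _) (fun y => h1 x y) ?_
    have h2 : Tendsto (fun y : E n => C * ‖y - x‖ ^ s) (𝓝 x) (𝓝 (C * ‖x - x‖ ^ s)) := by
      refine Continuous.tendsto ?_ x
      have : Continuous fun y : E n => ‖y - x‖ ^ s :=
        (Real.continuous_rpow_const hβ.le).comp (by fun_prop)
      fun_prop
    rwa [sub_self, norm_zero, Real.zero_rpow hβ.ne', mul_zero] at h2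
  | succ d ih =>
    intro s hs u
    have hs1 : 1 < s := by rw [hs]; push_cast; linarith [Nat.cast_nonneg (α := ℝ) d]
    have h1 : ∀ e, InC d β fun y => fderiv ℝ u.f y e := fun e => by
      obtain ⟨v, hv⟩ := u.deriv hs1 e
      exact hv ▸ ih (s - 1) (by rw [hs]; push_cast; ring) v
    have h2 : ContDiff ℝ ((d + 1 : ℕ) : WithTop ℕ∞) u.f := by
      rw [Nat.cast_succ, contDiff_succ_iff_fderiv_apply]
      exact ⟨fun x => (u.hasFDerivAt hs1 x).differentiableAt, fun h => by simp at h,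
        fun e => (h1 e).1⟩
    refine ⟨h2, fun b => ?_⟩
    simp only [iter_succ h2]
    exact (h1 _).2 (Fin.init b)

lemma exists_CF {β : ℝ} (hβ : 0 < β) (d : ℕ) : ∀ (s : ℝ) (_ : s = d + β) (f : E n → ℝ),
    InC d β f → ∃ u : CF n d s, u.f = f := by
  induction d with
  | zero =>
    intro s hs f hf
    simp only [Nat.cast_zero, zero_add] at hs
    subst hs
    obtain ⟨C, h⟩ := hf.2 Fin.elim0
    refine ⟨⟨f, fun x _ => f x, fun x => const_mem 0 _, |C|, abs_nonneg C, fun x y => ?_⟩, rfl⟩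
    have := h y x
    simp only [iteratedFDeriv_zero_apply] at this
    exact this.trans (mul_le_mul_of_nonneg_right (le_abs_self C) (by positivity))
  | succ d ih =>
    intro s hs f hf
    have hd := hf.1
    rw [Nat.cast_succ, contDiff_succ_iff_fderiv_apply] at hd
    have h1 : ∀ i : Fin n, InC d β fun y => fderiv ℝ f y (EuclideanSpace.single i 1) := by
      intro i
      refine ⟨hd.2.2 _, fun b => ?_⟩
      obtain ⟨C, h⟩ := hf.2 (Fin.snoc b i)
      refine ⟨C, fun x y => ?_⟩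
      have := h x y
      simp only [iter_succ hf.1, Fin.snoc_last] at this
      have h3 : (Fin.init fun j : Fin (d + 1) => (EuclideanSpace.single
          (Fin.snoc (α := fun _ => Fin n) b i j) 1 : E n)) =
          fun j => EuclideanSpace.single (b j) 1 := by
        ext1 j; simp [Fin.init]
      rwa [h3] at this
    choose u hu using fun i => ih (s - 1) (by rw [hs]; push_cast; ring) _ (h1 i)
    choose H H1 H2 H3 H4 using fun i x => hom_dec x ((u i).mem x)
    obtain ⟨C, hC, h⟩ := CF.fin u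
    have hs1 : 0 < s - 1 := by rw [hs]; push_cast; linarith [Nat.cast_nonneg (α := ℝ) d]
    refine ⟨⟨f, fun x y => f x + ∑ i, ∑ j ∈ range (d + 1),
      1 / (j + 1) * ((y i - x i) * H i x j y), fun x => ?_, n * C, by positivity,
      fun x y => ?_⟩, rfl⟩
    · refine Pd_add (const_mem _ _) (Pd_sum _ fun i _ => Pd_sum _ fun j hj => Pd_smul _ ?_)
      exact Pd_mono (by have := mem_range.1 hj; omega) (Pd_mul (coord_mem i (x i)) (H1 i x j))
    obtain ⟨v, rfl⟩ : ∃ v, y = x + v := ⟨y - x, by abel⟩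
    have h2 : ∀ τ : ℝ, HasDerivAt (fun τ : ℝ => f (x + τ • v) - ∑ i, ∑ j ∈ range (d + 1),
        1 / (j + 1) * (v i * (τ ^ (j + 1) * H i x j (x + v))))
        (∑ i, v i * ((u i).f (x + τ • v) - (u i).P x (x + τ • v))) τ := by
      intro τ
      have a1 : HasDerivAt (fun τ : ℝ => f (x + τ • v)) (fderiv ℝ f (x + τ • v) v) τ := by
        have := (hd.1 (x + τ • v)).hasFDerivAt.comp_hasDerivAt τ
          (((hasDerivAt_id τ).smul_const v).const_add x)
        rw [one_smul] at this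
        exact this
      refine (a1.sub (HasDerivAt.fun_sum (𝕜 := ℝ) (F := ℝ) fun i _ =>
        HasDerivAt.fun_sum (𝕜 := ℝ) (F := ℝ) fun j _ =>
          ((((hasDerivAt_id τ).pow (j + 1)).mul_const (H i x j (x + v))).const_mul
            (v i)).const_mul _)).congr_deriv ?_
      have a2 : fderiv ℝ f (x + τ • v) v = ∑ i, v i * (u i).f (x + τ • v) := by
        generalize x + τ • v = z
        conv_lhs => rw [← (EuclideanSpace.basisFun (Fin n) ℝ).sum_repr v]
        simp [hu]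
      rw [a2, ← sum_sub_distrib]
      refine sum_congr rfl fun i _ => ?_
      rw [mul_sub, H4, mul_sum]
      congr 1
      refine sum_congr rfl fun j _ => ?_
      simp only [H2, id, Nat.add_sub_cancel]
      push_cast
      field_simp
    have h3 := norm_image_sub_le_of_norm_deriv_le_segment_01' (C := n * C * ‖v‖ ^ s)
      (fun τ _ => (h2 τ).hasDerivWithinAt) (fun τ hτ => by
        refine (norm_sum_le _ _).trans ((sum_le_card_nsmul _ _ (C * ‖v‖ ^ s) fun i _ => ?_).trans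
          (by simp [mul_assoc]))
        have a3 : ‖x + τ • v - x‖ ≤ ‖v‖ := by
          rw [add_sub_cancel_left, norm_smul, Real.norm_eq_abs, abs_of_nonneg hτ.1]
          exact mul_le_of_le_one_left (norm_nonneg _) hτ.2.le
        rw [norm_mul, rpow_pred (s := s) (norm_nonneg v) (by linarith), ← mul_assoc, mul_comm]
        refine mul_le_mul ((h i x _).trans ?_) (PiLp.norm_apply_le v i) (norm_nonneg _)
          (by positivity)
        gcongr)
    simp only [one_smul, one_pow, one_mul, zero_smul, add_zero, ne_eq, Nat.add_eq_zero_iff,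
      one_ne_zero, and_false, not_false_eq_true, zero_pow, zero_mul, mul_zero, sum_const_zero,
      sub_zero, Real.norm_eq_abs] at h3
    simp only [PiLp.add_apply, add_sub_cancel_left]
    convert h3 using 2
    ring

end Pool.Agent.Lib.MP_ca9be0_an.PyF

namespace Pool.Agent.Lib.MP_ca9be0_an.PyF

open Finset Filter Topology Matrix

variable {n d : ℕ} {s : ℝ}

def Hs (d : ℕ) (s : ℝ) : Prop := (d : ℝ) < s ∧ s ≤ d + 1

lemma Hs.pos (H : Hs d s) : 0 < s := lt_of_le_of_lt (Nat.cast_nonneg d) H.1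

lemma pow_ratio_le (H : Hs d s) {σ R : ℝ} (h0 : 0 < σ) (h : σ ≤ R) :
    σ ^ s * (R / σ) ^ d ≤ R ^ s := by
  have hR := h0.trans_le h
  have h1 : (R / σ) ^ d ≤ (R / σ) ^ s := by
    rw [← Real.rpow_natCast]
    exact Real.rpow_le_rpow_of_exponent_le ((one_le_div h0).2 h) H.1.le
  calc _ ≤ σ ^ s * (R / σ) ^ s := by gcongr
    _ = _ := by
      rw [Real.div_rpow hR.le h0.le]
      have := Real.rpow_pos_of_pos h0 s
      field_simp

lemma J.resc (H : Hs d s) {a : E n → ℝ} {x : E n} {η r r' C : ℝ} (hη : 0 < η) (hC : 0 ≤ C)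
    (h : J d false a x (η * r) (C * r ^ s)) (h0 : 0 ≤ r') (hr : r' ≤ r) :
    J d false a x (η * r') (C * r' ^ s) := by
  rw [J.false_iff (mul_nonneg hη.le (h0.trans hr))] at h
  rw [J.false_iff (mul_nonneg hη.le h0)]
  refine ⟨by positivity, fun y hy => ?_⟩
  refine (h.2 y (hy.trans (mul_le_mul_of_nonneg_left hr hη.le))).trans ?_
  rcases h0.eq_or_lt with h5 | h5
  · have : ‖y - x‖ = 0 := le_antisymm (by simpa [← h5] using hy) (norm_nonneg _)
    simp [this]
  have h6 := ratio_pow_le (d := d) H.pos H.2 h5.le hr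
  have h7 : 0 < r := h5.trans_le hr
  rw [mul_assoc C, mul_assoc C, show ‖y - x‖ / (η * r) = r' / r * (‖y - x‖ / (η * r')) by
    field_simp, mul_pow, ← mul_assoc (_ ^ s)]
  gcongr

lemma J.false_le (H : Hs d s) {a : E n → ℝ} {x y : E n} {η r C : ℝ} (hη : 0 < η) (hη1 : η ≤ 1)
    (hC : 0 ≤ C) (h : J d false a x (η * r) (C * r ^ s)) (hy : ‖y - x‖ ≤ η * r) :
    |a y| ≤ C / η ^ (d + 1) * ‖y - x‖ ^ s := by
  have h0 := (norm_nonneg _).trans hy
  have hr : 0 ≤ r := nonneg_of_mul_nonneg_right h0 hη |> fun h => h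
  refine (((J.false_iff h0).1 h).2 y hy).trans ?_
  have h1 := ratio_pow_le (d := d) H.pos H.2 (norm_nonneg (y - x))
    (hy.trans (mul_le_of_le_one_left hr hη1))
  rw [mul_comm η r, ← div_div, div_pow _ η, show C * r ^ s * ((‖y - x‖ / r) ^ (d + 1) / η ^ (d + 1))
    = C / η ^ (d + 1) * (r ^ s * (‖y - x‖ / r) ^ (d + 1)) by ring]
  gcongr

lemma mkjet (H : Hs d s) {V κ : Type} [Fintype V] (G : V → CF n d s) {σ : κ → E n → ℝ}
    (hσ : ∀ k, Lip1 (σ k)) {ϑ : κ → ℝ} (hϑ : ∀ k, 0 ≤ ϑ k) {coef : κ → V → E n → ℝ} {B : ℝ}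
    (hb : ∀ k v y, |coef k v y| ≤ B * ϑ k)
    (h1 : TN d true (fun p : κ × E n => p.2) (fun p => σ p.1 p.2)
      (fun p y => ∑ v, coef p.1 v y * (G v).P p.2 y) (fun p => ϑ p.1 * σ p.1 p.2 ^ s)) :
    ∃ q : κ → E n → E n → ℝ, (∀ k x, q k x ∈ Pd n d) ∧
      TN d false (fun p : κ × E n => p.2) (fun p => σ p.1 p.2)
        (fun p y => ∑ v, coef p.1 v y * (G v).P p.2 y - q p.1 p.2 y)
        (fun p => ϑ p.1 * σ p.1 p.2 ^ s) ∧ ∃ C, 0 ≤ C ∧
      (∀ k x y, |∑ v, coef k v y * (G v).f y - q k x y| ≤ C * ϑ k * ‖y - x‖ ^ s) ∧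
      ∀ k x y R, σ k x ≤ R → ‖y - x‖ ≤ R → |q k x y| ≤ C * ϑ k * R ^ s := by
  obtain ⟨C, η, hC, hη, hη1, h⟩ := h1.out one_pos
  have hs := H.pos
  have hK := Kg_pos n d
  choose q q1 q2 q3 using fun k x => (h (k, x)).jet (mul_nonneg hη.le ((hσ k).1 x))
  obtain ⟨C', hC', hG⟩ := CF.fin G
  have a1 : ∀ k x y R, σ k x ≤ R → ‖y - x‖ ≤ R →
      |q k x y| ≤ Kg n d * C / η ^ d * ϑ k * R ^ s := by
    intro k x y R hR hy
    have := hϑ k
    refine (q3 k x y).trans ?_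
    have hR0 := (norm_nonneg _).trans hy
    rcases ((hσ k).1 x).eq_or_lt with h0 | h0
    · simp only [← h0, Real.zero_rpow hs.ne', mul_zero, zero_mul]; positivity
    have h2 : max 1 (‖y - x‖ / (η * σ k x)) ≤ R / σ k x / η := by
      rw [div_div, mul_comm (σ k x)]
      refine max_le ((one_le_div (by positivity)).2 ?_) (by gcongr)
      exact (mul_le_of_le_one_left h0.le hη1).trans hR
    calc _ ≤ Kg n d * (C * (ϑ k * σ k x ^ s)) * (R / σ k x / η) ^ d := by gcongr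
      _ = Kg n d * C / η ^ d * ϑ k * (σ k x ^ s * (R / σ k x) ^ d) := by rw [div_pow _ η]; ring
      _ ≤ _ := by gcongr; exact pow_ratio_le H h0 hR
  have a2 : ∀ k x y, |∑ v, coef k v y * (G v).f y - ∑ v, coef k v y * (G v).P x y| ≤
      Fintype.card V * (|B| * C') * ϑ k * ‖y - x‖ ^ s := by
    intro k x y
    have := hϑ k
    rw [← sum_sub_distrib]
    refine (abs_sum_le_sum_abs _ _).trans ((sum_le_card_nsmul _ _
      ((|B| * ϑ k) * (C' * ‖y - x‖ ^ s)) fun v _ => ?_).trans (le_of_eq (by simp; ring)))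
    rw [← mul_sub, abs_mul]
    refine mul_le_mul ((hb k v y).trans ?_) (hG v x y) (abs_nonneg _) (by positivity)
    gcongr; exact le_abs_self B
  refine ⟨q, q1, ⟨C, η, hC, hη, fun p => ⟨(hσ _).1 _, q2 p.1 p.2⟩⟩,
    Fintype.card V * (|B| * C') + C / η ^ (d + 1) + (2 * C + Kg n d * C / η ^ d) * (1 / η + 1) ^ s +
      Kg n d * C / η ^ d, by positivity, fun k x y => ?_, fun k x y R hR hy => ?_⟩
  · have := hϑ k
    have e1 : 0 ≤ Fintype.card V * (|B| * C') * ϑ k * ‖y - x‖ ^ s := by positivity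
    have e2 : 0 ≤ C / η ^ (d + 1) * ϑ k * ‖y - x‖ ^ s := by positivity
    have e3 : 0 ≤ (2 * C + Kg n d * C / η ^ d) * (1 / η + 1) ^ s * ϑ k * ‖y - x‖ ^ s := by
      positivity
    have e4 : 0 ≤ Kg n d * C / η ^ d * ϑ k * ‖y - x‖ ^ s := by positivity
    simp only [add_mul _ _ (ϑ k), add_mul _ _ (‖y - x‖ ^ s)]
    rcases le_total ‖y - x‖ (η * σ k x) with hy | hy
    · have b1 := J.false_le H hη hη1 (C := C * ϑ k) (by positivity)
        (by rw [mul_assoc]; exact q2 k x) hy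
      have b2 := abs_sub_le (∑ v, coef k v y * (G v).f y) (∑ v, coef k v y * (G v).P x y) (q k x y)
      have b3 := a2 k x y
      rw [mul_div_right_comm] at b1
      linarith
    · have b0 : σ k x ≤ 1 / η * ‖y - x‖ := by
        rw [one_div, ← div_eq_inv_mul, le_div_iff₀ hη]; linarith
      have b1 := a1 k x y ((1 / η + 1) * ‖y - x‖) (by linarith [norm_nonneg (y - x)])
        (le_mul_of_one_le_left (norm_nonneg _) (by have : 0 < 1 / η := by positivity
                                                   linarith))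
      have b2 := (h (k, y)).abs_le (y := y) (by simpa using mul_nonneg hη.le ((hσ k).1 y))
      simp only [CF.center _ hs] at b2
      have b3 : σ k y ^ s ≤ ((1 / η + 1) * ‖y - x‖) ^ s :=
        Real.rpow_le_rpow ((hσ k).1 y) (by linarith [(hσ k).2 y x]) hs.le
      rw [Real.mul_rpow (by positivity) (norm_nonneg _)] at b1 b3
      have b4 := abs_sub (∑ v, coef k v y * (G v).f y) (q k x y)
      have b5 := mul_le_mul_of_nonneg_left b3 (show 0 ≤ 2 * C * ϑ k by positivity)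
      nlinarith
  · refine (a1 k x y R hR hy).trans ?_
    have := hϑ k
    have := (norm_nonneg _).trans hy
    gcongr
    have : 0 ≤ Fintype.card V * (|B| * C') + C / η ^ (d + 1) +
      (2 * C + Kg n d * C / η ^ d) * (1 / η + 1) ^ s := by positivity
    linarith

/-- `u` has size `ρ ^ s` at scale `ρ` -/
def Tame (u : CF n d s) (ρ : E n → ℝ) : Prop :=
  TN d true (fun x => x) ρ u.P (fun x => ρ x ^ s)

lemma mkCF (H : Hs d s) {V : Type} [Fintype V] (G : V → CF n d s) {σ : E n → ℝ}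
    (hσ : Lip1 σ) {coef : V → E n → ℝ} {B : ℝ} (hb : ∀ v y, |coef v y| ≤ B)
    (h1 : TN d true (fun x => x) σ (fun x y => ∑ v, coef v y * (G v).P x y) (fun x => σ x ^ s)) :
    ∃ u : CF n d s, (∀ y, u.f y = ∑ v, coef v y * (G v).f y) ∧ Tame u σ ∧
      TN d false (fun x => x) σ (fun x y => ∑ v, coef v y * (G v).P x y - u.P x y)
        (fun x => σ x ^ s) := by
  obtain ⟨q, q1, q2, C, hC, q3, -⟩ := mkjet H G (κ := Unit) (σ := fun _ => σ) (fun _ => hσ)
    (ϑ := fun _ => 1) (fun _ => zero_le_one) (coef := fun _ => coef) (B := B)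
    (fun _ v y => by simpa using hb v y) (by simpa using h1.comp (Prod.snd : Unit × E n → E n))
  have q4 := q2.comp fun x : E n => ((), x)
  simp only [one_mul] at q4
  exact ⟨⟨fun y => ∑ v, coef v y * (G v).f y, q (), q1 (), C, hC, fun x y => by
    simpa using q3 () x y⟩, fun _ => rfl, (h1.sub q4.weaken).congr' fun x y => by ring, q4⟩

noncomputable def sg (ρ ρ' : E n → ℝ) (k : ℕ) (x : E n) : ℝ := max (ρ x / 2 ^ k) (ρ' x)

structure Sc (ρ ρ' : E n → ℝ) : Prop where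
  l : Lip1 ρ
  l' : Lip1 ρ'
  le : ∀ x, ρ' x ≤ ρ x

section sg
variable {ρ ρ' : E n → ℝ}

lemma Sc.eps_lip (h : Sc ρ ρ') (k : ℕ) (x y : E n) : ρ x / 2 ^ k ≤ ρ y / 2 ^ k + ‖x - y‖ := by
  have h1 : (1 : ℝ) ≤ 2 ^ k := one_le_pow₀ one_le_two
  have h2 : ‖x - y‖ / 2 ^ k ≤ ‖x - y‖ := div_le_self (norm_nonneg _) h1
  have h3 : ρ x / 2 ^ k ≤ (ρ y + ‖x - y‖) / 2 ^ k := by gcongr; exact h.l.2 x y
  rw [add_div] at h3; linarith

lemma Sc.lip (h : Sc ρ ρ') (k : ℕ) : Lip1 (sg ρ ρ' k) :=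
  ⟨fun x => le_max_of_le_right (h.l'.1 x), fun x y => max_le
    ((h.eps_lip k x y).trans (add_le_add_left (le_max_left _ _) _))
    ((h.l'.2 x y).trans (add_le_add_left (le_max_right _ _) _))⟩

lemma Sc.nonneg (h : Sc ρ ρ') (k : ℕ) (x : E n) : 0 ≤ sg ρ ρ' k x := (h.lip k).1 x

lemma Sc.eps_anti (h : Sc ρ ρ') {k l : ℕ} (hk : k ≤ l) (x : E n) : ρ x / 2 ^ l ≤ ρ x / 2 ^ k :=
  div_le_div_of_nonneg_left (h.l.1 x) (by positivity) (pow_le_pow_right₀ one_le_two hk)

lemma Sc.anti (h : Sc ρ ρ') {k l : ℕ} (hk : k ≤ l) (x : E n) : sg ρ ρ' l x ≤ sg ρ ρ' k x :=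
  max_le_max (h.eps_anti hk x) le_rfl

lemma Sc.zero (h : Sc ρ ρ') (x : E n) : sg ρ ρ' 0 x = ρ x := by simp [sg, h.le x]

lemma Sc.le_rho (h : Sc ρ ρ') (k : ℕ) (x : E n) : sg ρ ρ' k x ≤ ρ x :=
  h.zero x ▸ h.anti (Nat.zero_le k) x

lemma Sc.half (h : Sc ρ ρ') (k : ℕ) (x : E n) : sg ρ ρ' k x ≤ 2 * sg ρ ρ' (k + 1) x := by
  refine max_le ?_ ?_
  · have : ρ x / 2 ^ k = 2 * (ρ x / 2 ^ (k + 1)) := by rw [pow_succ]; field_simp
    rw [this]; gcongr; exact le_max_left _ _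
  · have := le_max_right (ρ x / 2 ^ (k + 1)) (ρ' x)
    have := h.l'.1 x
    unfold sg; linarith

end sg

/-- tame at all the scales `sg k` -/
abbrev TK (d : ℕ) (b : Bool) (ρ ρ' : E n → ℝ) (u : ℕ → E n → E n → ℝ) (w : ℕ → E n → ℝ) : Prop :=
  TN d b (fun p : ℕ × E n => p.2) (fun p => sg ρ ρ' p.1 p.2) (fun p => u p.1 p.2)
    (fun p => w p.1 p.2)

lemma TK.succ {b : Bool} {ρ ρ' : E n → ℝ} {u : ℕ → E n → E n → ℝ} (h : Sc ρ ρ')
    (h1 : TK d b ρ ρ' u (fun _ _ => 1)) : TK d b ρ ρ' (fun k => u (k + 1)) (fun _ _ => 1) :=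
  (TN.comp h1 fun p : ℕ × E n => (p.1 + 1, p.2)).mono_r 2 (fun p => h.nonneg _ _)
    fun p => h.half _ _

lemma TK.succ_s (H : Hs d s) {b : Bool} {ρ ρ' : E n → ℝ} {u : ℕ → E n → E n → ℝ} (h : Sc ρ ρ')
    (h1 : TK d b ρ ρ' u (fun k x => sg ρ ρ' k x ^ s)) :
    TK d b ρ ρ' (fun k => u (k + 1)) (fun k x => sg ρ ρ' k x ^ s) :=
  ((TN.comp h1 fun p : ℕ × E n => (p.1 + 1, p.2)).mono_r 2 (fun p => h.nonneg _ _)
    fun p => h.half _ _).mono_w 1 (fun p => by
      rw [one_mul]; exact Real.rpow_le_rpow (h.nonneg _ _) (h.anti (Nat.le_succ _) _) H.pos.le)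
    fun p => Real.rpow_nonneg (h.nonneg _ _) _

/-- multi-scale domination of `u` by the family `g` -/
def MD (θ : ℝ) (ρ ρ' : E n → ℝ) {W : Type} [Fintype W] (u : CF n d s) (g : W → CF n d s) : Prop :=
  ∃ a : ℕ → W → E n → ℝ, (∀ w, TK d true ρ ρ' (fun k _ => a k w) (fun _ _ => 1)) ∧
    (∀ w, TK d true ρ ρ' (fun k _ y => a (k + 1) w y - a k w y) (fun k _ => θ ^ k)) ∧
    TK d true ρ ρ' (fun k x y => u.P x y - ∑ w, a k w y * (g w).P x y)
      (fun k x => sg ρ ρ' k x ^ s) ∧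
    ∀ k w y, 8 * (ρ y / 2 ^ k) < ρ' y → a (k + 1) w y = a k w y

lemma sum_comp_sub {W V : Type} [Fintype W] [Fintype V] (u : ℝ) (a P : W → ℝ) (b : W → V → ℝ)
    (Q : V → ℝ) : u - ∑ w, a w * P w + ∑ w, a w * (P w - ∑ v, b w v * Q v) =
      u - ∑ v, (∑ w, a w * b w v) * Q v := by
  simp only [mul_sub, sum_sub_distrib, mul_sum, sum_mul, mul_assoc]
  rw [sum_comm]; ring

lemma MD.trans {θ : ℝ} (hθ : 0 ≤ θ) {ρ ρ' : E n → ℝ} (h : Sc ρ ρ') {W V : Type} [Fintype W]
    [Fintype V] {u : CF n d s} {g : W → CF n d s} {g' : V → CF n d s} (h1 : MD θ ρ ρ' u g)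
    (h2 : ∀ w, MD θ ρ ρ' (g w) g') : MD θ ρ ρ' u g' := by
  obtain ⟨a, a1, a2, a3, a4⟩ := h1
  choose b b1 b2 b3 b4 using h2
  have hr : ∀ p : ℕ × E n, 0 ≤ sg ρ ρ' p.1 p.2 := fun p => h.nonneg _ _
  refine ⟨fun k v y => ∑ w, a k w y * b w k v y, fun v => ?_, fun v => ?_, ?_, ?_⟩
  · exact TN.sum _ hr (fun _ => zero_le_one) fun w _ => (a1 w).mul1 (b1 w v)
  · refine (TN.sum univ hr (fun _ => by positivity) fun w _ =>
      ((a2 w).mul1' (TK.succ h (b1 w v))).add ((a1 w).mul1 (b2 w v))).congr' fun p y => ?_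
    beta_reduce
    rw [← sum_sub_distrib]
    exact sum_congr rfl fun w _ => by ring
  · exact (a3.add (TN.sum univ hr a3.w_nonneg fun w _ => (a1 w).mul1 (b3 w))).congr'
      fun p y => sum_comp_sub _ _ _ _ _
  · intro k v y hy
    simp only [a4 k _ y hy, b4 _ k _ y hy]

/-- exact local domination of `u` by the family `G` at scale `ρ` -/
def XD (ρ : E n → ℝ) {V : Type} [Fintype V] (u : CF n d s) (G : V → CF n d s) : Prop :=
  ∃ B : V → E n → ℝ, (∀ v, TN d true (fun x : {x // 0 < ρ x} => x.1) (fun x => ρ x.1)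
      (fun _ => B v) (fun _ => 1)) ∧
    TN d false (fun x : {x // 0 < ρ x} => x.1) (fun x => ρ x.1)
      (fun x y => u.P x.1 y - ∑ v, B v y * (G v).P x.1 y) (fun x => ρ x.1 ^ s)

lemma XD.trans {ρ : E n → ℝ} {W V : Type} [Fintype W] [Fintype V] {u : CF n d s}
    {g : W → CF n d s} {g' : V → CF n d s} (h1 : XD ρ u g) (h2 : ∀ w, XD ρ (g w) g') :
    XD ρ u g' := by
  obtain ⟨a, a1, a3⟩ := h1
  choose b b1 b3 using h2
  refine ⟨fun v y => ∑ w, a w y * b w v y, fun v => ?_, ?_⟩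
  · exact TN.sum _ a3.r_nonneg (fun _ => zero_le_one) fun w _ => (a1 w).mul1 (b1 w v)
  · exact (a3.add (TN.sum univ a3.r_nonneg a3.w_nonneg fun w _ => (a1 w).mul1 (b3 w))).congr'
      fun p y => sum_comp_sub _ _ _ _ _

lemma XD.self (ρ : E n → ℝ) {V : Type} [Fintype V] (G : V → CF n d s) (v : V) {u : CF n d s}
    (hu : G v = u) : XD ρ u G := by
  classical
  refine ⟨fun v' _ => if v' = v then 1 else 0, fun v' => TN.const1 (fun x => x.2.le) 1 fun _ => by
    split_ifs <;> simp, (TN.zero (fun x => x.2.le) fun x =>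
      Real.rpow_nonneg x.2.le _).congr' fun x y => by simp [hu]⟩

section rotM
variable {V : Type} [Fintype V] [DecidableEq V]

noncomputable def rotM (ν ν' : V → ℝ) : Matrix V V ℝ :=
  1 - (1 + ν ⬝ᵥ ν')⁻¹ • vecMulVec (ν + ν') (ν + ν') + (2 : ℝ) • vecMulVec ν ν'

variable {ν ν' : V → ℝ}

lemma rotM_mulVec (X : V → ℝ) : rotM ν ν' *ᵥ X =
    X - ((1 + ν ⬝ᵥ ν')⁻¹ * ((ν + ν') ⬝ᵥ X)) • (ν + ν') + (2 * (ν' ⬝ᵥ X)) • ν := by
  simp only [rotM, add_mulVec, sub_mulVec, smul_mulVec, one_mulVec, vecMulVec_mulVec,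
    op_smul_eq_smul, smul_smul]

lemma rotM_apply (h' : ν' ⬝ᵥ ν' = 1) (hc : 1 + ν ⬝ᵥ ν' ≠ 0) : rotM ν ν' *ᵥ ν' = ν := by
  rw [rotM_mulVec, add_dotProduct, h', add_comm _ (1 : ℝ), inv_mul_cancel₀ hc]
  ext v; simp; ring

lemma refl_sq (w : V → ℝ) (c : ℝ) (h : c * (w ⬝ᵥ w) = 2) :
    (1 - c • vecMulVec w w) * (1 - c • vecMulVec w w) = 1 := by
  simp only [mul_sub, sub_mul, mul_one, one_mul, smul_mul_assoc, mul_smul_comm,
    vecMulVec_mul_vecMulVec, vecMulVec_smul, smul_smul]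
  ext i j
  simp only [Matrix.sub_apply, Matrix.smul_apply, smul_eq_mul]
  rw [h]; ring

lemma rotM_orth (h : ν ⬝ᵥ ν = 1) (h' : ν' ⬝ᵥ ν' = 1) (hc : 1 + ν ⬝ᵥ ν' ≠ 0) :
    (rotM ν ν')ᵀ * rotM ν ν' = 1 := by
  have h1 : rotM ν ν' = (1 - (1 + ν ⬝ᵥ ν')⁻¹ • vecMulVec (ν + ν') (ν + ν')) *
      (1 - (2 : ℝ) • vecMulVec ν' ν') := by
    simp only [rotM, mul_sub, sub_mul, mul_one, one_mul, smul_mul_assoc, mul_smul_comm,
      vecMulVec_mul_vecMulVec, vecMulVec_smul, smul_smul, add_dotProduct, h']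
    rw [add_comm _ (1 : ℝ), inv_mul_cancel₀ hc]
    ext i j
    simp only [Matrix.sub_apply, Matrix.add_apply, Matrix.smul_apply, smul_eq_mul,
      vecMulVec_apply, Pi.add_apply]
    ring
  have h2 := refl_sq (ν + ν') (1 + ν ⬝ᵥ ν')⁻¹ (by
    simp only [add_dotProduct, dotProduct_add, h, h', dotProduct_comm ν' ν]
    field_simp; ring)
  have h3 := refl_sq ν' 2 (by rw [h']; ring)
  rw [h1, transpose_mul]
  simp only [transpose_sub, transpose_one, transpose_smul, transpose_vecMulVec]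
  rw [Matrix.mul_assoc, ← Matrix.mul_assoc _ _ (1 - (2 : ℝ) • vecMulVec ν' ν'), h2, one_mul, h3]

lemma rotM_entry (h : ν ⬝ᵥ ν = 1) (hc : 1 + ν ⬝ᵥ ν' ≠ 0) (v v' : V) :
    rotM ν ν' v v' = (1 : Matrix V V ℝ) v v' + (1 + ∑ z, ν z * ν' z)⁻¹ *
      ((ν' v' - ν v') * (2 * ν v) - (ν' v - ν v) * (ν v' + ν' v') +
        (∑ z, (ν' z - ν z) * ν z) * (2 * ν v * ν' v')) := by
  have h1 : ∑ z, (ν' z - ν z) * ν z = ν ⬝ᵥ ν' - 1 := by
    rw [← h]; simp only [dotProduct, ← sum_sub_distrib]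
    exact sum_congr rfl fun z _ => by ring
  rw [h1, show ∑ z, ν z * ν' z = ν ⬝ᵥ ν' from rfl]
  simp only [rotM, Matrix.sub_apply, Matrix.add_apply, Matrix.smul_apply, smul_eq_mul,
    vecMulVec_apply, Pi.add_apply]
  field_simp
  ring

lemma orth_sq {U : Matrix V V ℝ} (h : Uᵀ * U = 1) (X : V → ℝ) :
    ∑ v, (U *ᵥ X) v ^ 2 = ∑ v, X v ^ 2 := by
  have : (U *ᵥ X) ⬝ᵥ (U *ᵥ X) = X ⬝ᵥ X := by
    rw [dotProduct_mulVec, ← mulVec_transpose, mulVec_mulVec, h, one_mulVec]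
  simpa only [dotProduct, sq] using this

lemma orth_inv {U : Matrix V V ℝ} (h : Uᵀ * U = 1) (X : V → ℝ) (v : V) :
    X v = ∑ v', U v' v * (U *ᵥ X) v' := by
  have : X = Uᵀ *ᵥ (U *ᵥ X) := by rw [mulVec_mulVec, h, one_mulVec]
  exact congrFun this v

end rotM

section core
variable {W : Type} [Fintype W] [DecidableEq W]

noncomputable def Useq (ν : ℕ → E n → Option W → ℝ) : ℕ → E n → Matrix (Option W) (Option W) ℝ
  | 0 => fun _ => 1
  | k + 1 => fun y => Useq ν k y * rotM (ν k y) (ν (k + 1) y)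

structure NuOk (θ : ℝ) (ρ ρ' : E n → ℝ) (G : Option W → CF n d s) (ν : ℕ → E n → Option W → ℝ) :
    Prop where
  sc : Sc ρ ρ'
  θ0 : 0 ≤ θ
  θ1 : θ < 1
  unit : ∀ k y, ν k y ⬝ᵥ ν k y = 1
  zero : ∀ y, ν 0 y = Pi.single none 1
  t1 : ∀ v, TK d true ρ ρ' (fun k _ y => ν k y v) (fun _ _ => 1)
  t2 : ∀ v, TK d true ρ ρ' (fun k _ y => ν (k + 1) y v - ν k y v) (fun k _ => θ ^ k)
  t3 : TK d true ρ ρ' (fun k x y => ∑ v, ν k y v * (G v).P x y) (fun k x => sg ρ ρ' k x ^ s)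
  stab : ∀ k y, 8 * (ρ y / 2 ^ k) < ρ' y → ν (k + 1) y = ν k y
  low : ∃ c, 0 < c ∧ ∀ k y, c ≤ 1 + ν k y ⬝ᵥ ν (k + 1) y

variable {θ : ℝ} {ρ ρ' : E n → ℝ} {G : Option W → CF n d s} {ν : ℕ → E n → Option W → ℝ}

lemma NuOk.ne (h : NuOk θ ρ ρ' G ν) (k : ℕ) (y : E n) : 1 + ν k y ⬝ᵥ ν (k + 1) y ≠ 0 := by
  obtain ⟨c, hc, h1⟩ := h.low
  exact (hc.trans_le (h1 k y)).ne'

lemma NuOk.orth (h : NuOk θ ρ ρ' G ν) (k : ℕ) (y : E n) : (Useq ν k y)ᵀ * Useq ν k y = 1 := by
  induction k with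
  | zero => simp [Useq]
  | succ k ih =>
    rw [Useq, transpose_mul, Matrix.mul_assoc, ← Matrix.mul_assoc _ (Useq ν k y), ih, one_mul]
    exact rotM_orth (h.unit _ _) (h.unit _ _) (h.ne k y)

lemma NuOk.U_nu (h : NuOk θ ρ ρ' G ν) (k : ℕ) (y : E n) :
    Useq ν k y *ᵥ ν k y = Pi.single none 1 := by
  induction k with
  | zero => rw [Useq, one_mulVec, h.zero]
  | succ k ih => rw [Useq, ← mulVec_mulVec, rotM_apply (h.unit _ _) (h.ne k y), ih]

lemma NuOk.U_none (h : NuOk θ ρ ρ' G ν) (k : ℕ) (y : E n) (v : Option W) :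
    Useq ν k y none v = ν k y v := by
  rw [orth_inv (h.orth k y) (ν k y) v, h.U_nu]
  simp [Pi.single_apply]

lemma NuOk.hr (h : NuOk θ ρ ρ' G ν) (p : ℕ × E n) : 0 ≤ sg ρ ρ' p.1 p.2 := h.sc.nonneg _ _

lemma NuOk.inv_TK (h : NuOk θ ρ ρ' G ν) :
    TK d true ρ ρ' (fun k _ y => (1 + ∑ z, ν k y z * ν (k + 1) y z)⁻¹) (fun _ _ => 1) := by
  obtain ⟨c, hc, h1⟩ := h.low
  have h2 := ((TN.const1 (c := fun _ => 1) h.hr 1 (fun _ => by simp)).add (TN.sum univ h.hr
    (fun _ => zero_le_one) fun z _ => (h.t1 z).mul1 (TK.succ h.sc (h.t1 z)))).rpow (-1) hc one_pos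
    fun p y _ => h1 p.1 y
  exact h2.congr' fun p y => Real.rpow_neg_one _

lemma NuOk.D_TK (h : NuOk θ ρ ρ' G ν) (v v' : Option W) : TK d true ρ ρ'
    (fun k _ y => rotM (ν k y) (ν (k + 1) y) v v' - (1 : Matrix _ _ ℝ) v v') (fun k _ => θ ^ k) := by
  have two : TK d true ρ ρ' (fun _ _ _ => (2 : ℝ)) (fun _ _ => 1) :=
    TN.const1 h.hr 2 fun _ => by simp
  have t1' := fun v => TK.succ h.sc (h.t1 v)
  refine (h.inv_TK.mul1 ((((h.t2 v').mul1' (two.mul1 (h.t1 v))).sub ((h.t2 v).mul1'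
    ((h.t1 v').add (t1' v')))).add ((TN.sum univ h.hr (h.t2 v).w_nonneg fun z _ =>
      (h.t2 z).mul1' (h.t1 z)).mul1' ((two.mul1 (h.t1 v)).mul1 (t1' v'))))).congr' fun p y => ?_
  beta_reduce
  rw [rotM_entry (h.unit _ _) (h.ne _ _)]; ring

omit [DecidableEq W] in
lemma geom_le (h0 : 0 ≤ θ) (h1 : θ < 1) (k : ℕ) : ∑ l ∈ range k, θ ^ l ≤ (1 - θ)⁻¹ := by
  rw [← tsum_geometric_of_lt_one h0 h1]
  exact (summable_geometric_of_lt_one h0 h1).sum_le_tsum _ fun _ _ => by positivity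

lemma NuOk.U_succ (k : ℕ) (y : E n) (v v' : Option W) : Useq ν (k + 1) y v v' = Useq ν k y v v' +
    ∑ z, Useq ν k y v z * (rotM (ν k y) (ν (k + 1) y) z v' - (1 : Matrix _ _ ℝ) z v') := by
  simp only [mul_sub, sum_sub_distrib, ← Matrix.mul_apply, Useq, mul_one]; ring

lemma NuOk.U_TK (h : NuOk θ ρ ρ' G ν) (v v' : Option W) :
    TK d true ρ ρ' (fun k _ y => Useq ν k y v v') (fun _ _ => 1) := by
  obtain ⟨C, η, hC, hη, h1⟩ := TN.fin h.hr (h.t2 v).w_nonneg
    fun a : Option W × Option W => h.D_TK a.1 a.2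
  have hK := Kg_pos n (d + d)
  have hθ := h.θ0
  obtain ⟨L, hL⟩ : ∃ L, L = Fintype.card (Option W) * ((Kg n (d + d) + 3) * C) := ⟨_, rfl⟩
  have hL0 : 0 ≤ L := by rw [hL]; positivity
  have h2 : ∀ k x v v', J d true (fun y => Useq ν k y v v') x (η * sg ρ ρ' k x)
      (Real.exp (L * ∑ l ∈ range k, θ ^ l)) := by
    intro k
    induction k with
    | zero =>
      intro x v v'
      refine J.const (c := (1 : Matrix _ _ ℝ) v v') ?_
      simp only [Matrix.one_apply]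
      split_ifs <;> simp
    | succ k ih =>
      intro x v v'
      have h0 := mul_nonneg hη.le (h.sc.nonneg k x)
      have h3 := (ih x v v').add (J.sum univ fun z _ => (ih x v z).mul (h1 ((z, v'), (k, x))).2 h0)
      refine (h3.congr fun y _ => (NuOk.U_succ k y v v').symm).mono
        (mul_nonneg hη.le (h.sc.nonneg _ x))
        (mul_le_mul_of_nonneg_left (h.sc.anti (Nat.le_succ k) x) hη.le) ?_
      dsimp only
      rw [sum_range_succ, mul_add, Real.exp_add, sum_const, card_univ, nsmul_eq_mul]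
      have h4 := Real.add_one_le_exp (L * θ ^ k)
      have h5 := Real.exp_pos (L * ∑ l ∈ range k, θ ^ l)
      calc _ = Real.exp (L * ∑ l ∈ range k, θ ^ l) * (L * θ ^ k + 1) := by rw [hL]; ring
        _ ≤ _ := by gcongr
  refine ⟨Real.exp (L * (1 - θ)⁻¹), η, Real.exp_pos _, hη, fun p => ⟨h.hr p,
    (h2 p.1 p.2 v v').mono (mul_nonneg hη.le (h.hr p)) le_rfl ?_⟩⟩
  rw [mul_one]
  exact Real.exp_le_exp.2 (mul_le_mul_of_nonneg_left (geom_le hθ h.θ1 _) hL0)

lemma NuOk.stab' (h : NuOk θ ρ ρ' G ν) {k l : ℕ} {y : E n} (hy : 8 * (ρ y / 2 ^ k) < ρ' y)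
    (hl : k ≤ l) : ν (l + 1) y = ν l y :=
  h.stab l y (by linarith [h.sc.eps_anti hl y])

lemma NuOk.U_stab1 (h : NuOk θ ρ ρ' G ν) {k : ℕ} {y : E n} (hy : 8 * (ρ y / 2 ^ k) < ρ' y) :
    Useq ν (k + 1) y = Useq ν k y := by
  ext v v'
  rw [NuOk.U_succ]
  simp only [rotM_entry (h.unit _ _) (h.ne _ _)]
  simp [h.stab k y hy]

lemma NuOk.U_stab (h : NuOk θ ρ ρ' G ν) {k l : ℕ} {y : E n} (hy : 8 * (ρ y / 2 ^ k) < ρ' y)
    (hl : k ≤ l) : Useq ν l y = Useq ν k y := by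
  induction l, hl using Nat.le_induction with
  | base => rfl
  | succ l hl ih => rw [h.U_stab1 (by linarith [h.sc.eps_anti hl y]), ih]

noncomputable def cf0 (ν : ℕ → E n → Option W → ℝ) (w : W) (l : ℕ) (y : E n) : ℝ :=
  -((∑ z, Useq ν l y (some w) z * (ν (l + 1) y z - ν l y z)) * (1 + ∑ z, ν l y z * ν (l + 1) y z)⁻¹)

lemma NuOk.U_step (h : NuOk θ ρ ρ' G ν) (l : ℕ) (y : E n) (w : W) (X : Option W → ℝ) :
    (Useq ν (l + 1) y *ᵥ X) (some w) = (Useq ν l y *ᵥ X) (some w) +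
      ∑ v, cf0 ν w l y * (ν l y v + ν (l + 1) y v) * X v := by
  have h1 : (Useq ν l y *ᵥ ν l y) (some w) = 0 := by rw [h.U_nu]; simp
  have h2 : ∑ z, Useq ν l y (some w) z * (ν (l + 1) y z - ν l y z) =
      (Useq ν l y *ᵥ ν (l + 1) y) (some w) - (Useq ν l y *ᵥ ν l y) (some w) := by
    simp only [mul_sub, sum_sub_distrib]; rfl
  rw [Useq, ← mulVec_mulVec, rotM_mulVec, cf0, h2]
  simp only [mulVec_add, mulVec_sub, mulVec_smul, Pi.add_apply, Pi.sub_apply, Pi.smul_apply, h1,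
    smul_eq_mul, mul_assoc, ← mul_sum]
  simp only [dotProduct, Pi.add_apply]
  ring

lemma NuOk.U_sum (h : NuOk θ ρ ρ' G ν) (k : ℕ) (y : E n) (w : W) (X : Option W → ℝ) :
    (Useq ν k y *ᵥ X) (some w) = X (some w) +
      ∑ l ∈ range k, ∑ v, cf0 ν w l y * (ν l y v + ν (l + 1) y v) * X v := by
  induction k with
  | zero => simp [Useq]
  | succ k ih => rw [h.U_step, ih, sum_range_succ, add_assoc]

lemma NuOk.cf0_TK (h : NuOk θ ρ ρ' G ν) (w : W) :
    TK d true ρ ρ' (fun k _ => cf0 ν w k) (fun k _ => θ ^ k) :=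
  ((TN.sum univ h.hr (h.t2 none).w_nonneg fun z _ => (h.U_TK (some w) z).mul1 (h.t2 z)).mul1'
    h.inv_TK).neg

lemma TK.center {b : Bool} {u : ℕ → E n → ℝ} {w : ℕ → ℝ} (hs : Sc ρ ρ')
    (h : TK d b ρ ρ' (fun k _ => u k) (fun k _ => w k)) : ∃ B, ∀ k y, |u k y| ≤ B * w k := by
  obtain ⟨C, η, -, hη, h1⟩ := h.bound
  exact ⟨C, fun k y => h1 (k, y) y (by simpa using mul_nonneg hη.le (hs.nonneg k y))⟩

lemma NuOk.new_fun (H : Hs d s) (h : NuOk θ ρ ρ' G ν) (w : W) : ∃ g : CF n d s,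
    (∀ y, Tendsto (fun k => (Useq ν k y *ᵥ fun v => (G v).f y) (some w)) atTop (𝓝 (g.f y))) ∧
    TK d true ρ ρ' (fun k x y => (Useq ν k y *ᵥ fun v => (G v).P x y) (some w) - g.P x y)
      (fun k x => sg ρ ρ' k x ^ s) := by
  have hθ := h.θ0
  have hs := H.pos
  obtain ⟨B, hB⟩ : ∃ B, ∀ l v y, |cf0 ν w l y * (ν l y v + ν (l + 1) y v)| ≤ B * θ ^ l := by
    choose B hB using fun v => TK.center h.sc
      (u := fun l y => cf0 ν w l y * (ν l y v + ν (l + 1) y v))
      ((h.cf0_TK w).mul1' ((h.t1 v).add (TK.succ h.sc (h.t1 v))))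
    refine ⟨∑ v, |B v|, fun l v y => (hB v l y).trans ?_⟩
    gcongr
    exact (le_abs_self _).trans (single_le_sum (f := fun v => |B v|) (fun _ _ => abs_nonneg _)
      (mem_univ v))
  obtain ⟨q, q1, q2, C, hC, q3, q4⟩ := mkjet H G (κ := ℕ) h.sc.lip (ϑ := fun l => θ ^ l)
    (fun l => by positivity) hB (((h.cf0_TK w).mul (h.t3.add (TK.succ_s H h.sc h.t3))).congr'
      fun p y => by
        simp only [← sum_add_distrib, mul_sum]
        exact sum_congr rfl fun v _ => by ring)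
  have hg := summable_geometric_of_lt_one hθ h.θ1
  have s1 : ∀ x y, Summable fun l => q l x y := fun x y =>
    Summable.of_norm_bounded ((hg.mul_left C).mul_right (max (ρ x) ‖y - x‖ ^ s)) fun l =>
      q4 l x y _ ((h.sc.le_rho l x).trans (le_max_left _ _)) (le_max_right _ _)
  obtain ⟨T, hT⟩ : ∃ T : ℕ → E n → ℝ, T = fun l y =>
    ∑ v, cf0 ν w l y * (ν l y v + ν (l + 1) y v) * (G v).f y := ⟨_, rfl⟩
  have q3' : ∀ l x y, |T l y - q l x y| ≤ C * θ ^ l * ‖y - x‖ ^ s := by rw [hT]; exact q3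
  have s2 : ∀ y, Summable fun l => T l y := fun y => by
    refine (s1 y y).congr fun l => ?_
    have := q3' l y y
    simp only [sub_self, norm_zero, Real.zero_rpow hs.ne', mul_zero, abs_nonpos_iff] at this
    linarith
  obtain ⟨C', hC', hG⟩ := (G (some w)).bd
  have hi : 0 < (1 - θ)⁻¹ := inv_pos.2 (by linarith [h.θ1])
  refine ⟨⟨fun y => (G (some w)).f y + ∑' l, T l y, fun x y => (G (some w)).P x y + ∑' l, q l x y,
    fun x => Pd_add ((G _).mem x) (Pd_tsum (fun l => q1 l x) (s1 x)), C' + C * (1 - θ)⁻¹,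
    by positivity, fun x y => ?_⟩, fun y => ?_, ?_⟩
  · rw [add_sub_add_comm, ← (s2 y).tsum_sub (s1 x y), add_mul]
    refine (abs_add_le _ _).trans (add_le_add (hG x y) ?_)
    exact tsum_of_norm_bounded (f := fun l => T l y - q l x y) (((hasSum_geometric_of_lt_one hθ h.θ1).mul_left C).mul_right
      (‖y - x‖ ^ s)) fun l => q3' l x y
  · simp only [h.U_sum]
    refine tendsto_const_nhds.add ?_
    have := (s2 y).hasSum.tendsto_sum_nat
    simpa only [hT] using this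
  obtain ⟨C₁, η, hC₁, hη, hη1, q5⟩ := q2.out one_pos
  refine ⟨C₁ * (1 - θ)⁻¹ + (C * (1 - θ)⁻¹ + 1), η, by positivity, hη, fun p => ⟨h.hr p, ?_⟩⟩
  obtain ⟨k, x⟩ := p
  have h0 := h.sc.nonneg k x
  have a1 := J.sum (range k) fun l hl => J.resc H hη (C := C₁ * θ ^ l) (by positivity)
    (by rw [mul_assoc]; exact q5 (l, x)) h0 (h.sc.anti (mem_range.1 hl).le x)
  have a2 : J d true (fun y => -∑' l, q (l + k) x y) x (η * sg ρ ρ' k x)
      ((C * (1 - θ)⁻¹ + 1) * sg ρ ρ' k x ^ s) := by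
    refine ⟨_, neg_mem (Pd_tsum (fun l => q1 (l + k) x) fun y =>
      (summable_nat_add_iff (f := fun l => q l x y) k).2 (s1 x y)), fun y hy => ⟨?_, ?_⟩⟩
    · rw [Pi.neg_apply, abs_neg]
      refine (tsum_of_norm_bounded (f := fun l => q (l + k) x y) (((hasSum_geometric_of_lt_one hθ h.θ1).mul_left C).mul_right
        (sg ρ ρ' k x ^ s)) fun l => (q4 _ x y _ (h.sc.anti (Nat.le_add_left k l) x)
          (hy.trans (mul_le_of_le_one_left h0 hη1))).trans ?_).trans (by gcongr; linarith)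
      gcongr C * ?_ * _
      exact pow_le_pow_of_le_one hθ h.θ1.le (Nat.le_add_right l k)
    · simp only [Pi.neg_apply, sub_self, abs_zero]; positivity
  refine ((a1.weaken.add a2).congr fun y _ => ?_).mono (mul_nonneg hη.le h0) le_rfl ?_
  · simp only [h.U_sum, sum_sub_distrib]
    rw [← (s1 x y).sum_add_tsum_nat_add k]
    ring
  · rw [add_mul _ (_ + 1), ← sum_mul, ← mul_sum]
    have := geom_le hθ h.θ1 k
    gcongr

lemma Sc.exists_K (h : Sc ρ ρ') : ∃ K : E n → ℕ, ∀ x, 0 < ρ' x → (sg ρ ρ' (K x) x = ρ' x) ∧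
    ∀ y, ‖y - x‖ ≤ 1 / 20 * ρ' x → 0 < ρ' y ∧ 8 * (ρ y / 2 ^ K x) < ρ' y := by
  have : ∀ x, ∃ k : ℕ, 0 < ρ' x → 16 * (ρ x / 2 ^ k) < ρ' x := by
    intro x
    by_cases hx : 0 < ρ' x
    · obtain ⟨k, hk⟩ := pow_unbounded_of_one_lt (16 * ρ x / ρ' x) (one_lt_two (α := ℝ))
      refine ⟨k, fun _ => ?_⟩
      rw [div_lt_iff₀ hx] at hk
      rw [← mul_div_assoc, div_lt_iff₀ (by positivity)]; linarith
    · exact ⟨0, fun h => absurd h hx⟩
  choose K hK using this
  refine ⟨K, fun x hx => ⟨max_eq_right ?_, fun y hy => ?_⟩⟩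
  · have : 0 ≤ ρ x / 2 ^ K x := div_nonneg (h.l.1 x) (by positivity)
    linarith [hK x hx]
  · have := h.eps_lip (K x) y x
    have := h.l'.le' x y
    have := hK x hx
    constructor <;> linarith

lemma NuOk.rot (H : Hs d s) (h : NuOk θ ρ ρ' G ν) : ∃ G' : Option W → CF n d s,
    Tame (G' none) ρ' ∧ (∀ y, ∑ v, (G' v).f y ^ 2 = ∑ v, (G v).f y ^ 2) ∧
    (∀ w, MD θ ρ ρ' (G (some w)) fun w => G' (some w)) ∧ ∀ v, XD ρ' (G v) G' := by
  classical
  have hs := H.pos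
  choose g g1 g2 using h.new_fun H
  obtain ⟨K, hK⟩ := h.sc.exists_K
  have hU : ∀ x y, 0 < ρ' x → ‖y - x‖ ≤ 1 / 20 * ρ' x → Useq ν (K y) y = Useq ν (K x) y := by
    intro x y hx hy
    obtain ⟨h1, h2⟩ := (hK x hx).2 y hy
    have h3 := ((hK y h1).2 y (by simpa using h1.le)).2
    rw [← h.U_stab h2 (le_max_left (K x) (K y)), ← h.U_stab h3 (le_max_right (K x) (K y))]
  have hν : ∀ x y, 0 < ρ' x → ‖y - x‖ ≤ 1 / 20 * ρ' x → ∀ v, ν (K y) y v = ν (K x) y v :=
    fun x y hx hy v => by rw [← h.U_none, hU x y hx hy, h.U_none]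
  have hle : ∀ k x, ρ' x ≤ 1 * sg ρ ρ' k x := fun k x => by
    rw [one_mul]; exact le_max_right _ _
  obtain ⟨m, m1, m2, m3⟩ := mkCF H G h.sc.l' (B := 1)
    (coef := fun v y => if 0 < ρ' y then ν (K y) y v else 0) (fun v y => by
      split_ifs
      · rw [← sq_le_one_iff_abs_le_one, ← h.unit (K y) y, sq]
        exact single_le_sum (f := fun v => ν (K y) y v * ν (K y) y v)
          (fun _ _ => mul_self_nonneg _) (mem_univ v)
      · simp) (by
      have a1 := (TN.comp h.t3 fun x => (K x, x)).mono_r 1 h.sc.l'.1 fun x => hle _ x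
      have a2 := (TN.const (d := d) (x := fun x => x) (c := fun x => if 0 < ρ' x then 1 else 0)
        (w := fun x => if 0 < ρ' x then 1 else 0) h.sc.l'.1
        fun x => by split_ifs <;> simp).mul a1
      refine (a2.mono_w 1 (fun x => ?_) fun x => Real.rpow_nonneg (h.sc.l'.1 x) _).congr
        (η₀ := 1 / 20) (by norm_num) fun x y hy => ?_
      · split_ifs with hx
        · simp [(hK x hx).1]
        · simpa using Real.rpow_nonneg (h.sc.l'.1 x) _
      · by_cases hx : 0 < ρ' x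
        · simp [hx, ((hK x hx).2 y hy).1, hν x y hx hy]
        · have : ρ' x = 0 := le_antisymm (not_lt.1 hx) (h.sc.l'.1 x)
          rw [eq_of_norm_le_zero (by simpa [this] using hy : ‖y - x‖ ≤ 0)]
          simp [hx])
  have hn : ∀ k y (X : Option W → ℝ), (Useq ν k y *ᵥ X) none = ∑ v, ν k y v * X v :=
    fun k y X => by simp only [← h.U_none]; rfl
  have lim : ∀ y v, Tendsto (fun k => (Useq ν k y *ᵥ fun v => (G v).f y) v) atTop
      (𝓝 ((v.elim m g).f y)) := by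
    intro y v
    cases v with
    | some w => exact g1 w y
    | none =>
      simp only [Option.elim, m1]
      by_cases hy : 0 < ρ' y
      · refine tendsto_const_nhds.congr' ?_
        filter_upwards [eventually_ge_atTop (K y)] with k hk
        rw [h.U_stab ((hK y hy).2 y (by simpa using hy.le)).2 hk, hn]
        simp [hy]
      · obtain ⟨C, η, hC, hη, h1⟩ := h.t3.bound
        simp only [hy, if_false, zero_mul, sum_const_zero, hn]
        have h2 : ρ' y = 0 := le_antisymm (not_lt.1 hy) (h.sc.l'.1 y)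
        refine squeeze_zero_norm (a := fun k => C * (ρ y * (1 / 2) ^ k) ^ s) (fun k => ?_) ?_
        · have := h1 (k, y) y (by simpa using mul_nonneg hη.le (h.sc.nonneg k y))
          simp only [CF.center _ hs, sg, h2] at this
          rwa [max_eq_left (div_nonneg (h.sc.l.1 y) (by positivity)), div_eq_mul_one_div,
            ← _root_.one_div_pow] at this
        · have h3 := (tendsto_pow_atTop_nhds_zero_of_lt_one (r := (1 / 2 : ℝ)) (by norm_num)
            (by norm_num)).const_mul (ρ y)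
          have := (h3.rpow_const (p := s) (Or.inr hs.le)).const_mul C
          simpa [Real.zero_rpow hs.ne'] using this
  refine ⟨fun v => v.elim m g, m2, fun y => ?_, fun w => ?_, fun v => ?_⟩
  · refine tendsto_nhds_unique (tendsto_finsetSum _ fun v _ => (lim y v).pow 2) ?_
    simp only [orth_sq (h.orth _ y)]
    exact tendsto_const_nhds
  · refine ⟨fun k w' y => Useq ν k y (some w') (some w), fun w' => h.U_TK _ _, fun w' => ?_, ?_,
      fun k w' y hy => by beta_reduce; rw [h.U_stab1 hy]⟩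
    · refine (TN.sum univ h.hr (h.t2 none).w_nonneg fun z _ =>
        (h.U_TK (some w') z).mul1 (h.D_TK z (some w))).congr' fun p y => ?_
      beta_reduce
      rw [NuOk.U_succ]; ring
    · refine ((TN.sum univ h.hr h.t3.w_nonneg fun w' _ => (h.U_TK (some w') (some w)).mul1
        (g2 w')).add ((h.U_TK none (some w)).mul1 h.t3)).congr' fun p y => ?_
      beta_reduce
      rw [orth_inv (h.orth p.1 y) (fun v => (G v).P p.2 y) (some w),
        Fintype.sum_option (fun v' => Useq ν p.1 y v' (some w) * _), hn]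
      simp only [mul_sub, sum_sub_distrib, Option.elim]
      ring
  · have hr : ∀ x : {x // 0 < ρ' x}, 0 ≤ ρ' x.1 := fun x => x.2.le
    have hw : ∀ x : {x // 0 < ρ' x}, 0 ≤ ρ' x.1 ^ s := fun x => Real.rpow_nonneg x.2.le _
    have a1 : ∀ v v', TN d true (fun x : {x // 0 < ρ' x} => x.1) (fun x => ρ' x.1)
        (fun x y => Useq ν (K x) y v v') (fun _ => 1) := fun v v' =>
      (TN.comp (h.U_TK v v') fun x : {x // 0 < ρ' x} => (K x, x.1)).mono_r 1 hr fun x => hle _ _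
    have a2 : ∀ v', TN d false (fun x : {x // 0 < ρ' x} => x.1) (fun x => ρ' x.1)
        (fun x y => (Useq ν (K x) y *ᵥ fun v => (G v).P x y) v' - (v'.elim m g).P x y)
        (fun x => ρ' x.1 ^ s) := by
      intro v'
      cases v' with
      | none =>
        refine (m3.comp Subtype.val).congr (η₀ := 1 / 20) (by norm_num) fun x y hy => ?_
        simp [hn, ((hK x x.2).2 y hy).1, hν x y x.2 hy]
      | some w =>
        have a3 := ((TN.comp (g2 w) fun x : {x // 0 < ρ' x} => (K x, x.1)).mono_r 1 hr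
          fun x => hle _ _).mono_w 1 (fun x => by simp [(hK x x.2).1]) hw
        obtain ⟨C, η, hC, hη, h1⟩ := (TN.fin hr (fun _ => zero_le_one) (a1 (some w))).bound
        obtain ⟨C', hC', hG⟩ := CF.fin G
        obtain ⟨C'', hC'', hg⟩ := (g w).bd
        refine a3.to_false H.1 H.2 (lt_min hη (by norm_num : (0 : ℝ) < 1 / 20)) fun x =>
          ⟨Fintype.card (Option W) * (C * C') + C'', fun y hy => ?_⟩
        have hy1 := hy.trans (mul_le_mul_of_nonneg_right (min_le_left _ _) (hr x))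
        have hy2 := hy.trans (mul_le_mul_of_nonneg_right (min_le_right _ _) (hr x))
        have a4 : (g w).f y = (Useq ν (K x) y *ᵥ fun v => (G v).f y) (some w) := by
          refine tendsto_nhds_unique (g1 w y) (tendsto_const_nhds.congr' ?_)
          filter_upwards [eventually_ge_atTop (K x)] with k hk
          rw [h.U_stab ((hK x x.2).2 y hy2).2 hk]
        have a5 : |(g w).f y - (Useq ν (K x) y *ᵥ fun v => (G v).P x y) (some w)| ≤
            Fintype.card (Option W) * (C * C') * ‖y - x‖ ^ s := by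
          rw [a4]
          simp only [mulVec, dotProduct, ← sum_sub_distrib, ← mul_sub]
          refine (abs_sum_le_sum_abs _ _).trans ((sum_le_card_nsmul _ _ (C * (C' * ‖y - x‖ ^ s))
            fun v _ => ?_).trans (le_of_eq (by rw [card_univ, nsmul_eq_mul]; ring)))
          rw [abs_mul]
          exact mul_le_mul (by simpa using h1 (v, x) y hy1) (hG v x y) (abs_nonneg _) hC.le
        have a6 := abs_sub_le ((Useq ν (K x) y *ᵥ fun v => (G v).P x y) (some w)) ((g w).f y)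
          ((g w).P x y)
        rw [abs_sub_comm _ ((g w).f y)] at a6
        have := hg x y
        simp only [Option.elim]
        linarith
    refine ⟨fun v' y => Useq ν (K y) y v' v, fun v' => (a1 v' v).congr (η₀ := 1 / 20)
      (by norm_num) fun x y hy => by beta_reduce; rw [hU x y x.2 hy], (TN.sum univ hr hw fun v' _ =>
        (a1 v' v).mul1 (a2 v')).congr (η₀ := 1 / 20) (by norm_num) fun x y hy => ?_⟩
    beta_reduce
    rw [orth_inv (h.orth (K x) y) (fun v => (G v).P x y) v, hU x y x.2 hy]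
    simp only [mul_sub, sum_sub_distrib]

lemma MD.nu (H : Hs d s) (h0 : 0 ≤ θ) (h1 : θ < 1) (hs : Sc ρ ρ') {u : CF n d s} {g : W → CF n d s}
    (ht : Tame u ρ) (hm : MD θ ρ ρ' u g) : ∃ ν, NuOk θ ρ ρ' (fun v => v.elim u g) ν := by
  obtain ⟨a, a1, a2, a3, a4⟩ := hm
  have hr : ∀ p : ℕ × E n, 0 ≤ sg ρ ρ' p.1 p.2 := fun p => hs.nonneg _ _
  obtain ⟨c, hc⟩ : ∃ c : ℕ → ℝ, c = fun k => if k = 0 then 0 else 1 := ⟨_, rfl⟩
  obtain ⟨μ, hμ⟩ : ∃ μ : ℕ → E n → Option W → ℝ,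
    μ = fun k y v => v.elim 1 fun w => -(c k * a k w y) := ⟨_, rfl⟩
  have c1 : TK d true ρ ρ' (fun k _ _ => c k) (fun _ _ => 1) :=
    TN.const1 hr 1 fun p => by rw [hc]; dsimp only; split_ifs <;> simp
  have c2 : ∀ k, c (k + 1) = 1 := fun k => by simp [hc]
  have m1 : ∀ v, TK d true ρ ρ' (fun k _ y => μ k y v) (fun _ _ => 1) := by
    intro v; rw [hμ]
    cases v with
    | none => exact TN.const1 (c := fun _ => 1) hr 1 fun _ => by simp
    | some w => exact (c1.mul1 (a1 w)).neg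
  have m2 : ∀ v, TK d true ρ ρ' (fun k _ y => μ (k + 1) y v - μ k y v) (fun k _ => θ ^ k) := by
    intro v; rw [hμ]
    cases v with
    | none => exact (TN.zero hr fun _ => by positivity).congr' fun _ _ => by simp
    | some w =>
      refine ((a2 w).add ((TN.const (c := fun p : ℕ × E n => 1 - c p.1) hr fun p => ?_).mul1'
        (a1 w))).neg.congr' fun p y => by simp only [Option.elim, c2]; ring
      rw [hc]; dsimp only; split_ifs with h
      · simp [h]
      · simp only [sub_self, abs_zero]; positivity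
  have m3 : TK d true ρ ρ' (fun k x y => ∑ v, μ k y v * (v.elim u g).P x y)
      (fun k x => sg ρ ρ' k x ^ s) := by
    have b1 := (TN.const (c := fun p : ℕ × E n => 1 - c p.1) (w := fun p => |1 - c p.1|) hr
      fun _ => le_rfl).mul ((TN.comp ht Prod.snd).mono_r 1 hr fun p => by
        simpa using hs.le_rho _ _)
    refine ((c1.mul1 a3).add (b1.mono_w 1 (fun p => ?_) a3.w_nonneg)).congr' fun p y => ?_
    · rw [hc]; dsimp only; split_ifs with h
      · simp [h, hs.zero]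
      · simpa using a3.w_nonneg p
    · simp only [hμ, Fintype.sum_option, Option.elim, mul_sub, mul_sum, neg_mul, sum_neg_distrib,
        mul_assoc]
      ring
  obtain ⟨S, hS⟩ : ∃ S : ℕ → E n → ℝ, S = fun k y => ∑ v, μ k y v ^ 2 := ⟨_, rfl⟩
  have S1 : ∀ k y, 1 ≤ S k y := fun k y => by
    have := single_le_sum (f := fun v => μ k y v ^ 2) (fun _ _ => sq_nonneg _) (mem_univ none)
    rw [hS]; simpa [hμ] using this
  have S0 : ∀ k y, 0 < S k y := fun k y => one_pos.trans_le (S1 k y)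
  have S2 : TK d true ρ ρ' (fun k _ => S k) (fun _ _ => 1) := by
    rw [hS]; exact TN.sum univ hr (fun _ => zero_le_one) fun v _ => (m1 v).pow 2
  have S3 := S2.rpow (-(1 / 2)) one_pos one_pos fun p y _ => S1 p.1 y
  have S4 := S2.rpow (1 / 2) one_pos one_pos fun p y _ => S1 p.1 y
  have A1 : ∀ k y, 1 ≤ S k y ^ (1 / 2 : ℝ) := fun k y => Real.one_le_rpow (S1 k y) (by norm_num)
  have A2 : ∀ k y, S k y = (S k y ^ (1 / 2 : ℝ)) ^ 2 := fun k y => by
    rw [← Real.rpow_natCast, ← Real.rpow_mul (S0 k y).le]; norm_num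
  have S5 := (TN.add S4 (TK.succ (u := fun k _ y => S k y ^ (1 / 2 : ℝ)) hs S4)).rpow (-1) one_pos
    one_pos fun p y _ => by linarith [A1 p.1 y, A1 (p.1 + 1) y]
  have S6 := TK.succ (u := fun k _ y => S k y ^ (-(1 / 2) : ℝ)) hs S3
  have S7 : TK d true ρ ρ' (fun k _ y => S (k + 1) y ^ (-(1 / 2) : ℝ) - S k y ^ (-(1 / 2) : ℝ))
      (fun k _ => θ ^ k) := by
    refine ((TN.sum univ hr (m2 none).w_nonneg fun v _ => (m2 v).mul1' ((TK.succ hs (m1 v)).add
      (m1 v))).neg.mul1' ((TN.mul1 S3 S6).mul1 S5)).congr' fun p y => ?_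
    have e1 : ∑ v, (μ (p.1 + 1) y v - μ p.1 y v) * (μ (p.1 + 1) y v + μ p.1 y v) =
        S (p.1 + 1) y - S p.1 y := by
      simp only [hS, ← sum_sub_distrib]; exact sum_congr rfl fun v _ => by ring
    beta_reduce
    rw [e1, Real.rpow_neg (S0 _ _).le, Real.rpow_neg (S0 _ _).le, Real.rpow_neg_one]
    have e2 := A1 p.1 y
    have e3 := A1 (p.1 + 1) y
    have e4 := A2 p.1 y
    have e5 := A2 (p.1 + 1) y
    generalize S p.1 y ^ (1 / 2 : ℝ) = A at *
    generalize S (p.1 + 1) y ^ (1 / 2 : ℝ) = A' at *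
    rw [e4, e5]
    field_simp
    ring
  have un : ∀ k y, (fun v => μ k y v * S k y ^ (-(1 / 2) : ℝ)) ⬝ᵥ
      (fun v => μ k y v * S k y ^ (-(1 / 2) : ℝ)) = 1 := fun k y => by
    have e1 : ∀ v, μ k y v * S k y ^ (-(1 / 2) : ℝ) * (μ k y v * S k y ^ (-(1 / 2) : ℝ)) =
        μ k y v ^ 2 * (S k y)⁻¹ := fun v => by
      rw [Real.rpow_neg (S0 _ _).le]
      conv_rhs => rw [A2 k y]
      rw [← inv_pow]; ring
    simp only [dotProduct, e1, ← sum_mul]
    have := (S0 k y).ne'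
    rw [hS] at this ⊢
    exact mul_inv_cancel₀ this
  refine ⟨fun k y v => μ k y v * S k y ^ (-(1 / 2) : ℝ), hs, h0, h1, un, fun y => ?_,
    fun v => (m1 v).mul1 S3, fun v => ?_, ?_, fun k y hy => ?_, ?_⟩
  · ext v
    cases v <;> simp [hS, hμ, hc]
  · exact (((m2 v).mul1' S6).add ((m1 v).mul1 S7)).congr' fun p y => by ring
  · exact (TN.mul1 S3 m3).congr' fun p y => by
      simp only [mul_sum]; exact sum_congr rfl fun v _ => by ring
  · have e1 : k ≠ 0 := by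
      rintro rfl
      have := hs.le y
      have := hs.l.1 y
      simp at hy; linarith
    have e2 : μ (k + 1) y = μ k y := by
      ext v; cases v <;> simp [hμ, hc, e1, a4 k _ y hy]
    simp only [hS, e2]
  · obtain ⟨B, hB⟩ := TK.center hs (u := fun k y => S k y ^ (1 / 2 : ℝ)) (w := fun _ => 1) S4
    have e0 : ∀ k y, (|B| + 1)⁻¹ ≤ S k y ^ (-(1 / 2) : ℝ) := fun k y => by
      rw [Real.rpow_neg (S0 _ _).le]
      refine inv_anti₀ (by linarith [A1 k y]) ?_
      linarith [hB k y, le_abs_self B, le_abs_self (S k y ^ (1 / 2 : ℝ))]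
    have e2 : 0 < (|B| + 1)⁻¹ := by positivity
    refine ⟨(|B| + 1)⁻¹ ^ 2, by positivity, fun k y => ?_⟩
    have e3 := un k y
    have e4 := un (k + 1) y
    have e5 := single_le_sum (f := fun v => (μ k y v * S k y ^ (-(1 / 2) : ℝ) +
      μ (k + 1) y v * S (k + 1) y ^ (-(1 / 2) : ℝ)) ^ 2) (fun _ _ => sq_nonneg _) (mem_univ none)
    simp only [add_sq, sum_add_distrib, mul_assoc (2 : ℝ), ← mul_sum] at e5
    simp only [dotProduct, ← sq] at e3 e4 ⊢
    rw [e3, e4] at e5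
    have e6 : ∀ k, μ k y none = 1 := fun k => by simp [hμ]
    simp only [e6, one_mul] at e5
    nlinarith [e0 k y, e0 (k + 1) y, mul_le_mul (e0 k y) (e0 (k + 1) y) e2.le
      (e2.le.trans (e0 k y)), sq_nonneg (S k y ^ (-(1 / 2) : ℝ)),
      sq_nonneg (S (k + 1) y ^ (-(1 / 2) : ℝ))]

lemma rotall (H : Hs d s) (h0 : 0 ≤ θ) (h1 : θ < 1) (hs : Sc ρ ρ') (m : ℕ) :
    ∀ (g : W → CF n d s) (h : Fin m → CF n d s), (∀ i, Tame (h i) ρ) → (∀ i, MD θ ρ ρ' (h i) g) →
    ∃ (g' : W → CF n d s) (h' : Fin m → CF n d s), (∀ i, Tame (h' i) ρ') ∧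
      (∀ y, ∑ w, (g' w).f y ^ 2 + ∑ i, (h' i).f y ^ 2 = ∑ w, (g w).f y ^ 2 + ∑ i, (h i).f y ^ 2) ∧
      ∀ v, XD ρ' (Sum.elim g h v) (Sum.elim g' h') := by
  induction m with
  | zero => exact fun g h _ _ => ⟨g, h, fun i => i.elim0, fun _ => rfl, fun v => XD.self _ _ v rfl⟩
  | succ m ih =>
    intro g h ht hm
    obtain ⟨ν, hν⟩ := (hm 0).nu H h0 h1 hs (ht 0)
    obtain ⟨G', G1, G2, G3, G4⟩ := hν.rot H
    obtain ⟨g', h', b1, b2, b3⟩ := ih (fun w => G' (some w)) (fun i => h i.succ) (fun i => ht _)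
      fun i => (hm i.succ).trans h0 hs G3
    have emb : ∀ v, XD ρ' (Sum.elim g' h' v) (Sum.elim g' (Fin.cons (G' none) h' : Fin (m + 1) → _)) := by
      rintro (w | i)
      · exact XD.self _ _ (Sum.inl w) rfl
      · exact XD.self _ _ (Sum.inr i.succ) rfl
    have e1 : ∀ v, XD ρ' (G' v) (Sum.elim g' (Fin.cons (G' none) h' : Fin (m + 1) → _)) := by
      rintro (_ | w)
      · exact XD.self _ _ (Sum.inr 0) rfl
      · exact (b3 (Sum.inl w)).trans emb
    refine ⟨g', Fin.cons (G' none) h', fun i => Fin.cases G1 b1 i, fun y => ?_, ?_⟩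
    · have := G2 y
      have := b2 y
      simp only [Fintype.sum_option, Option.elim, Fin.sum_univ_succ, Fin.cons_zero,
        Fin.cons_succ] at *
      linarith
    · rintro (w | i)
      · exact (G4 (some w)).trans e1
      · refine Fin.cases ((G4 none).trans e1) (fun i => (b3 (Sum.inr i)).trans emb) i

end core

end Pool.Agent.Lib.MP_ca9be0_an.PyF
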