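import Pool.Agent.Lib.MP_ca9be0_an.FinB

/-! The level step, the cutting step and the main induction. -/

namespace Pool.Agent.Lib.MP_ca9be0_an.PyF

open Finset Filter Topology

variable {n d j : ℕ} {s : ℝ}

/-- quantitative independence of the functions `τ m` on a ball -/
def Low (s : ℝ) (τ : Fin j → E n → ℝ) (x : E n) (r K : ℝ) : Prop :=
  ∀ t : Fin j → ℝ, ∃ y, ‖y - x‖ ≤ r ∧ K * ‖t‖ * r ^ s ≤ |∑ m, t m * τ m y|

lemma abs_comb_le (t : Fin j → ℝ) (a : Fin j → ℝ) {B : ℝ} (h : ∀ m, |a m| ≤ B) :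
    |∑ m, t m * a m| ≤ j * (‖t‖ * B) := by
  refine (abs_sum_le_sum_abs _ _).trans ((sum_le_card_nsmul _ _ (‖t‖ * B) fun m _ => ?_).trans
    (by simp))
  rw [abs_mul]
  exact mul_le_mul (norm_le_pi_norm t m) (h m) (abs_nonneg _) (norm_nonneg _)

lemma Low.sub {τ τ' : Fin j → E n → ℝ} {x : E n} {r K e : ℝ} (h : Low s τ x r K)
    (he : ∀ m, PB (fun y => τ m y - τ' m y) x r (e * r ^ s)) : Low s τ' x r (K - j * e) := by
  intro t
  obtain ⟨y, hy, h1⟩ := h t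
  refine ⟨y, hy, ?_⟩
  have h2 := abs_comb_le t (fun m => τ m y - τ' m y) fun m => he m y hy
  simp only [mul_sub, sum_sub_distrib] at h2
  have h3 := abs_sub_abs_le_abs_sub (∑ m, t m * τ m y) (∑ m, t m * τ' m y)
  nlinarith

lemma comb_mem {τ : Fin j → E n → ℝ} (hτ : ∀ m, τ m ∈ Pd n d) (t : Fin j → ℝ) :
    (fun y => ∑ m, t m * τ m y) ∈ Pd n d := Pd_sum _ fun m _ => Pd_smul _ (hτ m)

lemma Low.shrink {τ : Fin j → E n → ℝ} {x : E n} {r R c L : ℝ} (h : Low s τ x R c)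
    (hτ : ∀ m, τ m ∈ Pd n d) (hr : 0 < r) (hR : r ≤ R) (hc : 0 < c)
    (hL : Kg n d * L * (r / R) ^ (s - d) ≤ c / 2) : Low s τ x r L := by
  intro t
  by_contra h1
  push Not at h1
  have h2 : PB (fun y => ∑ m, t m * τ m y) x r (L * ‖t‖ * r ^ s) := fun y hy => (h1 y hy).le
  obtain ⟨y, hy, h3⟩ := h t
  have h4 := h3.trans (h2.grow_s (comb_mem hτ t) hr hR y hy)
  have h5 := Real.rpow_pos_of_pos (hr.trans_le hR) s
  have h6 := mul_le_mul_of_nonneg_right hL (mul_nonneg (norm_nonneg t) h5.le)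
  have h7 : ‖t‖ * (c * R ^ s) ≤ 0 := by nlinarith
  have h8 : ‖t‖ = 0 := le_antisymm (nonpos_of_mul_nonpos_left h7 (by positivity)) (norm_nonneg t)
  have h9 := h1 x (by simpa using hr.le)
  rw [h8] at h9
  linarith [abs_nonneg (∑ m, t m * τ m x)]

lemma Low.mono {τ : Fin j → E n → ℝ} {x : E n} {r K K' : ℝ} (h : Low s τ x r K) (hK : K' ≤ K) :
    Low s τ x r K' := fun t => by
  obtain ⟨y, hy, h1⟩ := h t
  have := (norm_nonneg _).trans hy
  exact ⟨y, hy, le_trans (by gcongr) h1⟩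

lemma Low.recenter {τ : Fin j → E n → ℝ} {x x' : E n} {r K : ℝ} (h : Low s τ x' r K)
    (hx : ‖x - x'‖ ≤ r) : Low s τ x (2 * r) (K / 2 ^ s) := fun t => by
  obtain ⟨y, hy, h1⟩ := h t
  refine ⟨y, ?_, le_trans (le_of_eq ?_) h1⟩
  · have := norm_sub_le_norm_sub_add_norm_sub y x' x
    rw [norm_sub_rev x' x] at this; linarith
  · rw [Real.mul_rpow zero_le_two ((norm_nonneg _).trans hy)]; field_simp

lemma Low.le_finrank {τ : Fin j → E n → ℝ} {x : E n} {r K : ℝ} (h : Low s τ x r K) (hr : 0 < r)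
    (hK : 0 < K) (hτ : ∀ m, τ m ∈ Pd n d) : j ≤ (n + d).choose d := by
  have h1 : LinearIndependent ℝ fun m => (⟨τ m, hτ m⟩ : Pd n d) := by
    rw [Fintype.linearIndependent_iff]
    intro t ht m
    obtain ⟨y, -, h1⟩ := h t
    have h2 : ∑ m, t m * τ m y = 0 := by
      simpa using congrFun (congrArg Subtype.val ht) y
    rw [h2, abs_zero, mul_comm K, mul_assoc] at h1
    have := Real.rpow_pos_of_pos hr s
    have h3 : ‖t‖ ≤ 0 := nonpos_of_mul_nonpos_left h1 (by positivity)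
    rw [norm_le_zero_iff] at h3
    simp [h3]
  simpa using h1.fintype_card_le_finrank.trans (finrank_Pd n d)

lemma small_pow (B : ℝ) {c β : ℝ} (hc : 0 < c) (hβ : 0 < β) :
    ∃ κ₀, 0 < κ₀ ∧ κ₀ ≤ 1 ∧ ∀ κ, 0 ≤ κ → κ ≤ κ₀ → B * κ ^ β ≤ c := by
  refine ⟨min 1 ((c / (|B| + 1)) ^ β⁻¹), by positivity, min_le_left _ _, fun κ h0 h1 => ?_⟩
  have h2 : κ ^ β ≤ c / (|B| + 1) := by
    rw [← Real.rpow_inv_rpow (x := c / (|B| + 1)) (by positivity) hβ.ne']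
    exact Real.rpow_le_rpow h0 (h1.trans (min_le_right _ _)) hβ.le
  rw [le_div_iff₀ (by positivity)] at h2
  nlinarith [le_abs_self B, Real.rpow_nonneg h0 β]

abbrev Pr (ρ : E n → ℝ) (η : ℝ) := {p : E n × E n // 0 < ρ p.1 ∧ ‖p.2 - p.1‖ ≤ η * ρ p.1}

/-- tame combinations `A z m` of the family `G` near `z`, with jets `τ z x m` -/
structure Fr (ρ : E n → ℝ) (η : ℝ) {V : Type} [Fintype V] (G : V → CF n d s)
    (A : E n → Fin j → V → E n → ℝ) (τ : E n → E n → Fin j → E n → ℝ) : Prop where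
  tA : ∀ m v, TN d true (fun p : Pr ρ η => p.1.2) (fun p => ρ p.1.1) (fun p => A p.1.1 m v)
    (fun _ => 1)
  mem : ∀ (p : Pr ρ η) m, τ p.1.1 p.1.2 m ∈ Pd n d
  tτ : ∀ m, TN d false (fun p : Pr ρ η => p.1.2) (fun p => ρ p.1.1)
    (fun p y => ∑ v, A p.1.1 m v y * (G v).P p.1.2 y - τ p.1.1 p.1.2 m y) (fun p => ρ p.1.1 ^ s)

def Rank (j : ℕ) {V : Type} [Fintype V] (G : V → CF n d s) (ρ : E n → ℝ) : Prop :=
  ∃ η K : ℝ, 0 < η ∧ η ≤ 1 / 2 ∧ 0 < K ∧ ∃ (A : E n → Fin j → V → E n → ℝ)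
    (τ : E n → E n → Fin j → E n → ℝ), Fr ρ η G A τ ∧
      ∀ p : Pr ρ η, Low s (τ p.1.1 p.1.2) p.1.2 (ρ p.1.1) K

def PRank (j : ℕ) {V : Type} [Fintype V] (G : V → CF n d s) (ρ : E n → ℝ) : Prop :=
  ∃ (A : E n → Fin j → V → E n → ℝ) (τ : E n → E n → Fin j → E n → ℝ), Fr ρ (1 / 2) G A τ ∧
    ∀ L : ℝ, ∃ δ₀, 0 < δ₀ ∧ ∀ δ, 0 < δ → δ ≤ δ₀ →
      ∀ p : Pr ρ (1 / 2), Low s (τ p.1.1 p.1.2) p.1.2 (δ * ρ p.1.1) L

section level
variable {ρ ρ' : E n → ℝ} {η : ℝ} {V W : Type} [Fintype V] [Fintype W]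

lemma PRank.trans (H : Hs d s) (hρ : Lip1 ρ) {G : V → CF n d s} {G' : W → CF n d s}
    (h : PRank j G ρ) (hx : ∀ v, XD ρ (G v) G') : PRank j G' ρ := by
  obtain ⟨A, τ, hF, hL⟩ := h
  choose B B1 B2 using hx
  have h1 : ∀ p : Pr ρ (1 / 2), ρ p.1.1 ≤ 2 * ρ p.1.2 := fun p => by
    linarith [hρ.le' p.1.1 p.1.2, p.2.2]
  let f : Pr ρ (1 / 2) → {x // 0 < ρ x} := fun p => ⟨p.1.2, by linarith [h1 p, p.2.1]⟩
  have hr : ∀ p : Pr ρ (1 / 2), 0 ≤ ρ p.1.1 := fun p => p.2.1.le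
  refine ⟨fun z m w y => ∑ v, A z m v y * B v w y, τ, ⟨fun m w => ?_, hF.mem, fun m => ?_⟩, hL⟩
  · exact TN.sum _ hr (fun _ => zero_le_one) fun v _ =>
      (hF.tA m v).mul1 (((B1 v w).comp f).mono_r 2 hr h1)
  · refine ((hF.tτ m).sub (TN.sum univ hr (hF.tτ m).w_nonneg fun v _ => (hF.tA m v).mul1
      (((B2 v).comp f).resc H.pos H.2 2 two_pos hr h1))).congr' fun p y => ?_
    have := sum_comp_sub 0 (fun v => A p.1.1 m v y) (fun v => (G v).P p.1.2 y)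
      (fun v w => B v w y) (fun w => (G' w).P p.1.2 y)
    simp only [f] at *
    linarith

lemma Fr.lw (H : Hs d s) {G : V → CF n d s} {A : E n → Fin j → V → E n → ℝ}
    {τ : E n → E n → Fin j → E n → ℝ} (h : Fr ρ η G A τ) : ∃ η₁ C : ℝ, 0 < η₁ ∧ 0 ≤ C ∧
      ∀ z x x' Λ m, 0 < ρ z → ‖x - z‖ ≤ η * ρ z → ‖x' - z‖ ≤ η * ρ z → ‖x - x'‖ ≤ Λ →
        2 * Λ ≤ η₁ * ρ z → PB (fun y => τ z x m y - τ z x' m y) x Λ (C * Λ ^ s) := by
  have hr : ∀ p : Pr ρ η, 0 ≤ ρ p.1.1 := fun p => p.2.1.le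
  obtain ⟨C₁, η₁, hC₁, hη₁, h1⟩ := (TN.fin hr (fun _ => zero_le_one)
    fun a : Fin j × V => h.tA a.1 a.2).bound
  obtain ⟨C₂, η₂, hC₂, hη₂, hle, h2⟩ := (TN.fin hr (fun p => Real.rpow_nonneg (hr p) s)
    h.tτ).out (lt_min hη₁ one_pos)
  obtain ⟨C₃, hC₃, h3⟩ := CF.whitney G
  refine ⟨η₂, (C₂ / η₂ ^ (d + 1) + Fintype.card V * (C₁ * C₃)) * (1 + 2 ^ s), hη₂, by positivity,
    fun z x x' Λ m hz hx hx' hxx hΛ y hy => ?_⟩
  have hΛ0 := (norm_nonneg _).trans hy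
  have a0 : ‖y - x'‖ ≤ 2 * Λ := by linarith [norm_sub_le_norm_sub_add_norm_sub y x x']
  have a1 := J.false_le H hη₂ (hle.trans (min_le_right _ _)) hC₂.le (h2 (m, ⟨(z, x), hz, hx⟩))
    (y := y) (by dsimp only; linarith)
  have a2 := J.false_le H hη₂ (hle.trans (min_le_right _ _)) hC₂.le (h2 (m, ⟨(z, x'), hz, hx'⟩))
    (y := y) (a0.trans hΛ)
  have b1 : ‖y - x‖ ^ s ≤ Λ ^ s := Real.rpow_le_rpow (norm_nonneg _) hy H.pos.le
  have b2 : ‖y - x'‖ ^ s ≤ 2 ^ s * Λ ^ s := by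
    rw [← Real.mul_rpow zero_le_two hΛ0]; exact Real.rpow_le_rpow (norm_nonneg _) a0 H.pos.le
  have a3 : |∑ v, A z m v y * (G v).P x y - ∑ v, A z m v y * (G v).P x' y| ≤
      Fintype.card V * (C₁ * C₃) * (Λ ^ s + 2 ^ s * Λ ^ s) := by
    rw [← sum_sub_distrib]
    refine (abs_sum_le_sum_abs _ _).trans ((sum_le_card_nsmul _ _ (C₁ * (C₃ * (Λ ^ s + 2 ^ s *
      Λ ^ s))) fun v _ => ?_).trans (le_of_eq (by rw [card_univ, nsmul_eq_mul]; ring)))
    rw [← mul_sub, abs_mul]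
    refine mul_le_mul ?_ ((h3 v x x' y).trans (by gcongr)) (abs_nonneg _) hC₁.le
    have := mul_le_mul_of_nonneg_right (hle.trans (min_le_left _ _)) hz.le
    simpa using h1 ((m, v), ⟨(z, x), hz, hx⟩) y (by dsimp only; linarith)
  dsimp only at a1 a2 ⊢
  have c1 := mul_le_mul_of_nonneg_left b1 (show 0 ≤ C₂ / η₂ ^ (d + 1) by positivity)
  have c2 := mul_le_mul_of_nonneg_left b2 (show 0 ≤ C₂ / η₂ ^ (d + 1) by positivity)
  rw [abs_le] at a1 a2 a3 ⊢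
  constructor <;> nlinarith [a1.1, a1.2, a2.1, a2.2, a3.1, a3.2]

lemma Tame.pb (H : Hs d s) {M : Type} [Finite M] {u : M → CF n d s} (hρ : Lip1 ρ)
    (h : ∀ i, Tame (u i) ρ) (L : ℝ) : ∃ C, 0 ≤ C ∧
      ∀ i x, PB ((u i).P x) x (L * ρ x) (C * ρ x ^ s) := by
  obtain ⟨C, η, hC, hη, h1⟩ := (TN.fin hρ.1 (fun x => Real.rpow_nonneg (hρ.1 x) s) h).bound
  have hK := one_le_Kg n d
  have h3 : 1 ≤ max 1 (L / η) ^ d := one_le_pow₀ (le_max_left _ _)
  refine ⟨Kg n d * C * max 1 (L / η) ^ d, by positivity, fun i x y hy => ?_⟩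
  rcases (hρ.1 x).eq_or_lt with h0 | h0
  · have := h1 (i, x) y (by simpa [← h0] using hy)
    simpa [← h0, Real.zero_rpow H.pos.ne'] using this
  refine ((h1 (i, x)).grow ((u i).mem x) (mul_pos hη h0) y).trans ?_
  have h2 : ‖y - x‖ / (η * ρ x) ≤ L / η := by
    rw [div_le_div_iff₀ (by positivity) hη]; nlinarith
  dsimp only
  calc _ ≤ Kg n d * (C * ρ x ^ s) * max 1 (L / η) ^ d := by gcongr
    _ = _ := by ring

lemma exists_scale (hρ : Lip1 ρ) {T : Type} (S : T → Prop) (X : T → E n) (R : T → ℝ)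
    (hb : ∀ t, S t → R t ≤ ρ (X t)) : ∃ ρ', Sc ρ ρ' ∧ (∀ t, S t → R t ≤ ρ' (X t)) ∧
      ∀ x, 0 < ρ' x → ∃ t, S t ∧ ρ' x / 2 + ‖x - X t‖ < R t := by
  let D : E n → Set ℝ := fun x => insert 0 {a | ∃ t, S t ∧ a = R t - ‖x - X t‖}
  have h1 : ∀ x, ∀ a ∈ D x, a ≤ ρ x := by
    rintro x a (rfl | ⟨t, ht, rfl⟩)
    · exact hρ.1 x
    · linarith [hb t ht, hρ.le' (X t) x]
  have h2 : ∀ x, BddAbove (D x) := fun x => ⟨ρ x, h1 x⟩
  have h3 : ∀ x, (D x).Nonempty := fun x => ⟨0, Or.inl rfl⟩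
  have h4 : ∀ x, 0 ≤ sSup (D x) := fun x => le_csSup (h2 x) (Or.inl rfl)
  refine ⟨fun x => sSup (D x), ⟨hρ, ⟨h4, fun x y => csSup_le (h3 x) ?_⟩,
    fun x => csSup_le (h3 x) (h1 x)⟩, fun t ht => le_csSup (h2 _) (Or.inr ⟨t, ht, by simp⟩),
    fun x hx => ?_⟩
  · rintro a (rfl | ⟨t, ht, rfl⟩)
    · linarith [h4 y, norm_nonneg (x - y)]
    · have := le_csSup (h2 y) (Or.inr ⟨t, ht, rfl⟩)
      have h5 := norm_sub_le_norm_sub_add_norm_sub y x (X t)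
      rw [norm_sub_rev y x] at h5
      linarith
  · obtain ⟨a, ha, h5⟩ := exists_lt_of_lt_csSup (h3 x) (half_lt_self hx)
    rcases ha with rfl | ⟨t, ht, rfl⟩
    · linarith
    · exact ⟨t, ht, by linarith⟩

lemma fail_core {τ : Fin j → E n → ℝ} {u : E n → ℝ} {x : E n} {r R K C : ℝ}
    (hτ : ∀ m, τ m ∈ Pd n d) (hu : u ∈ Pd n d) (H : Hs d s) (hr : 0 < r) (hR : r ≤ R) (hK : 0 < K)
    (hC : 0 ≤ C) (hl : Low s τ x R K) (hb : PB u x R (C * R ^ s))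
    (hf : ¬ Low s (Fin.cons u τ : Fin (j + 1) → E n → ℝ) x r (K / (2 * Kg n d))) :
    ∃ T : Fin j → ℝ, ‖T‖ ≤ 1 + 2 * C / K ∧
      PB (fun y => u y - ∑ m, T m * τ m y) x r (K * (1 + 2 * C / K) * r ^ s) := by
  unfold Low at hf
  push Not at hf
  obtain ⟨t, ht⟩ := hf
  have hK1 := one_le_Kg n d
  have hmem : ∀ m, (Fin.cons u τ : Fin (j + 1) → E n → ℝ) m ∈ Pd n d := fun m =>
    Fin.cases hu hτ m
  have hR0 := hr.trans_le hR
  have hRs := Real.rpow_pos_of_pos hR0 s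
  have hrs := Real.rpow_pos_of_pos hr s
  have h1 : PB (fun y => ∑ m, t m * (Fin.cons u τ : Fin (j + 1) → E n → ℝ) m y) x r
      (K / (2 * Kg n d) * ‖t‖ * r ^ s) := fun y hy => (ht y hy).le
  have h2 := h1.grow_s (comb_mem hmem t) hr hR
  obtain ⟨y, hy, h3⟩ := hl (Fin.tail t)
  have h4 := h2 y hy
  have h5 : (r / R) ^ (s - d) ≤ 1 :=
    Real.rpow_le_one (by positivity) ((div_le_one hR0).2 hR) (by linarith [H.1])
  have h6 : Kg n d * (K / (2 * Kg n d) * ‖t‖) * (r / R) ^ (s - d) * R ^ s ≤ K / 2 * ‖t‖ * R ^ s := by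
    rw [show Kg n d * (K / (2 * Kg n d) * ‖t‖) = K / 2 * ‖t‖ by field_simp]
    gcongr ?_ * _
    exact mul_le_of_le_one_right (by positivity) h5
  simp only [Fin.sum_univ_succ, Fin.cons_zero, Fin.cons_succ] at h4 ht
  have h7 : |t 0 * u y| ≤ |t 0| * (C * R ^ s) := by
    rw [abs_mul]; exact mul_le_mul_of_nonneg_left (hb y hy) (abs_nonneg _)
  have h8 : K * ‖Fin.tail t‖ ≤ K / 2 * ‖t‖ + |t 0| * C := by
    refine le_of_mul_le_mul_right ?_ hRs
    have := abs_sub (t 0 * u y + ∑ m : Fin j, t m.succ * τ m y) (t 0 * u y)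
    rw [add_sub_cancel_left] at this
    simp only [Fin.tail] at h3
    nlinarith
  have h9 : ‖t‖ ≤ |t 0| * (1 + 2 * C / K) := by
    have e1 : ‖t‖ ≤ max |t 0| ‖Fin.tail t‖ := (pi_norm_le_iff_of_nonneg (by positivity)).2 fun m =>
      Fin.cases (le_max_left _ _) (fun m => le_max_of_le_right (norm_le_pi_norm (Fin.tail t) m)) m
    have e2 : 0 ≤ |t 0| * (2 * C / K) := by positivity
    rcases le_max_iff.1 e1 with e3 | e3
    · linarith
    · have : K / 2 * ‖t‖ ≤ |t 0| * C := by nlinarith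
      have e4 : ‖t‖ ≤ |t 0| * (2 * C / K) := by
        rw [← mul_div_assoc, le_div_iff₀ hK]; linarith
      linarith [abs_nonneg (t 0)]
  have h10 : 0 < |t 0| := by
    by_contra e1
    have e2 : ‖t‖ = 0 := le_antisymm (by
      rw [le_antisymm (not_lt.1 e1) (abs_nonneg _), zero_mul] at h9; exact h9) (norm_nonneg _)
    have := ht x (by simpa using hr.le)
    rw [e2] at this
    linarith [abs_nonneg (t 0 * u x + ∑ m : Fin j, t m.succ * τ m x)]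
  have h11 : t 0 ≠ 0 := abs_pos.1 h10
  refine ⟨fun m => -(t m.succ / t 0), (pi_norm_le_iff_of_nonneg (by positivity)).2 fun m => ?_,
    fun y hy => ?_⟩
  · rw [norm_neg, Real.norm_eq_abs, abs_div, div_le_iff₀ h10]
    linarith [norm_le_pi_norm t m.succ, Real.norm_eq_abs (t m.succ)]
  · have e1 : u y - ∑ m, -(t m.succ / t 0) * τ m y =
        (t 0 * u y + ∑ m : Fin j, t m.succ * τ m y) / t 0 := by
      rw [add_div, sum_div, sub_eq_add_neg, ← sum_neg_distrib]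
      congr 1
      · field_simp
      · exact sum_congr rfl fun m _ => by ring
    dsimp only
    rw [e1, abs_div, div_le_iff₀ h10]
    refine (ht y hy).le.trans ?_
    have e2 : K / (2 * Kg n d) ≤ K := div_le_self hK.le (by linarith)
    calc _ ≤ K * (|t 0| * (1 + 2 * C / K)) * r ^ s := by gcongr
      _ = _ := by ring

lemma TN.split {b : Bool} {ι : Type} {x : ι → E n} {r w : ι → ℝ} {u : ι → E n → ℝ} (p : ι → Prop)
    (h : TN d b (fun i : {i // p i} => x i.1) (fun i => r i.1) (fun i => u i.1) (fun i => w i.1))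
    (h0 : ∀ i, ¬ p i → r i = 0 ∧ 0 ≤ w i ∧ u i (x i) = 0) : TN d b x r u w := by
  obtain ⟨C, η, hC, hη, h⟩ := h
  refine ⟨C, η, hC, hη, fun i => ?_⟩
  by_cases hi : p i
  · exact h ⟨i, hi⟩
  · obtain ⟨h1, h2, h3⟩ := h0 i hi
    refine ⟨h1.ge, (J.zero (by positivity)).congr fun y hy => ?_⟩
    rw [eq_of_norm_le_zero (by simpa [h1] using hy : ‖y - x i‖ ≤ 0), h3]

lemma phi_sq_loc {σ : E n → ℝ} {c : Col n} {x y : E n} (hσ : Adm σ) (hy : ‖y - x‖ ≤ σ x / 10)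
    (F : E n → ℝ) : phi d σ c y ^ 2 * F (zeta σ c y) = phi d σ c y ^ 2 * F (zeta σ c x) := by
  rw [sq, mul_assoc, mul_assoc, phi_mul_loc hσ hy]

lemma good_pair (H : Hs d s) {G : V → CF n d s} {A : E n → Fin j → V → E n → ℝ}
    {τ : E n → E n → Fin j → E n → ℝ} (hF : Fr ρ η G A τ) {K : ℝ} (hK : 0 < K)
    (hL : ∀ p : Pr ρ η, Low s (τ p.1.1 p.1.2) p.1.2 (ρ p.1.1) K) (hη : 0 < η) (u : CF n d s)
    {C : ℝ} (hC : 0 ≤ C) : ∃ γ C' : ℝ, 0 < γ ∧ γ ≤ 1 / 100 ∧ γ ≤ η / 40 ∧ 0 ≤ C' ∧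
      (∀ z x ζ σ σ₀ (T : Fin j → ℝ), 0 < ρ z → ‖x - z‖ ≤ η * ρ z → ‖ζ - z‖ ≤ η * ρ z →
        ‖ζ - x‖ ≤ 5 * (γ * σ₀) → σ₀ ≤ 4 * σ → σ ≤ 2 * σ₀ → σ₀ ≤ 2 * ρ z → ‖T‖ ≤ C →
        PB (fun y => u.P ζ y - ∑ m, T m * τ z ζ m y) ζ σ (C * σ ^ s) →
        PB (fun y => u.P x y - ∑ m, T m * τ z x m y) x (5 * γ * σ₀) (C' * σ₀ ^ s)) ∧
      ∀ z x σ₀ R (T T' : Fin j → ℝ), 0 < ρ z → ‖x - z‖ ≤ η * ρ z → 0 < σ₀ → σ₀ ≤ R → R ≤ 2 * ρ z →
        PB (fun y => u.P x y - ∑ m, T m * τ z x m y) x (5 * γ * σ₀) (C' * σ₀ ^ s) →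
        PB (fun y => u.P x y - ∑ m, T' m * τ z x m y) x (5 * γ * σ₀) (C' * σ₀ ^ s) →
        ‖T - T'‖ ≤ Kg n d * (2 * C' / (5 * γ) ^ s) / K * (σ₀ / R) ^ (s - d) := by
  obtain ⟨η₁, C₁, hη₁, hC₁, h1⟩ := hF.lw H
  obtain ⟨C₃, hC₃, h3⟩ := CF.whitney fun _ : Unit => u
  have hs := H.pos
  obtain ⟨γ, g0, g1, g2, g3⟩ : ∃ γ : ℝ, 0 < γ ∧ γ ≤ 1 / 100 ∧ γ ≤ η / 40 ∧ γ ≤ η₁ / 20 :=
    ⟨min (1 / 100) (min (η / 40) (η₁ / 20)), by positivity, min_le_left _ _,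
      (min_le_right _ _).trans (min_le_left _ _), (min_le_right _ _).trans (min_le_right _ _)⟩
  obtain ⟨C', hC'⟩ : ∃ C' : ℝ, C' = (2 * C₃ + C + j * (C * C₁)) * 2 ^ s := ⟨_, rfl⟩
  have hC'0 : 0 ≤ C' := by rw [hC']; positivity
  refine ⟨γ, C', g0, g1, g2, hC'0,
    fun z x ζ σ σ₀ T hz hx hζ a1 a2 a3 a4 hT hb y hy => ?_,
    fun z x σ₀ R T T' hz hx a1 a2 a3 hb hb' => ?_⟩
  · have b0 : 0 ≤ σ₀ := by
      have := (norm_nonneg _).trans hy
      exact nonneg_of_mul_nonneg_right this (by positivity) |> fun h => h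
    have b1 : 5 * γ * σ₀ ≤ σ₀ / 20 := by nlinarith
    have b2 : ‖y - ζ‖ ≤ σ := by
      have := norm_sub_le_norm_sub_add_norm_sub y x ζ
      rw [norm_sub_rev x ζ] at this; linarith
    have b3 : ∀ t : ℝ, 0 ≤ t → t ≤ 2 * σ₀ → t ^ s ≤ 2 ^ s * σ₀ ^ s := fun t h0 ht => by
      rw [← Real.mul_rpow zero_le_two b0]; exact Real.rpow_le_rpow h0 ht hs.le
    have c1 := h3 () x ζ y
    have c2 := hb y b2
    have c3 := abs_comb_le T (fun m => τ z x m y - τ z ζ m y) fun m =>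
      h1 z x ζ (5 * γ * σ₀) m hz hx hζ (by rw [norm_sub_rev]; linarith) (by nlinarith) y hy
    have d1 := mul_le_mul_of_nonneg_left (add_le_add (b3 ‖y - x‖ (norm_nonneg _) (by linarith))
      (b3 ‖y - ζ‖ (norm_nonneg _) (by linarith))) hC₃
    have d2 := mul_le_mul_of_nonneg_left (b3 σ (by linarith) a3) hC
    have d3 : j * (‖T‖ * (C₁ * (5 * γ * σ₀) ^ s)) ≤ j * (C * (C₁ * (2 ^ s * σ₀ ^ s))) := by
      have := b3 (5 * γ * σ₀) (by positivity) (by linarith)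
      gcongr
    simp only [mul_sub, sum_sub_distrib] at c3
    dsimp only at c2 ⊢
    rw [hC']
    rw [abs_le] at c1 c2 c3 ⊢
    constructor <;> nlinarith [c1.1, c1.2, c2.1, c2.2, c3.1, c3.2]
  · have b0 : 0 < 5 * γ * σ₀ := by positivity
    have b1 : PB (fun y => ∑ m, (T - T') m * τ z x m y) x (5 * γ * σ₀)
        (2 * C' / (5 * γ) ^ s * (5 * γ * σ₀) ^ s) := by
      intro y hy
      have c1 := hb y hy
      have c2 := hb' y hy
      rw [Real.mul_rpow (by positivity) a1.le, ← mul_assoc, div_mul_cancel₀ _ (by positivity)]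
      simp only [Pi.sub_apply, sub_mul, sum_sub_distrib]
      dsimp only at c1 c2
      rw [abs_le] at c1 c2 ⊢
      constructor <;> linarith [c1.1, c1.2, c2.1, c2.2]
    obtain ⟨y, hy, b2⟩ := hL ⟨(z, x), hz, hx⟩ (T - T')
    have b3 := b2.trans (b1.grow_s (comb_mem (hF.mem ⟨(z, x), hz, hx⟩) _) b0 (by
      dsimp only; nlinarith) y hy)
    dsimp only at b3
    have b4 := le_of_mul_le_mul_right b3 (Real.rpow_pos_of_pos hz s)
    rw [div_mul_eq_mul_div, le_div_iff₀ hK, mul_comm]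
    refine b4.trans ?_
    have := Kg_pos n d
    refine mul_le_mul_of_nonneg_left (Real.rpow_le_rpow (by positivity) ?_ (by linarith [H.1]))
      (by positivity)
    rw [div_le_div_iff₀ hz (by linarith), mul_comm _ σ₀, mul_assoc]
    exact mul_le_mul_of_nonneg_left (by nlinarith) a1.le

lemma md_of_fail (H : Hs d s) (hs : Sc ρ ρ') {g : W → CF n d s} {A : E n → Fin j → W → E n → ℝ}
    {τ : E n → E n → Fin j → E n → ℝ} (hF : Fr ρ η g A τ) {K : ℝ} (hK : 0 < K)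
    (hL : ∀ p : Pr ρ η, Low s (τ p.1.1 p.1.2) p.1.2 (ρ p.1.1) K) (hη : 0 < η) (u : CF n d s)
    (ht : Tame u ρ) {C : ℝ} (hC : 0 ≤ C)
    (hf : ∀ z x σ, 0 < ρ z → ‖x - z‖ ≤ η / 2 * ρ z → 0 < σ → ρ' x ≤ σ → σ ≤ ρ x →
      ∃ T : Fin j → ℝ, ‖T‖ ≤ C ∧ PB (fun y => u.P x y - ∑ m, T m * τ z x m y) x σ (C * σ ^ s)) :
    MD ((1 / 2) ^ (s - d)) ρ ρ' u g := by
  classical
  obtain ⟨γ, C', g0, g1, g2, hC', G1, G2⟩ := good_pair H hF hK hL hη u hC
  choose! T T1 T2 using hf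
  have hβ : 0 < s - d := by linarith [H.1]
  have aT := hs.l.adm g0 g1
  have aK := fun k => (hs.lip k).adm g0 g1
  obtain ⟨σT, hσT⟩ : ∃ σT : E n → ℝ, σT = fun y => γ * ρ y := ⟨_, rfl⟩
  obtain ⟨σK, hσK⟩ : ∃ σK : ℕ → E n → ℝ, σK = fun k y => γ * sg ρ ρ' k y := ⟨_, rfl⟩
  have eT : ∀ y, σT y = γ * ρ y := fun y => by rw [hσT]
  have eK : ∀ k y, σK k y = γ * sg ρ ρ' k y := fun k y => by rw [hσK]
  rw [← hσT] at aT
  replace aK : ∀ k, Adm (σK k) := by rw [hσK]; exact aK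
  have sp : ∀ k x, 0 < ρ x → 0 < sg ρ ρ' k x := fun k x hx => lt_max_of_lt_left (by positivity)
  have z1 : ∀ c x, ‖zeta σT c x - x‖ ≤ 5 * (γ * ρ x) := fun c x => eT x ▸ zeta_near aT c x
  have z2 : ∀ k c x, ‖zeta (σK k) c x - x‖ ≤ 5 * (γ * sg ρ ρ' k x) := fun k c x =>
    eK k x ▸ zeta_near (aK k) c x
  have z3 : ∀ c x, ρ x ≤ 20 / 19 * ρ (zeta σT c x) := fun c x => by
    nlinarith [z1 c x, hs.l.le' x (zeta σT c x), hs.l.1 x]
  have z4 : ∀ c x, ‖x - zeta σT c x‖ ≤ η / 4 * ρ (zeta σT c x) := fun c x => by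
    rw [norm_sub_rev]; nlinarith [z1 c x, z3 c x, hs.l.1 x, hs.l.1 (zeta σT c x)]
  have z4' : ∀ c x, ‖x - zeta σT c x‖ ≤ η * ρ (zeta σT c x) := fun c x => by
    nlinarith [z4 c x, hs.l.1 (zeta σT c x)]
  have z5 : ∀ k c c' x, ‖zeta (σK k) c' x - zeta σT c x‖ ≤ η / 2 * ρ (zeta σT c x) := by
    intro k c c' x
    have := norm_sub_le_norm_sub_add_norm_sub (zeta (σK k) c' x) x (zeta σT c x)
    nlinarith [z2 k c' x, z3 c x, z4 c x, hs.l.1 x, hs.l.1 (zeta σT c x), hs.le_rho k x,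
      mul_le_mul_of_nonneg_left (hs.le_rho k x) g0.le]
  have z6 : ∀ k c x, |sg ρ ρ' k (zeta (σK k) c x) - sg ρ ρ' k x| ≤ sg ρ ρ' k x / 20 := by
    intro k c x
    rw [abs_le]
    constructor <;> nlinarith [z2 k c x, (hs.lip k).le' x (zeta (σK k) c x),
      (hs.lip k).2 (zeta (σK k) c x) x, hs.nonneg k x]
  have zp : ∀ c x, 0 < ρ x → 0 < ρ (zeta σT c x) := fun c x hx => by linarith [z3 c x]
  obtain ⟨TT, hTT⟩ : ∃ TT : ℕ → E n → E n → Fin j → ℝ,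
    TT = fun l z ζ => T z ζ (sg ρ ρ' l ζ) := ⟨_, rfl⟩
  have good : ∀ k l x c c', 0 < ρ x → k ≤ l → l ≤ k + 1 →
      ‖TT l (zeta σT c x) (zeta (σK l) c' x)‖ ≤ C ∧ PB (fun y => u.P x y -
        ∑ m, TT l (zeta σT c x) (zeta (σK l) c' x) m * τ (zeta σT c x) x m y) x
          (5 * γ * sg ρ ρ' k x) (C' * sg ρ ρ' k x ^ s) := by
    intro k l x c c' hx h1 h2
    have a1 := abs_le.1 (z6 l c' x)
    have a2 := hs.anti h1 x
    have a3 := (hs.half k x).trans (mul_le_mul_of_nonneg_left (hs.anti h2 x) zero_le_two)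
    have a4 := sp l x hx
    have a5 : 0 < sg ρ ρ' l (zeta (σK l) c' x) := by linarith
    have a6 := T1 _ _ _ (zp c x hx) (z5 l c c' x) a5 (le_max_right _ _) (hs.le_rho _ _)
    rw [hTT]
    refine ⟨a6, G1 _ _ _ _ _ _ (zp c x hx) (z4' c x) ?_ ((z2 l c' x).trans (by gcongr))
      (by linarith) (by linarith) (by linarith [hs.le_rho k x, z3 c x, zp c x hx]) a6
      (T2 _ _ _ (zp c x hx) (z5 l c c' x) a5 (le_max_right _ _) (hs.le_rho _ _))⟩
    nlinarith [z5 l c c' x, zp c x hx]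
  let I := {p : ℕ × E n // 0 < ρ p.2}
  have hr : ∀ i : I, 0 ≤ sg ρ ρ' i.1.1 i.1.2 := fun i => hs.nonneg _ _
  have hw : ∀ i : I, 0 ≤ sg ρ ρ' i.1.1 i.1.2 ^ s := fun i => Real.rpow_nonneg (hr i) s
  have fT : ∀ c, TN d true (fun i : I => i.1.2) (fun i => sg ρ ρ' i.1.1 i.1.2)
      (fun _ y => phi d σT c y ^ 2) (fun _ => 1) := fun c =>
    ((phi_TN (fun _ : I => aT) (fun i => i.1.2) c).mono_r γ⁻¹ hr fun i => by
      rw [eT, inv_mul_cancel_left₀ g0.ne']; exact hs.le_rho _ _).pow 2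
  have fK : ∀ e ≤ 1, ∀ c, TN d true (fun i : I => i.1.2) (fun i => sg ρ ρ' i.1.1 i.1.2)
      (fun i y => phi d (σK (i.1.1 + e)) c y ^ 2) (fun _ => 1) := fun e he c =>
    ((phi_TN (fun i : I => aK (i.1.1 + e)) (fun i => i.1.2) c).mono_r (2 * γ⁻¹) hr fun i => by
      rw [eK, mul_assoc, inv_mul_cancel_left₀ g0.ne']
      exact (hs.half _ _).trans (mul_le_mul_of_nonneg_left (hs.anti (by omega) _) zero_le_two)).pow 2
  let f : Col n → I → Pr ρ η := fun c i => ⟨(zeta σT c i.1.2, i.1.2), zp c _ i.2, z4' c _⟩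
  have hf2 : ∀ c (i : I), sg ρ ρ' i.1.1 i.1.2 ≤ 2 * ρ (zeta σT c i.1.2) := fun c i => by
    linarith [hs.le_rho i.1.1 i.1.2, z3 c i.1.2, zp c _ i.2]
  have fA := fun c m w => ((hF.tA m w).comp (f c)).mono_r 2 hr (hf2 c)
  have fE := fun c m => ((hF.tτ m).comp (f c)).resc H.pos H.2 2 two_pos hr (hf2 c)
  have fC : ∀ c c' m, TN d true (fun i : I => i.1.2) (fun i => sg ρ ρ' i.1.1 i.1.2)
      (fun i _ => TT i.1.1 (zeta σT c i.1.2) (zeta (σK i.1.1) c' i.1.2) m) (fun _ => 1) :=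
    fun c c' m => TN.const1 hr C fun i =>
      (norm_le_pi_norm _ m).trans (good _ _ _ c c' i.2 le_rfl (Nat.le_succ _)).1
  obtain ⟨a, ha⟩ : ∃ a : ℕ → W → E n → ℝ, a = fun l w y => if 0 < ρ y then
    ∑ c, phi d σT c y ^ 2 * ∑ m, (∑ c', phi d (σK l) c' y ^ 2 *
      TT l (zeta σT c y) (zeta (σK l) c' y) m) * A (zeta σT c y) m w y else 0 := ⟨_, rfl⟩
  have loc : ∀ k l x y w, 0 < ρ x → l ≤ k + 1 → ‖y - x‖ ≤ γ / 20 * sg ρ ρ' k x →
      a l w y = ∑ c, phi d σT c y ^ 2 * ∑ m, (∑ c', phi d (σK l) c' y ^ 2 *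
        TT l (zeta σT c x) (zeta (σK l) c' x) m) * A (zeta σT c x) m w y := by
    intro k l x y w hx h2 hy
    have a3 := (hs.half k x).trans (mul_le_mul_of_nonneg_left (hs.anti h2 x) zero_le_two)
    have a4 := hs.le_rho k x
    have a5 : 0 < ρ y := by nlinarith [hs.l.le' x y]
    rw [ha]
    simp only [a5, if_true]
    refine sum_congr rfl fun c _ => ?_
    rw [phi_sq_loc aT (x := x) (by rw [eT]; nlinarith) fun z => ∑ m, (∑ c', phi d (σK l) c' y ^ 2 *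
      TT l z (zeta (σK l) c' y) m) * A z m w y]
    congr 1
    refine sum_congr rfl fun m _ => ?_
    congr 1
    exact sum_congr rfl fun c' _ => phi_sq_loc (aK l) (by rw [eK]; nlinarith)
      fun ζ => TT l (zeta σT c x) ζ m
  have stab : ∀ k w y, 8 * (ρ y / 2 ^ k) < ρ' y → a (k + 1) w y = a k w y := by
    intro k w y hy
    have a0 : sg ρ ρ' (k + 1) y = ρ' y := max_eq_right (by
      have := hs.eps_anti (Nat.le_add_right k 1) y
      have : 0 ≤ ρ y / 2 ^ k := div_nonneg (hs.l.1 y) (by positivity)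
      linarith)
    have a1 : ∀ y', ‖y' - y‖ ≤ 5 * σK (k + 1) y → sg ρ ρ' (k + 1) y' = sg ρ ρ' k y' := by
      intro y' hy'
      rw [eK, a0] at hy'
      have a2 : ρ y' / 2 ^ k ≤ ρ' y' := by
        nlinarith [hs.eps_lip k y' y, hs.l'.le' y y', hs.l'.1 y]
      rw [sg, sg, max_eq_right a2, max_eq_right ((hs.eps_anti (Nat.le_succ k) y').trans a2)]
    have a2 := phi_congr (d := d) (aK (k + 1)) (aK k) fun y' hy' => by rw [eK, eK, a1 y' hy']
    have a3 : ∀ z c', TT (k + 1) z (zeta (σK k) c' y) = TT k z (zeta (σK k) c' y) := by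
      intro z c'
      simp only [hTT]
      rw [a1 _ ((a2 c').2 ▸ zeta_near (aK (k + 1)) c' y)]
    simp only [ha, (a2 _).1, (a2 _).2, a3]
  have out : ∀ p : ℕ × E n, ¬ 0 < ρ p.2 → sg ρ ρ' p.1 p.2 = 0 := fun p hp =>
    le_antisymm ((hs.le_rho _ _).trans (not_lt.1 hp)) (hs.nonneg _ _)
  have hγ : 0 < γ / 20 := by positivity
  refine ⟨a, fun w => ?_, fun w => ?_, ?_, stab⟩
  · refine TN.split (fun p => 0 < ρ p.2) ?_ fun p hp => ⟨out p hp, zero_le_one, by simp [ha, hp]⟩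
    exact (TN.sum univ hr (fun _ => zero_le_one) fun c _ => (fT c).mul1 (TN.sum univ hr
      (fun _ => zero_le_one) fun m _ => (TN.sum univ hr (fun _ => zero_le_one) fun c' _ =>
        (fK 0 zero_le_one c').mul1 (fC c c' m)).mul1 (fA c m w))).congr hγ fun i y hy =>
          (loc _ _ _ y w i.2 (Nat.le_succ _) hy).symm
  · refine TN.split (fun p => 0 < ρ p.2) ?_ fun p hp => ⟨out p hp, by positivity, by simp [ha, hp]⟩
    have hω : ∀ i : I, 0 ≤ (sg ρ ρ' i.1.1 i.1.2 / ρ i.1.2) ^ (s - d) := fun i =>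
      Real.rpow_nonneg (div_nonneg (hr i) i.2.le) _
    have fD : ∀ c c' c'' m, TN d true (fun i : I => i.1.2) (fun i => sg ρ ρ' i.1.1 i.1.2)
        (fun i _ => TT (i.1.1 + 1) (zeta σT c i.1.2) (zeta (σK (i.1.1 + 1)) c' i.1.2) m -
          TT i.1.1 (zeta σT c i.1.2) (zeta (σK i.1.1) c'' i.1.2) m)
        (fun i => (sg ρ ρ' i.1.1 i.1.2 / ρ i.1.2) ^ (s - d)) := fun c c' c'' m =>
      (TN.const hr fun i => (norm_le_pi_norm (_ - _) m).trans (G2 _ _ _ _ _ _ (zp c _ i.2)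
        (z4' c _) (sp _ _ i.2) (hs.le_rho _ _) (by linarith [z3 c i.1.2, zp c _ i.2])
        (good _ _ _ c c' i.2 (Nat.le_succ _) le_rfl).2
        (good _ _ _ c c'' i.2 le_rfl (Nat.le_succ _)).2)).mono_w _ (fun i => le_rfl) hω
    have a1 : TN d true (fun i : I => i.1.2) (fun i => sg ρ ρ' i.1.1 i.1.2)
        (fun i y => a (i.1.1 + 1) w y - a i.1.1 w y)
        (fun i => (sg ρ ρ' i.1.1 i.1.2 / ρ i.1.2) ^ (s - d)) := by
      refine (TN.sum univ hr hω fun c _ => (fT c).mul1 (TN.sum univ hr hω fun m _ =>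
        (TN.sum univ hr hω fun c' _ => TN.sum univ hr hω fun c'' _ => (fK 1 le_rfl c').mul1
          ((fK 0 zero_le_one c'').mul1 (fD c c' c'' m))).mul1' (fA c m w))).congr hγ
            fun i y hy => ?_
      rw [loc _ _ _ y w i.2 le_rfl hy, loc _ _ _ y w i.2 (Nat.le_succ _) hy, ← sum_sub_distrib]
      refine sum_congr rfl fun c _ => ?_
      rw [← mul_sub, ← sum_sub_distrib]
      congr 1
      refine sum_congr rfl fun m _ => ?_
      rw [← sub_mul]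
      congr 1
      simp only [mul_sub, sum_sub_distrib, ← mul_sum, ← sum_mul, add_zero, phi_sq (aK _), one_mul]
    refine a1.zero_or (η₀ := 1 / 20) (by norm_num) (16 ^ (s - d)) (fun i => by positivity) fun i => ?_
    obtain ⟨⟨k, x⟩, hx⟩ := i
    dsimp only at hx ⊢
    by_cases h1 : 16 * (ρ x / 2 ^ k) < ρ' x
    · refine Or.inr fun y hy => ?_
      have h2 : 0 ≤ ρ x / 2 ^ k := by positivity
      rw [sg, max_eq_right (by linarith)] at hy
      rw [stab k w y (by linarith [hs.eps_lip k y x, hs.l'.le' x y]), sub_self]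
    · left
      rw [Real.rpow_pow_comm (by norm_num), ← Real.mul_rpow (by norm_num) (by positivity)]
      refine Real.rpow_le_rpow (div_nonneg (hs.nonneg _ _) hx.le) ?_ hβ.le
      have h2 : 0 ≤ ρ x / 2 ^ k := by positivity
      rw [div_le_iff₀ hx, one_div_pow, show 16 * (1 / 2 ^ k) * ρ x = 16 * (ρ x / 2 ^ k) by ring]
      exact max_le (by linarith) (not_lt.1 h1)
  · refine TN.split (fun p => 0 < ρ p.2) ?_ fun p hp => ⟨out p hp,
      Real.rpow_nonneg (hs.nonneg _ _) _, ?_⟩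
    · have fP := fun c c' => TN.poly (d := d) (x := fun i : I => i.1.2) (fun i : I => Pd_sub (u.mem _)
        (comb_mem (hF.mem (f c i)) _)) hr hw (by positivity : 0 < 5 * γ) fun i =>
          (good _ _ _ c c' i.2 le_rfl (Nat.le_succ _)).2
      refine (TN.sum univ hr hw fun c _ => (fT c).mul1 (TN.sum univ hr hw fun c' _ =>
        (fK 0 zero_le_one c').mul1 ((fP c c').sub (TN.sum univ hr hw fun m _ =>
          (fC c c' m).mul1 (fE c m).weaken)))).congr hγ fun i y hy => ?_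
      simp only [loc _ _ _ y _ i.2 (Nat.le_succ _) hy, f, add_zero, mul_sub, sum_sub_distrib,
        sub_sub_sub_cancel_right, ← sum_mul, phi_sq (aK _), phi_sq aT, one_mul]
      congr 1
      simp only [mul_sum, sum_mul]
      rw [sum_comm (s := (univ : Finset W))]
      refine sum_congr rfl fun c _ => ?_
      rw [sum_comm, sum_comm (s := (univ : Finset W))]
      refine sum_congr rfl fun m _ => ?_
      rw [sum_comm]
      exact sum_congr rfl fun w _ => sum_congr rfl fun c' _ => by ring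
    · obtain ⟨B, η', -, -, h1⟩ := ht.bound
      have h2 : ρ p.2 = 0 := le_antisymm (not_lt.1 hp) (hs.l.1 _)
      have := h1 p.2 p.2 (by simp [h2])
      simpa [ha, hp, h2, Real.zero_rpow H.pos.ne'] using this

end level

end Pool.Agent.Lib.MP_ca9be0_an.PyF

namespace Pool.Agent.Lib.MP_ca9be0_an.PyF

open Finset Filter Topology

variable {n d j m : ℕ} {s : ℝ} {ρ : E n → ℝ} {W : Type} [Fintype W]

lemma level (H : Hs d s) (hρ : Lip1 ρ) (g : W → CF n d s) (h : Fin m → CF n d s)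
    (ht : ∀ i, Tame (h i) ρ) (hR : Rank j g ρ) : ∃ ρ', Sc ρ ρ' ∧
      (∀ i, MD ((1 / 2) ^ (s - d)) ρ ρ' (h i) g) ∧ PRank (j + 1) (Sum.elim g h) ρ' := by
  classical
  obtain ⟨η, K, hη, hη2, hK, A, τ, hF, hL⟩ := hR
  obtain ⟨η₁, C₁, hη₁, hC₁, h1⟩ := hF.lw H
  obtain ⟨C₂, hC₂, h2⟩ := Tame.pb H hρ ht 2
  obtain ⟨C₃, hC₃, h3⟩ := CF.whitney h
  have hs := H.pos
  have hβ : 0 < s - d := by linarith [H.1]
  have hKg := Kg_pos n d
  obtain ⟨τ', hτ'⟩ : ∃ τ' : Fin m → E n → E n → Fin (j + 1) → E n → ℝ,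
    τ' = fun i z x => Fin.cons ((h i).P x) (τ z x) := ⟨_, rfl⟩
  have mem' : ∀ i (p : Pr ρ η) a, τ' i p.1.1 p.1.2 a ∈ Pd n d := fun i p a => by
    rw [hτ']; exact Fin.cases ((h i).mem _) (hF.mem p) a
  have lw' : ∀ i z x x' Λ a, 0 < ρ z → ‖x - z‖ ≤ η * ρ z → ‖x' - z‖ ≤ η * ρ z → ‖x - x'‖ ≤ Λ →
      2 * Λ ≤ η₁ * ρ z → PB (fun y => τ' i z x a y - τ' i z x' a y) x Λ
        ((C₁ + C₃ * (1 + 2 ^ s)) * Λ ^ s) := by
    intro i z x x' Λ a hz hx hx' hxx hΛ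
    have hΛ0 := (norm_nonneg _).trans hxx
    rw [hτ']
    refine Fin.cases (fun y hy => (h3 i x x' y).trans ?_) (fun a => (h1 z x x' Λ a hz hx hx' hxx
      hΛ).mono le_rfl (by gcongr; exact le_add_of_nonneg_right (by positivity))) a
    have a0 : ‖y - x'‖ ≤ 2 * Λ := by linarith [norm_sub_le_norm_sub_add_norm_sub y x x']
    have b1 : ‖y - x‖ ^ s ≤ Λ ^ s := Real.rpow_le_rpow (norm_nonneg _) hy hs.le
    have b2 : ‖y - x'‖ ^ s ≤ 2 ^ s * Λ ^ s := by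
      rw [← Real.mul_rpow zero_le_two hΛ0]; exact Real.rpow_le_rpow (norm_nonneg _) a0 hs.le
    have b3 : 0 ≤ C₁ * Λ ^ s := by positivity
    nlinarith [mul_le_mul_of_nonneg_left (add_le_add b1 b2) hC₃]
  obtain ⟨c, hc⟩ : ∃ c, c = K / (2 * Kg n d) := ⟨_, rfl⟩
  have hc0 : 0 < c := by rw [hc]; positivity
  obtain ⟨κ, hκ, hκ1, hκ2⟩ := small_pow ((j + 1 : ℕ) * (Kg n d * (C₁ + C₃ * (1 + 2 ^ s))))
    (half_pos hc0) hβ
  obtain ⟨η₂, e0, e1, e2⟩ : ∃ η₂ : ℝ, 0 < η₂ ∧ η₂ ≤ η / 2 ∧ η₂ ≤ η₁ / 2 :=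
    ⟨min (η / 2) (η₁ / 2), by positivity, min_le_left _ _, min_le_right _ _⟩
  obtain ⟨ρ', hsc, s1, s2⟩ := exists_scale hρ (T := E n × E n × ℝ × Fin m)
    (fun t => 0 < ρ t.1 ∧ ‖t.2.1 - t.1‖ ≤ η / 2 * ρ t.1 ∧ 0 < t.2.2.1 ∧ t.2.2.1 ≤ η₂ * ρ t.1 ∧
      Low s (τ' t.2.2.2 t.1 t.2.1) t.2.1 t.2.2.1 c) (fun t => t.2.1) (fun t => κ * t.2.2.1)
    (fun t ht => by
      obtain ⟨a1, a2, a3, a4, -⟩ := ht
      nlinarith [hρ.le' t.1 t.2.1])
  refine ⟨ρ', hsc, fun i => ?_, ?_⟩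
  · have b0 : 0 ≤ 1 + 2 * (C₂ * 2 ^ s) / K := by positivity
    have b1 : 0 ≤ K * (1 + 2 * (C₂ * 2 ^ s) / K) * (2 / κ) ^ s := by positivity
    have b2 : 0 ≤ C₂ * (4 / (κ * η₂)) ^ s := by positivity
    refine md_of_fail H hsc hF hK hL hη (h i) (ht i) (add_nonneg (add_nonneg b0 b1) b2)
      fun z x σ hz hx hσ a1 a2 => ?_
    have a3 : ρ z ≤ 2 * ρ x := by nlinarith [hρ.le' z x]
    have a4 : ρ x ≤ 2 * ρ z := by nlinarith [hρ.2 x z]
    have a5 := Real.rpow_pos_of_pos hσ s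
    have hx' : ‖x - z‖ ≤ η * ρ z := by nlinarith
    by_cases a6 : 2 / κ * σ ≤ η₂ * ρ z
    · have a7 : 0 < 2 / κ * σ := by positivity
      obtain ⟨T, T1, T2⟩ := fail_core (τ := τ z x) (hF.mem ⟨(z, x), hz, hx'⟩) ((h i).mem x) H a7
        (R := ρ z) (by nlinarith) hK (C := C₂ * 2 ^ s) (by positivity) (hL ⟨(z, x), hz, hx'⟩)
        ((h2 i x).mono a3 (by
          rw [mul_assoc, ← Real.mul_rpow zero_le_two hz.le]
          exact mul_le_mul_of_nonneg_left (Real.rpow_le_rpow (hρ.1 x) a4 hs.le) hC₂))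
        (fun hl => by
          have := s1 (z, x, 2 / κ * σ, i) ⟨hz, hx, a7, a6, by rw [hτ', hc]; exact hl⟩
          dsimp only at this
          rw [← mul_assoc, mul_div_cancel₀ _ hκ.ne'] at this
          linarith)
      refine ⟨T, by linarith, T2.mono (le_mul_of_one_le_left hσ.le ?_) ?_⟩
      · rw [le_div_iff₀ hκ]; linarith
      · rw [Real.mul_rpow (by positivity) hσ.le, ← mul_assoc]
        gcongr; linarith
    · refine ⟨0, by rw [norm_zero]; positivity, fun y hy => ?_⟩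
      simp only [Pi.zero_apply, zero_mul, sum_const_zero, sub_zero]
      refine (h2 i x y (by linarith [hρ.1 x])).trans ?_
      have a7 : ρ x ≤ 4 / (κ * η₂) * σ := by
        rw [not_le, div_mul_eq_mul_div, lt_div_iff₀ hκ] at a6
        rw [div_mul_eq_mul_div, le_div_iff₀ (by positivity)]
        nlinarith [mul_le_mul_of_nonneg_right a4 (mul_pos hκ e0).le]
      have a8 := Real.rpow_le_rpow (hρ.1 x) a7 hs.le
      rw [Real.mul_rpow (by positivity) hσ.le] at a8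
      nlinarith [mul_le_mul_of_nonneg_left a8 hC₂, mul_nonneg (add_nonneg b0 b1) a5.le]
  choose t t1 t2 using s2
  have q1 : ∀ p : Pr ρ' (1 / 2), ‖p.1.2 - (t _ p.2.1).2.1‖ ≤ κ * (t _ p.2.1).2.2.1 := fun p => by
    linarith [norm_sub_le_norm_sub_add_norm_sub p.1.2 p.1.1 (t _ p.2.1).2.1, t2 _ p.2.1, p.2.2]
  have q2 : ∀ p : Pr ρ' (1 / 2), κ * (t _ p.2.1).2.2.1 ≤ (t _ p.2.1).2.2.1 := fun p =>
    mul_le_of_le_one_left (t1 _ p.2.1).2.2.1.le hκ1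
  have q3 : ∀ p : Pr ρ' (1 / 2), ‖p.1.2 - (t _ p.2.1).1‖ ≤ η * ρ (t _ p.2.1).1 := fun p => by
    obtain ⟨a1, a2, a3, a4, -⟩ := t1 _ p.2.1
    nlinarith [norm_sub_le_norm_sub_add_norm_sub p.1.2 (t _ p.2.1).2.1 (t _ p.2.1).1, q1 p, q2 p]
  have q4 : ∀ p : Pr ρ' (1 / 2), ρ' p.1.1 ≤ 2 * (t _ p.2.1).2.2.1 := fun p => by
    linarith [t2 _ p.2.1, q2 p, norm_nonneg (p.1.1 - (t _ p.2.1).2.1)]
  let f : Pr ρ' (1 / 2) → Pr ρ η := fun p => ⟨((t _ p.2.1).1, p.1.2), (t1 _ p.2.1).1, q3 p⟩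
  have q5 : ∀ p : Pr ρ' (1 / 2), ρ' p.1.1 ≤ 1 * ρ (f p).1.1 := fun p => by
    obtain ⟨a1, a2, a3, a4, -⟩ := t1 _ p.2.1
    simp only [f]
    nlinarith [q4 p]
  have hr : ∀ p : Pr ρ' (1 / 2), 0 ≤ ρ' p.1.1 := fun p => p.2.1.le
  have hw : ∀ p : Pr ρ' (1 / 2), 0 ≤ ρ' p.1.1 ^ s := fun p => Real.rpow_nonneg (hr p) s
  refine ⟨fun z a v y => if hz : 0 < ρ' z then (Fin.cons (if v = Sum.inr (t z hz).2.2.2 then 1 else 0)
      (fun a => Sum.elim (fun w => A (t z hz).1 a w y) (fun _ => 0) v) : Fin (j + 1) → ℝ) a else 0,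
    fun z x a y => if hz : 0 < ρ' z then τ' (t z hz).2.2.2 (t z hz).1 x a y else 0,
    ⟨fun a v => ?_, fun p a => ?_, fun a => ?_⟩, fun L => ?_⟩
  · refine Fin.cases ?_ (fun a => ?_) a
    · exact (TN.const1 (c := fun p : Pr ρ' (1 / 2) => if v = Sum.inr (t _ p.2.1).2.2.2 then 1 else 0)
        hr 1 fun p => by split_ifs <;> simp).congr' fun p y => by simp [p.2.1]
    · cases v with
      | inl w => exact (((hF.tA a w).comp f).mono_r 1 hr q5).congr' fun p y => by simp [p.2.1, f]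
      | inr i => exact (TN.zero hr fun _ => zero_le_one).congr' fun p y => by simp [p.2.1]
  · simp only [p.2.1, dif_pos]; exact mem' _ (f p) a
  · refine Fin.cases ?_ (fun a => ?_) a
    · exact (TN.zero hr hw).congr' fun p y => by simp [p.2.1, hτ']
    · exact (((hF.tτ a).comp f).resc hs H.2 1 one_pos hr q5).congr' fun p y => by
        simp [p.2.1, hτ', f]
  obtain ⟨δ₀, d0, d1, d2⟩ := small_pow (Kg n d * L) (c := c / 2 / 2 ^ s / 2) (by positivity) hβ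
  refine ⟨δ₀, d0, fun δ hδ hδ1 p => ?_⟩
  simp only [p.2.1, dif_pos]
  obtain ⟨a1, a2, a3, a4, a5⟩ := t1 _ p.2.1
  have a6 : ‖(t _ p.2.1).2.1 - (t _ p.2.1).1‖ ≤ η * ρ (t _ p.2.1).1 := by nlinarith
  have a7 := ((a5.sub fun a => (lw' _ _ _ _ _ a a1 a6 (q3 p) (by rw [norm_sub_rev]; exact q1 p)
    (by nlinarith [q2 p])).grow_s (Pd_sub (mem' _ ⟨(_, _), a1, a6⟩ a) (mem' _ (f p) a))
      (by positivity) (q2 p)).mono (K' := c / 2) (by
        have := hκ2 κ hκ.le le_rfl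
        rw [mul_div_cancel_right₀ _ a3.ne']; linarith)).recenter ((q1 p).trans (q2 p))
  have a8 := p.2.1
  refine a7.shrink (mem' _ (f p)) (by positivity) (by nlinarith [q4 p]) (by positivity)
    (d2 _ (by positivity) ?_)
  rw [div_le_iff₀ (by positivity)]
  nlinarith [q4 p]

lemma exists_onb (L : Submodule ℝ (EuclideanSpace ℝ (Fin m))) :
    ∃ e : Fin (Module.finrank ℝ L) → Fin m → ℝ,
      (∀ b b', ∑ i, e b i * e b' i = if b = b' then 1 else 0) ∧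
      ∀ X ∈ L, ∀ i, X i = ∑ b, e b i * ∑ i', e b i' * X i' := by
  obtain ⟨ob⟩ : Nonempty (OrthonormalBasis (Fin (Module.finrank ℝ L)) ℝ L) :=
    ⟨stdOrthonormalBasis ℝ L⟩
  have h1 : ∀ u v : EuclideanSpace ℝ (Fin m), inner ℝ u v = ∑ i, u i * v i := fun u v => by
    rw [PiLp.inner_apply]; exact sum_congr rfl fun i _ => by simp [mul_comm]
  refine ⟨fun b i => (ob b).1 i, fun b b' => ?_, fun X hX i => ?_⟩
  · rw [← orthonormal_iff_ite.1 ob.orthonormal b b', Submodule.coe_inner, h1]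
  · have b2 := congrArg (fun v : L => v.1 i) (ob.sum_repr' ⟨X, hX⟩)
    simp only [AddSubmonoidClass.coe_finsetSum, SetLike.val_smul, Submodule.coe_inner, h1] at b2
    rw [← b2]
    simp [mul_comm]

lemma exists_proj (P : Fin m → E n → ℝ) (hP : ∀ i, P i ∈ Pd n d) :
    ∃ e : Fin ((n + d).choose d) → Fin m → ℝ, (∀ b i, |e b i| ≤ 1) ∧
      (∀ X : Fin m → ℝ, ∑ b, (∑ i, e b i * X i) ^ 2 +
        ∑ i, (X i - ∑ b, e b i * ∑ i', e b i' * X i') ^ 2 = ∑ i, X i ^ 2) ∧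
      ∀ y i, P i y - ∑ b, e b i * ∑ i', e b i' * P i' y = 0 := by
  classical
  let B := Module.finBasis ℝ (Pd n d)
  let cv : Fin (Module.finrank ℝ (Pd n d)) → EuclideanSpace ℝ (Fin m) := fun b =>
    WithLp.toLp 2 fun i => B.repr ⟨P i, hP i⟩ b
  let L := Submodule.span ℝ (Set.range cv)
  have hk : Module.finrank ℝ L ≤ (n + d).choose d :=
    (finrank_range_le_card cv).trans (by simpa using finrank_Pd n d)
  obtain ⟨e', o1, o2⟩ := exists_onb L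
  have hsum : ∀ F : (Fin m → ℝ) → ℝ, F 0 = 0 → ∑ b, F (Function.extend (Fin.castLE hk) e' 0 b) =
      ∑ b, F (e' b) := fun F hF => by
    refine (Fintype.sum_of_injective (Fin.castLE hk) (Fin.castLE_injective hk) _ _
      (fun b hb => ?_) fun b => ?_).symm
    · rw [Function.extend_apply' _ _ _ hb]; exact hF
    · rw [(Fin.castLE_injective hk).extend_apply]
  refine ⟨Function.extend (Fin.castLE hk) e' 0, fun b i => ?_, fun X => ?_, fun y i => ?_⟩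
  · by_cases hb : ∃ a, Fin.castLE hk a = b
    · obtain ⟨a, rfl⟩ := hb
      rw [(Fin.castLE_injective hk).extend_apply, ← sq_le_one_iff_abs_le_one, sq]
      have := o1 a a
      rw [if_pos rfl] at this
      rw [← this]
      exact single_le_sum (f := fun i => e' a i * e' a i) (fun _ _ => mul_self_nonneg _) (mem_univ i)
    · rw [Function.extend_apply' _ _ _ hb]; simp
  · rw [hsum (fun v => (∑ i, v i * X i) ^ 2) (by simp)]
    simp only [fun i => hsum (fun v => v i * ∑ i', v i' * X i') (by simp)]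
    obtain ⟨a, ha⟩ : ∃ a : Fin (Module.finrank ℝ L) → ℝ, a = fun b => ∑ i, e' b i * X i := ⟨_, rfl⟩
    have ha' : ∀ b, ∑ i, e' b i * X i = a b := fun b => by rw [ha]
    simp only [ha', sub_sq, sum_add_distrib, sum_sub_distrib]
    have b1 : ∑ i, 2 * X i * ∑ b, e' b i * a b = 2 * ∑ b, a b ^ 2 := by
      simp only [mul_sum]
      rw [sum_comm]
      refine sum_congr rfl fun b _ => ?_
      rw [sq]
      nth_rewrite 2 [← ha' b]
      simp only [mul_sum, sum_mul]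
      exact sum_congr rfl fun i _ => by ring
    have b2 : ∑ i, (∑ b, e' b i * a b) ^ 2 = ∑ b, a b ^ 2 := by
      simp only [sq, sum_mul_sum]
      rw [sum_comm]
      refine sum_congr rfl fun b _ => ?_
      rw [sum_comm]
      have : ∀ b', ∑ i, e' b i * a b * (e' b' i * a b') = if b = b' then a b * a b' else 0 := by
        intro b'
        rw [← mul_ite_zero, ← mul_one (a b'), ← mul_ite_zero, ← o1, mul_sum, mul_sum]
        exact sum_congr rfl fun i _ => by ring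
      simp [this]
    rw [b1, b2]; ring
  · rw [hsum (fun v => v i * ∑ i', v i' * P i' y) (by simp), sub_eq_zero]
    have b1 : (WithLp.toLp 2 fun i => P i y : EuclideanSpace ℝ (Fin m)) ∈ L := by
      have : (WithLp.toLp 2 fun i => P i y : EuclideanSpace ℝ (Fin m)) =
          ∑ b, (B b : E n → ℝ) y • cv b := by
        ext i
        have := congrFun (congrArg Subtype.val (B.sum_repr ⟨P i, hP i⟩)) y
        simp only [AddSubmonoidClass.coe_finsetSum, SetLike.val_smul, Finset.sum_apply,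
          Pi.smul_apply, smul_eq_mul] at this
        simp [cv, ← this, mul_comm]
      rw [this]
      exact Submodule.sum_mem _ fun b _ => Submodule.smul_mem _ _ (Submodule.subset_span ⟨b, rfl⟩)
    exact o2 _ b1 i

lemma cutf (H : Hs d s) (hρ : Lip1 ρ) (h : Fin m → CF n d s) (ht : ∀ i, Tame (h i) ρ) (c : Col n)
    (F : E n → Fin m → ℝ) {B : ℝ} (hB : ∀ z i, |F z i| ≤ B) : ∃ u : CF n d s,
      (∀ y, u.f y = phi d (fun y => 1 / 100 * ρ y) c y *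
        ∑ i, F (zeta (fun y => 1 / 100 * ρ y) c y) i * (h i).f y) ∧ Tame u ρ ∧
      TN d false (fun x => x) ρ (fun x y => phi d (fun y => 1 / 100 * ρ y) c y *
        ∑ i, F (zeta (fun y => 1 / 100 * ρ y) c x) i * (h i).P x y - u.P x y) (fun x => ρ x ^ s) := by
  have ad := hρ.adm (γ := 1 / 100) (by norm_num) le_rfl
  have loc : ∀ x y, ‖y - x‖ ≤ 1 / 1000 * ρ x → phi d (fun y => 1 / 100 * ρ y) c y *
      ∑ i, F (zeta (fun y => 1 / 100 * ρ y) c x) i * (h i).P x y = ∑ i, (phi d (fun y => 1 / 100 * ρ y)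
        c y * F (zeta (fun y => 1 / 100 * ρ y) c y) i) * (h i).P x y := fun x y hy => by
    rw [← phi_mul_loc ad (by linarith) fun z => ∑ i, F z i * (h i).P x y, mul_sum]
    simp only [mul_assoc]
  obtain ⟨u, u1, u2, u3⟩ := mkCF H h hρ (B := |B|) (coef := fun i y =>
      phi d (fun y => 1 / 100 * ρ y) c y * F (zeta (fun y => 1 / 100 * ρ y) c y) i) (fun i y => by
    rw [abs_mul]
    exact (mul_le_of_le_one_left (abs_nonneg _) (abs_phi_le ad c y)).trans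
      ((hB _ i).trans (le_abs_self B)))
    ((((phi_TN (fun _ : E n => ad) (fun x => x) c).mono_r 100 hρ.1 fun x => by linarith).mul1
      (TN.sum univ hρ.1 (fun x => Real.rpow_nonneg (hρ.1 x) s) fun i _ =>
        (TN.const1 hρ.1 B fun x => hB _ i).mul1 (ht i))).congr (by norm_num) loc)
  refine ⟨u, fun y => by simp only [u1, mul_sum, mul_assoc], u2,
    u3.congr (η₀ := 1 / 1000) (by norm_num) fun x y hy => by rw [loc x y hy]⟩

lemma Lip1.smul (hρ : Lip1 ρ) {δ : ℝ} (h0 : 0 < δ) (h1 : δ ≤ 1) : Lip1 fun y => δ * ρ y :=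
  ⟨fun x => mul_nonneg h0.le (hρ.1 x), fun x y => by
    nlinarith [mul_le_mul_of_nonneg_left (hρ.2 x y) h0.le, norm_nonneg (x - y)]⟩

lemma cut (H : Hs d s) (hρ : Lip1 ρ) (g : W → CF n d s) (h : Fin m → CF n d s)
    (ht : ∀ i, Tame (h i) ρ) (hP : PRank j (Sum.elim g h) ρ) : ∃ (ρ' : E n → ℝ)
      (k : Col n × Fin ((n + d).choose d) → CF n d s) (h' : Col n × Fin m → CF n d s), Lip1 ρ' ∧
      (∀ a, Tame (h' a) ρ') ∧ (∀ y, ∑ a, (k a).f y ^ 2 + ∑ a, (h' a).f y ^ 2 = ∑ i, (h i).f y ^ 2) ∧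
      Rank j (Sum.elim g k) ρ' := by
  classical
  obtain ⟨A, τ, hF, hL⟩ := hP
  have hs := H.pos
  choose e e1 e2 e3 using fun z => exists_proj (fun i => (h i).P z) fun i => (h i).mem z
  obtain ⟨Q, hQ⟩ : ∃ Q : E n → Fin m → Fin m → ℝ,
    Q = fun z i i' => (if i' = i then 1 else 0) - ∑ b, e z b i * e z b i' := ⟨_, rfl⟩
  have Q1 : ∀ z i (X : Fin m → ℝ), ∑ i', Q z i i' * X i' =
      X i - ∑ b, e z b i * ∑ i', e z b i' * X i' := fun z i X => by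
    simp only [hQ, sub_mul, sum_sub_distrib, sum_mul, mul_sum, mul_assoc]
    rw [sum_comm]; simp
  have Q2 : ∀ z i i', |Q z i i'| ≤ 1 + (n + d).choose d := fun z i i' => by
    rw [hQ]
    refine (abs_sub _ _).trans (add_le_add (by split_ifs <;> simp) ((abs_sum_le_sum_abs _ _).trans
      ((sum_le_card_nsmul _ _ 1 fun b _ => ?_).trans (by simp))))
    rw [abs_mul]; exact mul_le_one₀ (e1 _ _ _) (abs_nonneg _) (e1 _ _ _)
  have sp : ∀ {β : Type} [Fintype β] (F : Col n × β → ℝ), ∑ a, F a = ∑ c, ∑ b, F (c, b) :=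
    fun F => Fintype.sum_prod_type F
  obtain ⟨C₃, hC₃, h3⟩ := CF.whitney h
  obtain ⟨σ, hσ⟩ : ∃ σ : ℝ → E n → ℝ, σ = fun δ y => 1 / 100 * (δ * ρ y) := ⟨_, rfl⟩
  have ad : ∀ δ, 0 < δ → δ ≤ 1 → Adm (σ δ) := fun δ h0 h1 => by
    rw [hσ]; exact (hρ.smul h0 h1).adm (by norm_num) le_rfl
  have n1 : ∀ p : Pr ρ (1 / 2), ρ p.1.1 ≤ 2 * ρ p.1.2 := fun p => by
    linarith [hρ.le' p.1.1 p.1.2, p.2.2]
  have n2 : ∀ p : Pr ρ (1 / 2), ρ p.1.2 ≤ 2 * ρ p.1.1 := fun p => by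
    linarith [hρ.2 p.1.2 p.1.1, p.2.2, p.2.1]
  let Δ := {δ : ℝ // 0 < δ ∧ δ ≤ 1} × Pr ρ (1 / 2)
  have hr : ∀ a : Δ, 0 ≤ a.1.1 * ρ a.2.1.1 := fun a => mul_nonneg a.1.2.1.le a.2.2.1.le
  have hw : ∀ a : Δ, 0 ≤ (a.1.1 * ρ a.2.1.1) ^ s := fun a => Real.rpow_nonneg (hr a) s
  have fφ : ∀ c, TN d true (fun a : Δ => a.2.1.2) (fun a => a.1.1 * ρ a.2.1.1)
      (fun a => phi d (σ a.1.1) c) (fun _ => 1) := fun c =>
    (phi_TN (fun a : Δ => ad _ a.1.2.1 a.1.2.2) _ c).mono_r 200 hr fun a => by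
      rw [hσ]; nlinarith [n1 a.2, a.1.2.1]
  have fA : ∀ a v, TN d true (fun a : Δ => a.2.1.2) (fun a => a.1.1 * ρ a.2.1.1)
      (fun p => A p.2.1.1 a v) (fun _ => 1) := fun a v =>
    ((hF.tA a v).comp Prod.snd).mono_r 1 hr fun p => by nlinarith [p.1.2.2, p.2.2.1]
  have fP : ∀ c i, TN d true (fun a : Δ => a.2.1.2) (fun a => a.1.1 * ρ a.2.1.1)
      (fun a y => ∑ i', Q (zeta (σ a.1.1) c a.2.1.2) i i' * (h i').P a.2.1.2 y)
      (fun a => (a.1.1 * ρ a.2.1.1) ^ s) := by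
    intro c i
    refine (TN.sum univ hr hw fun i' _ => (TN.const1 hr _ fun a => Q2 (zeta (σ a.1.1) c a.2.1.2) i
      i').mul1 (TN.poly (fun a : Δ => Pd_sub ((h i').mem a.2.1.2) ((h i').mem
        (zeta (σ a.1.1) c a.2.1.2))) hr hw (η := 1 / 2) (C := C₃ * 2) (by norm_num)
          fun a y hy => (h3 _ _ _ y).trans ?_)).congr' fun a y => ?_
    · have a1 := zeta_near (ad _ a.1.2.1 a.1.2.2) c a.2.1.2
      have a2 := norm_sub_le_norm_sub_add_norm_sub y a.2.1.2 (zeta (σ a.1.1) c a.2.1.2)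
      rw [norm_sub_rev a.2.1.2] at a2
      have a3 : σ a.1.1 a.2.1.2 ≤ 1 / 50 * (a.1.1 * ρ a.2.1.1) := by
        rw [hσ]; nlinarith [n2 a.2, a.1.2.1]
      have := hr a
      rw [mul_assoc, two_mul]
      gcongr <;> linarith
    · simp only [mul_sub, sum_sub_distrib]
      rw [Q1 _ _ fun i' => (h i').P (zeta _ _ _) y, e3, sub_zero]
  obtain ⟨dr, hdr⟩ : ∃ dr : ℝ → E n → E n → Fin j → E n → ℝ, dr = fun δ z x a y =>
    ∑ i, A z a (Sum.inr i) y * ∑ c, phi d (σ δ) c y ^ 2 *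
      ∑ i', Q (zeta (σ δ) c x) i i' * (h i').P x y := ⟨_, rfl⟩
  obtain ⟨C, η, hC, hη, h1⟩ := TN.fin hr hw (U := fun a (p : Δ) => dr p.1.1 p.2.1.1 p.2.1.2 a)
    fun a => by
      rw [hdr]
      exact TN.sum univ hr hw fun i _ => (fA a _).mul1 (TN.sum univ hr hw fun c _ =>
        ((fφ c).pow 2).mul1 (fP c i))
  obtain ⟨δ₀, d0, d1⟩ := hL (j * (Kg n d * C * max 1 (1 / η) ^ d) + 1)
  obtain ⟨δ, δ0, δ1, δ2⟩ : ∃ δ : ℝ, 0 < δ ∧ δ ≤ 1 ∧ δ ≤ δ₀ :=
    ⟨min 1 δ₀, by positivity, min_le_left _ _, min_le_right _ _⟩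
  have hρ' := hρ.smul δ0 δ1
  have ht' : ∀ i, Tame (h i) fun y => δ * ρ y := fun i =>
    (TN.mono_r (ht i) 1 hρ'.1 fun x => by nlinarith [hρ.1 x]).mono_w (1 / δ ^ s) (fun x => by
      rw [Real.mul_rpow δ0.le (hρ.1 x)]
      have := Real.rpow_pos_of_pos δ0 s
      apply le_of_eq; field_simp) fun x => Real.rpow_nonneg (hρ'.1 x) s
  have hσ' : (fun y => 1 / 100 * (δ * ρ y)) = σ δ := by rw [hσ]
  choose k k1 k2 k3 using fun a : Col n × Fin ((n + d).choose d) =>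
    cutf H hρ' h ht' a.1 (fun z => e z a.2) fun z => e1 z a.2
  choose h' l1 l2 l3 using fun a : Col n × Fin m =>
    cutf H hρ' h ht' a.1 (fun z => Q z a.2) fun z => Q2 z a.2
  simp only [hσ'] at k1 k3 l1
  let f : Pr (fun y => δ * ρ y) (1 / 2) → Δ := fun p => (⟨δ, δ0, δ1⟩, ⟨p.1,
    pos_of_mul_pos_right p.2.1 δ0.le, p.2.2.trans (by nlinarith [hρ.1 p.1.1])⟩)
  have jq : ∀ z x a, ∃ q, ∀ hp : 0 < δ * ρ z ∧ ‖x - z‖ ≤ 1 / 2 * (δ * ρ z), q ∈ Pd n d ∧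
      J d false (fun y => dr δ z x a y - q y) x (η * (δ * ρ z)) (C * (δ * ρ z) ^ s) ∧
      ∀ y, |q y| ≤ Kg n d * (C * (δ * ρ z) ^ s) * max 1 (‖y - x‖ / (η * (δ * ρ z))) ^ d := by
    intro z x a
    by_cases hp : 0 < δ * ρ z ∧ ‖x - z‖ ≤ 1 / 2 * (δ * ρ z)
    · obtain ⟨q, hq⟩ := (h1 (a, f ⟨(z, x), hp⟩)).2.jet (mul_nonneg hη.le hp.1.le)
      exact ⟨q, fun _ => hq⟩
    · exact ⟨0, fun h => absurd h hp⟩
  choose q hq using jq
  have hr' : ∀ p : Pr (fun y => δ * ρ y) (1 / 2), 0 ≤ δ * ρ p.1.1 := fun p => p.2.1.le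
  have hw' : ∀ p : Pr (fun y => δ * ρ y) (1 / 2), 0 ≤ (δ * ρ p.1.1) ^ s := fun p =>
    Real.rpow_nonneg (hr' p) s
  have n3 : ∀ p : Pr (fun y => δ * ρ y) (1 / 2), δ * ρ p.1.1 ≤ 2 * (δ * ρ p.1.2) := fun p => by
    nlinarith [n1 (f p).2]
  have loc : ∀ (p : Pr (fun y => δ * ρ y) (1 / 2)) y, ‖y - p.1.2‖ ≤ 1 / 2000 * (δ * ρ p.1.1) →
      ∀ c b i, phi d (σ δ) c y * e (zeta (σ δ) c y) b i =
        phi d (σ δ) c y * e (zeta (σ δ) c p.1.2) b i := fun p y hy c b i =>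
    phi_mul_loc (ad δ δ0 δ1) (by rw [hσ]; linarith [n3 p]) fun z => e z b i
  have gA := fun a (b : Col n × Fin ((n + d).choose d)) => TN.sum univ hr' (fun _ => zero_le_one)
    fun i _ => ((fA a (Sum.inr i)).comp f).mul1 (((fφ b.1).comp f).mul1
      (TN.const1 hr' 1 fun p => e1 (zeta (σ δ) b.1 p.1.2) b.2 i))
  refine ⟨fun y => δ * ρ y, k, h', hρ', l2, fun y => ?_, 1 / 2, 1, by norm_num, le_rfl, one_pos,
    fun z a v y => Sum.elim (fun w => A z a (Sum.inl w) y) (fun b => ∑ i, A z a (Sum.inr i) y *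
      (phi d (σ δ) b.1 y * e (zeta (σ δ) b.1 y) b.2 i)) v,
    fun z x a y => τ z x a y - q z x a y, ⟨fun a v => ?_, fun p a => ?_, fun a => ?_⟩, fun p => ?_⟩
  · simp only [k1, l1, sp, mul_pow, ← mul_sum, ← sum_add_distrib, ← mul_add,
      Q1, e2, ← sum_mul, phi_sq (ad δ δ0 δ1), one_mul]
  · cases v with
    | inl w => exact (fA a (Sum.inl w)).comp f
    | inr b =>
      exact (gA a b).congr (η₀ := 1 / 2000) (by norm_num) fun p y hy => by
        simp only [Sum.elim_inr, loc p y hy, f]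
  · exact Pd_sub (hF.mem (f p).2 a) (hq _ _ a p.2).1
  · have b1 := ((hF.tτ a).comp fun p => (f p).2).resc hs H.2 1 one_pos hr' fun p => by
      nlinarith [hρ.1 p.1.1]
    have b2 : TN d false (fun p : Pr (fun y => δ * ρ y) (1 / 2) => p.1.2) (fun p => δ * ρ p.1.1)
        (fun p y => dr δ p.1.1 p.1.2 a y - q p.1.1 p.1.2 a y) (fun p => (δ * ρ p.1.1) ^ s) :=
      ⟨C, η, hC, hη, fun p => ⟨hr' p, (hq _ _ a p.2).2.1⟩⟩
    refine ((b1.sub b2).sub (TN.sum univ hr' hw' fun b _ => (gA a b).mul1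
      (((k3 b).comp fun p : Pr (fun y => δ * ρ y) (1 / 2) => p.1.2).resc hs H.2 2 two_pos hr'
        n3))).congr (η₀ := 1 / 2000) (by norm_num) fun p y hy => ?_
    have b3 : ∑ b : Col n × Fin ((n + d).choose d), (∑ i, A p.1.1 a (Sum.inr i) y *
        (phi d (σ δ) b.1 y * e (zeta (σ δ) b.1 p.1.2) b.2 i)) * (phi d (σ δ) b.1 y *
          ∑ i, e (zeta (σ δ) b.1 p.1.2) b.2 i * (h i).P p.1.2 y) =
        ∑ i, A p.1.1 a (Sum.inr i) y * (h i).P p.1.2 y - dr δ p.1.1 p.1.2 a y := by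
      rw [sp]
      simp only [hdr, Q1, mul_sub, sum_sub_distrib, ← sum_mul, phi_sq (ad δ δ0 δ1), one_mul,
        sub_sub_cancel]
      simp only [sum_mul]
      rw [sum_congr rfl fun c _ => sum_comm, sum_comm]
      refine sum_congr rfl fun i _ => ?_
      rw [mul_sum]
      refine sum_congr rfl fun c _ => ?_
      rw [mul_sum, mul_sum]
      exact sum_congr rfl fun b _ => by ring
    simp only [Fintype.sum_sum_type, Sum.elim_inl, Sum.elim_inr, loc p y hy, f, mul_sub,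
      sum_sub_distrib, b3]
    ring
  · refine ((d1 δ δ0 δ2 (f p).2).sub (e := Kg n d * C * max 1 (1 / η) ^ d) fun a y hy => ?_).mono
      (by linarith)
    have b1 := (hq _ _ a p.2).2.2 y
    have b2 : ‖y - p.1.2‖ / (η * (δ * ρ p.1.1)) ≤ 1 / η := by
      have := p.2.1
      rw [div_le_div_iff₀ (by positivity) hη]
      nlinarith
    have := Kg_pos n d
    have := hw' p
    simp only [sub_sub_cancel, f]
    refine b1.trans ?_
    calc _ ≤ Kg n d * (C * (δ * ρ p.1.1) ^ s) * max 1 (1 / η) ^ d := by gcongr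
      _ = _ := by ring

lemma Tame.eq_zero (H : Hs d s) {u : CF n d s} (h : Tame u ρ) {y : E n} (hy : ρ y = 0) :
    u.f y = 0 := by
  obtain ⟨B, η', -, -, h1⟩ := TN.bound h
  have := h1 y y (by simp [hy])
  simpa [hy, Real.zero_rpow H.pos.ne', u.center H.pos] using this

lemma step (H : Hs d s) (hρ : Lip1 ρ) (g : W → CF n d s) (h : Fin m → CF n d s)
    (ht : ∀ i, Tame (h i) ρ) (hR : Rank j g ρ) : ∃ (ρ' : E n → ℝ) (g' : W → CF n d s)
      (h' : Fin m → CF n d s), Lip1 ρ' ∧ (∀ i, Tame (h' i) ρ') ∧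
      (∀ y, ∑ w, (g' w).f y ^ 2 + ∑ i, (h' i).f y ^ 2 = ∑ w, (g w).f y ^ 2 + ∑ i, (h i).f y ^ 2) ∧
      PRank (j + 1) (Sum.elim g' h') ρ' := by
  classical
  obtain ⟨ρ', hs, h1, h2⟩ := level H hρ g h ht hR
  obtain ⟨g', h', a1, a2, a3⟩ := rotall H (by positivity)
    (Real.rpow_lt_one (by norm_num) (by norm_num) (by linarith [H.1])) hs m g h ht h1
  exact ⟨ρ', g', h', hs.l', a1, a2, h2.trans H hs.l' a3⟩

lemma main_ind (H : Hs d s) (i : ℕ) : ∀ (j m : ℕ) (W : Type) [Fintype W] (ρ : E n → ℝ)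
    (g : W → CF n d s) (h : Fin m → CF n d s), (n + d).choose d ≤ j + i → Lip1 ρ →
    (∀ i, Tame (h i) ρ) → Rank j g ρ → ∃ (W' : Type) (_ : Fintype W') (g' : W' → CF n d s),
      Fintype.card W' = Fintype.card W + i * (4 * (4 * n + 5) ^ n * (n + d).choose d) ∧
      ∀ y, ∑ w, (g' w).f y ^ 2 = ∑ w, (g w).f y ^ 2 + ∑ i, (h i).f y ^ 2 := by
  induction i with
  | zero =>
    intro j m W _ ρ g h hj hρ ht hR
    obtain ⟨ρ', g', h', a1, a2, a3, A, τ, hF, hL⟩ := step H hρ g h ht hR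
    refine ⟨W, inferInstance, g', by simp, fun y => ?_⟩
    have b1 : ρ' y = 0 := by
      by_contra b2
      have b3 := (a1.1 y).lt_of_ne' b2
      obtain ⟨δ, d0, d1⟩ := hL 1
      have p : ‖y - y‖ ≤ 1 / 2 * ρ' y := by simpa using b3.le
      have := (d1 δ d0 le_rfl ⟨(y, y), b3, p⟩).le_finrank (mul_pos d0 b3) one_pos
        (hF.mem ⟨(y, y), b3, p⟩)
      omega
    rw [← a3 y]
    simp [fun i => (a2 i).eq_zero H b1]
  | succ i ih =>
    intro j m W _ ρ g h hj hρ ht hR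
    obtain ⟨ρ', g', h', a1, a2, a3, a4⟩ := step H hρ g h ht hR
    obtain ⟨ρ'', k, h'', b1, b2, b3, b4⟩ := cut H a1 g' h' a2 a4
    let ε := (Fintype.equivFin (Col n × Fin m)).symm
    obtain ⟨W', _, g'', c1, c2⟩ := ih (j + 1) _ _ ρ'' (Sum.elim g' k) (fun a => h'' (ε a))
      (by omega) b1 (fun a => b2 _) b4
    refine ⟨W', inferInstance, g'', ?_, fun y => ?_⟩
    · rw [c1, Fintype.card_sum, Fintype.card_prod, card_Col, Fintype.card_fin]; ring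
    · rw [c2, Fintype.sum_sum_type, ε.sum_comp fun a => (h'' a).f y ^ 2, ← a3, ← b3]
      simp only [Sum.elim_inl, Sum.elim_inr]; ring

lemma CF.tame_init (H : Hs d s) (u : CF n d s) : Tame u fun x => 1 + ‖x‖ := by
  obtain ⟨C, hC, h⟩ := CF.whitney fun _ : Unit => u
  obtain ⟨B, hB⟩ := (isCompact_closedBall (0 : E n) 1).exists_bound_of_continuousOn
    (Pd_diff (u.mem 0)).continuous.continuousOn
  have h1 : PB (u.P 0) 0 1 (B * 1 ^ s) := fun y hy => by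
    simpa using hB y (mem_closedBall_iff_norm.2 hy)
  have hB0 : 0 ≤ B := by simpa using h1.nonneg zero_le_one
  have hK := Kg_pos n d
  refine TN.poly u.mem (fun x => by positivity) (fun x => by positivity) one_pos
    (C := (2 * C + Kg n d * B) * 2 ^ s) fun x y hy => ?_
  have a0 := norm_nonneg x
  have a1 : ‖y - 0‖ ≤ 2 * (1 + ‖x‖) := by
    have := norm_sub_le_norm_sub_add_norm_sub y x 0
    rw [sub_zero x] at this; linarith
  have a2 := h1.grow_s (u.mem 0) one_pos (R := 2 * (1 + ‖x‖)) (by linarith) y a1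
  have a3 : (1 / (2 * (1 + ‖x‖))) ^ (s - d) ≤ 1 := Real.rpow_le_one (by positivity)
    ((div_le_one (by positivity)).2 (by linarith)) (by linarith [H.1])
  have a4 := h () x 0 y
  have a5 := Real.rpow_le_rpow (norm_nonneg _) a1 H.pos.le
  have a6 := Real.rpow_le_rpow (norm_nonneg _) (show ‖y - x‖ ≤ 2 * (1 + ‖x‖) by linarith) H.pos.le
  have a7 := abs_sub_abs_le_abs_sub (u.P x y) (u.P 0 y)
  have a8 := mul_le_mul_of_nonneg_left (add_le_add a6 a5) hC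
  have a9 : Kg n d * B * (1 / (2 * (1 + ‖x‖))) ^ (s - d) * (2 * (1 + ‖x‖)) ^ s ≤
      Kg n d * B * 1 * (2 * (1 + ‖x‖)) ^ s := by gcongr
  rw [mul_assoc, ← Real.mul_rpow zero_le_two (by positivity)]
  linarith

lemma sumsq_bound {β : ℝ} (h0 : 0 < β) (h1 : β ≤ 1) (g : Fin m → E n → ℝ)
    (hg : ∀ i, InC d β (g i)) :
    ∃ g' : Fin (4 * (4 * n + 5) ^ n * ((n + d).choose d) ^ 2) → E n → ℝ, (∀ i, InC d β (g' i)) ∧
      ∀ y, ∑ i, g i y ^ 2 = ∑ i, g' i y ^ 2 := by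
  have H : Hs d (d + β) := ⟨by linarith, by linarith⟩
  choose u hu using fun i => exists_CF h0 d _ rfl _ (hg i)
  obtain ⟨W', _, g', c1, c2⟩ := main_ind H ((n + d).choose d) 0 m Empty (fun x => 1 + ‖x‖)
    Empty.elim u (by simp) ⟨fun x => by positivity, fun x y => by
      linarith [norm_sub_norm_le x y]⟩ (fun i => (u i).tame_init H)
    ⟨1 / 2, 1, by norm_num, le_rfl, one_pos, fun _ => Fin.elim0, fun _ _ => Fin.elim0,
      ⟨fun a => a.elim0, fun _ a => a.elim0, fun a => a.elim0⟩, fun p t =>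
        ⟨p.1.2, by simpa using p.2.1.le, by rw [Subsingleton.elim t 0, norm_zero]; simp⟩⟩
  let ε := (Fintype.equivFinOfCardEq (n := 4 * (4 * n + 5) ^ n * ((n + d).choose d) ^ 2)
    (c1.trans (by simp; ring))).symm
  refine ⟨fun i => (g' (ε i)).f, fun i => CF.inC h0 d _ rfl _, fun y => ?_⟩
  rw [ε.sum_comp fun a => (g' a).f y ^ 2, c2]
  simp [hu]

end Pool.Agent.Lib.MP_ca9be0_an.PyF
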