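import Pool.Agent.Lib.MP_ca9be0_an.FinB

/-! Lower bound by the Pythagoras number of polynomials of bounded degree (blow-up). -/

namespace Pool.Agent.Lib.MP_ca9be0_an.PyF

open Finset Filter Topology

variable {n d : ℕ} {s : ℝ}

lemma Pd_ind {C : ℕ → (E n → ℝ) → Prop} (hc : ∀ e c, C e fun _ => c)
    (hadd : ∀ e p q, C e p → C e q → C e fun y => p y + q y)
    (hmul : ∀ e c p, C e p → C (e + 1) fun y => c * p y)
    (hx : ∀ e c i p, C e p → C (e + 1) fun y => c * y i * p y) {e : ℕ} {p : E n → ℝ}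
    (hp : p ∈ Pd n e) : C e p := by
  unfold Pd at hp
  induction hp using Submodule.pow_induction_on_left' with
  | algebraMap r => exact hc 0 r
  | add a b i ha hb iha ihb => exact hadd i a b iha ihb
  | mem_mul m hm i a ha ih =>
    obtain ⟨c, rfl⟩ := (Submodule.mem_span_range_iff_exists_fun ℝ).1 hm
    have : ∀ t : Finset (Option (Fin n)), C (i + 1) fun y => (∑ o ∈ t, c o • gen n o) y * a y := by
      intro t
      induction t using Finset.induction_on with
      | empty => simpa using hc (i + 1) 0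
      | insert o t ho ih' =>
        simp only [sum_insert ho, Pi.add_apply, add_mul]
        refine hadd _ _ _ ?_ ih'
        cases o with
        | none => simpa [gen] using hmul i (c none) a ih
        | some j => simpa [gen] using hx i (c (some j)) j a ih
    exact this univ

lemma Pd_affine {p : E n → ℝ} (hp : p ∈ Pd n d) (z : E n) (r : ℝ) :
    (fun y => p (z + r • y)) ∈ Pd n d := by
  refine Pd_ind (C := fun e p => (fun y => p (z + r • y)) ∈ Pd n e) (fun e c => const_mem e c)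
    (fun e p q hp hq => Pd_add hp hq) (fun e c p hp => Pd_mono (Nat.le_succ e) (Pd_smul c hp))
    (fun e c i p hp => ?_) hp
  rw [add_comm e 1]
  refine Pd_mul (Pd_smul c ?_) hp
  simpa [gen] using Pd_add (const_mem 1 (z i)) (Pd_smul r (gen_mem (some i)))

lemma TN.poly_comp {ι : Type} {x : ι → E n} {r : ι → ℝ} {S : E n → E n} {e : ℕ} {p : E n → ℝ}
    (hr : ∀ i, 0 ≤ r i) (hS : ∀ j, TN d true x r (fun _ y => S y j) (fun _ => 1))
    (hp : p ∈ Pd n e) : TN d true x r (fun _ y => p (S y)) (fun _ => 1) :=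
  Pd_ind (C := fun _ p => TN d true x r (fun _ y => p (S y)) (fun _ => 1))
    (fun _ c => TN.const1 hr |c| fun _ => le_rfl) (fun _ _ _ hp hq => hp.add hq)
    (fun _ c _ hp => (TN.const1 hr |c| fun _ => le_rfl).mul1 hp)
    (fun _ c j _ hp => ((TN.const1 hr |c| fun _ => le_rfl).mul1 (hS j)).mul1 hp) hp

lemma exists_mv {p : E n → ℝ} (hp : p ∈ Pd n d) : ∃ q : MvPolynomial (Fin n) ℝ,
    q.totalDegree ≤ d ∧ ∀ y : E n, MvPolynomial.eval (fun i => y i) q = p y := by
  refine Pd_ind (C := fun e p => ∃ q : MvPolynomial (Fin n) ℝ,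
    q.totalDegree ≤ e ∧ ∀ y : E n, MvPolynomial.eval (fun i => y i) q = p y)
    (fun e c => ⟨MvPolynomial.C c, by simp, by simp⟩) ?_ ?_ ?_ hp
  · rintro e p q ⟨a, a1, a2⟩ ⟨b, b1, b2⟩
    exact ⟨a + b, (MvPolynomial.totalDegree_add _ _).trans (max_le a1 b1), by simp [a2, b2]⟩
  · rintro e c p ⟨a, a1, a2⟩
    exact ⟨MvPolynomial.C c * a, (MvPolynomial.totalDegree_mul _ _).trans (by simp; omega),
      by simp [a2]⟩
  · rintro e c i p ⟨a, a1, a2⟩
    refine ⟨MvPolynomial.C c * MvPolynomial.X i * a, (MvPolynomial.totalDegree_mul _ _).trans ?_,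
      by simp [a2]⟩
    have := MvPolynomial.totalDegree_mul (MvPolynomial.C c : MvPolynomial (Fin n) ℝ)
      (MvPolynomial.X i)
    simp only [MvPolynomial.totalDegree_C, MvPolynomial.totalDegree_X] at this
    omega

lemma eval_mem {q : MvPolynomial (Fin n) ℝ} (hq : q.totalDegree ≤ d) :
    (fun y : E n => MvPolynomial.eval (fun i => y i) q) ∈ Pd n d := by
  simp only [MvPolynomial.eval_eq']
  refine Pd_sum _ fun a ha => Pd_smul _ (Pd_mono ((MvPolynomial.le_totalDegree ha).trans hq) ?_)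
  have h1 : ∀ (i : Fin n) (k : ℕ), (fun y : E n => y i ^ k) ∈ Pd n k := fun i k => by
    induction k with
    | zero => simpa using const_mem 0 1
    | succ k ih => simpa only [pow_succ, gen] using Pd_mul ih (gen_mem (some i))
  have h2 : ∀ t : Finset (Fin n), (fun y : E n => ∏ i ∈ t, y i ^ a i) ∈ Pd n (∑ i ∈ t, a i) := by
    intro t
    induction t using Finset.induction_on with
    | empty => simpa using const_mem 0 1
    | insert i t hi ih => simpa only [prod_insert hi, sum_insert hi] using Pd_mul (h1 i _) ih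
  rw [Finsupp.sum_fintype _ _ (fun _ => rfl)]
  exact h2 univ

lemma inC_of_TN {k : ℕ} {α : ℝ} (h0 : 0 < α) (h1 : α ≤ 1) {u : E n → ℝ}
    (h : TN k true (fun x => x) (fun _ => 1) (fun _ => u) (fun _ => 1)) : InC k α u := by
  obtain ⟨C, η, -, hη, hb⟩ := h.bound
  obtain ⟨v, hv, -⟩ := mkCF (s := k + α) ⟨by linarith, by linarith⟩
    (fun _ : Unit => ⟨fun _ => 1, fun _ _ => 1, fun _ => const_mem k 1, 0, le_rfl, by simp⟩)
    (σ := fun _ => 1) ⟨fun _ => zero_le_one, fun x y => by simp⟩ (coef := fun _ => u) (B := C)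
    (fun _ y => by simpa using hb y y (by simpa using hη.le)) (by simpa using h)
  have : v.f = u := by ext y; simp [hv]
  exact this ▸ CF.inC h0 k _ rfl v

lemma coord_TN (i : Fin n) : TN d true (fun x : E n => x) (fun _ => 1) (fun x y => y i - x i)
    (fun _ => 1) :=
  TN.poly (fun x => coord_mem i _) (fun _ => zero_le_one) (fun _ => zero_le_one) one_pos (C := 1)
    fun x y hy => (PiLp.norm_apply_le (y - x) i).trans hy

lemma sin_TN (i : Fin n) : TN d true (fun x : E n => x) (fun _ => 1) (fun _ y => Real.sin (y i))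
    (fun _ => 1) := by
  have h1 : ∀ c : ℝ, TN d true (fun x : E n => x) (fun _ => 1)
      (fun x y => Real.sin (y i - x i + c)) (fun _ => 1) := fun c => by
    have := (coord_TN (d := d) i).comp1 (fun j t => Real.sin (t + c + j * (Real.pi / 2))) (-1) 1
      (fun j t _ => by
        refine ((((hasDerivAt_id t).add_const c).add_const _).sin).congr_deriv ?_
        push_cast
        rw [add_mul, one_mul, ← add_assoc, Real.sin_add_pi_div_two]; simp) one_pos fun x y hy =>
          abs_le.1 ((PiLp.norm_apply_le (y - x) i).trans (by simpa using hy))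
    simpa using this
  refine (((TN.const1 (fun _ => zero_le_one) 1 fun x : E n => Real.abs_sin_le_one (x i)).mul1
    (h1 (Real.pi / 2))).add ((TN.const1 (fun _ => zero_le_one) 1 fun x : E n =>
      Real.abs_cos_le_one (x i)).mul1 (h1 0))).congr' fun x y => ?_
  rw [Real.sin_add_pi_div_two, add_zero, ← Real.sin_add]; simp

lemma inv_TN (i : Fin n) : TN d true (fun x : E n => x) (fun _ => 1)
    (fun _ y => (1 + y i ^ 2)⁻¹) (fun _ => 1) := by
  have h0 : ∀ x : E n, |(1 + x i ^ 2)⁻¹| ≤ 1 := fun x => by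
    rw [abs_of_pos (by positivity)]; exact inv_le_one_of_one_le₀ (by nlinarith [sq_nonneg (x i)])
  have h2 : ∀ x : E n, |2 * x i * (1 + x i ^ 2)⁻¹| ≤ 1 := fun x => by
    rw [← div_eq_mul_inv, abs_div, abs_of_pos (a := 1 + x i ^ 2) (by positivity),
      div_le_one (by positivity), abs_le]
    constructor <;> nlinarith [sq_nonneg (x i - 1), sq_nonneg (x i + 1)]
  have c1 := TN.const1 (d := d) (x := fun x : E n => x) (r := fun _ => 1) (fun _ => zero_le_one) 1 h0
  have h1 := ((TN.const1 (c := fun _ => 1) (fun _ => zero_le_one) 1 fun _ => by simp).add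
    (((TN.const1 (fun _ => zero_le_one) 1 h2).mul1 (coord_TN (d := d) i)).add
      (c1.mul1 ((coord_TN i).pow 2)))).rpow (-1) (c := 1 / 2) (η₀ := 1 / 2) (by norm_num)
      (by norm_num) fun x y hy => by
        have a1 : |y i - x i| ≤ 1 / 2 := (PiLp.norm_apply_le (y - x) i).trans (by simpa using hy)
        have a2 : |2 * x i * (1 + x i ^ 2)⁻¹ * (y i - x i)| ≤ 1 * (1 / 2) := by
          rw [abs_mul]; exact mul_le_mul (h2 x) a1 (abs_nonneg _) zero_le_one
        have a3 : 0 ≤ (1 + x i ^ 2)⁻¹ * (y i - x i) ^ 2 := by positivity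
        linarith [neg_abs_le (2 * x i * (1 + x i ^ 2)⁻¹ * (y i - x i))]
  refine (c1.mul1 h1).congr' fun x y => ?_
  rw [Real.rpow_neg_one, ← mul_inv]
  congr 1
  field_simp
  ring

lemma blow_limit (H : Hs d s) {m : ℕ} (g : Fin m → CF n d s) (z : ℕ → E n) (r : ℕ → ℝ)
    (hr : ∀ l, 0 < r l) (hr0 : Tendsto r atTop (𝓝 0)) (F : E n → ℝ)
    (hF : ∀ y, Tendsto (fun l => ∑ j, ((g j).f (z l + r l • y) / r l ^ d) ^ 2) atTop (𝓝 (F y))) :
    ∃ p : Fin m → E n → ℝ, (∀ j, p j ∈ Pd n d) ∧ ∀ y, F y = ∑ j, p j y ^ 2 := by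
  obtain ⟨C, hC, h⟩ := CF.fin g
  let U : Ultrafilter ℕ := hyperfilter ℕ
  have hU : (U : Filter ℕ) ≤ atTop := Nat.hyperfilter_le_atTop
  have h1 : ∀ j y, ∃ a, Tendsto (fun l => (g j).f (z l + r l • y) / r l ^ d) U (𝓝 a) := by
    intro j y
    obtain ⟨a, -, ha⟩ := (isCompact_Icc (a := -(|F y| + 2)) (b := |F y| + 2)).ultrafilter_le_nhds'
      (U.map fun l => (g j).f (z l + r l • y) / r l ^ d) (by
        rw [Ultrafilter.mem_map]
        filter_upwards [hU ((hF y).eventually (gt_mem_nhds (lt_add_one (F y))))] with l hl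
        have := single_le_sum (f := fun j => ((g j).f (z l + r l • y) / r l ^ d) ^ 2)
          (fun _ _ => sq_nonneg _) (mem_univ j)
        refine abs_le.1 (abs_le_of_sq_le_sq ?_ (by positivity))
        have := hl.le
        nlinarith [le_abs_self (F y), abs_nonneg (F y)])
    exact ⟨a, ha⟩
  choose p hp using h1
  refine ⟨p, fun j => ?_, fun y => tendsto_nhds_unique ((hF y).mono_left hU)
    (tendsto_finsetSum _ fun j _ => (hp j y).pow 2)⟩
  have hc : IsClosed (Pd n d : Set (E n → ℝ)) := Submodule.closed_of_finiteDimensional _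
  refine hc.mem_of_tendsto (b := U) (f := fun l y => (r l ^ d)⁻¹ * (g j).P (z l) (z l + r l • y))
    (tendsto_pi_nhds.2 fun y => ?_)
    (Eventually.of_forall fun l => Pd_smul _ (Pd_affine ((g j).mem _) _ _))
  refine (hp j y).congr_dist (Tendsto.mono_left ?_ hU)
  refine squeeze_zero (g := fun l => C * ‖y‖ ^ s * r l ^ (s - d)) (fun _ => dist_nonneg)
    (fun l => ?_) ?_
  · have := h j (z l) (z l + r l • y)
    have h2 := hr l
    rw [add_sub_cancel_left, norm_smul, Real.norm_of_nonneg h2.le,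
      Real.mul_rpow h2.le (norm_nonneg _)] at this
    rw [Real.dist_eq, div_eq_inv_mul, ← mul_sub, abs_mul, abs_of_pos (by positivity),
      inv_mul_le_iff₀ (by positivity), Real.rpow_sub h2, Real.rpow_natCast]
    refine this.trans (le_of_eq ?_)
    field_simp
  · have := (hr0.rpow_const (p := s - d) (Or.inr (by linarith [H.1]))).const_mul (C * ‖y‖ ^ s)
    rwa [Real.zero_rpow (by linarith [H.1]), mul_zero] at this

lemma exists_lift (i₀ : Fin n) : ∃ (z : ℕ → E n) (r : ℕ → ℝ), (∀ l, 0 < r l) ∧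
    Tendsto r atTop (𝓝 0) ∧ ∀ d, ∀ q ∈ Pd n d, ∃ G : E n → ℝ,
      (∀ k, TN k true (fun x => x) (fun _ => 1) (fun _ => G) (fun _ => 1)) ∧
      ∀ y, Tendsto (fun l => G (z l + r l • y) / r l ^ d) atTop (𝓝 (q y)) := by
  obtain ⟨r, hr⟩ : ∃ r : ℕ → ℝ, r = fun l : ℕ => (1 + (l * (2 * Real.pi)) ^ 2)⁻¹ := ⟨_, rfl⟩
  have r0 : ∀ l, 0 < r l := fun l => by rw [hr]; positivity
  have t0 : Tendsto (fun l : ℕ => (l : ℝ) * (2 * Real.pi)) atTop atTop :=
    tendsto_natCast_atTop_atTop.atTop_mul_const (by positivity)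
  have r1 : Tendsto r atTop (𝓝 0) := by
    rw [hr]
    exact tendsto_inv_atTop_zero.comp (tendsto_atTop_add_const_left _ _
      ((tendsto_pow_atTop two_ne_zero).comp t0))
  have r2 : Tendsto (fun l : ℕ => r l ^ 2 * (l * (2 * Real.pi))) atTop (𝓝 0) := by
    refine squeeze_zero (fun l => by positivity) (fun l => ?_) r1
    rw [sq, mul_assoc]
    refine mul_le_of_le_one_right (r0 l).le ?_
    rw [hr, inv_mul_le_iff₀ (by positivity)]
    nlinarith [sq_nonneg ((l : ℝ) * (2 * Real.pi) - 1), sq_nonneg ((l : ℝ) * (2 * Real.pi))]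
  refine ⟨fun l => EuclideanSpace.single i₀ (l * (2 * Real.pi)), r, r0, r1, fun d q hq => ?_⟩
  obtain ⟨H, H1, H2, -, H4⟩ := hom_dec 0 hq
  simp only [zero_add] at H2
  let S : E n → E n := fun y => WithLp.toLp 2 fun i => Real.sin (y i)
  refine ⟨fun y => ∑ j ∈ range (d + 1), (1 + y i₀ ^ 2)⁻¹ ^ (d - j) * H j (S y), fun k =>
    TN.sum _ (fun _ => zero_le_one) (fun _ => zero_le_one) fun j _ => ((inv_TN i₀).pow _).mul1
      (TN.poly_comp (fun _ => zero_le_one) sin_TN (H1 j)), fun y => ?_⟩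
  have a1 : Tendsto (fun l : ℕ => (1 + (l * (2 * Real.pi) + r l * y i₀) ^ 2)⁻¹ / r l) atTop
      (𝓝 1) := by
    have := ((tendsto_const_nhds (x := (1 : ℝ))).add ((r2.mul_const (2 * y i₀)).add
      ((r1.pow 3).mul_const (y i₀ ^ 2)))).inv₀ (by simp)
    simp only [zero_mul, add_zero, inv_one, ne_eq, OfNat.ofNat_ne_zero, not_false_eq_true,
      zero_pow] at this
    refine this.congr fun l => ?_
    rw [div_eq_mul_inv, ← mul_inv]
    congr 1
    have : r l * (1 + (l * (2 * Real.pi)) ^ 2) = 1 := by rw [hr]; field_simp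
    linear_combination -this
  have a2 : Tendsto (fun l : ℕ => (r l)⁻¹ • S (EuclideanSpace.single i₀ (l * (2 * Real.pi)) +
      r l • y)) atTop (𝓝 y) := by
    have b1 : ∀ i, Tendsto (fun l => (r l)⁻¹ * Real.sin (r l * y i)) atTop (𝓝 (y i)) := by
      intro i
      have b2 : HasDerivAt (fun t : ℝ => Real.sin (t * y i)) (y i) 0 := by
        simpa using ((hasDerivAt_id (0 : ℝ)).mul_const (y i)).sin
      have := b2.tendsto_slope_zero.comp (tendsto_nhdsWithin_iff.2
        ⟨r1, Eventually.of_forall fun l => (r0 l).ne'⟩)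
      simpa [Function.comp_def] using this
    have b2 := (PiLp.continuous_toLp 2 _).continuousAt.tendsto.comp (tendsto_pi_nhds.2 b1)
    refine b2.congr fun l => ?_
    ext i
    by_cases hi : i = i₀
    · subst hi; simp [S, add_comm _ (r l * _), Real.sin_add_nat_mul_two_pi]
    · simp [S, hi]
  rw [H4]
  have a3 := tendsto_finsetSum (range (d + 1)) fun j _ => (a1.pow (d - j)).mul
    (((Pd_diff (H1 j)).continuous.tendsto y).comp a2)
  simp only [one_pow, one_mul] at a3
  refine a3.congr fun l => ?_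
  rw [sum_div]
  refine sum_congr rfl fun j hj => ?_
  have := r0 l
  obtain ⟨e, rfl⟩ : ∃ e, d = j + e := ⟨d - j, by have := mem_range.1 hj; omega⟩
  simp only [Function.comp_apply, H2, PiLp.add_apply, EuclideanSpace.single_apply, if_true,
    PiLp.smul_apply, smul_eq_mul, Nat.add_sub_cancel_left]
  rw [div_pow, inv_pow (r l), pow_add]
  field_simp

lemma lower_core {k m M : ℕ} {α β : ℝ} (hn : 1 ≤ n) (h0 : 0 < α) (h1 : α ≤ 1) (b0 : 0 < β)
    (b1 : β ≤ 1) (h : ∀ G : Fin M → E n → ℝ, (∀ i, InC d β (G i)) →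
      InC k α (fun y => ∑ i, G i y ^ 2) → ∃ m' ≤ m, ∃ g : Fin m' → E n → ℝ, (∀ j, InC d β (g j)) ∧
        ∀ y, ∑ i, G i y ^ 2 = ∑ j, g j y ^ 2)
    (q : Fin M → MvPolynomial (Fin n) ℝ) (hq : ∀ i, (q i).totalDegree ≤ d) :
    ∃ p : Fin m → MvPolynomial (Fin n) ℝ, (∀ j, (p j).totalDegree ≤ d) ∧
      ∑ i, q i ^ 2 = ∑ j, p j ^ 2 := by
  obtain ⟨z, r, r0, r1, hl⟩ := exists_lift (⟨0, hn⟩ : Fin n)
  choose G G1 G2 using fun i => hl d _ (eval_mem (hq i))
  obtain ⟨m', hm, g, g1, g2⟩ := h G (fun i => inC_of_TN b0 b1 (G1 i d)) (inC_of_TN h0 h1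
    (TN.sum univ (fun _ => zero_le_one) (fun _ => zero_le_one) fun i _ => (G1 i k).pow 2))
  choose u hu using fun j => exists_CF b0 d _ rfl _ (g1 j)
  obtain ⟨p, p1, p2⟩ := blow_limit ⟨by linarith, by linarith⟩ u z r r0 r1 _ fun y =>
    (tendsto_finsetSum univ fun i _ => (G2 i y).pow 2).congr fun l => by
      simp only [hu, div_pow, ← sum_div, g2]
  choose P P1 P2 using fun j => exists_mv (p1 j)
  obtain ⟨e, rfl⟩ := Nat.exists_eq_add_of_le hm
  refine ⟨Fin.append P 0, fun j => Fin.addCases (fun j => by simpa using P1 j)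
    (fun j => by simp) j, MvPolynomial.funext fun y => ?_⟩
  have := p2 (WithLp.toLp 2 y)
  simp only [← P2] at this
  simpa [Fin.sum_univ_add] using this

end Pool.Agent.Lib.MP_ca9be0_an.PyF
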