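import Pool.Agent.Lib.MP_ca9be0_an.FinL

/-! Uniform jet bounds, cut-offs, gluing and limits. -/

namespace Pool.Agent.Lib.MP_ca9be0_an.PyF

open Finset Filter Topology

variable {n d : ℕ} {s C : ℝ}

/-- jets of order `d` with remainder at most `C |y - x| ^ s` -/
def Cf (d : ℕ) (s C : ℝ) (f : E n → ℝ) : Prop :=
  ∀ x, ∃ P ∈ Pd n d, ∀ y, |f y - P y| ≤ C * ‖y - x‖ ^ s

lemma Cf.toCF {f : E n → ℝ} (h : Cf d s C f) (hC : 0 ≤ C) : ∃ u : CF n d s, u.f = f := by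
  choose P h1 h2 using h
  exact ⟨⟨f, P, h1, C, hC, h2⟩, rfl⟩

lemma Cf.inC {f : E n → ℝ} {β : ℝ} (hβ : 0 < β) (h : Cf d (d + β) C f) (hC : 0 ≤ C) :
    InC d β f := by
  obtain ⟨u, rfl⟩ := h.toCF hC
  exact CF.inC hβ d _ rfl u

lemma Cf.of_inC {ι : Type} [Finite ι] {f : ι → E n → ℝ} {β : ℝ} (hβ : 0 < β)
    (h : ∀ i, InC d β (f i)) : ∃ C, 0 ≤ C ∧ ∀ i, Cf d (d + β) C (f i) := by
  choose u hu using fun i => exists_CF hβ d _ rfl _ (h i)
  obtain ⟨C, hC, h1⟩ := CF.fin u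
  exact ⟨C, hC, fun i x => ⟨_, (u i).mem x, fun y => hu i ▸ h1 i x y⟩⟩

lemma Cf.mono {f : E n → ℝ} {C' : ℝ} (h : Cf d s C f) (hC : C ≤ C') : Cf d s C' f := fun x => by
  obtain ⟨P, h1, h2⟩ := h x
  exact ⟨P, h1, fun y => (h2 y).trans (mul_le_mul_of_nonneg_right hC (by positivity))⟩

lemma Cf.poly {f : E n → ℝ} (h : f ∈ Pd n d) (hC : 0 ≤ C) : Cf d s C f := fun x =>
  ⟨f, h, fun y => by rw [sub_self, abs_zero]; positivity⟩

lemma Cf.add {f g : E n → ℝ} {C' : ℝ} (h : Cf d s C f) (h' : Cf d s C' g) :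
    Cf d s (C + C') fun y => f y + g y := fun x => by
  obtain ⟨P, h1, h2⟩ := h x
  obtain ⟨Q, h3, h4⟩ := h' x
  refine ⟨_, Pd_add h1 h3, fun y => ?_⟩
  rw [add_sub_add_comm, add_mul]
  exact (abs_add_le _ _).trans (add_le_add (h2 y) (h4 y))

lemma Cf.smul {f : E n → ℝ} {c : ℝ} (h : Cf d s C f) (hc : |c| ≤ 1) :
    Cf d s C fun y => c * f y := fun x => by
  obtain ⟨P, h1, h2⟩ := h x
  refine ⟨_, Pd_smul c h1, fun y => ?_⟩
  rw [← mul_sub, abs_mul]
  exact (mul_le_of_le_one_left (abs_nonneg _) hc).trans (h2 y)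

lemma Cf.sum {ι : Type} (t : Finset ι) {f : ι → E n → ℝ} (h : ∀ i, Cf d s C (f i)) :
    Cf d s (t.card * C) fun y => ∑ i ∈ t, f i y := by
  classical
  induction t using Finset.induction_on with
  | empty => simpa using Cf.poly (s := s) (const_mem d 0) le_rfl
  | insert a t ha ih =>
    simp only [sum_insert ha, card_insert_of_notMem ha]
    exact ((h a).add ih).mono (le_of_eq (by push_cast; ring))

lemma Pd_lin {m : ℕ} {T : E m → E n} (hT : ∀ i, (fun y => T y i) ∈ Pd m 1) {p : E n → ℝ}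
    (hp : p ∈ Pd n d) : (fun y => p (T y)) ∈ Pd m d := by
  refine Pd_ind (C := fun e p => (fun y => p (T y)) ∈ Pd m e) (fun e c => const_mem e c)
    (fun e p q hp hq => Pd_add hp hq) (fun e c p hp => Pd_mono (Nat.le_succ e) (Pd_smul c hp))
    (fun e c i p hp => ?_) hp
  rw [add_comm e 1]
  exact Pd_mul (Pd_smul c (hT i)) hp

lemma Cf.comp (hs : 0 < s) (hC : 0 ≤ C) {m : ℕ} {T : E m → E n}
    (hT : ∀ i, (fun y => T y i) ∈ Pd m 1) (hT' : ∀ x y, ‖T y - T x‖ ≤ ‖y - x‖) {f : E n → ℝ}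
    (h : Cf d s C f) : Cf d s C fun y => f (T y) := fun x => by
  obtain ⟨P, h1, h2⟩ := h (T x)
  exact ⟨_, Pd_lin hT h1, fun y => (h2 _).trans (mul_le_mul_of_nonneg_left
    (Real.rpow_le_rpow (norm_nonneg _) (hT' x y) hs.le) hC)⟩

lemma ulim (U : Ultrafilter ℕ) (a : ℕ → ℝ) (B : ℝ) (h : ∀ᶠ l in U, |a l| ≤ B) :
    ∃ b, Tendsto a U (𝓝 b) := by
  obtain ⟨b, -, hb⟩ := (isCompact_Icc (a := -B) (b := B)).ultrafilter_le_nhds' (U.map a) (by
    rw [Ultrafilter.mem_map]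
    filter_upwards [h] with l hl using abs_le.1 hl)
  exact ⟨b, hb⟩

lemma ulim_sq (U : Ultrafilter ℕ) {m : ℕ} (a : ℕ → Fin m → ℝ) {F : ℝ}
    (h : Tendsto (fun l => ∑ q, a l q ^ 2) U (𝓝 F)) (q : Fin m) :
    ∃ b, Tendsto (fun l => a l q) U (𝓝 b) := by
  refine ulim U _ (|F| + 2) ?_
  filter_upwards [h.eventually (gt_mem_nhds (lt_add_one F))] with l hl
  have := single_le_sum (f := fun j => a l j ^ 2) (fun _ _ => sq_nonneg _) (mem_univ q)
  refine abs_le_of_sq_le_sq ?_ (by positivity)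
  nlinarith [le_abs_self F, abs_nonneg F]

lemma Pd_lim (U : Ultrafilter ℕ) {P : ℕ → E n → ℝ} (h : ∀ l, P l ∈ Pd n d) {Q : E n → ℝ}
    (hQ : ∀ y, Tendsto (fun l => P l y) U (𝓝 (Q y))) : Q ∈ Pd n d := by
  have hc : IsClosed (Pd n d : Set (E n → ℝ)) := Submodule.closed_of_finiteDimensional _
  exact hc.mem_of_tendsto (b := U) (tendsto_pi_nhds.2 hQ) (Eventually.of_forall h)

lemma Cf.lim (U : Ultrafilter ℕ) {u : ℕ → E n → ℝ} (h : ∀ l, Cf d s C (u l)) {f : E n → ℝ}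
    (hf : ∀ y, Tendsto (fun l => u l y) U (𝓝 (f y))) : Cf d s C f := fun x => by
  choose P h1 h2 using fun l => h l x
  have h3 : ∀ y, ∃ b, Tendsto (fun l => P l y) U (𝓝 b) := fun y => by
    refine ulim U _ (|f y| + 1 + C * ‖y - x‖ ^ s) ?_
    filter_upwards [(hf y).abs.eventually (gt_mem_nhds (lt_add_one _))] with l hl
    have := abs_sub (u l y) (u l y - P l y)
    rw [sub_sub_cancel] at this
    linarith [h2 l y]
  choose Q hQ using h3
  exact ⟨Q, Pd_lim U h1 hQ, fun y => le_of_tendsto' ((hf y).sub (hQ y)).abs fun l => h2 l y⟩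

lemma Cf.center (hs : 0 < s) {f P : E n → ℝ} {x : E n}
    (h : ∀ y, |f y - P y| ≤ C * ‖y - x‖ ^ s) : f x = P x := by
  have := h x
  simp only [sub_self, norm_zero, Real.zero_rpow hs.ne', mul_zero, abs_nonpos_iff] at this
  linarith

lemma Cf.of_TN (H : Hs d s) {κ : Type} {σ : κ → ℝ} (hσ : ∀ k, 0 < σ k) {u : κ → E n → ℝ}
    {v : κ × E n → E n → ℝ} (hC : 0 ≤ C)
    (h : TN d true (fun p : κ × E n => p.2) (fun p => σ p.1) v (fun p => σ p.1 ^ s))
    (h1 : ∀ k x y, ‖y - x‖ ≤ σ k → |u k y - v (k, x) y| ≤ C * ‖y - x‖ ^ s) :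
    ∃ C', 0 ≤ C' ∧ ∀ k, Cf d s C' (u k) := by
  obtain ⟨B, η, hB, hη, hη1, h2⟩ := h.out one_pos
  have hK := Kg_pos n d
  have hs := H.pos
  have e0 : 0 < η ^ s := Real.rpow_pos_of_pos hη s
  refine ⟨C + B / η ^ s * (3 + Kg n d), by positivity, fun k x => ?_⟩
  obtain ⟨p, hp, h3⟩ := h2 (k, x)
  have r0 : 0 < η * σ k := mul_pos hη (hσ k)
  have em : B * σ k ^ s = B / η ^ s * (η * σ k) ^ s := by
    rw [Real.mul_rpow hη.le (hσ k).le]; field_simp
  refine ⟨p, hp, fun y => ?_⟩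
  have t0 : 0 ≤ ‖y - x‖ ^ s := by positivity
  have b0 : 0 ≤ B / η ^ s := by positivity
  rcases le_total ‖y - x‖ (η * σ k) with hy | hy
  · have a1 := h1 k x y (hy.trans (mul_le_of_le_one_left (hσ k).le hη1))
    have a2 := (h3 y hy).2
    have a3 := mul_le_mul_of_nonneg_left (ratio_pow_le (d := d) hs H.2 (norm_nonneg _) hy) b0
    have a4 := abs_sub_le (u k y) (v (k, x) y) (p y)
    simp only [em] at a2
    nlinarith [mul_nonneg b0 t0, mul_nonneg (mul_nonneg b0 t0) hK.le]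
  · have a1 : u k y = v (k, y) y := by
      have := h1 k y y (by simpa using (hσ k).le)
      simp only [sub_self, norm_zero, Real.zero_rpow hs.ne', mul_zero, abs_nonpos_iff] at this
      linarith
    have a2 := (h2 (k, y)).abs_le (y := y) (by simpa using r0.le)
    have a3 := PB.grow (fun y hy => (h3 y hy).1) hp r0 y
    rw [max_eq_right ((one_le_div r0).2 hy)] at a3
    have a4 := mul_le_mul_of_nonneg_left (pow_ratio_le H r0 hy) (mul_nonneg b0 hK.le)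
    have a5 := mul_le_mul_of_nonneg_left (Real.rpow_le_rpow r0.le hy hs.le) b0
    have a6 := abs_sub (u k y) (p y)
    simp only [em] at a2 a3
    rw [← a1] at a2
    nlinarith [mul_nonneg b0 t0, mul_nonneg hC t0]

/-- the cut-off at radius `R` about `z` -/
noncomputable def chi (z : E n) (R : ℝ) (y : E n) : ℝ :=
  Real.smoothTransition (2 - ‖y - z‖ ^ 2 / R ^ 2)

lemma chi_abs (z : E n) (R : ℝ) (y : E n) : |chi z R y| ≤ 1 := by
  rw [chi, abs_of_nonneg (Real.smoothTransition.nonneg _)]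
  exact Real.smoothTransition.le_one _

lemma chi_zero {z y : E n} {R : ℝ} (hR : 0 < R) (h : 2 * R ≤ ‖y - z‖) : chi z R y = 0 := by
  refine Real.smoothTransition.zero_of_nonpos ?_
  rw [sub_nonpos, le_div_iff₀ (by positivity)]
  nlinarith

lemma chi_one {z y : E n} {R : ℝ} (hR : 0 < R) (h : ‖y - z‖ ≤ R) : chi z R y = 1 := by
  refine Real.smoothTransition.one_of_one_le ?_
  have : ‖y - z‖ ^ 2 / R ^ 2 ≤ 1 := by
    rw [div_le_one (by positivity)]; gcongr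
  linarith

lemma tri (x y z : E n) : ‖y - z‖ ≤ ‖y - x‖ + ‖x - z‖ := norm_sub_le_norm_sub_add_norm_sub _ _ _

lemma chi_TN {κ : Type} (z : κ → E n) {R : κ → ℝ} (hR : ∀ k, 0 < R k) :
    TN d true (fun p : κ × E n => p.2) (fun p => R p.1) (fun p => chi (z p.1) (R p.1))
      (fun _ => 1) := by
  classical
  have hb : ∀ (p : κ × E n) y, ‖y - p.2‖ ≤ 1 * R p.1 → (if ‖p.2 - z p.1‖ ≤ 3 * R p.1 then
      2 - ‖y - z p.1‖ ^ 2 / R p.1 ^ 2 else 0) ∈ Set.Icc (-14 : ℝ) 2 := fun p y hy => by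
    have := hR p.1
    split_ifs with h
    · have h1 : ‖y - z p.1‖ ≤ 4 * R p.1 := by linarith [tri p.2 y (z p.1)]
      have h2 : ‖y - z p.1‖ ^ 2 / R p.1 ^ 2 ≤ 16 := by
        rw [div_le_iff₀ (by positivity)]; nlinarith [norm_nonneg (y - z p.1)]
      have h3 : 0 ≤ ‖y - z p.1‖ ^ 2 / R p.1 ^ 2 := by positivity
      constructor <;> linarith
    · constructor <;> norm_num
  have h1 : TN d true (fun p : κ × E n => p.2) (fun p => R p.1) (fun p y =>
      if ‖p.2 - z p.1‖ ≤ 3 * R p.1 then 2 - ‖y - z p.1‖ ^ 2 / R p.1 ^ 2 else 0) (fun _ => 1) := by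
    refine TN.poly (e := 2) (η := 1) (C := 14) (fun p => ?_) (fun p => (hR _).le)
      (fun _ => zero_le_one) one_pos fun p y hy => ?_
    · split_ifs
      · simpa only [div_eq_inv_mul] using Pd_sub (const_mem 2 2) (Pd_smul _ (normsq_mem (z p.1)))
      · exact const_mem 2 0
    · have := hb p y hy
      exact abs_le.2 ⟨by linarith [this.1], by linarith [this.2]⟩
  have h2 := h1.comp1 (fun j => iteratedDeriv j Real.smoothTransition) (-14) 2 (fun j t _ => by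
    rw [iteratedDeriv_succ]
    exact ((Real.smoothTransition.contDiff (n := (j + 1 : ℕ))).differentiable_iteratedDeriv j
      (by exact_mod_cast j.lt_succ_self) t).hasDerivAt) one_pos hb
  refine h2.congr one_pos fun p y hy => ?_
  rw [iteratedDeriv_zero]
  split_ifs with h
  · rfl
  · rw [Real.smoothTransition.zero, chi_zero (hR _)]
    have := tri y p.2 (z p.1)
    rw [norm_sub_rev p.2 y] at this
    linarith

lemma Cf.cut (H : Hs d s) {κ : Type} (z : κ → E n) {R : κ → ℝ} (hR : ∀ k, 0 < R k)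
    {u : κ → E n → ℝ} (hC : 0 ≤ C) (h1 : ∀ k, Cf d s C (u k))
    (h2 : ∀ k y, ‖y - z k‖ ≤ 4 * R k → |u k y| ≤ C * R k ^ s) :
    ∃ C', C ≤ C' ∧ ∀ k, Cf d s C' fun y => chi (z k) (R k) y * u k y := by
  classical
  choose P P1 P2 using h1
  have h3 : TN d true (fun p : κ × E n => p.2) (fun p => R p.1) (fun p y =>
      if ‖p.2 - z p.1‖ ≤ 3 * R p.1 then P p.1 p.2 y else 0) (fun p => R p.1 ^ s) := by
    refine TN.poly (e := d) (η := 1) (C := 2 * C) (fun p => ?_) (fun p => (hR _).le)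
      (fun p => Real.rpow_nonneg (hR _).le _) one_pos fun p y hy => ?_
    · split_ifs
      · exact P1 _ _
      · exact const_mem d 0
    · have := hR p.1
      rw [one_mul] at hy
      split_ifs with h
      · have a1 := h2 p.1 y (by linarith [tri p.2 y (z p.1)])
        have a2 := abs_sub (u p.1 y) (u p.1 y - P p.1 p.2 y)
        have a3 := mul_le_mul_of_nonneg_left (Real.rpow_le_rpow (norm_nonneg _) hy H.pos.le) hC
        rw [sub_sub_cancel] at a2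
        linarith [P2 p.1 p.2 y]
      · rw [abs_zero]; positivity
  obtain ⟨C', c0, h4⟩ := Cf.of_TN H hR (u := fun k y => chi (z k) (R k) y * u k y) hC
    ((chi_TN z hR).mul1 h3) fun k x y hy => by
      dsimp only
      split_ifs with h
      · rw [← mul_sub, abs_mul]
        exact (mul_le_of_le_one_left (abs_nonneg _) (chi_abs _ _ _)).trans (P2 k x y)
      · have := tri y x (z k)
        rw [norm_sub_rev x y] at this
        rw [chi_zero (hR k) (by linarith), zero_mul, zero_mul, sub_self, abs_zero]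
        positivity
  exact ⟨C + C', by linarith, fun k => (h4 k).mono (by linarith)⟩

lemma Cf.cut2 (H : Hs d s) {κ : Type} (z : κ → E n) {R : κ → ℝ} (hR : ∀ k, 0 < R k)
    {u : κ → E n → ℝ} (hC : 0 ≤ C) (h1 : ∀ k, Cf d s C (u k))
    (h2 : ∀ k y, ‖y - z k‖ ≤ 4 * R k → |u k y| ≤ C * R k ^ s) :
    ∃ C', 0 ≤ C' ∧ ∀ k, Cf d s C' fun y => chi (z k) (R k) y ^ 2 * u k y := by
  obtain ⟨C1, c1, h3⟩ := Cf.cut H z hR hC h1 h2
  obtain ⟨C2, c2, h4⟩ := Cf.cut H z hR (hC.trans c1) h3 fun k y hy => by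
    rw [abs_mul]
    refine (mul_le_of_le_one_left (abs_nonneg _) (chi_abs _ _ _)).trans ((h2 k y hy).trans ?_)
    exact mul_le_mul_of_nonneg_right c1 (Real.rpow_nonneg (hR k).le _)
  refine ⟨C2, by linarith, fun k => ?_⟩
  simpa only [sq, mul_assoc] using h4 k

lemma Cf.growth (H : Hs d s) (hC : 0 ≤ C) {f : E n → ℝ} (h : Cf d s C f) :
    ∃ B, C ≤ B ∧ ∀ R, 1 ≤ R → ∀ y, ‖y‖ ≤ 4 * R → |f y| ≤ B * R ^ s := by
  obtain ⟨P, h1, h2⟩ := h 0
  have hK := Kg_pos n d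
  obtain ⟨m, hm⟩ := (isCompact_closedBall (0 : E n) 1).exists_bound_of_continuousOn
    (Pd_diff h1).continuous.continuousOn
  have h3 : PB P 0 1 m := fun y hy => hm y (mem_closedBall_iff_norm.2 hy)
  have m0 := h3.nonneg zero_le_one
  have f1 : (1 : ℝ) ≤ 4 ^ s := Real.one_le_rpow (by norm_num) H.pos.le
  refine ⟨(C + Kg n d * m) * 4 ^ s, by nlinarith [mul_nonneg hK.le m0], fun R hR y hy => ?_⟩
  have a1 := h3.grow h1 one_pos y
  have a2 := h2 y
  rw [sub_zero] at a1 a2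
  have a3 : max 1 (‖y‖ / 1) ^ d ≤ (4 * R) ^ s := by
    refine (pow_le_pow_left₀ (b := 4 * R) (by positivity)
      (max_le (by linarith) (by simpa using hy)) d).trans ?_
    rw [← Real.rpow_natCast]
    exact Real.rpow_le_rpow_of_exponent_le (by linarith) H.1.le
  have a4 := mul_le_mul_of_nonneg_left (Real.rpow_le_rpow (norm_nonneg _) hy H.pos.le) hC
  have a5 := mul_le_mul_of_nonneg_left a3 (mul_nonneg hK.le m0)
  have a6 := abs_add_le (f y - P y) (P y)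
  rw [sub_add_cancel] at a6
  rw [mul_assoc, ← Real.mul_rpow (by norm_num) (by linarith)]
  linarith

lemma exists_idx {Z : ℕ → Set (E n)} (hZ : ∀ l l' y, y ∈ Z l → y ∈ Z l' → l = l') (y : E n) :
    ∃ l₀, ∀ l, l ≠ l₀ → y ∉ Z l := by
  by_cases h : ∃ l, y ∈ Z l
  · obtain ⟨l₀, h⟩ := h
    exact ⟨l₀, fun l hl h' => hl (hZ _ _ y h' h)⟩
  · exact ⟨0, fun l _ h' => h ⟨l, h'⟩⟩

lemma Cf.glue (H : Hs d s) {u : ℕ → E n → ℝ} (hu : ∀ l, Cf d s C (u l)) (hC : 0 ≤ C)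
    {Z : ℕ → Set (E n)} (hZ : ∀ l l' y, y ∈ Z l → y ∈ Z l' → l = l')
    (hz : ∀ l x, x ∉ Z l → ∀ y, ‖y - x‖ ≤ 1 → u l y = 0) :
    Cf d s (2 * C) fun y => ∑' l, u l y := fun x => by
  obtain ⟨l₀, h0⟩ := exists_idx hZ x
  obtain ⟨P, h1, h2⟩ := hu l₀ x
  refine ⟨P, h1, fun y => ?_⟩
  obtain ⟨l₁, h3⟩ := exists_idx hZ y
  have t0 : 0 ≤ C * ‖y - x‖ ^ s := by positivity
  beta_reduce
  rw [tsum_eq_single l₁ fun l hl => hz l y (h3 l hl) y (by simp)]
  rcases eq_or_ne l₁ l₀ with rfl | h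
  · linarith [h2 y]
  · obtain ⟨Q, h4, h5⟩ := hu l₁ x
    have h6 : ∀ w, Q w = 0 := Pd_eq_zero H.1 h4 x one_pos (C := C) fun w hw => by
      simpa [hz l₁ x (h0 _ h) w hw] using h5 w
    have h7 := h2 y
    have h8 := h5 y
    rw [hz l₀ y (h3 _ h.symm) y (by simp), zero_sub, abs_neg] at h7
    rw [h6, sub_zero] at h8
    linarith [abs_sub (u l₁ y) (P y)]

/-- increments of a function with jets are increments of its jet at the origin, up to `o(1)` -/
lemma Cf.incr (hs : 0 < s) (hC : 0 ≤ C) {f P : E n → ℝ} (h : Cf d s C f) (hP : P ∈ Pd n d)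
    (h0 : ∀ y, |f y - P y| ≤ C * ‖y - 0‖ ^ s) (a b : E n) (hb : ‖b - a‖ ≤ 1) :
    |f b - f a - (P b - P a)| ≤
      C * ‖b - a‖ ^ s + Kg n d * (C * (1 + (‖a‖ + 1) ^ s)) * (‖b - a‖ / 1) := by
  obtain ⟨Q, h1, h2⟩ := h a
  have h3 : PB (fun y => Q y - P y) a 1 (C * (1 + (‖a‖ + 1) ^ s)) := fun y hy => by
    have a1 := mul_le_mul_of_nonneg_left (Real.rpow_le_one (norm_nonneg _) hy hs.le) hC
    have a2 : ‖y - 0‖ ≤ ‖a‖ + 1 := by
      have := tri a y 0
      rw [sub_zero a] at this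
      linarith
    have a3 := mul_le_mul_of_nonneg_left (Real.rpow_le_rpow (norm_nonneg _) a2 hs.le) hC
    have a4 := abs_sub_le (Q y) (f y) (P y)
    rw [abs_sub_comm (Q y) (f y)] at a4
    linarith [h2 y, h0 y]
  have h4 := h3.lip (Pd_sub h1 hP) one_pos b hb
  have h5 := abs_add_le (f b - Q b) (Q b - P b - (Q a - P a))
  rw [Cf.center hs h2, show f b - Q a - (P b - P a) = f b - Q b + (Q b - P b - (Q a - P a)) by ring]
  linarith [h2 b]

end Pool.Agent.Lib.MP_ca9be0_an.PyF
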