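import Pool.Agent.Lib.MP_ca9be0_an.FinM

/-! A sum of `d` squares of plane curves of degree `d` with a unique Gram matrix. -/

namespace Pool.Agent.Lib.MP_ca9be0_an.PyF

open Finset Filter Topology Polynomial

variable {n d : ℕ}

lemma Pd_line {p : E n → ℝ} (hp : p ∈ Pd n d) (x v : E n) :
    ∃ φ : ℝ[X], φ.natDegree ≤ d ∧ ∀ t : ℝ, φ.eval t = p (x + t • v) := by
  obtain ⟨H, -, h2, -, h4⟩ := hom_dec x hp
  refine ⟨∑ j ∈ range (d + 1), monomial j (H j (x + v)), natDegree_sum_le_of_forall_le _ _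
    fun j hj => (natDegree_monomial_le _).trans (Nat.lt_succ_iff.1 (mem_range.1 hj)), fun t => ?_⟩
  simp only [eval_finsetSum, eval_monomial, h4 (x + t • v), h2, mul_comm]

lemma Pd_half {p : E n → ℝ} (hp : p ∈ Pd n d) (i : Fin n) (T : ℝ) (h : ∀ y, T ≤ y i → p y = 0)
    (y : E n) : p y = 0 := by
  obtain ⟨φ, -, h1⟩ := Pd_line hp y (EuclideanSpace.single i 1)
  have h2 : φ = 0 := eq_zero_of_infinite_isRoot φ ((Set.Ici_infinite (T - y i)).mono fun t ht => by
    rw [Set.mem_ofPred_eq, IsRoot.def, h1]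
    refine h _ ?_
    simp only [PiLp.add_apply, PiLp.smul_apply, PiLp.single_apply, if_true, smul_eq_mul]
    linarith [Set.mem_Ici.1 ht])
  simpa [h2] using (h1 0).symm

lemma Pd_bdd {p : E n → ℝ} (hp : p ∈ Pd n d) (x y : E n) {B : ℝ}
    (h : ∀ t : ℝ, |p (x + t • (y - x))| ≤ B) : p y = p x := by
  obtain ⟨φ, -, h1⟩ := Pd_line hp x (y - x)
  have h2 := eq_C_of_degree_le_zero ((isBoundedUnder_abs_atTop_iff φ).1
    ⟨B, eventually_map.2 (Eventually.of_forall fun t => by rw [h1]; exact h t)⟩)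
  have h3 := h1 0
  have h4 := h1 1
  rw [h2, eval_C] at h3 h4
  simpa using h4.symm.trans h3

def ln (a : ℕ) (x η : ℝ) : ℝ := η + a * x + a ^ 2

noncomputable def pp (d : ℕ) (a : Fin (d + 1)) (x η : ℝ) : ℝ := ∏ b ∈ univ.erase a, ln b x η

noncomputable def SS (d : ℕ) (x η : ℝ) : ℝ := ∑ a : Fin d, pp d a.succ x η ^ 2

lemma pp_zero {a b : Fin (d + 1)} (h : b ≠ a) {x η : ℝ} (h0 : ln b x η = 0) : pp d a x η = 0 :=
  prod_eq_zero (mem_erase.2 ⟨h, mem_univ _⟩) h0

lemma SS_zero (x : ℝ) : SS d x 0 = 0 :=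
  sum_eq_zero fun a _ => by rw [pp_zero (Fin.succ_ne_zero a).symm (by simp [ln])]; simp

lemma pp_mem {X Y : E n → ℝ} (hX : X ∈ Pd n 1) (hY : Y ∈ Pd n 1) (a : Fin (d + 1)) :
    (fun y => pp d a (X y) (Y y)) ∈ Pd n d := by
  have h : ∀ t : Finset (Fin (d + 1)), (fun y => ∏ b ∈ t, ln b (X y) (Y y)) ∈ Pd n t.card := by
    intro t
    induction t using Finset.induction_on with
    | empty => simpa using const_mem 0 1
    | insert b t hb ih =>
      simp only [prod_insert hb, card_insert_of_notMem hb, add_comm t.card 1]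
      exact Pd_mul (Pd_add (Pd_add hY (Pd_smul _ hX)) (const_mem 1 _)) ih
  simpa [pp] using h (univ.erase a)

lemma ln_on (a b : ℕ) (t : ℝ) : ln b t (-(a * t) - a ^ 2) = (b - a) * (t + (a + b)) := by
  rw [ln]; ring

lemma pp_on_ne (a : Fin (d + 1)) {t : ℝ} (ht : ∀ c : ℕ, t + c = 0 → c = 0) :
    pp d a t (-(a * t) - a ^ 2) ≠ 0 := by
  refine prod_ne_zero_iff.2 fun b hb => ?_
  have h := (mem_erase.1 hb).1
  rw [ln_on]
  refine mul_ne_zero (sub_ne_zero.2 fun h' => h (Fin.ext (by exact_mod_cast h'))) fun h' => h ?_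
  have := ht (a + b) (by push_cast; exact h')
  exact Fin.ext (by omega)

lemma nn_gen {t : ℝ} (h : 0 ≤ t) (c : ℕ) (hc : t + c = 0) : c = 0 := by
  have : (c : ℝ) = 0 := le_antisymm (by linarith) (Nat.cast_nonneg c)
  exact_mod_cast this

lemma gram (B : Fin (d + 1) → Fin (d + 1) → ℝ) (hB : ∀ a b, B a b = B b a)
    (h : ∀ x η, ∑ a, ∑ b, B a b * (pp d a x η * pp d b x η) = 0) (a b : Fin (d + 1)) :
    B a b = 0 := by
  have hd : ∀ a, B a a = 0 := fun a => by
    have h1 := h 0 (-(a * 0) - a ^ 2)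
    have h2 : ∀ b, b ≠ a → pp d b 0 (-(a * 0) - a ^ 2) = 0 := fun b hb =>
      pp_zero hb.symm (by rw [ln_on]; simp)
    rw [sum_eq_single a (fun b _ hb => by rw [h2 b hb]; simp) (by simp),
      sum_eq_single a (fun b _ hb => by rw [h2 b hb]; simp) (by simp)] at h1
    have h3 := pp_on_ne a (nn_gen le_rfl)
    exact (mul_eq_zero.1 h1).resolve_right (mul_ne_zero h3 h3)
  rcases eq_or_ne a b with rfl | hab
  · exact hd a
  let μ : Fin (d + 1) → ℝ := fun l => ((l : ℝ) - a) * ((l : ℝ) - b)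
  let ρ : Fin (d + 1) → ℝ → ℝ := fun m t =>
    ∏ l ∈ (univ.erase m).erase (if m = a then b else a), (t + μ l)
  have h1 : ∀ m t, pp d m (-(a + b)) (a * b + t) = t * ρ m t := fun m t => by
    have e : ∀ l : Fin (d + 1), ln l (-(a + b)) (a * b + t) = t + μ l := fun l => by
      simp only [ln, μ]; ring
    have hm : (if m = a then b else a) ∈ univ.erase m := by
      refine mem_erase.2 ⟨?_, mem_univ _⟩
      split_ifs with h
      · exact h ▸ hab.symm
      · exact Ne.symm h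
    simp only [pp, e, ρ]
    rw [← mul_prod_erase _ _ hm]
    congr 1
    split_ifs <;> simp [μ]
  have h2 : (fun t => ∑ m, ∑ m', B m m' * (ρ m t * ρ m' t)) = fun _ => 0 := by
    refine Continuous.ext_on (dense_compl_singleton (0 : ℝ)) (by simp only [ρ]; fun_prop)
      continuous_const fun t ht => ?_
    have h3 := h (-(a + b)) (a * b + t)
    have ht' : t ≠ 0 := ht
    refine mul_left_cancel₀ (pow_ne_zero 2 ht') ?_
    rw [mul_zero, ← h3, mul_sum]
    refine sum_congr rfl fun m _ => ?_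
    rw [mul_sum]
    exact sum_congr rfl fun m' _ => by rw [h1, h1]; ring
  have h3 : ∀ m, m ≠ a → m ≠ b → ρ m 0 = 0 := fun m ha hb =>
    prod_eq_zero (i := b) (by simp [ha, hab.symm, hb.symm]) (by simp [μ])
  have h4 : ρ b 0 = ρ a 0 := by simp only [ρ, if_true, if_neg hab.symm, erase_right_comm]
  have h5 : ρ a 0 ≠ 0 := prod_ne_zero_iff.2 fun l hl => by
    simp only [if_true, mem_erase] at hl
    rw [zero_add]
    exact mul_ne_zero (sub_ne_zero.2 fun h' => hl.2.1 (Fin.ext (by exact_mod_cast h')))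
      (sub_ne_zero.2 fun h' => hl.1 (Fin.ext (by exact_mod_cast h')))
  have h6 := congrFun h2 0
  have h7 : ∀ f : Fin (d + 1) → ℝ, ∑ m, f m * ρ m 0 = (f a + f b) * ρ a 0 := fun f => by
    rw [sum_eq_add_of_mem a b (mem_univ _) (mem_univ _) hab fun m _ hm => by
      rw [h3 m hm.1 hm.2, mul_zero], h4, add_mul]
  simp only [← mul_assoc, h7] at h6
  simp only [← add_mul, mul_right_comm _ (ρ _ 0) (ρ a 0), h7, hd, hB b a] at h6
  have h8 : B a b * (2 * (ρ a 0 * ρ a 0)) = 0 := by linear_combination h6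
  exact (mul_eq_zero.1 h8).resolve_right (mul_ne_zero two_ne_zero (mul_ne_zero h5 h5))

lemma rigid {m : ℕ} {i j : Fin n} (hij : i ≠ j) {Γ : Fin m → E n → ℝ} (hΓ : ∀ q, Γ q ∈ Pd n d)
    (hS : ∀ y, ∑ q, Γ q y ^ 2 = SS d (y i) (y j)) : ∃ c : Fin (d + 1) → Fin m → ℝ,
      (∀ a b, ∑ q, c a q * c b q = if a = b ∧ a ≠ 0 then 1 else 0) ∧
      ∀ q y, Γ q y = ∑ a, c a q * pp d a (y i) (y j) := by
  have h0 : ∀ q y, Γ q y ^ 2 ≤ SS d (y i) (y j) := fun q y =>
    hS y ▸ single_le_sum (f := fun q => Γ q y ^ 2) (fun _ _ => sq_nonneg _) (mem_univ q)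
  have h1 : ∀ q (x y : E n), y i = x i → y j = x j → Γ q y = Γ q x := fun q x y hi hj =>
    Pd_bdd (hΓ q) x y (B := √(SS d (x i) (x j))) fun t => Real.abs_le_sqrt (by
      simpa [hi, hj] using h0 q (x + t • (y - x)))
  have h2 : ∀ (a : Fin (d + 1)) q, ∃ c : ℝ, ∀ y : E n, y j = -(a * y i) - a ^ 2 →
      Γ q y = c * pp d a (y i) (y j) := fun a q => by
    obtain ⟨x, hx⟩ : ∃ x : E n, x = EuclideanSpace.single j (-(a : ℝ) ^ 2) := ⟨_, rfl⟩
    obtain ⟨v, hv⟩ : ∃ v : E n,
      v = EuclideanSpace.single i 1 + EuclideanSpace.single j (-(a : ℝ)) := ⟨_, rfl⟩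
    have ei : ∀ t : ℝ, (x + t • v) i = t := fun t => by simp [hx, hv, hij]
    have ej : ∀ t : ℝ, (x + t • v) j = -(a * t) - a ^ 2 := fun t => by
      simp [hx, hv, hij.symm]; ring
    have hp := pp_mem (d := d) (gen_mem (some i)) (gen_mem (some j)) a
    obtain ⟨c, hc⟩ : ∃ c : ℝ, Γ q (x + (0 : ℝ) • v) = c * pp d a 0 (-(a * 0) - a ^ 2) :=
      ⟨_, (div_mul_cancel₀ _ (pp_on_ne a (nn_gen le_rfl))).symm⟩
    obtain ⟨φ, φ1, φ2⟩ := Pd_line (Pd_sub (hΓ q) (Pd_smul c hp)) x v
    simp only [gen, ei, ej] at φ2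
    have φ3 : φ = 0 := by
      refine eq_zero_of_natDegree_lt_card_of_eval_eq_zero φ
        (f := fun b : Fin (d + 1) => if b = a then 0 else -((a : ℝ) + b)) (fun b b' h => ?_)
        (fun b => ?_) (by simpa using Nat.lt_succ_of_le φ1)
      · have key : ∀ b : Fin (d + 1), b ≠ a → (0 : ℝ) ≠ -((a : ℝ) + b) := fun b hb h => by
          have := nn_gen le_rfl (a + b) (by push_cast; linarith)
          exact hb (Fin.ext (by omega))
        dsimp only at h
        split_ifs at h with h1 h2 h2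
        · rw [h1, h2]
        · exact absurd h (key _ h2)
        · exact absurd h.symm (key _ h1)
        · exact Fin.ext (by exact_mod_cast add_left_cancel (neg_injective h))
      · rw [φ2]
        split_ifs with hb
        · rw [hc, sub_self]
        · have z : ∀ e : Fin (d + 1),
              pp d e (-((a : ℝ) + b)) (-(a * -((a : ℝ) + b)) - a ^ 2) = 0 := fun e => by
            rcases eq_or_ne a e with rfl | he
            · exact pp_zero hb (by rw [ln_on]; simp)
            · exact pp_zero he (by rw [ln_on]; simp)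
          have := h0 q (x + -((a : ℝ) + b) • v)
          simp only [ei, ej, SS, z] at this
          rw [z, mul_zero, sub_zero]
          simpa using this
    refine ⟨c, fun y hy => ?_⟩
    have := φ2 (y i)
    rw [φ3, eval_zero, ← hy] at this
    rw [h1 q (x + y i • v) y (ei _).symm (hy.trans (ej _).symm)]
    linarith
  choose c hc using h2
  have h3 : ∀ q y, Γ q y = ∑ a, c a q * pp d a (y i) (y j) := fun q y => by
    have hD := Pd_sub (hΓ q) (Pd_sum univ fun a _ =>
      Pd_smul (c a q) (pp_mem (d := d) (gen_mem (some i)) (gen_mem (some j)) a))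
    refine sub_eq_zero.1 (Pd_half hD i 0 (fun y hy => ?_) y)
    obtain ⟨φ, φ1, φ2⟩ := Pd_line hD y (EuclideanSpace.single j 1)
    have φ3 : φ = 0 := by
      refine eq_zero_of_natDegree_lt_card_of_eval_eq_zero φ
        (f := fun a : Fin (d + 1) => -(a * y i) - a ^ 2 - y j) (fun a b h => ?_)
        (fun a => ?_) (by simpa using Nat.lt_succ_of_le φ1)
      · by_contra hab
        refine pp_on_ne a (nn_gen hy) (pp_zero (Ne.symm hab) ?_)
        dsimp only at h
        rw [ln]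
        linarith
      · rw [φ2]
        obtain ⟨w, hw⟩ : ∃ w : E n,
          w = y + (-(a * y i) - a ^ 2 - y j) • EuclideanSpace.single j (1 : ℝ) := ⟨_, rfl⟩
        have ew : w j = -(a * w i) - a ^ 2 := by simp [hw, hij]
        rw [← hw, hc a q w ew, sum_eq_single a (fun b _ hb => ?_) (by simp), sub_eq_zero]
        · rfl
        · exact mul_eq_zero_of_right _ (pp_zero hb.symm (by simp only [gen]; rw [ew, ln_on]; simp))
    simpa [φ3] using (φ2 0).symm
  refine ⟨c, fun a b => sub_eq_zero.1 (gram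
    (fun a b => ∑ q, c a q * c b q - if a = b ∧ a ≠ 0 then 1 else 0) (fun a b => ?_)
    (fun x η => ?_) a b), h3⟩
  · congr 1
    · exact sum_congr rfl fun q _ => mul_comm _ _
    · exact if_congr ⟨fun h => ⟨h.1.symm, h.1 ▸ h.2⟩, fun h => ⟨h.1.symm, h.1 ▸ h.2⟩⟩ rfl rfl
  · have e := hS (EuclideanSpace.single i x + EuclideanSpace.single j η)
    simp only [h3, PiLp.add_apply, PiLp.single_apply, if_true, hij, hij.symm, if_false,
      add_zero, zero_add] at e
    simp only [sub_mul, sum_sub_distrib]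
    rw [sub_eq_zero]
    calc _ = ∑ q, (∑ a, c a q * pp d a x η) ^ 2 := by
          simp only [sq, sum_mul_sum]
          simp only [sum_mul]
          symm
          rw [sum_comm]
          refine sum_congr rfl fun a _ => ?_
          rw [sum_comm]
          exact sum_congr rfl fun b _ => sum_congr rfl fun q _ => by ring
      _ = _ := by
          rw [e, SS, Fin.sum_univ_succ]
          simp [sq]

lemma complement {m : ℕ} (c : Fin d → Fin m → ℝ)
    (hc : ∀ a b, ∑ q, c a q * c b q = if a = b then 1 else 0) :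
    d ≤ m ∧ ∃ b : Fin (m - d) → Fin m → ℝ, (∀ r q, |b r q| ≤ 1) ∧ ∀ g : Fin m → ℝ,
      (∀ a, ∑ q, c a q * g q = 0) → ∑ r, (∑ q, b r q * g q) ^ 2 = ∑ q, g q ^ 2 := by
  let v : Fin d → E m := fun a => WithLp.toLp 2 (c a)
  have inn : ∀ x y : E m, inner ℝ x y = ∑ q, x q * y q := fun x y => by
    simp [PiLp.inner_apply, mul_comm]
  have hv : Orthonormal ℝ v := orthonormal_iff_ite.2 fun a b => by rw [inn]; exact hc a b
  have hd : d ≤ m := by simpa using hv.linearIndependent.fintype_card_le_finrank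
  refine ⟨hd, ?_⟩
  obtain ⟨b, hb⟩ := Orthonormal.exists_orthonormalBasis_extension_of_card_eq (𝕜 := ℝ) (E := E m)
    (ι := Fin d ⊕ Fin (m - d)) (by simp [hd]) (v := Sum.elim v 0) (s := Set.range Sum.inl) (by
      rw [orthonormal_iff_ite]
      rintro ⟨_, a, rfl⟩ ⟨_, a', rfl⟩
      simpa [Subtype.ext_iff] using orthonormal_iff_ite.1 hv a a')
  refine ⟨fun r q => b (Sum.inr r) q, fun r q => ?_, fun g hg => ?_⟩
  · exact (PiLp.norm_apply_le (b (Sum.inr r)) q).trans (b.orthonormal.1 _).le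
  · have h1 := b.sum_sq_inner_right (WithLp.toLp 2 g)
    rw [Fintype.sum_sum_type, EuclideanSpace.real_norm_sq_eq] at h1
    have h2 : ∀ a, inner ℝ (b (Sum.inl a)) (WithLp.toLp 2 g) = 0 := fun a => by
      rw [hb _ ⟨a, rfl⟩, inn]; exact hg a
    simpa [h2, inn] using h1

end Pool.Agent.Lib.MP_ca9be0_an.PyF
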