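import Pool.Agent.Lib.MP_ca9be0_an.FinC
import Pool.Agent.Lib.MP_ca9be0_an.FinL

/-! Plane rotations between ranges of matrices and tame matrix fields. -/

namespace Pool.Agent.Lib.MP_ca9be0_an.PyF

open Finset Filter Topology Matrix

section LA

variable {V A : Type} [Fintype V] [Fintype A] [DecidableEq V] [DecidableEq A]

/-- the dual frame -/
noncomputable def dual (X : Matrix V A ℝ) : Matrix V A ℝ := X * (Xᵀ * X)⁻¹

/-- the length that normalises the rotation -/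
noncomputable def rho (ξ β : V → ℝ) (κ : ℝ) : ℝ := (κ ^ 2 + (ξ ⬝ᵥ ξ) * (β ⬝ᵥ β)) ^ (1 / 2 : ℝ)

/-- the rotation in the plane of `ξ` and `β` -/
noncomputable def rot (ξ β : V → ℝ) (κ : ℝ) : Matrix V V ℝ :=
  1 + (rho ξ β κ)⁻¹ • (vecMulVec ξ β - vecMulVec β ξ) -
    (rho ξ β κ * (rho ξ β κ + κ))⁻¹ • ((β ⬝ᵥ β) • vecMulVec ξ ξ + (ξ ⬝ᵥ ξ) • vecMulVec β β)

/-- matrices that preserve lengths -/
def Iso (U : Matrix V V ℝ) : Prop := ∀ u, (U *ᵥ u) ⬝ᵥ (U *ᵥ u) = u ⬝ᵥ u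

omit [DecidableEq V] in
lemma dot_nn (u : V → ℝ) : 0 ≤ u ⬝ᵥ u := sum_nonneg fun _ _ => mul_self_nonneg _

omit [DecidableEq V] in
lemma sq_le_dot (u : V → ℝ) (v : V) : u v ^ 2 ≤ u ⬝ᵥ u := by
  rw [sq]
  exact single_le_sum (f := fun v => u v * u v) (fun _ _ => mul_self_nonneg _) (mem_univ v)

omit [DecidableEq V] in
lemma rho_sq (ξ β : V → ℝ) (κ : ℝ) : rho ξ β κ ^ 2 = κ ^ 2 + (ξ ⬝ᵥ ξ) * (β ⬝ᵥ β) := by
  have := mul_nonneg (dot_nn ξ) (dot_nn β)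
  rw [rho, ← Real.sqrt_eq_rpow, Real.sq_sqrt (by positivity)]

omit [DecidableEq V] in
lemma le_rho (ξ β : V → ℝ) (κ : ℝ) : κ ≤ rho ξ β κ := by
  have := mul_nonneg (dot_nn ξ) (dot_nn β)
  rw [rho, ← Real.sqrt_eq_rpow]
  exact Real.le_sqrt_of_sq_le (by linarith)

lemma rot_mulVec (ξ β : V → ℝ) (κ : ℝ) (u : V → ℝ) : rot ξ β κ *ᵥ u = u +
    ((rho ξ β κ)⁻¹ * (β ⬝ᵥ u) - (rho ξ β κ * (rho ξ β κ + κ))⁻¹ * ((β ⬝ᵥ β) * (ξ ⬝ᵥ u))) • ξ +
    (-(rho ξ β κ)⁻¹ * (ξ ⬝ᵥ u) - (rho ξ β κ * (rho ξ β κ + κ))⁻¹ * ((ξ ⬝ᵥ ξ) * (β ⬝ᵥ u))) • β := by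
  simp only [rot, add_mulVec, sub_mulVec, smul_mulVec, one_mulVec, vecMulVec_mulVec,
    op_smul_eq_smul]
  ext v
  simp only [Pi.add_apply, Pi.sub_apply, Pi.smul_apply, smul_eq_mul]
  ring

lemma rot_iso {ξ β : V → ℝ} {κ : ℝ} (h : ξ ⬝ᵥ β = 0) (hκ : 0 < κ) : Iso (rot ξ β κ) := by
  intro u
  have h1 := rho_sq ξ β κ
  have h2 := le_rho ξ β κ
  have h' : β ⬝ᵥ ξ = 0 := by rw [dotProduct_comm, h]
  rw [rot_mulVec]
  simp only [add_dotProduct, dotProduct_add, smul_dotProduct, dotProduct_smul, smul_eq_mul, h, h',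
    dotProduct_comm u ξ, dotProduct_comm u β]
  generalize rho ξ β κ = ρ at *
  generalize ξ ⬝ᵥ ξ = a at *
  generalize β ⬝ᵥ β = b at *
  generalize ξ ⬝ᵥ u = p
  generalize β ⬝ᵥ u = q
  have h3 : ρ ≠ 0 := by linarith
  have h4 : ρ + κ ≠ 0 := by linarith
  field_simp
  have h5 : a * b = ρ ^ 2 - κ ^ 2 := by linarith
  linear_combination (b * p ^ 2 + a * q ^ 2) * h5

omit [DecidableEq V] in
lemma Iso.mul {U U' : Matrix V V ℝ} (h : Iso U) (h' : Iso U') : Iso (U * U') := fun u => by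
  rw [← mulVec_mulVec, h, h']

lemma Iso.one : Iso (1 : Matrix V V ℝ) := fun u => by rw [one_mulVec]

lemma col_le {U : Matrix V A ℝ} (h : ∀ u, (U *ᵥ u) ⬝ᵥ (U *ᵥ u) ≤ u ⬝ᵥ u) (v : V) (a : A) :
    |U v a| ≤ 1 := by
  have h1 := (sq_le_dot _ v).trans (h (Pi.single a 1))
  rw [← sq_le_one_iff_abs_le_one]
  simpa using h1

omit [DecidableEq V] in
lemma dual_left {X : Matrix V A ℝ} (h : IsUnit (Xᵀ * X).det) : (dual X)ᵀ * X = 1 := by
  rw [dual, transpose_mul, transpose_nonsing_inv, transpose_mul, transpose_transpose,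
    Matrix.mul_assoc, nonsing_inv_mul _ h]

/-- the component of `b` orthogonal to the range -/
noncomputable def perp (X : Matrix V A ℝ) (b : V → ℝ) : V → ℝ := b - (dual X * Xᵀ) *ᵥ b

omit [DecidableEq V] in
lemma perp_col {X : Matrix V A ℝ} (h : IsUnit (Xᵀ * X).det) (b : V → ℝ) (t : A → ℝ) :
    perp X b ⬝ᵥ X *ᵥ t = 0 := by
  have h1 : Xᵀ * (dual X * Xᵀ) = Xᵀ := by
    rw [dual, ← Matrix.mul_assoc, ← Matrix.mul_assoc, mul_nonsing_inv _ h, Matrix.one_mul]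
  rw [dotProduct_mulVec, ← mulVec_transpose, perp, mulVec_sub, mulVec_mulVec, h1, sub_self,
    zero_dotProduct]

/-- changing one column -/
lemma rot_col {X : Matrix V A ℝ} (h : IsUnit (Xᵀ * X).det) (b : V → ℝ) (a : A) {ξ β : V → ℝ}
    {κ : ℝ} (hξ : ξ = fun v => dual X v a) (hβ : β = perp X b) (hκ : κ = 1 + ξ ⬝ᵥ b) (h0 : 0 < κ) :
    Iso (rot ξ β κ) ∧ rot ξ β κ * (X + vecMulVec b (Pi.single a 1)) =
      X + vecMulVec (b - β + ((β ⬝ᵥ β) * (rho ξ β κ + κ)⁻¹) • ξ) (Pi.single a 1) ∧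
    ∀ c : ℝ, ∃ t, b - β + c • ξ = X *ᵥ t := by
  have e1 : ξ = X *ᵥ ((Xᵀ * X)⁻¹ *ᵥ Pi.single a 1) := by
    rw [hξ, mulVec_mulVec]; ext v; simp [dual]
  have e2 : b - β = X *ᵥ (((Xᵀ * X)⁻¹ * Xᵀ) *ᵥ b) := by
    rw [hβ, perp, sub_sub_cancel, mulVec_mulVec, dual, Matrix.mul_assoc]
  have e3 : ξ ⬝ᵥ β = 0 := by rw [dotProduct_comm, e1, hβ, perp_col h]
  have e4 : β ⬝ᵥ b = β ⬝ᵥ β := by
    have : β ⬝ᵥ (b - β) = 0 := by rw [e2, hβ, perp_col h]
    rwa [dotProduct_sub, sub_eq_zero] at this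
  have e5 : ∀ t, ξ ⬝ᵥ X *ᵥ t = t a := fun t => by
    have := congrFun (congrArg (· *ᵥ t) (dual_left h)) a
    rw [← mulVec_mulVec, one_mulVec] at this
    rw [← this, hξ]; rfl
  refine ⟨rot_iso e3 h0, ?_, fun c => ⟨((Xᵀ * X)⁻¹ * Xᵀ) *ᵥ b + c • (Xᵀ * X)⁻¹ *ᵥ Pi.single a 1, by
    rw [mulVec_add, mulVec_smul, ← e1, ← e2]⟩⟩
  refine Matrix.ext_iff_mulVec.2 fun t => ?_
  have h1 := rho_sq ξ β κ
  have h2 := le_rho ξ β κ
  have e6 : β ⬝ᵥ X *ᵥ t = 0 := by rw [hβ, perp_col h]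
  have e7 : ξ ⬝ᵥ b = κ - 1 := by linarith
  rw [← mulVec_mulVec, rot_mulVec]
  simp only [add_mulVec, vecMulVec_mulVec, op_smul_eq_smul, single_dotProduct, one_mul,
    dotProduct_add, dotProduct_smul, smul_eq_mul, e4, e5, e6, e7]
  ext v
  simp only [Pi.add_apply, Pi.sub_apply, Pi.smul_apply, smul_eq_mul]
  generalize rho ξ β κ = ρ at *
  have h3 : ρ ≠ 0 := by linarith
  have h4 : ρ + κ ≠ 0 := by linarith
  field_simp
  linear_combination (t a * β v) * h1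

omit [DecidableEq V] in
lemma det_ge {Y : Matrix A A ℝ} (hY : Y.IsHermitian) {c : ℝ} (hc : 0 ≤ c)
    (h : ∀ u, c * (u ⬝ᵥ u) ≤ u ⬝ᵥ Y *ᵥ u) : c ^ Fintype.card A ≤ Y.det := by
  rw [hY.det_eq_prod_eigenvalues, ← card_univ, ← prod_const]
  refine prod_le_prod (fun _ _ => hc) fun i _ => ?_
  have h1 := h (hY.eigenvectorBasis i)
  have h2 : ⇑(hY.eigenvectorBasis i) ⬝ᵥ ⇑(hY.eigenvectorBasis i) = 1 := by
    have := hY.eigenvectorBasis.orthonormal.1 i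
    rw [← Real.sqrt_sq (norm_nonneg _), EuclideanSpace.real_norm_sq_eq, Real.sqrt_eq_one] at this
    simpa [dotProduct, sq] using this
  rw [h2, mul_one] at h1
  simpa [hY.eigenvalues_eq] using h1

omit [DecidableEq V] in
lemma dot_gram (X : Matrix V A ℝ) (u : A → ℝ) : u ⬝ᵥ (Xᵀ * X) *ᵥ u = (X *ᵥ u) ⬝ᵥ (X *ᵥ u) := by
  rw [← mulVec_mulVec, dotProduct_mulVec, vecMul_transpose]

omit [DecidableEq V] in
lemma gram_herm (X : Matrix V A ℝ) : (Xᵀ * X).IsHermitian := by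
  simpa using isHermitian_conjTranspose_mul_self X

omit [DecidableEq V] in
lemma gram_unit {X : Matrix V A ℝ} {c : ℝ} (hc : 0 < c)
    (h : ∀ u, c * (u ⬝ᵥ u) ≤ (X *ᵥ u) ⬝ᵥ (X *ᵥ u)) : IsUnit (Xᵀ * X).det :=
  (lt_of_lt_of_le (pow_pos hc _) (det_ge (gram_herm X) hc.le fun u => by
    rw [dot_gram]; exact h u)).ne'.isUnit

omit [DecidableEq V] [DecidableEq A] in
lemma mulVec_sq_le {B : Matrix V A ℝ} {C : ℝ} (h : ∀ v a, |B v a| ≤ C) (t : A → ℝ) :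
    (B *ᵥ t) ⬝ᵥ (B *ᵥ t) ≤ Fintype.card V * (Fintype.card A * C ^ 2) * (t ⬝ᵥ t) := by
  rw [mul_assoc, ← card_univ (α := V), ← nsmul_eq_mul]
  refine sum_le_card_nsmul _ _ _ fun v _ => ?_
  have h1 := sum_mul_sq_le_sq_mul_sq univ (fun a => B v a) t
  have h2 : ∑ a, B v a ^ 2 ≤ Fintype.card A * C ^ 2 := by
    rw [← card_univ, ← nsmul_eq_mul]
    exact sum_le_card_nsmul _ _ _ fun a _ => sq_le_sq' (abs_le.1 (h v a)).1 (abs_le.1 (h v a)).2
  have h3 : ∑ a, t a ^ 2 = t ⬝ᵥ t := by simp [dotProduct, sq]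
  rw [h3] at h1
  rw [← sq]
  exact h1.trans (mul_le_mul_of_nonneg_right h2 (dot_nn t))

open scoped MatrixOrder in
lemma exists_root (X : Matrix V A ℝ) : ∃ S : Matrix A A ℝ, Sᵀ * S = Xᵀ * X := by
  have h : (Xᵀ * X).PosSemidef := by simpa using posSemidef_conjTranspose_mul_self X
  obtain ⟨B, hB⟩ := CStarAlgebra.nonneg_iff_eq_star_mul_self.mp h.nonneg
  exact ⟨B, by simpa [star_eq_conjTranspose] using hB.symm⟩

end LA

section TM

variable {n d : ℕ} {ι : Type} {x : ι → E n} {r : ι → ℝ}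

/-- tame of size one -/
abbrev T1 (d : ℕ) (x : ι → E n) (r : ι → ℝ) (u : ι → E n → ℝ) : Prop :=
  TN d true x r u fun _ => 1

/-- tame matrix fields -/
def TM (d : ℕ) (x : ι → E n) (r : ι → ℝ) {A B : Type} (M : ι → E n → Matrix A B ℝ) : Prop :=
  ∀ a b, T1 d x r fun i y => M i y a b

variable {A B C : Type}

lemma T1.sum {α : Type*} (t : Finset α) {U : α → ι → E n → ℝ} (hr : ∀ i, 0 ≤ r i)
    (h : ∀ a ∈ t, T1 d x r (U a)) : T1 d x r fun i y => ∑ a ∈ t, U a i y :=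
  TN.sum t hr (fun _ => zero_le_one) h

lemma T1.c (hr : ∀ i, 0 ≤ r i) (c : ℝ) : T1 d x r fun _ _ => c :=
  TN.const1 hr |c| fun _ => le_rfl

lemma T1.prod {α : Type*} (t : Finset α) {U : α → ι → E n → ℝ} (hr : ∀ i, 0 ≤ r i)
    (h : ∀ a ∈ t, T1 d x r (U a)) : T1 d x r fun i y => ∏ a ∈ t, U a i y := by
  classical
  induction t using Finset.induction_on with
  | empty => simpa using T1.c hr 1
  | insert a t ha ih =>
    simp only [prod_insert ha]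
    exact (h a (mem_insert_self _ _)).mul1 (ih fun b hb => h b (mem_insert_of_mem hb))

lemma T1.inv {u : ι → E n → ℝ} (h : T1 d x r u) {c η : ℝ} (hc : 0 < c) (h0 : 0 < η)
    (hu : ∀ i y, ‖y - x i‖ ≤ η * r i → c ≤ u i y) : T1 d x r fun i y => (u i y)⁻¹ :=
  (h.rpow (-1) hc h0 hu).congr' fun _ _ => Real.rpow_neg_one _

lemma T1.dot [Fintype A] {u v : ι → E n → A → ℝ} (hr : ∀ i, 0 ≤ r i)
    (h : ∀ a, T1 d x r fun i y => u i y a) (h' : ∀ a, T1 d x r fun i y => v i y a) :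
    T1 d x r fun i y => u i y ⬝ᵥ v i y :=
  T1.sum univ hr fun a _ => (h a).mul1 (h' a)

lemma T1.poly {S : ι → E n → E n} {e : ℕ} {p : E n → ℝ} (hr : ∀ i, 0 ≤ r i)
    (hS : ∀ j, T1 d x r fun i y => S i y j) (hp : p ∈ Pd n e) : T1 d x r fun i y => p (S i y) :=
  Pd_ind (C := fun _ p => T1 d x r fun i y => p (S i y))
    (fun _ c => T1.c hr c) (fun _ _ _ hp hq => hp.add hq)
    (fun _ c _ hp => (T1.c hr c).mul1 hp)
    (fun _ c j _ hp => ((T1.c hr c).mul1 (hS j)).mul1 hp) hp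

lemma TM.mul [Fintype B] {M : ι → E n → Matrix A B ℝ} {N : ι → E n → Matrix B C ℝ}
    (hr : ∀ i, 0 ≤ r i) (h : TM d x r M) (h' : TM d x r N) : TM d x r fun i y => M i y * N i y :=
  fun a c => T1.sum univ hr fun b _ => (h a b).mul1 (h' b c)

lemma TM.add {M N : ι → E n → Matrix A B ℝ} (h : TM d x r M) (h' : TM d x r N) :
    TM d x r fun i y => M i y + N i y := fun a b => (h a b).add (h' a b)

lemma TM.sub {M N : ι → E n → Matrix A B ℝ} (h : TM d x r M) (h' : TM d x r N) :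
    TM d x r fun i y => M i y - N i y := fun a b => (h a b).sub (h' a b)

lemma TM.smul {M : ι → E n → Matrix A B ℝ} {u : ι → E n → ℝ} (h : T1 d x r u) (h' : TM d x r M) :
    TM d x r fun i y => u i y • M i y := fun a b => h.mul1 (h' a b)

lemma TM.tr {M : ι → E n → Matrix A B ℝ} (h : TM d x r M) : TM d x r fun i y => (M i y)ᵀ :=
  fun a b => h b a

lemma TM.const {M : ι → Matrix A B ℝ} (hr : ∀ i, 0 ≤ r i) (L : ℝ) (h : ∀ i a b, |M i a b| ≤ L) :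
    TM d x r fun i _ => M i := fun a b => TN.const1 hr L fun i => h i a b

lemma TM.vmv {u : ι → E n → A → ℝ} {v : ι → E n → B → ℝ} (h : ∀ a, T1 d x r fun i y => u i y a)
    (h' : ∀ a, T1 d x r fun i y => v i y a) : TM d x r fun i y => vecMulVec (u i y) (v i y) :=
  fun a b => (h a).mul1 (h' b)

lemma TM.mulVec [Fintype B] {M : ι → E n → Matrix A B ℝ} {v : ι → E n → B → ℝ}
    (hr : ∀ i, 0 ≤ r i) (h : TM d x r M) (h' : ∀ a, T1 d x r fun i y => v i y a) (a : A) :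
    T1 d x r fun i y => (M i y *ᵥ v i y) a :=
  T1.sum univ hr fun b _ => (h a b).mul1 (h' b)

lemma TM.congr {M N : ι → E n → Matrix A B ℝ} (h : TM d x r M) (he : ∀ i y, M i y = N i y) :
    TM d x r N := fun a b => (h a b).congr' fun i y => by rw [he]

lemma TM.bound [Finite A] [Finite B] {M : ι → E n → Matrix A B ℝ} (hr : ∀ i, 0 ≤ r i)
    (h : TM d x r M) : ∃ C η : ℝ, 0 < C ∧ 0 < η ∧
      ∀ i y, ‖y - x i‖ ≤ η * r i → ∀ a b, |M i y a b| ≤ C := by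
  obtain ⟨C, η, hC, hη, h1⟩ := (TN.fin hr (fun _ => zero_le_one)
    fun p : A × B => h p.1 p.2).bound
  exact ⟨C, η, hC, hη, fun i y hy a b => by simpa using h1 ((a, b), i) y hy⟩

variable [Fintype A] [DecidableEq A]

lemma TM.det {M : ι → E n → Matrix A A ℝ} (hr : ∀ i, 0 ≤ r i) (h : TM d x r M) :
    T1 d x r fun i y => (M i y).det := by
  simp only [det_apply']
  exact T1.sum univ hr fun σ _ => (T1.c hr _).mul1 (T1.prod univ hr fun a _ => h _ _)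

lemma TM.inv {M : ι → E n → Matrix A A ℝ} (hr : ∀ i, 0 ≤ r i) (h : TM d x r M) {c η : ℝ}
    (hc : 0 < c) (h0 : 0 < η) (hu : ∀ i y, ‖y - x i‖ ≤ η * r i → c ≤ (M i y).det) :
    TM d x r fun i y => (M i y)⁻¹ := by
  simp only [Matrix.inv_def, Ring.inverse_eq_inv']
  refine TM.smul ((h.det hr).inv hc h0 hu) fun a b => ?_
  simp only [adjugate_apply]
  refine TM.det hr fun a' b' => ?_
  simp only [updateRow_apply]
  split_ifs
  · exact T1.c hr _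
  · exact h _ _

variable {V : Type} [Fintype V] [DecidableEq V]

/-- the dual frame and the projection of a field with a local normal form are tame -/
lemma normal_form (hr : ∀ i, 0 ≤ r i) {X : ι → E n → Matrix V A ℝ} {P : ι → Matrix V A ℝ}
    {T T' : ι → E n → Matrix A A ℝ} {c : ℝ} (hc : 0 < c)
    (hP : ∀ i t, 1 * (t ⬝ᵥ t) ≤ (P i *ᵥ t) ⬝ᵥ (P i *ᵥ t))
    (hX : ∀ i y t, c * (t ⬝ᵥ t) ≤ (X i y *ᵥ t) ⬝ᵥ (X i y *ᵥ t))
    (hT' : TM d x r T') (hTT : ∀ i y, T i y * T' i y = 1)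
    (hB : TM d x r fun i y => X i y - P i * T i y) :
    TM d x r (fun i y => dual (X i y)) ∧ TM d x r fun i y => dual (X i y) * (X i y)ᵀ := by
  choose S hS using fun i => exists_root (P i)
  have u1 : ∀ i, IsUnit (S i).det := fun i => by
    have := gram_unit one_pos (hP i)
    rw [← hS, det_mul, det_transpose] at this
    exact isUnit_of_mul_isUnit_left this
  have u2 : ∀ i u, ((P i * (S i)⁻¹) *ᵥ u) ⬝ᵥ ((P i * (S i)⁻¹) *ᵥ u) = u ⬝ᵥ u := fun i u => by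
    rw [← mulVec_mulVec, ← dot_gram, ← hS, dot_gram, mulVec_mulVec, mul_nonsing_inv _ (u1 i),
      one_mulVec]
  have t1 : TM d x r fun i _ => P i * (S i)⁻¹ :=
    TM.const hr 1 fun i => col_le fun u => (u2 i u).le
  have t2 : TM d x r fun i _ => (S i)⁻¹ := TM.const hr 1 fun i => col_le fun u => by
    have := hP i ((S i)⁻¹ *ᵥ u)
    rwa [one_mul, mulVec_mulVec, u2] at this
  have tW := hT'.mul hr t2
  have tZ : TM d x r fun i y => X i y * (T' i y * (S i)⁻¹) :=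
    (t1.add (hB.mul hr tW)).congr fun i y => by
      rw [Matrix.sub_mul, Matrix.mul_assoc (P i), ← Matrix.mul_assoc (T i y), hTT, Matrix.one_mul,
        add_sub_cancel]
  obtain ⟨C, η, hC, hη, hb⟩ := hB.bound hr
  obtain ⟨K, hK, hK'⟩ : ∃ K : ℝ, 0 ≤ K ∧ K = Fintype.card V * (Fintype.card A * C ^ 2) :=
    ⟨_, by positivity, rfl⟩
  have tI := (tZ.tr.mul hr tZ).inv hr (c := (c / (2 * c + 2 * K)) ^ Fintype.card A)
    (by positivity) hη fun i y hy => det_ge (gram_herm _) (by positivity) fun u => by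
      have a1 := mulVec_sq_le (hb i y hy) ((T' i y * (S i)⁻¹) *ᵥ u)
      have a2 := hX i y ((T' i y * (S i)⁻¹) *ᵥ u)
      have a3 := u2 i u
      have a4 : (P i * (S i)⁻¹) *ᵥ u = X i y *ᵥ ((T' i y * (S i)⁻¹) *ᵥ u) -
          (X i y - P i * T i y) *ᵥ ((T' i y * (S i)⁻¹) *ᵥ u) := by
        rw [sub_mulVec, sub_sub_cancel, mulVec_mulVec, Matrix.mul_assoc (P i),
          ← Matrix.mul_assoc (T i y), hTT, Matrix.one_mul]
      rw [dot_gram, ← mulVec_mulVec, div_mul_eq_mul_div, div_le_iff₀ (by positivity)]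
      rw [a4] at a3
      rw [← hK'] at a1
      generalize (T' i y * (S i)⁻¹) *ᵥ u = t at *
      generalize X i y *ᵥ t = p at *
      generalize (X i y - P i * T i y) *ᵥ t = q at *
      have a5 := dot_nn (p + q)
      simp only [add_dotProduct, dotProduct_add, sub_dotProduct, dotProduct_sub] at a3 a5
      have a6 : u ⬝ᵥ u ≤ 2 * (p ⬝ᵥ p) + 2 * (K * (t ⬝ᵥ t)) := by linarith
      nlinarith [mul_le_mul_of_nonneg_left a2 hK, mul_le_mul_of_nonneg_left a6 hc.le]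
  have key : ∀ i y, X i y * (T' i y * (S i)⁻¹) * ((X i y * (T' i y * (S i)⁻¹))ᵀ *
      (X i y * (T' i y * (S i)⁻¹)))⁻¹ * (T' i y * (S i)⁻¹)ᵀ = dual (X i y) := fun i y => by
    have w1 : (T' i y * (S i)⁻¹) * (S i * T i y) = 1 := by
      rw [Matrix.mul_assoc, ← Matrix.mul_assoc _ (S i), nonsing_inv_mul _ (u1 i), Matrix.one_mul,
        mul_eq_one_comm.1 (hTT i y)]
    generalize T' i y * (S i)⁻¹ = W at *
    have w2 : IsUnit W.det := isUnit_det_of_right_inverse w1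
    have w3 : IsUnit Wᵀ.det := by rwa [det_transpose]
    rw [transpose_mul, show Wᵀ * (X i y)ᵀ * (X i y * W) = Wᵀ * ((X i y)ᵀ * X i y * W) by
      simp only [Matrix.mul_assoc], Matrix.mul_inv_rev, Matrix.mul_inv_rev, dual]
    simp only [Matrix.mul_assoc]
    rw [nonsing_inv_mul _ w3, Matrix.mul_one, ← Matrix.mul_assoc W, mul_nonsing_inv _ w2,
      Matrix.one_mul]
  refine ⟨((tZ.mul hr tI).mul hr tW.tr).congr key, ((tZ.mul hr tI).mul hr tZ.tr).congr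
    fun i y => ?_⟩
  rw [← key, transpose_mul (X i y), ← Matrix.mul_assoc]

/-- the rotation attached to tame data is tame -/
lemma TM.rot (hr : ∀ i, 0 ≤ r i) {ξ β : ι → E n → V → ℝ} {κ : ι → E n → ℝ} {c : ℝ} (hc : 0 < c)
    (hξ : ∀ v, T1 d x r fun i y => ξ i y v) (hβ : ∀ v, T1 d x r fun i y => β i y v)
    (hκ : T1 d x r κ) (h : ∀ i y, c ≤ κ i y) :
    TM d x r (fun i y => rot (ξ i y) (β i y) (κ i y)) ∧
      T1 d x r fun i y => (rho (ξ i y) (β i y) (κ i y) + κ i y)⁻¹ := by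
  have a1 := T1.dot hr hξ hξ
  have a2 := T1.dot hr hβ hβ
  have a3 : T1 d x r fun i y => rho (ξ i y) (β i y) (κ i y) :=
    ((hκ.pow 2).add (a1.mul1 a2)).rpow (1 / 2) (c := c ^ 2) (by positivity) one_pos fun i y _ => by
      have := mul_nonneg (dot_nn (ξ i y)) (dot_nn (β i y))
      have := pow_le_pow_left₀ hc.le (h i y) 2
      linarith
  have a4 := fun i y => (h i y).trans (le_rho (ξ i y) (β i y) (κ i y))
  have a5 := T1.inv a3 hc one_pos fun i y _ => a4 i y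
  have a6 := T1.inv (a3.add hκ) hc one_pos fun i y _ => by linarith [a4 i y, h i y]
  refine ⟨TM.sub (TM.add (TM.const hr 1 fun _ a b => ?_) (TM.smul a5 ((TM.vmv hξ hβ).sub
    (TM.vmv hβ hξ)))) (TM.smul ((a5.mul1 a6).congr' fun i y => (mul_inv _ _).symm)
      ((TM.smul a2 (TM.vmv hξ hξ)).add (TM.smul a1 (TM.vmv hβ hβ)))), a6⟩
  rw [one_apply]; split_ifs <;> simp

end TM

end Pool.Agent.Lib.MP_ca9be0_an.PyF
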