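import Pool.Agent.Lib.MP_ca9be0_an.JetA

/-! Products of rotations over the scales, sums over the scales and a homogeneous basis. -/

namespace Pool.Agent.Lib.MP_ca9be0_an.PyF

open Finset Filter Topology Matrix

variable {n d : ℕ} {s θ : ℝ}

lemma J.shrink {a : E n → ℝ} {x : E n} {r m τ : ℝ} (h : J d true a x r m) (hr : 0 < r)
    (h0 : 0 < τ) (h1 : τ ≤ 1) : J d true (fun y => a y - a x) x (τ * r) (Kg n d * τ * m) := by
  have hm := h.nonneg hr.le
  have hK := one_le_Kg n d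
  obtain ⟨p, hp, h⟩ := h
  have e : a x = p x := by
    have := (h x (by simpa using hr.le)).2
    simpa [sub_eq_zero] using this
  refine ⟨fun y => p y - p x, Pd_sub hp (const_mem d _), fun y hy => ?_⟩
  have hy' : ‖y - x‖ ≤ r := hy.trans (mul_le_of_le_one_left hr.le h1)
  have ht := norm_nonneg (y - x)
  constructor
  · refine (PB.lip (fun z hz => (h z hz).1) hp hr y hy').trans ?_
    have : ‖y - x‖ / r ≤ τ := (div_le_iff₀ hr).2 hy
    calc _ ≤ Kg n d * m * τ := by gcongr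
      _ = _ := by ring
  · rw [e, sub_sub_sub_cancel_right]
    refine (h y hy').2.trans ?_
    have e2 : ‖y - x‖ / r = τ * (‖y - x‖ / (τ * r)) := by field_simp
    have e3 : τ ^ (d + 1) ≤ τ := pow_le_of_le_one h0.le h1 (by omega)
    rw [e2, mul_pow, ← mul_assoc]
    refine mul_le_mul_of_nonneg_right ?_ (by positivity)
    nlinarith [mul_le_mul_of_nonneg_left e3 hm, mul_nonneg h0.le hm]

section Prod

variable {W : Type} [Fintype W] [DecidableEq W] {ρ : E n → ℝ}

/-- products of matrices over the scales -/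
def prodM (V : ℕ → E n → Matrix W W ℝ) : ℕ → E n → Matrix W W ℝ
  | 0 => fun _ => 1
  | j + 1 => fun y => prodM V j y * V j y

lemma prodM_iso {V : ℕ → E n → Matrix W W ℝ} (h : ∀ j y, Iso (V j y)) (j : ℕ) (y : E n) :
    Iso (prodM V j y) := by
  induction j with
  | zero => exact Iso.one
  | succ j ih => exact ih.mul (h j y)

lemma prodM_tame {V : ℕ → E n → Matrix W W ℝ} (h : ∀ j y, Iso (V j y)) (hρ : ∀ x, 0 < ρ x)
    (h0 : 0 < θ) (h1 : θ ≤ 1)
    (h2 : 4 * (Fintype.card W * (Kg n (d + d) + 3) * Kg n d) * θ ≤ 1)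
    (ht : TM d (fun p : ℕ × E n => p.2) (fun p => θ ^ p.1 * ρ p.2) fun p => V p.1) :
    TM d (fun p : ℕ × E n => p.2) (fun p => θ ^ p.1 * ρ p.2) fun p => prodM V p.1 := by
  have hr : ∀ p : ℕ × E n, 0 < θ ^ p.1 * ρ p.2 := fun p => mul_pos (pow_pos h0 _) (hρ _)
  obtain ⟨C, η, hC, hη, h3⟩ := TN.fin (fun p => (hr p).le) (fun _ => zero_le_one)
    fun a : W × W => ht a.1 a.2
  have hK := one_le_Kg n d
  have hK' := one_le_Kg n (d + d)
  obtain ⟨K, hK1, e1⟩ : ∃ K : ℝ, 1 ≤ K ∧ K = Kg n (d + d) + 3 := ⟨_, by linarith, rfl⟩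
  obtain ⟨m, hm, e2⟩ : ∃ m : ℝ, 0 ≤ m ∧ m = Fintype.card W := ⟨_, by positivity, rfl⟩
  rw [← e1, ← e2] at h2
  obtain ⟨τ, t0, t1, t2⟩ : ∃ τ : ℝ, 0 < τ ∧ τ ≤ 1 ∧
      2 * (m + 1) * K * (Kg n d * τ * (C * 1)) ≤ 1 := by
    have : 0 < 2 * (m + 1) * K * (Kg n d * C) := by positivity
    refine ⟨min 1 (2 * (m + 1) * K * (Kg n d * C))⁻¹, by positivity, min_le_left _ _, ?_⟩
    have h4 := mul_le_mul_of_nonneg_left
      (min_le_right 1 (2 * (m + 1) * K * (Kg n d * C))⁻¹) this.le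
    rw [mul_inv_cancel₀ this.ne'] at h4
    linarith
  have key : ∀ j x v v', J d true (fun y => prodM V j y v v' - prodM V j x v v') x
      (τ * (η * (θ ^ j * ρ x))) 1 := by
    intro j
    induction j with
    | zero =>
      intro x v v'
      exact (J.const (c := 0) (by simp)).congr fun y _ => by simp [prodM]
    | succ j ih =>
      intro x v v'
      have a0 := hr (j, x)
      have a1 : 0 < τ * (η * (θ ^ j * ρ x)) := by positivity
      have a2 : θ * (τ * (η * (θ ^ j * ρ x))) ≤ τ * (η * (θ ^ j * ρ x)) :=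
        mul_le_of_le_one_left a1.le h1
      have a3 : 0 ≤ θ * (τ * (η * (θ ^ j * ρ x))) := by positivity
      have b1 := fun z => (ih x v z).shrink a1 h0 h1
      have b2 := fun z => ((h3 ((z, v'), (j, x))).2.shrink (mul_pos hη a0) t0 t1).mono a3 a2 le_rfl
      have b3 := J.sum univ fun z _ => ((b1 z).mul ((J.const (x := x)
        (col_le (fun u => (h j x u).le) z v')).add (b2 z)) a3).add ((J.const (x := x)
          (col_le (fun u => (prodM_iso h j x u).le) v z)).mul (b2 z) a3)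
      refine (b3.congr fun y _ => ?_).mono (mul_pos t0 (mul_pos hη (hr (j + 1, x)))).le
        (le_of_eq (by ring)) ?_
      · simp only [prodM, mul_apply, ← sum_sub_distrib]
        exact sum_congr rfl fun z _ => by ring
      · rw [sum_const, card_univ, nsmul_eq_mul, ← e1, ← e2]
        have c0 : 0 ≤ Kg n d * τ * (C * 1) := by positivity
        clear b1 b2 b3
        generalize Kg n d * τ * (C * 1) = ε at *
        have c1 : 0 ≤ K * ε := by positivity
        have c2 : ε ≤ 1 := by linarith [mul_nonneg hm c1, mul_le_mul_of_nonneg_right hK1 c0]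
        have c3 : 0 ≤ m * K * Kg n d * θ := by positivity
        linarith [mul_le_mul_of_nonneg_left c2 c3]
  intro v v'
  refine ⟨2, τ * η, two_pos, by positivity, fun p => ⟨(hr p).le, ?_⟩⟩
  have := (key p.1 p.2 v v').add (J.const (x := p.2)
    (col_le (fun u => (prodM_iso h p.1 p.2 u).le) v v'))
  exact (this.congr fun y _ => by ring).mono (mul_nonneg (by positivity) (hr p).le)
    (le_of_eq (by ring)) (by norm_num)

end Prod

lemma tele_le {q w : ℝ} (h0 : 0 < q) (h1 : q < 1) (hw : 0 ≤ w) (N : ℕ) :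
    ∑ j ∈ range N, (q ^ j * w / (1 + q ^ j * w) ^ 2 + q ^ j) ≤ 2 / (1 - q) := by
  have key : ∀ N, (1 - q) * ∑ j ∈ range N, (q ^ j * w / (1 + q ^ j * w) ^ 2 + q ^ j) ≤
      (1 + q ^ N * w)⁻¹ + 1 - q ^ N := by
    intro N
    induction N with
    | zero => simp; positivity
    | succ N ih =>
      rw [sum_range_succ, mul_add, pow_succ q N, mul_comm _ q, mul_assoc q]
      have a : 0 ≤ q ^ N * w := by positivity
      generalize q ^ N * w = v at *
      have b : (1 - q) * (v / (1 + v) ^ 2) ≤ (1 + q * v)⁻¹ - (1 + v)⁻¹ := by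
        have c : (1 + q * v)⁻¹ - (1 + v)⁻¹ = (1 - q) * (v / ((1 + v) * (1 + q * v))) := by
          field_simp; ring
        rw [c, sq]
        have := mul_le_of_le_one_left a h1.le
        have : 0 ≤ 1 - q := by linarith
        gcongr
      linarith
  rw [le_div_iff₀ (by linarith), mul_comm]
  have a : (1 + q ^ N * w)⁻¹ ≤ 1 := inv_le_one_of_one_le₀ (le_add_of_nonneg_right (by positivity))
  linarith [key N, pow_pos h0 N]

lemma est_near {u e ε : ℝ} (a1 : 1 ≤ u) (e0 : 0 < ε) (e2 : e + ε ≤ 1) :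
    u ^ e / u ≤ 4 * (u ^ ε / (1 + u ^ ε) ^ 2) := by
  have u0 : 0 < u := by linarith
  have a2 : 1 ≤ u ^ ε := Real.one_le_rpow a1 e0.le
  have a3 : u ^ e * u ^ ε ≤ u := by
    rw [← Real.rpow_add u0]
    simpa using Real.rpow_le_rpow_of_exponent_le a1 e2
  have a4 : u ^ e / u ≤ 1 / u ^ ε := by
    rw [div_le_div_iff₀ u0 (by linarith)]; linarith
  refine a4.trans ?_
  generalize u ^ ε = w at *
  rw [← mul_div_assoc, div_le_div_iff₀ (by linarith) (by positivity)]
  nlinarith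

lemma est_far {u e ε H : ℝ} (u0 : 0 < u) (a1 : u ≤ H) (H1 : 1 ≤ H) (e0 : 0 < ε) (e1 : ε ≤ e)
    (e2 : e ≤ 1) : u ^ e ≤ H * (1 + H) ^ 2 * (u ^ ε / (1 + u ^ ε) ^ 2) := by
  have a2 : ∀ e : ℝ, 0 ≤ e → e ≤ 1 → u ^ e ≤ H := fun e b1 b2 =>
    (Real.rpow_le_rpow u0.le a1 b1).trans (by simpa using Real.rpow_le_rpow_of_exponent_le H1 b2)
  have b1 : u ^ e = u ^ (e - ε) * u ^ ε := by rw [← Real.rpow_add u0]; ring_nf
  have b2 := a2 (e - ε) (by linarith) (by linarith)
  have b3 := a2 ε e0.le (by linarith)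
  have w0 : 0 < u ^ ε := Real.rpow_pos_of_pos u0 ε
  calc _ = u ^ (e - ε) * (1 + u ^ ε) ^ 2 * (u ^ ε / (1 + u ^ ε) ^ 2) := by rw [b1]; field_simp
    _ ≤ _ := by gcongr

lemma sum_scales {ρ : E n → ℝ} (hρ : Lip1 ρ) (hp : ∀ x, 0 < ρ x) (h0 : 0 < θ) (h1 : θ < 1)
    (s1 : (d : ℝ) < s) (s2 : s < d + 1) {δ : ℕ → E n → ℝ}
    (h : TN d true (fun p : ℕ × E n => p.2) (fun p => θ ^ p.1 * ρ p.2) (fun p => δ p.1)
      fun p => (θ ^ p.1 * ρ p.2) ^ s) : ∃ u : CF n d s, ∀ y, HasSum (fun j => δ j y) (u.f y) := by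
  obtain ⟨C, η, hC, hη, η1, h⟩ := h.out one_pos
  have s0 : 0 < s := lt_of_le_of_lt (Nat.cast_nonneg d) s1
  have hr : ∀ j x, 0 < θ ^ j * ρ x := fun j x => mul_pos (pow_pos h0 _) (hp _)
  have c0 : ∀ j y, |δ j y| ≤ 2 * (C * (θ ^ j * ρ y) ^ s) := fun j y =>
    (h (j, y)).abs_le (by simpa using (mul_pos hη (hr j y)).le)
  choose P P1 P2 using fun j x => h (j, x)
  obtain ⟨ε, e0, e1, e2⟩ : ∃ ε : ℝ, 0 < ε ∧ ε ≤ s - d ∧ ε ≤ d + 1 - s :=
    ⟨min _ _, lt_min (by linarith) (by linarith), min_le_left _ _, min_le_right _ _⟩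
  obtain ⟨H, H1, H2⟩ : ∃ H : ℝ, 1 ≤ H ∧ η * H = 1 :=
    ⟨η⁻¹, (one_le_inv₀ hη).2 η1, mul_inv_cancel₀ hη.ne'⟩
  have hK := one_le_Kg n d
  have q0 : 0 < θ ^ ε := Real.rpow_pos_of_pos h0 ε
  have q1 : θ ^ ε < 1 := Real.rpow_lt_one h0.le h1 e0
  have qj : ∀ j : ℕ, (θ ^ j) ^ ε = (θ ^ ε) ^ j := fun j => (Real.rpow_pow_comm h0.le ε j).symm
  obtain ⟨B, hB, key⟩ : ∃ B : ℝ, 0 ≤ B ∧ ∀ j x y, |δ j y - P j x y| ≤ B * ‖y - x‖ ^ s *
      ((θ ^ ε) ^ j * (ρ x / ‖y - x‖) ^ ε / (1 + (θ ^ ε) ^ j * (ρ x / ‖y - x‖) ^ ε) ^ 2 +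
        (θ ^ ε) ^ j) := by
    refine ⟨(4 * H + (2 + Kg n d) * (H * (1 + H) ^ 2)) * (C * (H + 1) ^ d), by positivity,
      fun j x y => ?_⟩
    rcases (norm_nonneg (y - x)).eq_or_lt with t0 | t0
    · have := (P2 j x y (by rw [← t0]; exact (mul_pos hη (hr j x)).le)).2
      rw [← t0] at this ⊢
      simpa [Real.zero_rpow s0.ne'] using this
    have l1 := hρ.le' y x
    rw [norm_sub_rev] at l1
    have l2 := fun hy => (P2 j x y hy).2
    have l3 := PB.grow (fun z hz => (P2 j x z hz).1) (P1 j x) (mul_pos hη (hr j x)) y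
    have l4 := c0 j y
    have ρx := hp x
    have ρy := hp y
    dsimp only at l2 l3
    generalize ‖y - x‖ = t at *
    obtain ⟨u, u0, u1⟩ : ∃ u : ℝ, 0 < u ∧ θ ^ j * ρ x = t * u :=
      ⟨θ ^ j * ρ x / t, div_pos (hr j x) t0, by field_simp⟩
    have w1 : (θ ^ ε) ^ j * (ρ x / t) ^ ε = u ^ ε := by
      rw [← qj, ← Real.mul_rpow (by positivity) (by positivity), ← mul_div_assoc, u1,
        mul_div_cancel_left₀ _ t0.ne']
    have w2 : t / (η * (t * u)) = H / u := by
      field_simp; linarith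
    have w3 : u ^ s = u ^ (s - d) * u ^ d := by
      rw [← Real.rpow_natCast, ← Real.rpow_add u0]; ring_nf
    have w0 : 0 < u ^ ε := Real.rpow_pos_of_pos u0 ε
    have ts : 0 < t ^ s := Real.rpow_pos_of_pos t0 s
    have qq : 0 < (θ ^ ε) ^ j := pow_pos q0 j
    have Hd : H ^ d ≤ (H + 1) ^ d := pow_le_pow_left₀ (by linarith) (by linarith) d
    rw [u1, w2, Real.mul_rpow t0.le u0.le] at l2 l3
    rw [w1]
    have n1 := fun a1 : 1 ≤ u => est_near (e := s - d) a1 e0 (by linarith)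
    have n2 := fun a1 : u ≤ H => est_far (e := s - d) u0 a1 H1 e0 e1 (by linarith)
    have g0 : 0 ≤ u ^ ε / (1 + u ^ ε) ^ 2 := by positivity
    have HH : 1 ≤ H * (1 + H) ^ 2 := one_le_mul_of_one_le_of_one_le H1 (one_le_pow₀ (by linarith))
    have b4 : (θ ^ j) ^ (s - d) ≤ (θ ^ ε) ^ j :=
      qj j ▸ Real.rpow_le_rpow_of_exponent_ge (pow_pos h0 j) (pow_le_one₀ h0.le h1.le) e1
    clear w1 P2 P1 h c0 qj
    generalize u ^ ε / (1 + u ^ ε) ^ 2 = g at *
    generalize H * (1 + H) ^ 2 = M at *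
    generalize (θ ^ ε) ^ j = Q at *
    generalize Kg n d = K at *
    have fin : ∀ a : ℝ, a ≤ (4 * H + (2 + K) * M) * (g + Q) → C * (H + 1) ^ d * t ^ s * a ≤
        (4 * H + (2 + K) * M) * (C * (H + 1) ^ d) * t ^ s * (g + Q) := fun a ha =>
      (mul_le_mul_of_nonneg_left ha (show 0 ≤ C * (H + 1) ^ d * t ^ s by positivity)).trans
        (le_of_eq (by ring))
    by_cases hc : t ≤ η * (t * u)
    · have a1 : 1 ≤ u := by
        have : t * 1 ≤ t * (η * u) := by linarith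
        exact (le_of_mul_le_mul_left this t0).trans (mul_le_of_le_one_left u0.le η1)
      have a4 := n1 a1
      refine (l2 hc).trans (le_trans ?_ (fin (H * (4 * g)) ?_))
      · calc _ = C * H ^ d * t ^ s * (H * (u ^ (s - d) / u)) := by
              rw [w3, div_pow, pow_succ, pow_succ]; field_simp
          _ ≤ _ := by gcongr
      · have : 0 ≤ 4 * H * Q + (2 + K) * M * (g + Q) := by positivity
        linarith
    · have a1 : u ≤ H := by
        have : t * (η * u) < t * (η * H) := by rw [H2]; linarith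
        exact (lt_of_mul_lt_mul_left (lt_of_mul_lt_mul_left this t0.le) hη.le).le
      have a3 := n2 a1
      have a4 : θ ^ j ≤ 1 := pow_le_one₀ h0.le h1.le
      have a5 : (θ ^ j * ρ y) ^ s ≤ t ^ s * ((H + 1) ^ d * (u ^ (s - d) + Q)) := by
        have b0 : 0 < θ ^ j := pow_pos h0 j
        have b1 : θ ^ j * ρ y ≤ t * (u + θ ^ j) := by
          linarith [mul_le_mul_of_nonneg_left l1 b0.le]
        refine (Real.rpow_le_rpow (hr j y).le b1 s0.le).trans ?_
        have b2 : (u + θ ^ j) ^ s = (u + θ ^ j) ^ d * (u + θ ^ j) ^ (s - d) := by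
          rw [← Real.rpow_natCast _ d, ← Real.rpow_add (by positivity)]; ring_nf
        have b3 := Real.rpow_add_le_add_rpow u0.le b0.le (p := s - d) (by linarith) (by linarith)
        rw [Real.mul_rpow t0.le (by positivity), b2]
        gcongr
        linarith
      rw [max_eq_right ((one_le_div u0).2 a1)] at l3
      have a6 : K * (C * (t ^ s * u ^ s)) * (H / u) ^ d ≤
          C * (H + 1) ^ d * t ^ s * (K * u ^ (s - d)) := by
        calc _ = C * H ^ d * t ^ s * (K * u ^ (s - d)) := by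
              rw [w3, div_pow]; field_simp
          _ ≤ _ := by gcongr
      refine (abs_sub _ _).trans (le_trans ?_ (fin (2 * (u ^ (s - d) + Q) + K * u ^ (s - d)) ?_))
      · linarith [mul_le_mul_of_nonneg_left a5 hC.le]
      · have : 0 ≤ 4 * H * (g + Q) + K * M * Q := by positivity
        linarith [mul_le_mul_of_nonneg_left a3 (by linarith : 0 ≤ 2 + K),
          mul_le_mul_of_nonneg_right HH qq.le]
  have k2 : ∀ x y N, ∑ j ∈ range N, |δ j y - P j x y| ≤ B * ‖y - x‖ ^ s * (2 / (1 - θ ^ ε)) :=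
    fun x y N => (sum_le_sum fun j _ => key j x y).trans (by
      rw [← mul_sum]
      exact mul_le_mul_of_nonneg_left (tele_le q0 q1
        (Real.rpow_nonneg (div_nonneg (hp x).le (norm_nonneg _)) _) N) (by positivity))
  have k3 : ∀ x y, Summable fun j => |δ j y - P j x y| := fun x y =>
    summable_of_sum_range_le (fun _ => abs_nonneg _) (k2 x y)
  have k4 : ∀ y, Summable fun j => δ j y := fun y => by
    refine .of_norm_bounded (g := fun j => 2 * C * ρ y ^ s * (θ ^ s) ^ j)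
      ((summable_geometric_of_lt_one (by positivity) (Real.rpow_lt_one h0.le h1 s0)).mul_left _)
      fun j => (c0 j y).trans (le_of_eq ?_)
    rw [Real.mul_rpow (by positivity) (hp y).le, Real.rpow_pow_comm h0.le]; ring
  have k5 : ∀ x y, Summable fun j => P j x y := fun x y => by
    simpa using (k4 y).sub (k3 x y).of_abs
  refine ⟨⟨fun y => ∑' j, δ j y, fun x y => ∑' j, P j x y, fun x => Pd_tsum (P1 · x) (k5 x),
    B * (2 / (1 - θ ^ ε)), mul_nonneg hB (div_nonneg zero_le_two (by linarith)), fun x y => ?_⟩,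
    fun y => (k4 y).hasSum⟩
  rw [← (k4 y).tsum_sub (k5 x y), mul_right_comm]
  exact (norm_tsum_le_tsum_norm (f := fun j => δ j y - P j x y) (k3 x y)).trans
    (Real.tsum_le_of_sum_range_le (f := fun j => |δ j y - P j x y|) (fun _ => abs_nonneg _)
      (k2 x y))

end Pool.Agent.Lib.MP_ca9be0_an.PyF
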