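import Pool.Agent.Lib.MP_ca9be0_an.JetB

/-! A homogeneous basis and scaled jets. -/

namespace Pool.Agent.Lib.MP_ca9be0_an.PyF

open Finset Filter Topology Matrix

variable {n d : ℕ} {s θ : ℝ}

/-- a finite combination of evaluations -/
noncomputable def co (γ : E n →₀ ℝ) (p : E n → ℝ) : ℝ := ∑ z ∈ γ.support, γ z * p z

/-- a homogeneous basis of the polynomials of degree at most `d` with its dual basis -/
structure Bs (n d : ℕ) (A : Type) [Fintype A] [DecidableEq A] where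
  m : A → E n → ℝ
  deg : A → ℕ
  γ : A → E n →₀ ℝ
  mem : ∀ a, m a ∈ Pd n d
  le : ∀ a, deg a ≤ d
  hom : ∀ a (t : ℝ) z, m a (t • z) = t ^ deg a * m a z
  exp : ∀ p ∈ Pd n d, ∀ z, p z = ∑ a, co (γ a) p * m a z
  dl : ∀ a b, co (γ a) (m b) = if b = a then 1 else 0

lemma mono_mem (μ : Multiset (Option (Fin n))) : (μ.map (gen n)).prod ∈ Pd n μ.card ∧
    ∃ k ≤ μ.card, ∀ (t : ℝ) z, (μ.map (gen n)).prod (t • z) = t ^ k * (μ.map (gen n)).prod z := by
  induction μ using Multiset.induction_on with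
  | empty => exact ⟨const_mem 0 1, 0, le_rfl, by simp⟩
  | cons o μ ih =>
    obtain ⟨h1, k, h2, h3⟩ := ih
    simp only [Multiset.map_cons, Multiset.prod_cons, Multiset.card_cons, Pi.mul_apply]
    refine ⟨add_comm 1 μ.card ▸ Pd_mul (gen_mem o) h1, ?_⟩
    cases o with
    | none => exact ⟨k, by omega, fun t z => by rw [h3]; simp [gen]⟩
    | some i => exact ⟨k + 1, by omega, fun t z => by rw [h3]; simp [gen]; ring⟩

lemma exists_Bs (n d : ℕ) : ∃ (A : Type) (_ : Fintype A) (_ : DecidableEq A),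
    Fintype.card A ≤ (n + d).choose d ∧ Nonempty (Bs n d A) := by
  classical
  obtain ⟨A, a, a1, a2, a3⟩ := exists_linearIndependent' ℝ
    fun μ : Sym (Option (Fin n)) d => ((μ : Multiset _).map (gen n)).prod
  have := Fintype.ofInjective a a1
  have b1 : ∀ μ : Sym (Option (Fin n)) d, ((μ : Multiset _).map (gen n)).prod ∈ Pd n d := fun μ =>
    by simpa using (mono_mem (μ : Multiset (Option (Fin n)))).1
  choose k k1 k2 using fun μ : Sym (Option (Fin n)) d => 
    (mono_mem (μ : Multiset (Option (Fin n)))).2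
  refine ⟨A, this, inferInstance, (Fintype.card_le_of_injective a a1).trans ?_, ?_⟩
  · rw [Sym.card_sym_eq_choose]; simp [add_right_comm]
  generalize hv : (fun μ : Sym (Option (Fin n)) d => ((μ : Multiset _).map (gen n)).prod) ∘ a = v
    at a2 a3
  have b2 : Pd n d ≤ Submodule.span ℝ (Set.range v) := a2 ▸ Pd_le_span n d
  let b := Module.Basis.span a3
  have := Module.Finite.of_basis b
  have b3 := Submodule.span_eq_top_of_ne_zero (R := ℝ) (s := Set.range fun z : E n =>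
    (LinearMap.proj z).comp (Submodule.span ℝ (Set.range v)).subtype) fun p hp => by
      by_contra h
      exact hp (Subtype.ext (funext fun z => by_contra fun h' => h ⟨_, ⟨z, rfl⟩, h'⟩))
  choose γ hγ using fun i => Finsupp.mem_span_range_iff_exists_finsupp.1
    (b3 ▸ Submodule.mem_top (x := b.coord i))
  have b4 : ∀ i p, co (γ i) p.1 = b.repr p i := fun i p => by
    rw [← b.coord_apply, ← hγ]
    simp [co, Finsupp.sum, LinearMap.sum_apply]
  refine ⟨⟨v, k ∘ a, γ, fun i => hv ▸ b1 _, fun i => by simpa using k1 (a i),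
    fun i => hv ▸ k2 _, fun p hp z => ?_, fun i j => ?_⟩⟩
  · have h := congrFun (congrArg Subtype.val (b.sum_repr ⟨p, b2 hp⟩)) z
    simp only [← b4] at h
    simpa [b, Module.Basis.span_apply] using h.symm
  · have h := b4 i (b j)
    rw [b.repr_self, Finsupp.single_apply] at h
    simpa [b, Module.Basis.span_apply] using h

/-- rescaling of a polynomial -/
noncomputable def scl (s r : ℝ) (y : E n) (p : E n → ℝ) (z : E n) : ℝ := p (y + r • z) / r ^ s

lemma scl_mem {p : E n → ℝ} (hp : p ∈ Pd n d) (r : ℝ) (y : E n) : scl s r y p ∈ Pd n d := by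
  convert Pd_smul (r ^ s)⁻¹ (Pd_affine hp y r) using 2
  rw [scl, div_eq_inv_mul]

lemma co_sum {α : Type*} (t : Finset α) (γ : E n →₀ ℝ) (c : α → ℝ) (q : α → E n → ℝ) :
    co γ (fun z => ∑ a ∈ t, c a * q a z) = ∑ a ∈ t, c a * co γ (q a) := by
  simp only [co, mul_sum]
  rw [sum_comm]
  exact sum_congr rfl fun _ _ => sum_congr rfl fun _ _ => by ring

lemma co_scl_sum {α : Type*} (t : Finset α) (γ : E n →₀ ℝ) (r : ℝ) (y : E n) (c : α → ℝ)
    (q : α → E n → ℝ) : co γ (scl s r y fun z => ∑ a ∈ t, c a * q a z) =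
      ∑ a ∈ t, c a * co γ (scl s r y (q a)) := by
  rw [← co_sum]
  congr 1
  ext z
  simp only [scl, sum_div, mul_div_assoc]

lemma co_scl_sub (γ : E n →₀ ℝ) (r : ℝ) (y : E n) (p q : E n → ℝ) :
    co γ (scl s r y fun z => p z - q z) = co γ (scl s r y p) - co γ (scl s r y q) := by
  simp only [co, scl, sub_div, mul_sub, sum_sub_distrib]

lemma T1.co {ι : Type} {x : ι → E n} {r : ι → ℝ} (hr : ∀ i, 0 ≤ r i) (γ : E n →₀ ℝ)
    {F : ι → E n → E n → ℝ} (h : ∀ z, T1 d x r fun i y => F i y z) :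
    T1 d x r fun i y => co γ (F i y) :=
  T1.sum _ hr fun z _ => (T1.c hr _).mul1 (h z)

namespace Bs

variable {A : Type} [Fintype A] [DecidableEq A] (b : Bs n d A)

/-- the basis at centre `x` and scale `r` -/
noncomputable def at' (s r : ℝ) (x : E n) (a : A) (z : E n) : ℝ := r ^ s * b.m a (r⁻¹ • (z - x))

/-- the change of centre and scale -/
noncomputable def T (s r : ℝ) (x : E n) (r' : ℝ) (y : E n) : Matrix A A ℝ :=
  of fun a' a => co (b.γ a) (scl s r' y (b.at' s r x a'))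

lemma at_mem (r : ℝ) (x : E n) (a : A) : b.at' s r x a ∈ Pd n d := by
  convert Pd_smul (r ^ s) (Pd_affine (b.mem a) (-(r⁻¹ • x)) r⁻¹) using 2
  rw [at', smul_sub, neg_add_eq_sub]

lemma trans {p : E n → ℝ} (hp : p ∈ Pd n d) {r : ℝ} (hr : 0 < r) (x : E n) (r' : ℝ) (y : E n)
    (a : A) : co (b.γ a) (scl s r' y p) = ∑ a', co (b.γ a') (scl s r x p) * b.T s r x r' y a' a := by
  simp only [T, of_apply]
  rw [← co_scl_sum]
  congr 2
  ext z
  have h := b.exp _ (scl_mem (s := s) hp r x) (r⁻¹ • (z - x))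
  have h1 := (Real.rpow_pos_of_pos hr s).ne'
  rw [scl, smul_inv_smul₀ hr.ne', add_sub_cancel, div_eq_iff h1, sum_mul] at h
  rw [h]
  exact sum_congr rfl fun _ _ => by rw [at']; ring

lemma T_mul {r r' : ℝ} (hr : 0 < r) (hr' : 0 < r') (x y : E n) :
    b.T s r x r' y * b.T s r' y r x = 1 := by
  ext a a'
  have h := b.trans (s := s) (b.at_mem (s := s) r x a) hr' y r x a'
  have h1 : scl s r x (b.at' s r x a) = b.m a := by
    ext z
    rw [scl, at', add_sub_cancel_left, inv_smul_smul₀ hr.ne',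
      mul_div_cancel_left₀ _ (Real.rpow_pos_of_pos hr s).ne']
  rw [h1, b.dl] at h
  rw [one_apply, h]
  rfl

lemma rescale {p : E n → ℝ} (hp : p ∈ Pd n d) {r : ℝ} (hr : 0 < r) (h0 : 0 < θ) (y : E n) (a : A) :
    co (b.γ a) (scl s r y p) = co (b.γ a) (scl s (θ * r) y p) * θ ^ (s - b.deg a) := by
  have h : scl s (θ * r) y p = fun z =>
      ∑ a', (co (b.γ a') (scl s r y p) * θ ^ b.deg a' / θ ^ s) * b.m a' z := by
    ext z
    have h := b.exp _ (scl_mem (s := s) hp r y) (θ • z)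
    rw [scl, smul_smul] at h
    rw [scl, Real.mul_rpow h0.le hr.le, mul_comm θ, mul_comm (θ ^ s), ← div_div, h, sum_div]
    exact sum_congr rfl fun _ _ => by rw [b.hom]; ring
  have h1 := (Real.rpow_pos_of_pos h0 s).ne'
  rw [h, co_sum, Real.rpow_sub_natCast h0.ne']
  simp only [b.dl, mul_ite, mul_one, mul_zero, sum_ite_eq', mem_univ, if_true]
  field_simp

lemma lam_mu (a : A) : θ ^ (s - b.deg a) * b.m a 0 = θ ^ s * b.m a 0 := by
  rcases Nat.eq_zero_or_pos (b.deg a) with h | h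
  · simp [h]
  · have := b.hom a 0 0
    rw [zero_pow h.ne', zero_mul, zero_smul] at this
    simp [this]

end Bs

/-- the top scale -/
noncomputable def br (x : E n) : ℝ := √(1 + ‖x‖ ^ 2)

lemma br_pos (x : E n) : 0 < br x := Real.sqrt_pos.2 (by positivity)

lemma br_sq (x : E n) : br x ^ 2 = 1 + ‖x‖ ^ 2 := Real.sq_sqrt (by positivity)

lemma br_lip : Lip1 (br : E n → ℝ) := by
  refine ⟨fun x => (br_pos x).le, fun x y => ?_⟩
  have h1 : ‖y‖ ≤ br y := Real.le_sqrt_of_sq_le (by linarith)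
  have h2 : ‖x‖ ≤ ‖y‖ + ‖x - y‖ := by linarith [norm_sub_norm_le x y]
  have h3 := pow_le_pow_left₀ (norm_nonneg _) h2 2
  refine abs_le_of_sq_le_sq' ?_ (add_nonneg (br_pos y).le (norm_nonneg _)) |>.2
  nlinarith [br_sq x, br_sq y, mul_le_mul_of_nonneg_right h1 (norm_nonneg (x - y))]

/-- tame at the scales `θ ^ j * br x` -/
abbrev TS (d : ℕ) (θ : ℝ) (u : ℕ × E n → E n → ℝ) : Prop :=
  T1 d (fun p => p.2) (fun p => θ ^ p.1 * br p.2) u

/-- tame matrices at these scales -/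
abbrev TSM (d : ℕ) (θ : ℝ) {A B : Type} (M : ℕ × E n → E n → Matrix A B ℝ) : Prop :=
  TM d (fun p => p.2) (fun p => θ ^ p.1 * br p.2) M

lemma rs_pos (h0 : 0 < θ) (j : ℕ) (x : E n) : 0 < θ ^ j * br x := mul_pos (pow_pos h0 _) (br_pos _)

lemma rs_le (h0 : 0 < θ) (h1 : θ ≤ 1) (j : ℕ) (x : E n) : θ ^ j * br x ≤ br x :=
  mul_le_of_le_one_left (br_pos x).le (pow_le_one₀ h0.le h1)

lemma ts_w (h0 : 0 < θ) (k : Fin n) :
    TS d θ fun (p : ℕ × E n) y => (θ ^ p.1 * br p.2)⁻¹ * (y k - p.2 k) :=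
  TN.poly (fun _ => Pd_smul _ (coord_mem _ _)) (fun p => (rs_pos h0 _ _).le) (fun _ => zero_le_one)
    one_pos (C := 1) fun p y hy => by
      have := rs_pos h0 p.1 p.2
      have h := PiLp.norm_apply_le (y - p.2) k
      rw [abs_mul, abs_of_pos (inv_pos.2 this), inv_mul_le_iff₀ this]
      exact le_trans h (by linarith)

lemma ts_mu (h0 : 0 < θ) (h1 : θ ≤ 1) (e : ℝ) :
    TS d θ fun (p : ℕ × E n) y => (br y / br p.2) ^ e := by
  have a1 : TS d θ fun (p : ℕ × E n) y => (br y / br p.2) ^ 2 := by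
    refine TN.poly (e := 2) (fun p => ?_) (fun p => (rs_pos h0 _ _).le) (fun _ => zero_le_one)
      one_pos (C := 4) fun p y hy => ?_
    · convert Pd_smul (br p.2 ^ 2)⁻¹ (Pd_add (const_mem 2 1) (normsq_mem (0 : E n))) using 2
      rw [div_pow, br_sq, div_eq_inv_mul, sub_zero]
    · have := br_pos p.2
      have := br_pos y
      have h : br y / br p.2 ≤ 2 := by
        rw [div_le_iff₀ (br_pos _)]
        linarith [br_lip.2 y p.2, rs_le h0 h1 p.1 p.2]
      rw [abs_of_nonneg (by positivity)]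
      nlinarith [show 0 ≤ br y / br p.2 by positivity]
  refine (a1.rpow (e / 2) (c := (1 / 2) ^ 2) (η₀ := 1 / 2) (by norm_num) (by norm_num)
    fun p y hy => pow_le_pow_left₀ (by norm_num) ?_ 2).congr' fun p y => ?_
  · rw [le_div_iff₀ (br_pos _)]
    linarith [br_lip.le' p.2 y, rs_le h0 h1 p.1 p.2]
  · rw [← Real.rpow_natCast, ← Real.rpow_mul (div_pos (br_pos _) (br_pos _)).le]
    congr 1; push_cast; ring

variable {A : Type} [Fintype A] [DecidableEq A] (b : Bs n d A)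

lemma ts_T (h0 : 0 < θ) (h1 : θ ≤ 1) :
    TSM d θ (fun (p : ℕ × E n) y => b.T s (θ ^ p.1 * br p.2) p.2 (θ ^ p.1 * br y) y) ∧
    TSM d θ fun (p : ℕ × E n) y => b.T s (θ ^ p.1 * br y) y (θ ^ p.1 * br p.2) p.2 := by
  have hr := fun p : ℕ × E n => (rs_pos h0 p.1 p.2).le
  have e : ∀ (j : ℕ) (x y : E n), (θ ^ j * br y) ^ s / (θ ^ j * br x) ^ s = (br y / br x) ^ s :=
    fun j x y => by
      rw [← Real.div_rpow (rs_pos h0 _ _).le (rs_pos h0 _ _).le,
        mul_div_mul_left _ _ (pow_pos h0 j).ne']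
  refine ⟨fun a' a => T1.co hr _ fun z => ((ts_mu h0 h1 (-s)).mul1 (T1.poly
    (S := fun p y => (θ ^ p.1 * br p.2)⁻¹ • (y + (θ ^ p.1 * br y) • z - p.2)) hr
      (fun k => ((ts_w h0 k).add ((ts_mu h0 h1 1).mul1 (T1.c hr (z k)))).congr' fun p y => ?_)
      (b.mem a'))).congr' fun p y => ?_,
    fun a' a => T1.co hr _ fun z => ((ts_mu h0 h1 s).mul1 (T1.poly
    (S := fun p y => (θ ^ p.1 * br y)⁻¹ • (p.2 + (θ ^ p.1 * br p.2) • z - y)) hr
      (fun k => ((ts_mu h0 h1 (-1)).mul1 ((T1.c hr (z k)).sub (ts_w h0 k))).congr' fun p y => ?_)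
      (b.mem a'))).congr' fun p y => ?_⟩
  · have := br_pos p.2
    simp only [Real.rpow_one, PiLp.smul_apply, PiLp.sub_apply, PiLp.add_apply, smul_eq_mul]
    field_simp; ring
  · rw [scl, Bs.at', mul_div_right_comm, e, Real.rpow_neg (div_pos (br_pos _) (br_pos _)).le,
      ← Real.inv_rpow (div_pos (br_pos _) (br_pos _)).le, inv_div]
  · have := br_pos p.2
    have := br_pos y
    simp only [Real.rpow_neg_one, PiLp.smul_apply, PiLp.sub_apply, PiLp.add_apply, smul_eq_mul]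
    field_simp; ring
  · rw [scl, Bs.at', mul_div_right_comm, e]

end Pool.Agent.Lib.MP_ca9be0_an.PyF
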