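import Pool.Agent.Lib.MP_ca9be0_an.JetC

/-! The regularised jet bundle and the bound by the dimension of the space of jets. -/

namespace Pool.Agent.Lib.MP_ca9be0_an.PyF

open Finset Filter Topology Matrix

variable {n d : ℕ} {s θ : ℝ}

/-- the scale of the partition of unity -/
noncomputable def sig (θ : ℝ) (j : ℕ) (y : E n) : ℝ := 1 / 100 * (θ ^ j * br y)

lemma sig_adm (h0 : 0 < θ) (h1 : θ ≤ 1) (j : ℕ) : Adm (sig θ j : E n → ℝ) :=
  (br_lip.smul (pow_pos h0 j) (pow_le_one₀ h0.le h1)).adm (by norm_num) le_rfl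

/-- the local jets -/
noncomputable def loc (θ : ℝ) (u : CF n d s) (j : ℕ) (c : Col n) (y z : E n) : ℝ :=
  if j = 0 then 0 else u.P (zeta (sig θ j) c y) z

/-- the averaged jets -/
noncomputable def av (θ : ℝ) (u : CF n d s) (j : ℕ) (y z : E n) : ℝ :=
  ∑ c, phi d (sig θ j) c y ^ 2 * loc θ u j c y z

lemma loc_mem (u : CF n d s) (j : ℕ) (c : Col n) (y : E n) : loc θ u j c y ∈ Pd n d := by
  unfold loc
  split_ifs
  · exact const_mem d 0
  · exact u.mem _

lemma av_mem (u : CF n d s) (j : ℕ) (y : E n) : av θ u j y ∈ Pd n d :=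
  Pd_sum _ fun c _ => Pd_smul _ (loc_mem u j c y)

lemma av_zero (u : CF n d s) (y : E n) : av θ u 0 y = fun _ => 0 := by
  ext z; simp [av, loc]

lemma zeta_le (h0 : 0 < θ) (h1 : θ ≤ 1) (j : ℕ) (c : Col n) (x : E n) :
    ‖zeta (sig θ j) c x - x‖ ≤ θ ^ j * br x :=
  (zeta_near (sig_adm h0 h1 j) c x).trans (by rw [sig]; linarith [rs_pos h0 j x])

lemma loc_bd (H : Hs d s) (h0 : 0 < θ) (h1 : θ ≤ 1) (u : CF n d s) (e : ℕ) (c : Col n) (z : E n) :
    ∃ C, ∀ j x, |scl s (θ ^ j * br x) x (fun z => loc θ u (j + e) c x z - u.P x z) z| ≤ C := by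
  obtain ⟨C, hC, h⟩ := CF.whitney fun _ : Unit => u
  obtain ⟨C', η, hC', hη, h'⟩ := TN.bound (u.tame_init H)
  have hK := Kg_pos n d
  have s0 := H.pos
  refine ⟨C * ((‖z‖ + 1) ^ s + ‖z‖ ^ s) + Kg n d * (C' * 2 ^ s) * max 1 (‖z‖ / η) ^ d,
    fun j x => ?_⟩
  have hr := rs_pos h0 j x
  have hs := Real.rpow_pos_of_pos hr s
  have e1 : ‖x + (θ ^ j * br x) • z - x‖ = ‖z‖ * (θ ^ j * br x) := by
    rw [add_sub_cancel_left, norm_smul, Real.norm_of_nonneg hr.le, mul_comm]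
  rw [scl, abs_div, abs_of_pos hs, div_le_iff₀ hs, loc, add_mul]
  split_ifs with hj
  · obtain rfl : j = 0 := by omega
    refine le_add_of_nonneg_of_le (by positivity) ?_
    rw [zero_sub, abs_neg]
    refine ((h' x).grow (u.mem x) (by positivity) _).trans ?_
    rw [e1, pow_zero, one_mul]
    have a0 := norm_nonneg x
    have := br_pos x
    have a1 : br x ≤ 1 + ‖x‖ := Real.sqrt_le_iff.2 ⟨by positivity, by nlinarith⟩
    have a2 : 1 + ‖x‖ ≤ 2 * br x :=
      (abs_le_of_sq_le_sq' (by nlinarith [br_sq x, sq_nonneg (1 - ‖x‖)])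
        (mul_pos two_pos (br_pos x)).le).2
    have a3 : ‖z‖ * br x / (η * (1 + ‖x‖)) ≤ ‖z‖ / η := by
      rw [mul_div_mul_comm]
      exact mul_le_of_le_one_right (by positivity) (div_le_one_of_le₀ a1 (by positivity))
    calc _ ≤ Kg n d * (C' * (2 * br x) ^ s) * max 1 (‖z‖ / η) ^ d := by gcongr
      _ = _ := by rw [Real.mul_rpow zero_le_two (br_pos x).le]; ring
  · refine le_add_of_le_of_nonneg ((h () _ _ _).trans ?_) (by positivity)
    have a1 := zeta_le h0 h1 (j + e) c x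
    have a2 : θ ^ (j + e) * br x ≤ θ ^ j * br x :=
      mul_le_mul_of_nonneg_right (pow_le_pow_of_le_one h0.le h1 (by omega)) (br_pos x).le
    have a3 := norm_sub_le_norm_sub_add_norm_sub (x + (θ ^ j * br x) • z) x
      (zeta (sig θ (j + e)) c x)
    rw [e1, norm_sub_rev x] at a3
    rw [e1, mul_assoc, add_mul, ← Real.mul_rpow (by positivity) hr.le,
      ← Real.mul_rpow (by positivity) hr.le]
    gcongr
    linarith

lemma av_lim (H : Hs d s) (h0 : 0 < θ) (h1 : θ < 1) (u : CF n d s) (y : E n) :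
    Tendsto (fun j => av θ u (j + 1) y y) atTop (𝓝 (u.f y)) ∧
      Tendsto (fun j => (θ ^ (j + 1) * br y) ^ s) atTop (𝓝 0) := by
  obtain ⟨C, hC, h⟩ := u.bd
  have t : Tendsto (fun j => (θ ^ (j + 1) * br y) ^ s) atTop (𝓝 0) := by
    have := (((tendsto_pow_atTop_nhds_zero_of_lt_one h0.le h1).comp
      (tendsto_add_atTop_nat 1)).mul_const (br y)).rpow_const (p := s) (Or.inr H.pos.le)
    simpa [Real.zero_rpow H.pos.ne'] using this
  refine ⟨tendsto_sub_nhds_zero_iff.1 (squeeze_zero_norm (fun j => ?_)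
    (by simpa using t.const_mul C)), t⟩
  have e := phi_sq (d := d) (sig_adm h0 h1.le (j + 1)) y
  rw [← one_mul (u.f y), ← one_mul (C * _), ← e, av, sum_mul, sum_mul, ← sum_sub_distrib]
  refine (abs_sum_le_sum_abs _ _).trans (sum_le_sum fun c _ => ?_)
  rw [← mul_sub, abs_mul, abs_of_nonneg (sq_nonneg _), loc, if_neg j.succ_ne_zero, abs_sub_comm]
  refine mul_le_mul_of_nonneg_left ((h _ _).trans ?_) (sq_nonneg _)
  have := zeta_le h0 h1.le (j + 1) c y
  rw [norm_sub_rev] at this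
  gcongr
  exact H.pos.le

variable {A : Type} [Fintype A] [DecidableEq A] (b : Bs n d A)

lemma ts_av (H : Hs d s) (h0 : 0 < θ) (h1 : θ ≤ 1) (u : CF n d s) (e : ℕ) (a : A) :
    TS d θ fun (p : ℕ × E n) y => co (b.γ a) (scl s (θ ^ p.1 * br y) y (av θ u (p.1 + e) y)) -
      co (b.γ a) (scl s (θ ^ p.1 * br y) y (u.P p.2)) := by
  have hr := fun p : ℕ × E n => (rs_pos h0 p.1 p.2).le
  have he := pow_pos h0 e
  have a1 : ∀ c, TS d θ fun (p : ℕ × E n) y => phi d (sig θ (p.1 + e)) c y := fun c =>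
    (phi_TN (fun p : ℕ × E n => sig_adm h0 h1 (p.1 + e)) (fun p => p.2) c).mono_r (100 / θ ^ e) hr
      fun p => le_of_eq (by rw [sig, pow_add]; field_simp)
  have a2 : ∀ c a', TS d θ fun (p : ℕ × E n) _ => co (b.γ a') (scl s (θ ^ p.1 * br p.2) p.2
      fun z => loc θ u (p.1 + e) c p.2 z - u.P p.2 z) := fun c a' => T1.co hr _ fun z => by
    obtain ⟨C, h⟩ := loc_bd H h0 h1 u e c z
    exact TN.const1 hr C fun p => h p.1 p.2
  refine (T1.sum univ hr fun c _ => ((a1 c).pow 2).mul1 (T1.sum univ hr fun a' _ =>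
    (a2 c a').mul1 ((ts_T (s := s) b h0 h1).1 a' a))).congr (η₀ := θ ^ e / 1000) (by positivity)
      fun p y hy => ?_
  have ad := sig_adm (n := n) h0 h1 (p.1 + e)
  simp only [← b.trans (Pd_sub (loc_mem u _ _ _) (u.mem _)) (rs_pos h0 _ _)]
  rw [← co_scl_sum, ← co_scl_sub]
  congr 2
  ext z
  simp only [mul_sub, sum_sub_distrib, ← sum_mul, phi_sq ad, one_mul, av]
  congr 1
  refine sum_congr rfl fun c _ => ?_
  unfold loc
  split_ifs
  · rfl
  · exact (phi_sq_loc ad (hy.trans (le_of_eq (by rw [sig, pow_add]; ring))) fun w => u.P w z).symm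

variable {W : Type} [Fintype W] [DecidableEq W] (θ) (G : W → CF n d s) (L : ℝ)

/-- the regularised matrix of scaled jets; the columns in `S` are taken one scale below -/
noncomputable def XM (S : Finset A) (j : ℕ) (y : E n) : Matrix (W ⊕ A) A ℝ :=
  of fun v a => v.elim
    (fun w => co (b.γ a) (scl s (θ ^ j * br y) y (av θ (G w) (j + if a ∈ S then 1 else 0) y)))
    fun a' => if a' = a then L * if a ∈ S then θ ^ (s - b.deg a) else 1 else 0

/-- the change of one column -/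
noncomputable def bb (a : A) (j : ℕ) (y : E n) (v : W ⊕ A) : ℝ := v.elim
  (fun w => co (b.γ a) (scl s (θ ^ j * br y) y (av θ (G w) (j + 1) y)) -
    co (b.γ a) (scl s (θ ^ j * br y) y (av θ (G w) (j + 0) y)))
  fun a' => if a' = a then L * (θ ^ (s - b.deg a) - 1) else 0

variable {θ G L}

lemma XM_insert {S : Finset A} {a : A} (ha : a ∉ S) (j : ℕ) (y : E n) :
    XM θ b G L (insert a S) j y = XM θ b G L S j y + vecMulVec (bb θ b G L a j y) (Pi.single a 1) := by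
  ext v a'
  by_cases h : a' = a
  · subst h
    cases v with
    | inl w => simp [XM, bb, vecMulVec_apply, ha]
    | inr a'' =>
      simp only [XM, bb, vecMulVec_apply, ha, of_apply, Sum.elim_inr, Matrix.add_apply,
        mem_insert_self, if_true, if_false, Pi.single_eq_same]
      split_ifs <;> ring
  · simp [XM, vecMulVec_apply, h]

lemma lam_bd (H : Hs d s) (h0 : 0 < θ) (h1 : θ ≤ 1) (a : A) :
    θ ^ s ≤ θ ^ (s - b.deg a) ∧ θ ^ (s - b.deg a) ≤ 1 := by
  have : (b.deg a : ℝ) ≤ d := by exact_mod_cast b.le a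
  exact ⟨Real.rpow_le_rpow_of_exponent_ge h0 h1 (by simp),
    Real.rpow_le_one h0.le h1 (by linarith [H.1])⟩

lemma XM_low (H : Hs d s) (h0 : 0 < θ) (h1 : θ ≤ 1) (hL : 0 < L) (S : Finset A) (j : ℕ) (y : E n)
    (t : A → ℝ) : (L * θ ^ s) ^ 2 * (t ⬝ᵥ t) ≤
      (XM θ b G L S j y *ᵥ t) ⬝ᵥ (XM θ b G L S j y *ᵥ t) := by
  rw [dotProduct, dotProduct, Fintype.sum_sum_type, mul_sum]
  refine le_add_of_nonneg_of_le (sum_nonneg fun _ _ => mul_self_nonneg _) (sum_le_sum fun a _ => ?_)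
  have e : (XM θ b G L S j y *ᵥ t) (Sum.inr a) =
      (L * if a ∈ S then θ ^ (s - b.deg a) else 1) * t a := by
    simp [XM, mulVec, dotProduct]
  have h := lam_bd b H h0 h1 a
  have h2 : θ ^ s ≤ if a ∈ S then θ ^ (s - b.deg a) else 1 := by
    split_ifs
    · exact h.1
    · exact h.1.trans h.2
  rw [e, mul_mul_mul_comm, ← sq (L * _)]
  have := mul_self_nonneg (t a)
  gcongr

lemma XM_dual (H : Hs d s) (h0 : 0 < θ) (h1 : θ ≤ 1) (hL : 0 < L) (S : Finset A) :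
    TSM d θ (fun (p : ℕ × E n) y => dual (XM θ b G L S p.1 y)) ∧
    TSM d θ fun (p : ℕ × E n) y => dual (XM θ b G L S p.1 y) * (XM θ b G L S p.1 y)ᵀ := by
  have hr := fun p : ℕ × E n => (rs_pos h0 p.1 p.2).le
  refine normal_form hr (c := (L * θ ^ s) ^ 2) (P := fun p => of fun v a => v.elim
    (fun w => co (b.γ a) (scl s (θ ^ p.1 * br p.2) p.2 ((G w).P p.2)))
    fun a' => if a' = a then 1 else 0) (by positivity) (fun p t => ?_)
    (fun p y => XM_low b H h0 h1 hL S p.1 y) (ts_T (s := s) b h0 h1).2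
    (fun p y => b.T_mul (rs_pos h0 _ _) (rs_pos h0 _ _) _ _) fun v a => ?_
  · rw [dotProduct, dotProduct, Fintype.sum_sum_type, one_mul]
    refine le_add_of_nonneg_of_le (sum_nonneg fun _ _ => mul_self_nonneg _) (le_of_eq ?_)
    simp [mulVec, dotProduct]
  · cases v with
    | inl w =>
      refine (ts_av b H h0 h1 (G w) (if a ∈ S then 1 else 0) a).congr' fun p y => ?_
      rw [b.trans ((G w).mem _) (rs_pos h0 p.1 p.2) p.2]
      rfl
    | inr a' =>
      refine ((T1.c hr (if a' = a then L * if a ∈ S then θ ^ (s - b.deg a) else 1 else 0)).sub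
        ((ts_T (s := s) b h0 h1).1 a' a)).congr' fun p y => ?_
      simp only [Matrix.sub_apply, mul_apply, of_apply, Sum.elim_inr, ite_mul, one_mul, zero_mul,
        sum_ite_eq, mem_univ, if_true, XM]

lemma bb_tame (H : Hs d s) (h0 : 0 < θ) (h1 : θ ≤ 1) (a : A) (v : W ⊕ A) :
    TS d θ fun (p : ℕ × E n) y => bb θ b G L a p.1 y v := by
  cases v with
  | inl w =>
    exact ((ts_av b H h0 h1 (G w) 1 a).sub (ts_av b H h0 h1 (G w) 0 a)).congr' fun p y => by
      simp [bb]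
  | inr a' => exact T1.c (fun p : ℕ × E n => (rs_pos h0 p.1 p.2).le) _

lemma kappa_abs {X : Matrix (W ⊕ A) A ℝ} {v : W ⊕ A → ℝ} {a : A} {C l c : ℝ} (hL : 0 < L)
    (u : IsUnit (Xᵀ * X).det) (hX : ∀ a', X (Sum.inr a) a' = if a' = a then L else 0)
    (a1 : ∀ w, |v (Sum.inl w)| ≤ C) (hv : ∀ a', v (Sum.inr a') = if a' = a then L * (l - 1) else 0)
    (l0 : c ≤ l) (l1 : l ≤ 1) (e : 2 * (Fintype.card W * C) ≤ L * c) :
    c / 2 ≤ 1 + (fun v => dual X v a) ⬝ᵥ v := by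
  have a2 : dual X (Sum.inr a) a = L * (Xᵀ * X)⁻¹ a a := by
    rw [dual, mul_apply]
    simp [hX]
  have a3 : (fun v => dual X v a) ⬝ᵥ (fun v => dual X v a) = (Xᵀ * X)⁻¹ a a := by
    have : (dual X)ᵀ * dual X = (Xᵀ * X)⁻¹ := by
      conv_lhs => arg 2; rw [dual]
      rw [← Matrix.mul_assoc, dual_left u, Matrix.one_mul]
    rw [← this]; rfl
  rw [← a3] at a2
  generalize hξ : (fun v => dual X v a) = ξ at *
  replace a2 : ξ (Sum.inr a) = L * (ξ ⬝ᵥ ξ) := by rw [← a2, ← hξ]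
  have a4 : L ^ 2 * (ξ ⬝ᵥ ξ) ≤ 1 := by
    have := sq_le_dot ξ (Sum.inr a)
    rw [a2] at this
    rcases (dot_nn ξ).eq_or_lt with h | h
    · simp [← h]
    · exact le_of_mul_le_mul_right (by linarith) h
  have a5 : ∀ v, L * |ξ v| ≤ 1 := fun v => by
    rw [← abs_of_pos hL, ← abs_mul, ← sq_le_one_iff_abs_le_one, mul_pow]
    exact (mul_le_mul_of_nonneg_left (sq_le_dot ξ v) (sq_nonneg L)).trans a4
  have a6 : L * |∑ w, ξ (Sum.inl w) * v (Sum.inl w)| ≤ Fintype.card W * C := by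
    refine (mul_le_mul_of_nonneg_left (abs_sum_le_sum_abs _ _) hL.le).trans ?_
    rw [mul_sum, ← card_univ, ← nsmul_eq_mul]
    refine sum_le_card_nsmul _ _ _ fun w _ => ?_
    rw [abs_mul, ← mul_assoc]
    simpa using mul_le_mul (a5 _) (a1 w) (abs_nonneg _) zero_le_one
  have a7 : ∑ a', ξ (Sum.inr a') * v (Sum.inr a') = L ^ 2 * (ξ ⬝ᵥ ξ) * (l - 1) := by
    simp only [hv, mul_ite, mul_zero, sum_ite_eq', mem_univ, if_true, a2]
    ring
  rw [dotProduct, Fintype.sum_sum_type, a7]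
  generalize ∑ w, ξ (Sum.inl w) * v (Sum.inl w) = t at *
  have a9 : |t| ≤ c / 2 := le_of_mul_le_mul_left (by linarith) hL
  linarith [neg_abs_le t, mul_le_mul_of_nonneg_right a4 (sub_nonneg.2 l1)]

lemma kappa (H : Hs d s) (h0 : 0 < θ) (h1 : θ ≤ 1) (G : W → CF n d s) : ∃ L : ℝ, 0 < L ∧
    ∀ (S : Finset A) a, a ∉ S → ∀ j y,
      θ ^ s / 2 ≤ 1 + (fun v => dual (XM θ b G L S j y) v a) ⬝ᵥ bb θ b G L a j y := by
  have hr := fun p : ℕ × E n => (rs_pos h0 p.1 p.2).le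
  have hs := Real.rpow_pos_of_pos h0 s
  obtain ⟨C, η, hC, hη, h⟩ := (TN.fin hr (fun _ => zero_le_one) fun q : A × W =>
    bb_tame (G := G) (L := 0) b H h0 h1 q.1 (Sum.inl q.2)).bound
  obtain ⟨L, hL, e⟩ : ∃ L : ℝ, 0 < L ∧ L * θ ^ s = 2 * ((Fintype.card W + 1) * C) :=
    ⟨2 * ((Fintype.card W + 1) * C) / θ ^ s, by positivity, by field_simp⟩
  refine ⟨L, hL, fun S a ha j y => kappa_abs (C := C) hL
    (gram_unit (by positivity) (XM_low (G := G) b H h0 h1 hL S j y)) (fun a' => ?_) (fun w => ?_)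
    (fun _ => rfl) (lam_bd b H h0 h1 a).1 (lam_bd b H h0 h1 a).2 (by linarith)⟩
  · by_cases h : a' = a
    · simp [XM, h, ha]
    · simp [XM, h, Ne.symm h]
  · simpa [bb] using h ((a, w), (j, y)) y (by simpa using mul_nonneg hη.le (hr (j, y)))

lemma one_scale (H : Hs d s) (h0 : 0 < θ) (h1 : θ ≤ 1) (hL : 0 < L)
    (hκ : ∀ (S : Finset A) a, a ∉ S → ∀ j y,
      θ ^ s / 2 ≤ 1 + (fun v => dual (XM θ b G L S j y) v a) ⬝ᵥ bb θ b G L a j y) (S : Finset A) :
    ∃ (V : ℕ → E n → Matrix (W ⊕ A) (W ⊕ A) ℝ) (Γ : ℕ → E n → Matrix (W ⊕ A) A ℝ),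
      (∀ j y, Iso (V j y)) ∧ TSM d θ (fun p => V p.1) ∧ TSM d θ (fun p => Γ p.1) ∧
      (∀ j y, V j y * XM θ b G L S j y = XM θ b G L ∅ j y + Γ j y) ∧
      ∀ j y t, ∃ t', V j y *ᵥ XM θ b G L S j y *ᵥ t = XM θ b G L ∅ j y *ᵥ t' := by
  have hr := fun p : ℕ × E n => (rs_pos h0 p.1 p.2).le
  have hs := half_pos (Real.rpow_pos_of_pos h0 s)
  induction S using Finset.induction_on with
  | empty =>
    refine ⟨fun _ _ => 1, fun _ _ => 0, fun _ _ => Iso.one, TM.const hr 1 fun _ v v' => ?_,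
      TM.const hr 0 (by simp), by simp, fun j y t => ⟨t, by simp⟩⟩
    rw [one_apply]; split_ifs <;> simp
  | insert a S ha ih =>
    obtain ⟨V, Γ, i1, i2, i3, i4, i5⟩ := ih
    obtain ⟨t1, t2⟩ := XM_dual (G := G) b H h0 h1 hL S
    have t3 := bb_tame (G := G) (L := L) b H h0 h1 a
    have t4 : ∀ v, TS d θ fun (p : ℕ × E n) y =>
        perp (XM θ b G L S p.1 y) (bb θ b G L a p.1 y) v := fun v =>
      (t3 v).sub (t2.mulVec hr t3 v)
    obtain ⟨t5, t6⟩ := TM.rot hr hs (fun v => t1 v a) t4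
      ((T1.c hr 1).add (T1.dot hr (fun v => t1 v a) t3)) fun p y => hκ S a ha p.1 y
    have k := fun j y => rot_col (gram_unit (by positivity) (XM_low (G := G) b H h0 h1 hL S j y))
      (bb θ b G L a j y) a rfl rfl rfl (hs.trans_le (hκ S a ha j y))
    refine ⟨fun j y => V j y * rot _ _ _, fun j y => Γ j y + V j y * vecMulVec _ (Pi.single a 1),
      fun j y => (i1 j y).mul (k j y).1, i2.mul hr t5, i3.add (i2.mul hr (TM.vmv (fun v =>
        ((t3 v).sub (t4 v)).add (((T1.dot hr t4 t4).mul1 t6).mul1 (t1 v a))) fun _ => T1.c hr _)),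
      fun j y => by rw [XM_insert b ha, Matrix.mul_assoc, (k j y).2.1, Matrix.mul_add, i4,
        add_assoc], fun j y t => ?_⟩
    obtain ⟨t0, e⟩ := (k j y).2.2 _
    rw [XM_insert b ha, mulVec_mulVec, Matrix.mul_assoc, (k j y).2.1, e, ← mulVec_mulVec,
      add_mulVec, vecMulVec_mulVec, op_smul_eq_smul, ← mulVec_smul, ← mulVec_add]
    exact i5 j y _

lemma XM_univ (h0 : 0 < θ) (j : ℕ) (y : E n) : XM θ b G L univ j y =
    XM θ b G L ∅ (j + 1) y * diagonal fun a => θ ^ (s - b.deg a) := by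
  ext v a
  rw [mul_diagonal]
  cases v with
  | inl w =>
    simp only [XM, of_apply, Sum.elim_inl, mem_univ, if_true, notMem_empty, if_false, add_zero]
    rw [b.rescale (av_mem _ _ _) (rs_pos h0 j y) h0, pow_succ', mul_assoc]
  | inr a' => simp [XM]

lemma jets_bound (b : Bs n d A) (s1 : (d : ℝ) < s) (s2 : s < d + 1) (G : W → CF n d s) :
    ∃ u : A → CF n d s, ∀ y, ∑ a, (u a).f y ^ 2 = ∑ w, (G w).f y ^ 2 := by
  have H : Hs d s := ⟨s1, s2.le⟩
  obtain ⟨θ, h0, h1, h2⟩ : ∃ θ : ℝ, 0 < θ ∧ θ < 1 ∧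
      4 * (Fintype.card (W ⊕ A) * (Kg n (d + d) + 3) * Kg n d) * θ ≤ 1 := by
    have := Kg_pos n d
    have := Kg_pos n (d + d)
    obtain ⟨c, c0, c1⟩ : ∃ c : ℝ, 0 ≤ c ∧
      4 * (Fintype.card (W ⊕ A) * (Kg n (d + d) + 3) * Kg n d) = c := ⟨_, by positivity, rfl⟩
    refine ⟨1 / (c + 2), by positivity, (div_lt_one (by positivity)).2 (by linarith), ?_⟩
    rw [c1, mul_one_div]
    exact div_le_one_of_le₀ (by linarith) (by positivity)
  have hr := fun p : ℕ × E n => (rs_pos h0 p.1 p.2).le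
  obtain ⟨L, hL, hκ⟩ := kappa b H h0 h1.le G
  obtain ⟨V, Γ, i1, i2, i3, i4, i5⟩ := one_scale b H h0 h1.le hL hκ univ
  have tU := prodM_tame i1 br_pos h0 h1.le h2 i2
  have rg : ∀ j y t w, (prodM V j y *ᵥ XM θ b G L ∅ j y *ᵥ t) (Sum.inl w) = 0 := by
    intro j y
    induction j with
    | zero => simp [prodM, XM, mulVec, dotProduct, av_zero, scl, co]
    | succ j ih =>
      intro t w
      obtain ⟨t', e⟩ := i5 j y fun a => (θ ^ (s - b.deg a))⁻¹ * t a
      have e' : ((diagonal fun a => θ ^ (s - b.deg a)) *ᵥ fun a => (θ ^ (s - b.deg a))⁻¹ * t a) =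
          t := funext fun a => by
        rw [mulVec_diagonal, mul_inv_cancel_left₀ (Real.rpow_pos_of_pos h0 _).ne']
      rw [XM_univ b h0, ← mulVec_mulVec, e'] at e
      rw [prodM, ← mulVec_mulVec, e, ih]
  obtain ⟨h, hh⟩ : ∃ h : ℕ → E n → W ⊕ A → ℝ, ∀ j y, h j y =
    (θ ^ j * br y) ^ s • prodM V j y *ᵥ XM θ b G L ∅ j y *ᵥ fun a => b.m a 0 := ⟨_, fun _ _ => rfl⟩
  have st : ∀ j y, h (j + 1) y =
      h j y + (θ ^ j * br y) ^ s • prodM V j y *ᵥ Γ j y *ᵥ fun a => b.m a 0 := fun j y => by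
    have e : ((diagonal fun a => θ ^ (s - b.deg a)) *ᵥ fun a => b.m a 0) =
        θ ^ s • fun a => b.m a 0 := funext fun a => by rw [mulVec_diagonal, b.lam_mu]; rfl
    rw [hh, hh, ← smul_add, ← mulVec_add, ← add_mulVec, ← i4, XM_univ b h0, ← mulVec_mulVec,
      ← mulVec_mulVec, e, mulVec_smul, mulVec_smul, mulVec_smul, smul_smul, prodM,
      ← mulVec_mulVec, pow_succ, mul_right_comm, Real.mul_rpow (rs_pos h0 j y).le h0.le]
  have X0 : ∀ y, XM θ b G L ∅ 0 0 = XM θ b G L ∅ 0 y := fun y => by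
    ext v a
    cases v <;> simp [XM, av_zero, scl, co]
  have tX : TSM d θ fun (p : ℕ × E n) y => if p.1 = 0 then XM θ b G L ∅ 0 y else 0 := fun v a =>
    (TN.const1 (c := fun p : ℕ × E n => (if p.1 = 0 then XM θ b G L ∅ 0 0 else 0) v a) hr
      |XM θ b G L ∅ 0 0 v a| fun p => by split_ifs <;> simp).congr' fun p y => by rw [X0 y]
  choose u hu using fun a : A => sum_scales br_lip br_pos h0 h1 s1 s2
    (δ := fun j y => (θ ^ j * br y) ^ s * (prodM V j y *ᵥ
      (Γ j y + if j = 0 then XM θ b G L ∅ 0 y else 0) *ᵥ fun a => b.m a 0) (Sum.inr a))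
    ((((ts_mu h0 h1.le s).mul1 (TN.const (c := fun p : ℕ × E n => (θ ^ p.1 * br p.2) ^ s) hr
      fun p => (abs_of_nonneg (Real.rpow_nonneg (hr p) s)).le)).mul1' (tU.mulVec hr
        ((i3.add tX).mulVec hr fun a => T1.c hr (b.m a 0)) (Sum.inr a))).congr' fun p y => by
      rw [← Real.mul_rpow (div_pos (br_pos _) (br_pos _)).le (hr p), mul_left_comm,
        div_mul_cancel₀ _ (br_pos _).ne'])
  refine ⟨u, fun y => ?_⟩
  have l1 : ∀ a, Tendsto (fun j => h (j + 1) y (Sum.inr a)) atTop (𝓝 ((u a).f y)) := fun a => by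
    refine ((hu a y).tendsto_sum_nat.comp (tendsto_add_atTop_nat 1)).congr fun j => ?_
    induction j with
    | zero => simp [st, hh 0, add_mulVec, mulVec_add, mul_add, add_comm]
    | succ j ih =>
      rw [st, Pi.add_apply, ← ih]
      simp [sum_range_succ _ (j + 1)]
  have l2 : ∀ j, ∑ a, h j y (Sum.inr a) ^ 2 =
      ∑ w, av θ (G w) j y y ^ 2 + ∑ a, ((θ ^ j * br y) ^ s * (L * b.m a 0)) ^ 2 := fun j => by
    have e := prodM_iso i1 j y (XM θ b G L ∅ j y *ᵥ fun a => b.m a 0)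
    rw [dotProduct, dotProduct, Fintype.sum_sum_type, Fintype.sum_sum_type] at e
    simp only [rg, mul_zero, sum_const_zero, zero_add] at e
    simp only [← sq] at e
    simp only [hh, Pi.smul_apply, smul_eq_mul]
    rw [sum_congr rfl fun _ _ => mul_pow _ _ 2, ← mul_sum, e, mul_add, mul_sum, mul_sum]
    simp only [← mul_pow]
    congr 1
    · refine sum_congr rfl fun w _ => ?_
      have e2 := b.exp _ (scl_mem (s := s) (av_mem (θ := θ) (G w) j y) (θ ^ j * br y) y) 0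
      rw [scl, smul_zero, add_zero, div_eq_iff (Real.rpow_pos_of_pos (rs_pos h0 j y) s).ne'] at e2
      rw [e2, mul_comm]
      simp [XM, mulVec, dotProduct]
    · exact sum_congr rfl fun a _ => by simp [XM, mulVec, dotProduct]
  refine tendsto_nhds_unique (tendsto_finsetSum _ fun a _ => (l1 a).pow 2) ?_
  simp only [l2]
  have l3 : Tendsto (fun j => (θ ^ (j + 1) * br y) ^ s) atTop (𝓝 0) :=
    (av_lim H h0 h1 ⟨fun _ => 0, fun _ _ => 0, fun _ => const_mem d 0, 0, le_rfl, by simp⟩ y).2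
  simpa using (tendsto_finsetSum univ fun w _ => (av_lim H h0 h1 (G w) y).1.pow 2).add
    (tendsto_finsetSum univ fun a _ => (l3.mul_const (L * b.m a 0)).pow 2)

lemma sumsq_jets {m : ℕ} {β : ℝ} (h0 : 0 < β) (h1 : β < 1) (g : Fin m → E n → ℝ)
    (hg : ∀ i, InC d β (g i)) : ∃ m' ≤ (n + d).choose d, ∃ g' : Fin m' → E n → ℝ,
      (∀ i, InC d β (g' i)) ∧ ∀ y, ∑ i, g i y ^ 2 = ∑ i, g' i y ^ 2 := by
  obtain ⟨A, _, _, hA, ⟨b⟩⟩ := exists_Bs n d
  choose G hG using fun i => exists_CF h0 d _ rfl _ (hg i)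
  obtain ⟨u, hu⟩ := jets_bound b (by linarith) (by linarith) G
  refine ⟨_, hA, fun i => (u ((Fintype.equivFin A).symm i)).f, fun i => CF.inC h0 d _ rfl _,
    fun y => ?_⟩
  rw [(Fintype.equivFin A).symm.sum_comp fun a => (u a).f y ^ 2, hu]
  simp [hG]

end Pool.Agent.Lib.MP_ca9be0_an.PyF
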