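import Pool.Agent.Lib.MP_ca9be0_an.FinO

/-! Multi-indices, coefficient functionals and the forcing of orthogonal jets. -/

namespace Pool.Agent.Lib.MP_ca9be0_an.PyF.Lp

open Finset Filter Topology

variable {b d m : ℕ}

/-- multi-indices -/
abbrev Ix (b : ℕ) := Fin b →₀ ℕ

/-- monomials -/
def mon (γ : Ix b) (y : Fin b → ℝ) : ℝ := ∏ i, y i ^ γ i

/-- the order of a multi-index -/
def dg (γ : Ix b) : ℕ := ∑ i, γ i

/-- the multi-indices of order at most `d` -/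
noncomputable def Id (b d : ℕ) : Finset (Ix b) :=
  ((univ : Finset (Fin (b + 1))).finsuppAntidiag d).image Finsupp.tail

lemma mem_Id {γ : Ix b} : γ ∈ Id b d ↔ dg γ ≤ d := by
  simp only [Id, mem_image, mem_finsuppAntidiag, subset_univ, and_true, Fin.sum_univ_succ]
  constructor
  · rintro ⟨κ, h, rfl⟩
    simp only [dg, Finsupp.tail_apply]
    omega
  · intro h
    refine ⟨Finsupp.cons (d - dg γ) γ, ?_, Finsupp.tail_cons _ _⟩
    simp only [Finsupp.cons_zero, Finsupp.cons_succ]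
    exact Nat.sub_add_cancel h

lemma card_Id (b d : ℕ) : (Id b d).card = (b + d).choose d := by
  rw [Id, card_image_of_injOn, card_finsuppAntidiag_nat_eq_choose, card_univ, Fintype.card_fin]
  · congr 1
    omega
  · intro κ h κ' h' e
    simp only [mem_coe, mem_finsuppAntidiag, subset_univ, and_true, Fin.sum_univ_succ] at h h'
    have e1 : ∀ i : Fin b, κ i.succ = κ' i.succ := fun i => by
      simpa only [Finsupp.tail_apply] using DFunLike.congr_fun e i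
    ext i
    refine Fin.cases ?_ e1 i
    simp only [e1] at h
    omega

lemma dg_zero : dg (0 : Ix b) = 0 := by simp [dg]

lemma zero_mem : (0 : Ix b) ∈ Id b d := mem_Id.2 (by simp [dg])

lemma dg_add (γ δ : Ix b) : dg (γ + δ) = dg γ + dg δ := by simp [dg, sum_add_distrib]

lemma mon_add (γ δ : Ix b) (y : Fin b → ℝ) : mon (γ + δ) y = mon γ y * mon δ y := by
  simp [mon, pow_add, prod_mul_distrib]

lemma mon_mul (γ : Ix b) (x y : Fin b → ℝ) : mon γ (x * y) = mon γ x * mon γ y := by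
  simp [mon, mul_pow, prod_mul_distrib]

lemma mon_zero (y : Fin b → ℝ) : mon 0 y = 1 := by simp [mon]

lemma mon_const (γ : Ix b) (r : ℝ) : mon γ (fun _ => r) = r ^ dg γ := by
  simp [mon, dg, prod_pow_eq_pow_sum]

lemma mon_origin {γ : Ix b} (h : γ ≠ 0) : mon γ 0 = 0 := by
  obtain ⟨i, hi⟩ := Finsupp.ne_iff.1 h
  exact prod_eq_zero (mem_univ i) (zero_pow hi)

lemma mon_abs (γ : Ix b) {y : Fin b → ℝ} {r : ℝ} (h : ∀ i, |y i| ≤ r) : |mon γ y| ≤ r ^ dg γ := by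
  rw [← mon_const, mon, mon, abs_prod]
  exact prod_le_prod (fun _ _ => abs_nonneg _) fun i _ => by
    rw [abs_pow]; exact pow_le_pow_left₀ (abs_nonneg _) (h i) _

lemma coef_zero {ι : Type} (s : Finset ι) (e : ι → Ix b) (c : ι → ℝ)
    (h : ∀ y, ∑ i ∈ s, c i * mon (e i) y = 0) (l : Ix b) :
    ∑ i ∈ s, (if e i = l then c i else 0) = 0 := by
  have h1 : (∑ i ∈ s, MvPolynomial.monomial (e i) (c i) : MvPolynomial (Fin b) ℝ) = 0 :=
    MvPolynomial.funext fun y => by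
      rw [map_sum, map_zero, ← h y]
      exact sum_congr rfl fun i _ => by
        rw [MvPolynomial.eval_monomial, Finsupp.prod_fintype _ _ fun _ => pow_zero _, mon]
  simpa only [MvPolynomial.coeff_sum, MvPolynomial.coeff_monomial, MvPolynomial.coeff_zero] using
    congrArg (MvPolynomial.coeff l) h1

lemma exists_dual (I : Finset (Ix b)) : ∃ c : Ix b → (Fin b → ℝ) →₀ ℝ, ∀ γ ∈ I, ∀ q : Ix b → ℝ,
    ∑ η ∈ (c γ).support, c γ η * ∑ δ ∈ I, q δ * mon δ η = q γ := by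
  have h1 : Submodule.span ℝ (Set.range fun η (δ : I) => mon δ.1 η) = ⊤ := by
    by_contra h
    obtain ⟨f, h2, h3⟩ := Submodule.exists_le_ker_of_lt_top _ (lt_top_iff_ne_top.2 h)
    refine h2 (LinearMap.ext fun v => ?_)
    have h4 := coef_zero univ (fun δ : I => δ.1) (fun δ => f fun j => if δ = j then 1 else 0)
      fun y => by
        have := h3 (Submodule.subset_span ⟨y, rfl⟩)
        rw [LinearMap.mem_ker, LinearMap.pi_apply_eq_sum_univ] at this
        simpa only [smul_eq_mul, mul_comm] using this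
    rw [LinearMap.pi_apply_eq_sum_univ]
    refine sum_eq_zero fun δ _ => ?_
    have := h4 δ.1
    simp only [Subtype.val_inj, sum_ite_eq', mem_univ, if_true] at this
    rw [this, smul_zero]
  have h2 : ∀ γ : Ix b, ∃ c : (Fin b → ℝ) →₀ ℝ, ∀ δ ∈ I,
      ∑ η ∈ c.support, c η * mon δ η = if δ = γ then 1 else 0 := fun γ => by
    obtain ⟨c, hc⟩ := Finsupp.mem_span_range_iff_exists_finsupp.1
      (h1 ▸ Submodule.mem_top (x := fun δ : I => if δ.1 = γ then (1 : ℝ) else 0))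
    exact ⟨c, fun δ hδ => by simpa [Finsupp.sum] using congrFun hc ⟨δ, hδ⟩⟩
  choose c hc using h2
  refine ⟨c, fun γ hγ q => ?_⟩
  simp only [mul_sum]
  rw [sum_comm, sum_congr rfl fun δ hδ => show _ = if δ = γ then q δ else 0 by
    simp only [mul_left_comm _ (q δ), ← mul_sum, hc γ δ hδ, mul_ite, mul_one, mul_zero]]
  simp [hγ]

/-- the rate of the scale that belongs to a multi-index -/
noncomputable def rt (s : ℝ) (μ : Fin b → ℝ) (γ : Ix b) : ℝ := (∑ i, γ i * μ i) / (s - dg γ)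

lemma sub_dg_pos {s : ℝ} (hs : (d : ℝ) < s) {γ : Ix b} (h : γ ∈ Id b d) : 0 < s - dg γ := by
  have : (dg γ : ℝ) ≤ d := by exact_mod_cast mem_Id.1 h
  linarith

lemma exists_rate {s : ℝ} (hs : (d : ℝ) < s) : ∃ μ : Fin b → ℝ, (∀ i, 0 < μ i) ∧
    Set.InjOn (rt s μ) (Id b d) := by
  let w : Ix b × Ix b → Fin b → ℝ := fun p i => (s - dg p.2) * p.1 i - (s - dg p.1) * p.2 i
  let L : Ix b × Ix b → MvPolynomial (Fin b) ℝ := fun p =>
    ∑ i, MvPolynomial.C (w p i) * MvPolynomial.X i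
  have h1 : ∏ p ∈ (Id b d).offDiag, L p ≠ 0 := prod_ne_zero_iff.2 fun p hp h => by
    obtain ⟨h2, h3, h4⟩ := mem_offDiag.1 hp
    have h5 : ∀ i, w p i = 0 := fun i => by
      simpa [L, Pi.single_apply] using congrArg (MvPolynomial.eval (Pi.single i (1 : ℝ))) h
    have h6 : (s - dg p.2) * dg p.1 - (s - dg p.1) * dg p.2 = 0 := by
      simp only [dg, Nat.cast_sum, mul_sum, ← sum_sub_distrib]
      exact sum_eq_zero fun i _ => by simpa only [w, dg, Nat.cast_sum] using h5 i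
    have h7 : (dg p.1 : ℝ) = dg p.2 := mul_left_cancel₀ ((Nat.cast_nonneg d).trans_lt hs).ne'
      (by linear_combination h6)
    refine h4 (Finsupp.ext fun i => Nat.cast_injective (R := ℝ)
      (mul_left_cancel₀ (sub_dg_pos hs h3).ne' ?_))
    have := h5 i
    simp only [w, h7] at this
    linear_combination this
  obtain ⟨μ, h2, h3⟩ : ∃ μ ∈ Set.pi Set.univ fun _ : Fin b => Set.Ioi (0 : ℝ),
      MvPolynomial.eval μ (∏ p ∈ (Id b d).offDiag, L p) ≠ 0 := by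
    by_contra! h
    exact h1 (MvPolynomial.funext_set _ (fun _ => Set.Ioi_infinite 0) fun x hx => by
      rw [h x hx, map_zero])
  refine ⟨μ, fun i => h2 i trivial, fun γ hγ δ hδ e => by_contra fun h => h3 ?_⟩
  rw [map_prod]
  refine prod_eq_zero (i := (γ, δ)) (mem_offDiag.2 ⟨hγ, hδ, h⟩) ?_
  rw [rt, rt, div_eq_div_iff (sub_dg_pos hs hγ).ne' (sub_dg_pos hs hδ).ne', sum_mul, sum_mul,
    ← sub_eq_zero, ← sum_sub_distrib] at e
  simp only [L, w, map_sum, map_mul, MvPolynomial.eval_C, MvPolynomial.eval_X]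
  rw [← e]
  exact sum_congr rfl fun i _ => by ring

lemma rt_med {s : ℝ} (hs : (d : ℝ) < s) (μ : Fin b → ℝ) {γ δ δ' : Ix b} (h : γ ∈ Id b d)
    (h1 : δ ∈ Id b d) (h2 : δ' ∈ Id b d) (e : δ + δ' = γ + γ) (k : rt s μ γ < rt s μ δ) :
    rt s μ δ' < rt s μ γ := by
  by_contra! k'
  have e1 : (dg δ : ℝ) + dg δ' = dg γ + dg γ := by
    exact_mod_cast (dg_add δ δ').symm.trans (e ▸ dg_add γ γ)
  have e2 : ∑ i, δ i * μ i + ∑ i, δ' i * μ i = ∑ i, γ i * μ i + ∑ i, γ i * μ i := by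
    simp only [← sum_add_distrib, ← add_mul, ← Nat.cast_add, ← Finsupp.add_apply, e]
  have e3 : rt s μ γ * (s - dg γ) = ∑ i, γ i * μ i := div_mul_cancel₀ _ (sub_dg_pos hs h).ne'
  rw [rt.eq_1 s μ δ, lt_div_iff₀ (sub_dg_pos hs h1)] at k
  rw [rt.eq_1 s μ δ', le_div_iff₀ (sub_dg_pos hs h2)] at k'
  have e4 : rt s μ γ * (s - dg δ) + rt s μ γ * (s - dg δ') = 2 * (rt s μ γ * (s - dg γ)) := by
    linear_combination (-rt s μ γ) * e1
  linarith

/-- the jets are forced to be orthogonal, from small scales to large scales -/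
lemma forced {X : Type} {I : Finset (Ix b)} {U : X → Ix b → Fin m → ℝ} {Ψ : X → Ix b → ℝ}
    {r : Ix b → ℝ} (hi : Set.InjOn r I)
    (hm : ∀ γ ∈ I, ∀ δ ∈ I, ∀ δ' ∈ I, δ + δ' = γ + γ → r γ < r δ → r δ' < r γ)
    (hr : ∀ x η, ∑ j, (∑ γ ∈ I, U x γ j * mon γ η) ^ 2 = ∑ γ ∈ I, Ψ x γ * mon γ η ^ 2)
    (hn : ∀ x, ∀ γ ∈ I, ∃ x', Ψ x' γ = 0 ∧
      ∀ δ ∈ I, r γ < r δ → U x' δ = U x δ ∧ Ψ x' δ = Ψ x δ) :
    ∀ γ ∈ I, ∀ x, ∀ δ ∈ I, U x γ ⬝ᵥ U x δ = if γ = δ then Ψ x γ else 0 := by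
  obtain ⟨A, hA⟩ : ∃ A : X → Ix b → Ix b → ℝ,
    A = fun x γ δ => U x γ ⬝ᵥ U x δ - if γ = δ then Ψ x γ else 0 := ⟨_, rfl⟩
  have sy : ∀ x γ δ, A x γ δ = A x δ γ := fun x γ δ => by
    rw [hA]
    by_cases e : γ = δ
    · rw [e]
    · simp only [dotProduct_comm (U x γ), if_neg e, if_neg (Ne.symm e)]
  have S : ∀ x l, ∑ p ∈ I ×ˢ I, (if p.1 + p.2 = l then A x p.1 p.2 else 0) = 0 := fun x =>
    coef_zero _ _ _ fun η => by
      have := hr x η
      simp only [sq, sum_mul_sum] at this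
      rw [sum_comm] at this
      simp only [sum_product, hA, sub_mul, sum_sub_distrib, ite_mul, zero_mul, mon_add]
      rw [sub_eq_zero, sum_congr rfl fun γ hγ => (sum_ite_eq I γ _).trans (if_pos hγ), ← this]
      refine sum_congr rfl fun γ _ => ?_
      rw [sum_comm]
      refine sum_congr rfl fun δ _ => ?_
      rw [dotProduct, sum_mul]
      exact sum_congr rfl fun j _ => by ring
  suffices h : ∀ γ : I, ∀ x, ∀ δ ∈ I, A x γ δ = 0 from fun γ hγ x δ hδ => by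
    simpa only [hA, sub_eq_zero] using h ⟨γ, hγ⟩ x δ hδ
  intro γ
  induction γ using (InvImage.wf (fun γ : I => (⟨r γ, γ, rfl⟩ : Set.range fun γ : I => r γ))
    wellFounded_lt).induction with
  | _ γ ih =>
  obtain ⟨γ, hγ⟩ := γ
  replace ih : ∀ δ ∈ I, r δ < r γ → ∀ x, ∀ δ' ∈ I, A x δ δ' = 0 := fun δ hδ k => ih ⟨δ, hδ⟩ k
  have tri : ∀ δ ∈ I, δ ≠ γ → r δ < r γ ∨ r γ < r δ := fun δ hδ k =>
    lt_or_gt_of_ne fun e => k (hi hδ hγ e)
  have h1 : ∀ x, A x γ γ = 0 := fun x => by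
    have := S x (γ + γ)
    rwa [sum_eq_single_of_mem (γ, γ) (mk_mem_product hγ hγ), if_pos rfl] at this
    rintro ⟨δ, δ'⟩ hp k
    obtain ⟨p1, p2⟩ := mem_product.1 hp
    refine ite_eq_right_iff.2 fun e => ?_
    have k1 : δ ≠ γ := fun e' => k (Prod.ext e' (add_left_cancel (e' ▸ e : γ + δ' = γ + γ)))
    rcases tri δ p1 k1 with c | c
    · exact ih δ p1 c x δ' p2
    · exact (sy _ _ _).trans (ih δ' p2 (hm γ hγ δ p1 δ' p2 e c) x δ p1)
  intro x γ' hγ'
  by_cases e : γ' = γ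
  · exact e ▸ h1 x
  obtain ⟨x', k1, k2⟩ := hn x γ hγ
  have h2 : U x' γ = 0 := by simpa [hA, k1] using h1 x'
  have h3 : A x' γ γ' = 0 := by simp [hA, h2, k1]
  have h4 := congrArg₂ (· - ·) (S x (γ + γ')) (S x' (γ + γ'))
  simp only [← sum_sub_distrib, sub_self] at h4
  rw [sum_eq_add_of_mem (γ, γ') (γ', γ) (mk_mem_product hγ hγ') (mk_mem_product hγ' hγ)
    fun c => e (congrArg Prod.snd c)] at h4
  · simp only [add_comm γ', if_true, sy _ γ', h3] at h4
    show A x γ γ' = 0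
    linarith
  rintro ⟨δ, δ'⟩ hp ⟨c1, c2⟩
  obtain ⟨p1, p2⟩ := mem_product.1 hp
  split_ifs with e'
  swap
  · exact sub_self _
  have c3 : δ ≠ γ := fun c => c1 (Prod.ext c (add_left_cancel (c ▸ e' : γ + δ' = γ + γ')))
  have c4 : δ' ≠ γ := fun c => c2 (Prod.ext (add_right_cancel
    ((c ▸ e' : δ + γ = γ + γ').trans (add_comm _ _))) c)
  rcases tri δ p1 c3 with c | c
  · rw [ih δ p1 c x δ' p2, ih δ p1 c x' δ' p2, sub_self]
  rcases tri δ' p2 c4 with c' | c'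
  · rw [sy x, sy x', ih δ' p2 c' x δ p1, ih δ' p2 c' x' δ p1, sub_self]
  simp only [hA, (k2 δ p1 c).1, (k2 δ p1 c).2, (k2 δ' p2 c').1, sub_self]

lemma card_le_of_orth {ι : Type} [Fintype ι] (v : ι → Fin m → ℝ) (h0 : ∀ i, v i ≠ 0)
    (h : ∀ i j, i ≠ j → v i ⬝ᵥ v j = 0) : Fintype.card ι ≤ m := by
  classical
  have : LinearIndependent ℝ v := Fintype.linearIndependent_iff.2 fun c hc i => by
    have h1 := congrArg (· ⬝ᵥ v i) hc
    simp only [sum_dotProduct, smul_dotProduct, zero_dotProduct, smul_eq_mul] at h1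
    rw [sum_eq_single_of_mem i (mem_univ i) fun j _ k => by rw [h j i k, mul_zero]] at h1
    exact (mul_eq_zero.1 h1).resolve_right fun e => h0 i (dotProduct_self_eq_zero.1 e)
  simpa using this.fintype_card_le_finrank

end Pool.Agent.Lib.MP_ca9be0_an.PyF.Lp
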