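import Pool.Agent.Lib.MP_ca9be0_an.LeepC

/-! The example with one scale for every monomial. -/

namespace Pool.Agent.Lib.MP_ca9be0_an.PyF.Lp

open Finset Filter Topology

variable {b d m : ℕ}

lemma mon_mem (γ : Ix b) : (fun w : E (b + 1) => mon γ fun i => w i.succ) ∈ Pd (b + 1) (dg γ) := by
  have h1 : ∀ (i : Fin (b + 1)) (k : ℕ), (fun y : E (b + 1) => y i ^ k) ∈ Pd (b + 1) k :=
    fun i k => by
    induction k with
    | zero => simpa using const_mem 0 1
    | succ k ih => simpa only [pow_succ, gen] using Pd_mul ih (gen_mem (some i))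
  have h2 : ∀ t : Finset (Fin b), (fun y : E (b + 1) => ∏ i ∈ t, y i.succ ^ γ i) ∈
      Pd (b + 1) (∑ i ∈ t, γ i) := by
    intro t
    induction t using Finset.induction_on with
    | empty => simpa using const_mem 0 1
    | insert i t hi ih => simpa only [prod_insert hi, sum_insert hi] using Pd_mul (h1 _ _) ih
  exact h2 univ

lemma leep_core {k : ℕ} {α β : ℝ} (h0 : 0 < α) (h1 : α ≤ 1) (b0 : 0 < β) (b1 : β ≤ 1)
    (hs : k + α = 2 * (d + β)) (hk : d + d ≤ k) (hd : 1 ≤ d)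
    (h : ∀ G : Option (Id b d) → E (b + 1) → ℝ, (∀ v, InC d β (G v)) →
      InC k α (fun y => ∑ v, G v y ^ 2) → ∃ g : Fin m → E (b + 1) → ℝ, (∀ j, InC d β (g j)) ∧
        ∀ y, ∑ v, G v y ^ 2 = ∑ j, g j y ^ 2) : (Id b d).card + 1 ≤ m := by
  have H : Hs d (d + β) := ⟨by linarith, by linarith⟩
  have H' : Hs k (k + α) := ⟨by linarith, by linarith⟩
  obtain ⟨μ, μ0, hi⟩ := exists_rate (b := b) H.1
  obtain ⟨r, hr⟩ : ∃ r, r = rt (d + β) μ := ⟨_, rfl⟩
  have r0 : r 0 = 0 := by simp [hr, rt]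
  have r1 : ∀ γ ∈ Id b d, 0 ≤ r γ := fun γ hγ => hr ▸ div_nonneg
    (sum_nonneg fun i _ => mul_nonneg (Nat.cast_nonneg _) (μ0 i).le) (sub_dg_pos H.1 hγ).le
  obtain ⟨R, hR⟩ : ∃ R : Ix b → ℕ → ℝ, R = fun γ (l : ℕ) => Real.exp (l * r γ) := ⟨_, rfl⟩
  obtain ⟨T, hT⟩ : ∃ T : ℕ → ℝ, T = fun l : ℕ => Real.exp (l * ∑ γ ∈ Id b d, r γ) := ⟨_, rfl⟩
  obtain ⟨Y, hY⟩ : ∃ Y : ℕ → ℝ, Y = fun l => 10 * ∑ i ∈ range (l + 1), T i := ⟨_, rfl⟩
  obtain ⟨lam, hlam⟩ : ∃ lam : ℕ → Fin b → ℝ, lam = fun (l : ℕ) i => Real.exp (l * μ i) :=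
    ⟨_, rfl⟩
  obtain ⟨κ, hκ⟩ : ∃ κ : ℕ → ℝ, κ = fun l => 1 / (((Nat.unpair l).1 : ℝ) + 1) := ⟨_, rfl⟩
  have R0 : ∀ l, R 0 l = 1 := fun l => by simp [hR, r0]
  have Rp : ∀ γ l, 0 < R γ l := fun γ l => hR ▸ Real.exp_pos _
  have R1 : ∀ γ ∈ Id b d, ∀ l, 1 ≤ R γ l := fun γ hγ l =>
    hR ▸ Real.one_le_exp (mul_nonneg (Nat.cast_nonneg _) (r1 γ hγ))
  have RT : ∀ γ ∈ Id b d, ∀ l, R γ l ≤ T l := fun γ hγ l => by
    rw [hR, hT]
    exact Real.exp_le_exp.2 (mul_le_mul_of_nonneg_left (single_le_sum r1 hγ) (Nat.cast_nonneg _))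
  have T1 : ∀ l, 1 ≤ T l := fun l => (R1 0 zero_mem l).trans (RT 0 zero_mem l)
  have l1 : ∀ l i, 1 ≤ lam l i := fun l i =>
    hlam ▸ Real.one_le_exp (mul_nonneg (Nat.cast_nonneg _) (μ0 i).le)
  have l0 : ∀ l i, 0 < lam l i := fun l i => one_pos.trans_le (l1 l i)
  have l2 : ∀ γ ∈ Id b d, ∀ l, mon γ (lam l) = R γ l ^ (d + β - dg γ) := fun γ hγ l => by
    rw [hR, ← Real.exp_mul, mul_assoc, hr, rt, div_mul_cancel₀ _ (sub_dg_pos H.1 hγ).ne', hlam,
      mul_sum, Real.exp_sum]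
    exact prod_congr rfl fun i _ => by rw [← Real.exp_nat_mul, mul_left_comm]
  have l3 : ∀ l, lam l * (lam l)⁻¹ = 1 := fun l => funext fun i => mul_inv_cancel₀ (l0 l i).ne'
  have κ1 : ∀ l, |κ l| ≤ 1 := fun l => by
    rw [hκ, abs_of_pos (by positivity), div_le_one (by positivity)]
    simp
  let Z : ℕ → Set (E (b + 1)) := fun l => {w | |w 0 - Y l| < 3 * T l + 1}
  have hZ : ∀ l l' y, y ∈ Z l → y ∈ Z l' → l = l' := by
    have key : ∀ l l' y, y ∈ Z l → y ∈ Z l' → ¬ l < l' := fun l l' y a a' hl => by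
      have a1 : Y l + 10 * T l' ≤ Y l' := by
        rw [hY]
        dsimp only
        rw [sum_range_succ _ l']
        linarith [sum_le_sum_of_subset_of_nonneg (f := T) (range_subset_range.2 hl)
          fun i _ _ => zero_le_one.trans (T1 i)]
      have a2 : T l ≤ T l' := by
        rw [hT]
        exact Real.exp_le_exp.2 (mul_le_mul_of_nonneg_right (by exact_mod_cast hl.le)
          (sum_nonneg r1))
      have a3 : |y 0 - Y l| < 3 * T l + 1 := a
      have a4 : |y 0 - Y l'| < 3 * T l' + 1 := a'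
      linarith [(abs_lt.1 a3).2, (abs_lt.1 a4).1, T1 l']
    exact fun l l' y a b => le_antisymm (not_lt.1 (key _ _ y b a)) (not_lt.1 (key _ _ y a b))
  let ix : Option (Id b d) → Ix b := fun v => v.elim 0 Subtype.val
  have ix1 : ∀ v, ix v ∈ Id b d := fun v => v.rec zero_mem Subtype.prop
  have off : ∀ v l x, x ∉ Z l → ∀ y, ‖y - x‖ ≤ 1 → chi (pt (Y l) 0) (R (ix v) l) y = 0 := by
    intro v l x hx y hy
    have a1 : |y 0 - x 0| ≤ 1 := (PiLp.norm_apply_le (y - x) 0).trans hy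
    have a2 : |y 0 - Y l| ≤ ‖y - pt (Y l) 0‖ := PiLp.norm_apply_le (y - pt (Y l) 0) 0
    have a3 : 3 * T l + 1 ≤ |x 0 - Y l| := not_lt.1 hx
    have a4 := abs_sub (y 0 - Y l) (y 0 - x 0)
    rw [sub_sub_sub_cancel_left] at a4
    exact chi_zero (Rp _ l) (by linarith [T1 l, RT _ (ix1 v) l])
  obtain ⟨q, hq⟩ : ∃ q : Option (Id b d) → ℕ → E (b + 1) → ℝ, q = fun v l w => v.elim (w 0 - Y l)
    fun γ => (if γ.1 = 0 then κ l else 1) * (mon γ.1 (lam l) * mon γ.1 fun i => w i.succ) :=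
    ⟨_, rfl⟩
  have q1 : ∀ v l, q v l ∈ Pd (b + 1) d := fun v l => by
    rw [hq]
    rcases v with _ | γ
    · exact Pd_mono hd (coord_mem 0 _)
    · exact Pd_smul _ (Pd_smul _ (Pd_mono (mem_Id.1 γ.2) (mon_mem _)))
  have q2 : ∀ v l y, ‖y - pt (Y l) 0‖ ≤ 4 * R (ix v) l →
      |q v l y| ≤ 4 ^ d * R (ix v) l ^ (d + β) := fun v l y hy => by
    rw [hq]
    rcases v with _ | ⟨γ, hγ⟩
    · have a1 : |y 0 - Y l| ≤ 4 * R 0 l := (PiLp.norm_apply_le (y - pt (Y l) 0) 0).trans hy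
      show |y 0 - Y l| ≤ 4 ^ d * R 0 l ^ (d + β)
      rw [R0, mul_one] at a1
      rw [R0, Real.one_rpow, mul_one]
      exact a1.trans (le_self_pow₀ (by norm_num) (by omega))
    · have a1 := mon_abs γ (y := fun i => y i.succ) (r := 4 * R γ l) fun i => by
        simpa [ix] using (PiLp.norm_apply_le (y - pt (Y l) 0) i.succ).trans hy
      have a2 : |if γ = 0 then κ l else 1| ≤ 1 := by
        split_ifs
        · exact κ1 l
        · simp
      have a3 : (4 : ℝ) ^ dg γ ≤ 4 ^ d := pow_le_pow_right₀ (by norm_num) (mem_Id.1 hγ)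
      have a4 := Rp γ l
      show |(if γ = 0 then κ l else 1) * (mon γ (lam l) * mon γ fun i => y i.succ)| ≤
        4 ^ d * R γ l ^ (d + β)
      rw [abs_mul, abs_mul, l2 γ hγ, abs_of_pos (Real.rpow_pos_of_pos a4 _)]
      refine (mul_le_of_le_one_left (by positivity) a2).trans
        ((mul_le_mul_of_nonneg_left a1 (by positivity)).trans ?_)
      rw [mul_pow, Real.rpow_sub a4, Real.rpow_natCast, mul_left_comm,
        div_mul_cancel₀ _ (by positivity)]
      gcongr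
  obtain ⟨u, hu⟩ : ∃ u : Option (Id b d) → ℕ → E (b + 1) → ℝ,
    u = fun v l w => chi (pt (Y l) 0) (R (ix v) l) w * q v l w := ⟨_, rfl⟩
  have u0 : ∀ v l x, x ∉ Z l → ∀ y, ‖y - x‖ ≤ 1 → u v l y = 0 := fun v l x hx y hy => by
    simp only [hu, off v l x hx y hy, zero_mul]
  have u1 : ∀ v, InC d β fun y => ∑' l, u v l y := fun v => by
    obtain ⟨C', c4, c5⟩ := Cf.cut H (fun l => pt (Y l) 0) (Rp (ix v)) (by positivity)
      (fun l => Cf.poly (q1 v l) (by positivity)) (q2 v)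
    have c0 : 0 ≤ C' := le_trans (by positivity) c4
    exact (Cf.glue H (hu ▸ c5) c0 hZ (u0 v)).inC b0 (by positivity)
  have u3 := tsum_sq hZ fun v l y hy => u0 v l y hy y (by simp)
  have u4 : InC k α fun y => ∑ v, (∑' l, u v l y) ^ 2 := by
    obtain ⟨C2, c6, c7⟩ := Cf.cut2 H' (κ := Option (Id b d) × ℕ) (fun p => pt (Y p.2) 0)
      (fun p => Rp (ix p.1) p.2) (C := (4 ^ d) ^ 2) (by positivity)
      (u := fun p w => q p.1 p.2 w ^ 2)
      (fun p => Cf.poly (by simpa only [sq] using Pd_mono hk (Pd_mul (q1 _ _) (q1 _ _)))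
        (by positivity)) fun p y hy => by
        rw [hs, mul_comm 2, Real.rpow_mul (Rp _ _).le, Real.rpow_two, ← mul_pow, abs_pow]
        exact pow_le_pow_left₀ (abs_nonneg _) (q2 _ _ y hy) 2
    simp only [u3]
    simp only [hu, mul_pow]
    refine (Cf.glue H' (fun l => Cf.sum univ fun v => c7 (v, l)) (by positivity) hZ
      fun l x hx y hy => ?_).inC h0 (by positivity)
    simp [off _ l x hx y hy]
  obtain ⟨g, g1, g2⟩ := h _ u1 u4
  obtain ⟨C, c0, c1⟩ := Cf.of_inC b0 g1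
  by_contra hm
  have key : ∀ a : ℕ, 4 / 5 * (1 / (a + 1) : ℝ) ≤ m * (2 * C * (1 / (a + 1) : ℝ) ^ (d + β) +
      2 * (Kg 1 d * (6 + C)) * (1 / (a + 1)) ^ 2) := fun a => by
    have hU : ((hyperfilter ℕ).map (Nat.pair a) : Filter ℕ) ≤ atTop :=
      (tendsto_atTop_mono (Nat.right_le_pair a) tendsto_id).mono_left Nat.hyperfilter_le_atTop
    have te : ∀ c : ℝ, 0 < c → Tendsto (fun l : ℕ => (Real.exp (l * c))⁻¹) atTop (𝓝 0) :=
      fun c hc => tendsto_inv_atTop_zero.comp (Real.tendsto_exp_atTop.comp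
        (tendsto_natCast_atTop_atTop.atTop_mul_const hc))
    refine (core H c0 c1 ((hyperfilter ℕ).map (Nat.pair a)) (r := r) (ρ := fun l => (lam l)⁻¹)
      (Y := Y) (ε := fun l => min 1 (∑ i, (lam l i)⁻¹)) (hr ▸ hi)
      (fun γ hγ δ hδ δ' hδ' => hr ▸ rt_med H.1 μ hγ hδ hδ') (fun γ hγ => r0 ▸ r1 γ hγ) R0 R1 RT
      (fun γ _ δ _ c => (((te _ (sub_pos.2 c)).congr fun l => ?_).mono_left hU))
      (fun γ hγ l => ?_) (fun l i => ?_) (fun l => le_min zero_le_one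
        (sum_nonneg fun i _ => (inv_pos.2 (l0 l i)).le)) (fun l => min_le_left _ _) ?_ κ1
      ?_ (by positivity) (by rw [div_le_one (by positivity)]; simp)
      fun l x η hx => ?_).resolve_left hm
    · rw [hR, mul_sub, Real.exp_sub, inv_div]
    · rw [← l2 γ hγ, ← abs_of_pos (show 0 < mon γ (lam l) from prod_pos fun i _ =>
        pow_pos (l0 l i) _), ← abs_mul, ← mon_mul, mul_comm, l3]
      simp [mon]
    · rw [Pi.inv_apply, abs_of_pos (inv_pos.2 (l0 l i))]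
      exact le_min (inv_le_one_of_one_le₀ (l1 l i)) (single_le_sum
        (f := fun i => (lam l i)⁻¹) (fun i _ => (inv_pos.2 (l0 l i)).le) (mem_univ i))
    · have := (tendsto_const_nhds (x := (1 : ℝ))).min
        (tendsto_finsetSum univ fun i _ => te _ (μ0 i))
      rw [hlam]
      exact Tendsto.mono_left (by simpa using this) hU
    · exact eventually_map.2 (Eventually.of_forall fun i => by simp [hκ])
    have e4 : pt (Y l + x) ((lam l)⁻¹ * η) ∈ Z l := by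
      show |Y l + x - Y l| < 3 * T l + 1
      rw [add_sub_cancel_left]
      linarith
    rw [← g2, u3, tsum_eq_single l fun l' hl' => sum_eq_zero fun v _ => by
      rw [u0 v l' _ (fun h => hl' (hZ _ _ _ h e4)) _ (by simp), zero_pow two_ne_zero],
      Fintype.sum_option, ← sum_coe_sort (Id b d), eq_comm, ← sub_eq_iff_eq_add]
    have e5 : ∀ γ : Ix b, mon γ (lam l) * mon γ ((lam l)⁻¹ * η) = mon γ η := fun γ => by
      rw [← mon_mul, ← mul_assoc, l3, one_mul]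
    rw [← sum_sub_distrib, sum_eq_single_of_mem (⟨0, zero_mem⟩ : Id b d) (mem_univ _)
      fun γ _ c => ?_]
    · simp only [hu, hq, co, ix, Option.elim, if_true, mon_zero, pt_zero]
      ring
    · have c' : γ.1 ≠ 0 := fun e => c (Subtype.ext e)
      simp only [hu, hq, co, ix, Option.elim, if_neg c', pt_succ, e5]
      ring
  have t0 := tendsto_one_div_add_atTop_nhds_zero_nat (𝕜 := ℝ)
  have s1 : 0 < d + β - 1 := by
    have : (1 : ℝ) ≤ d := by exact_mod_cast hd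
    linarith
  have t1 := (((t0.rpow_const (p := d + β - 1) (Or.inr s1.le)).const_mul (2 * C)).add
    (t0.const_mul (2 * (Kg 1 d * (6 + C))))).const_mul (m : ℝ)
  rw [Real.zero_rpow s1.ne', mul_zero, mul_zero, add_zero, mul_zero] at t1
  have := ge_of_tendsto' t1 (b := 4 / 5) fun a => by
    have a0 : (0 : ℝ) < 1 / (a + 1) := by positivity
    refine le_of_mul_le_mul_right ((key a).trans (le_of_eq ?_)) a0
    rw [Real.rpow_sub_one a0.ne']
    field_simp
  linarith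

end Pool.Agent.Lib.MP_ca9be0_an.PyF.Lp
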