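import Pool.Agent.Lib.MP_ca9be0_an.Upper
import Pool.Agent.Lib.MP_ca9be0_an.Defs

/-! The Pythagoras numbers for `k = 2, 3`. -/

open Finset Real
open scoped ContDiff

namespace Pool.Agent.Lib.MP_ca9be0_an

section
variable {E X Y : Type*} [NormedAddCommGroup E] [NormedSpace ℝ E] [NormedAddCommGroup X]
  [NormedSpace ℝ X] [NormedAddCommGroup Y] [NormedSpace ℝ Y] {s : ℝ}

/-- existence of a Taylor inequality -/
def HasTay (s : ℝ) (u : E → X) : Prop := ∃ C ≥ 0, ∃ U, Tay s u U C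

lemma HasTay.clm {u : E → X} (h : HasTay s u) (T : X →L[ℝ] Y) : HasTay s fun z => T (u z) := by
  obtain ⟨C, hC, U, h⟩ := h
  refine ⟨‖T‖ * C, by positivity, fun x => T.comp (U x), fun x y => ?_⟩
  rw [ContinuousLinearMap.comp_apply, ← map_sub, ← map_sub, mul_assoc]
  exact T.le_of_opNorm_le_of_le le_rfl (h x y)

lemma HasTay.sum {ι : Type*} {u : ι → E → X} (S : Finset ι) (h : ∀ i, HasTay s (u i)) :
    HasTay s fun z => ∑ i ∈ S, u i z := by
  choose C hC U h using h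
  refine ⟨∑ i ∈ S, C i, sum_nonneg fun i _ => hC i, fun x => ∑ i ∈ S, U i x, fun x y => ?_⟩
  rw [_root_.sum_apply, ← sum_sub_distrib, ← sum_sub_distrib, sum_mul]
  exact norm_sum_le_of_le _ fun i _ => h i x y

/-- smooth with all derivatives bounded -/
def BD (f : E → ℝ) : Prop := ContDiff ℝ ∞ f ∧ ∀ m, ∃ C, ∀ x, ‖iteratedFDeriv ℝ m f x‖ ≤ C

lemma BD.sin (L : E →L[ℝ] ℝ) : BD fun x => Real.sin (L x) := by
  refine ⟨contDiff_sin.comp L.contDiff, fun m => ⟨‖L‖ ^ m, fun x => ?_⟩⟩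
  have := L.iteratedFDeriv_comp_right (contDiff_sin (n := m)) x le_rfl
  rw [show (fun x => Real.sin (L x)) = Real.sin ∘ L from rfl, this]
  refine (ContinuousMultilinearMap.norm_compContinuousLinearMap_le _ _).trans ?_
  rw [norm_iteratedFDeriv_eq_norm_iteratedDeriv]
  simpa using mul_le_of_le_one_left (by positivity) (abs_iteratedDeriv_sin_le_one m (L x))

lemma BD.sq {f : E → ℝ} (h : BD f) : BD fun x => f x ^ 2 := by
  obtain ⟨h1, h2⟩ := h
  choose C hC using h2
  refine ⟨h1.pow 2, fun m => ⟨∑ i ∈ range (m + 1), m.choose i * C i * C (m - i), fun x => ?_⟩⟩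
  simp only [pow_two]
  refine (norm_iteratedFDeriv_mul_le h1 h1 x (mod_cast le_top)).trans (sum_le_sum fun i _ => ?_)
  have := (norm_nonneg _).trans (hC i x)
  gcongr <;> exact hC _ _

lemma BD.sum {ι : Type*} {f : ι → E → ℝ} (S : Finset ι) (h : ∀ i, BD (f i)) :
    BD fun x => ∑ i ∈ S, f i x := by
  refine ⟨ContDiff.sum fun i _ => (h i).1, fun m => ?_⟩
  choose C hC using fun i => (h i).2 m
  refine ⟨∑ i ∈ S, C i, fun x => ?_⟩
  rw [iteratedFDeriv_fun_sum_apply fun i _ => ((h i).1.of_le (mod_cast le_top)).contDiffAt]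
  exact norm_sum_le_of_le _ fun i _ => hC i x

end

variable {n : ℕ}

lemma BD.inC {f : EuclideanSpace ℝ (Fin n) → ℝ} (h : BD f) (k : ℕ) {α : ℝ} (h0 : 0 < α)
    (h1 : α ≤ 1) : InC k α f := by
  obtain ⟨C, hC⟩ := h.2 k
  obtain ⟨C', hC'⟩ := h.2 (k + 1)
  refine ⟨h.1.of_le (mod_cast le_top), fun β => ⟨2 * C + C', fun x y => ?_⟩⟩
  have a0 := (norm_nonneg _).trans (hC x)
  have a0' := (norm_nonneg _).trans (hC' x)
  have a1 := (iteratedFDeriv ℝ k f x - iteratedFDeriv ℝ k f y).le_opNorm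
    fun i => EuclideanSpace.single (β i) 1
  simp only [PiLp.norm_single, norm_one, prod_const_one, mul_one,
    sub_apply] at a1
  refine a1.trans ?_
  rcases le_total ‖x - y‖ 1 with h2 | h2
  · have a2 := convex_univ.norm_image_sub_le_of_norm_fderiv_le (𝕜 := ℝ)
      (f := iteratedFDeriv ℝ k f) (C := C') (fun z _ => h.1.differentiable_iteratedFDeriv
        (mod_cast ENat.natCast_lt_top k) z)
      (fun z _ => by rw [norm_fderiv_iteratedFDeriv]; exact hC' z) (Set.mem_univ y) (Set.mem_univ x)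
    have a3 : ‖x - y‖ ≤ ‖x - y‖ ^ α := by
      simpa using rpow_le_rpow_of_exponent_ge' (norm_nonneg _) h2 h0.le h1
    nlinarith [norm_nonneg (x - y)]
  · have := one_le_rpow h2 h0.le
    nlinarith [norm_sub_le (iteratedFDeriv ℝ k f x) (iteratedFDeriv ℝ k f y), hC x, hC y]

lemma inC_one_iff {γ : ℝ} [hγ : Ex (1 + γ)] {g : EuclideanSpace ℝ (Fin n) → ℝ} :
    InC 1 γ g ↔ HasTay (1 + γ) g := by
  have h0 : 0 < γ := by linarith [hγ.one]
  constructor
  · rintro ⟨h1, h2⟩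
    choose C hC using fun i : Fin n => h2 fun _ => i
    simp only [iteratedFDeriv_one_apply] at hC
    refine ⟨∑ i, |C i|, by positivity, fderiv ℝ g, tay_of_holder (by positivity)
      (fun x => (h1.differentiable one_ne_zero x).hasFDerivAt) fun x y => ?_⟩
    rw [add_sub_cancel_left]
    refine ContinuousLinearMap.opNorm_le_of_unit_norm (by positivity) fun v hv => ?_
    rw [← (EuclideanSpace.basisFun (Fin n) ℝ).sum_repr v, map_sum, sum_mul]
    refine norm_sum_le_of_le _ fun i _ => ?_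
    rw [map_smul, norm_smul, EuclideanSpace.basisFun_apply, sub_apply]
    refine (mul_le_of_le_one_left (norm_nonneg _) ((PiLp.norm_apply_le _ i).trans_eq
      (by simpa using hv))).trans ((hC i x y).trans ?_)
    gcongr; exact le_abs_self _
  · rintro ⟨C, hC, U, h⟩
    have h1 : fderiv ℝ g = U := funext fun x => (h.hasFDerivAt x).fderiv
    have h2 := h.holder hC
    simp only [add_sub_cancel_left] at h2
    refine ⟨contDiff_one_iff_fderiv.mpr ⟨fun x => (h.hasFDerivAt x).differentiableAt, ?_⟩,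
      fun β => ⟨6 * C, fun x y => ?_⟩⟩
    · rw [h1, continuous_iff_continuousAt]
      intro x
      rw [ContinuousAt, tendsto_iff_norm_sub_tendsto_zero]
      refine squeeze_zero (fun _ => norm_nonneg _) (fun y => h2 y x) ?_
      have : Continuous fun y => 6 * C * ‖y - x‖ ^ γ :=
        continuous_const.mul ((by fun_prop : Continuous fun y => ‖y - x‖).rpow_const
          fun _ => Or.inr h0.le)
      simpa [h0.ne'] using this.tendsto x
    · simp only [iteratedFDeriv_one_apply, h1]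
      simpa using ((U x - U y).le_opNorm (EuclideanSpace.single (β 0) 1)).trans
        (by simpa using h2 x y)

lemma vec_of_sum {s : ℝ} {M : ℕ} {g : Fin M → EuclideanSpace ℝ (Fin n) → ℝ}
    (h : ∀ j, HasTay s (g j)) : ∃ G : EuclideanSpace ℝ (Fin n) → EuclideanSpace ℝ (Fin M),
      HasTay s G ∧ ∀ x, ‖G x‖ ^ 2 = ∑ j, g j x ^ 2 :=
  ⟨_, HasTay.sum univ fun j => (h j).clm ((ContinuousLinearMap.id ℝ ℝ).smulRight
    (EuclideanSpace.single j (1 : ℝ))), fun x => by
      simp [EuclideanSpace.real_norm_sq_eq, Pi.single_apply]⟩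

theorem upper {s : ℝ} [Ex s] {M : ℕ} {g : Fin M → EuclideanSpace ℝ (Fin n) → ℝ}
    (h : ∀ j, HasTay s (g j)) : ∃ u : Fin (n + 1) → EuclideanSpace ℝ (Fin n) → ℝ,
      (∀ j, HasTay s (u j)) ∧ ∀ x, ∑ j, g j x ^ 2 = ∑ j, u j x ^ 2 := by
  obtain ⟨G, ⟨C, hC, U, h1⟩, h2⟩ := vec_of_sum h
  have hc : 0 < C + 1 := by linarith
  obtain ⟨v, v₀, a1, a2, a3⟩ := reduce (s := s) (g := fun x => (C + 1)⁻¹ • G x)
    (G := fun x => (C + 1)⁻¹ • U x) fun x y => by
      rw [smul_apply, ← smul_sub, ← smul_sub, norm_smul, norm_inv, Real.norm_of_nonneg hc.le,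
        inv_mul_le_iff₀ hc]
      have : 0 ≤ ‖y - x‖ ^ s := by positivity
      linarith [h1 x y]
  refine ⟨Fin.cons (fun x => (C + 1) * v₀ x) fun i x => (C + 1) * v x i, fun j => ?_, fun x => ?_⟩
  · refine j.cases ?_ fun i => ?_
    · exact HasTay.clm a2 (ContinuousLinearMap.mul ℝ ℝ (C + 1))
    · exact HasTay.clm a1 ((C + 1) • EuclideanSpace.proj i)
  · have := a3 x
    rw [norm_smul, mul_pow, h2, norm_inv, Real.norm_of_nonneg hc.le,
      EuclideanSpace.real_norm_sq_eq] at this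
    simp only [Fin.sum_univ_succ, Fin.cons_zero, Fin.cons_succ, mul_pow, ← mul_sum]
    rw [← mul_add, add_comm (v₀ x ^ 2), this]
    field_simp

theorem lower {s : ℝ} [hs : Ex s] {F : Type*} [NormedAddCommGroup F] [NormedSpace ℝ F]
    [FiniteDimensional ℝ F] (hF : Module.finrank ℝ F ≤ n + 1)
    {h : EuclideanSpace ℝ (Fin (n + 1)) → F} (hT : HasTay s h)
    (hf : ∀ x, ‖h x‖ ^ 2 = sin (√2 / 16 * x 0) ^ 2 + ∑ i, sin (x i) ^ 2) : False := by
  obtain ⟨C, hC, H, hT⟩ := hT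
  have hs1 : 0 < s - 1 := by linarith [hs.one]
  obtain ⟨N, hN⟩ := exists_nat_one_div_lt (K := ℝ)
    (ε := min 1 ((32 * (C + 1))⁻¹ ^ (s - 1)⁻¹) / 32) (by positivity)
  obtain ⟨j, q, q0, -, hq⟩ := exists_int_int_abs_mul_sub_le (√2 / 16) N.succ_pos
  obtain ⟨e, he⟩ : ∃ e, e = |sin (√2 / 16 * (q * π))| := ⟨_, rfl⟩
  have e0 : 0 < e := by
    rw [he, abs_pos, Ne, sin_eq_zero_iff]
    rintro ⟨m, hm⟩
    refine ((irrational_sqrt_two.div_natCast (m := 16) (by norm_num)).intCast_mul q0.ne').ne_int m ?_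
    exact mul_right_cancel₀ pi_ne_zero (by push_cast; linarith)
  have e1 : 8 * e ≤ min 1 ((32 * (C + 1))⁻¹ ^ (s - 1)⁻¹) := by
    have a1 : e = |sin ((q * (√2 / 16) - j) * π)| := by
      rw [he, sub_mul, sin_sub_int_mul_pi, abs_mul, abs_neg_one_zpow, one_mul]
      congr 2; ring
    have a2 : e ≤ |q * (√2 / 16) - j| * 4 := by
      rw [a1]
      refine abs_sin_le_abs.trans ?_
      rw [abs_mul, abs_of_pos pi_pos]
      gcongr; exact pi_le_four
    have a3 : 1 / ((N.succ : ℝ) + 1) ≤ 1 / (N + 1) :=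
      one_div_le_one_div_of_le (by positivity) (by push_cast; linarith)
    linarith
  have e2 : C * (8 * e) ^ s ≤ e / 4 := by
    have a1 := rpow_le_rpow (by positivity) (e1.trans (min_le_right _ _)) hs1.le
    rw [rpow_inv_rpow (by positivity) hs1.ne', rpow_sub_one (by positivity), div_le_iff₀
      (by positivity), le_inv_mul_iff₀ (by positivity)] at a1
    have : 0 ≤ (8 * e) ^ s := by positivity
    nlinarith
  have e3 := e1.trans (min_le_left _ _)
  obtain ⟨x, hx⟩ : ∃ x : EuclideanSpace ℝ (Fin (n + 1)), x = EuclideanSpace.single 0 (q * π) :=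
    ⟨_, rfl⟩
  have hf' : ∀ y, ‖h (x + y)‖ ^ 2 = sin (√2 / 16 * (q * π + y 0)) ^ 2 + ∑ i, sin (y i) ^ 2 := by
    intro y
    rw [hf, hx]
    refine congrArg₂ _ (by simp) (sum_congr rfl fun i _ => ?_)
    by_cases hi : i = 0
    · simp only [hi, PiLp.add_apply, PiLp.single_eq_same, add_comm _ (y 0), sin_add_int_mul_pi]
      rw [← sq_abs, abs_mul, abs_neg_one_zpow, one_mul, sq_abs]
    · simp [hi]
  have b0 : ‖h x‖ = e := by
    have := hf' 0
    simp only [add_zero, PiLp.zero_apply, sin_zero, ne_eq, OfNat.ofNat_ne_zero, not_false_eq_true,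
      zero_pow, sum_const_zero] at this
    rw [he, ← sq_eq_sq₀ (norm_nonneg _) (abs_nonneg _), this, sq_abs]
  have b1 : ∀ y, ‖y‖ ≤ 8 * e → ‖h (x + y) - h x - H x y‖ ≤ e / 4 := fun y hy => by
    have := hT x (x + y)
    rw [add_sub_cancel_left] at this
    exact this.trans ((mul_le_mul_of_nonneg_left
      (rpow_le_rpow (norm_nonneg _) hy Ex.pos.le) hC).trans e2)
  have b2 : ∀ y, ‖y‖ ≤ 1 → ‖y‖ / 2 ≤ ‖h (x + y)‖ := fun y hy => by
    refine (abs_le_of_sq_le_sq' ?_ (norm_nonneg _)).2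
    rw [hf', div_pow, EuclideanSpace.real_norm_sq_eq, sum_div]
    refine le_add_of_nonneg_of_le (sq_nonneg _) (sum_le_sum fun i _ => ?_)
    have a1 : |y i| ≤ 1 := (PiLp.norm_apply_le y i).trans hy
    have a2 := mul_abs_le_abs_sin (a1.trans (by linarith [pi_gt_three]))
    have a3 : 1 / 2 ≤ 2 / π := by rw [le_div_iff₀ pi_pos]; linarith [pi_le_four]
    rw [← div_pow, sq_le_sq, abs_div, abs_two]
    nlinarith [abs_nonneg (y i)]
  have b3 : ∀ v, ‖v‖ ≤ 4 * ‖H x v‖ := fun v => by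
    rcases eq_or_ne v 0 with rfl | hv
    · simp
    have hv' := norm_pos_iff.mpr hv
    have a1 : ‖(8 * e / ‖v‖) • v‖ = 8 * e := by
      rw [norm_smul, Real.norm_of_nonneg (by positivity), div_mul_cancel₀ _ hv'.ne']
    have a2 := b1 _ a1.le
    have a3 := b2 _ (a1.le.trans e3)
    have a4 := norm_add₃_le (a := h (x + (8 * e / ‖v‖) • v) - h x - H x ((8 * e / ‖v‖) • v))
      (b := H x ((8 * e / ‖v‖) • v)) (c := h x)
    rw [sub_add_cancel, sub_add_cancel, map_smul, norm_smul, Real.norm_of_nonneg (by positivity),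
      ← map_smul] at a4
    have a5 : 2 * e ≤ 8 * e / ‖v‖ * ‖H x v‖ := by linarith
    rw [div_mul_eq_mul_div, le_div_iff₀ hv'] at a5
    nlinarith
  have hinj : Function.Injective (H x).toLinearMap := (injective_iff_map_eq_zero _).mpr
    fun v hv => norm_le_zero_iff.mp (by simpa [show H x v = 0 from hv] using b3 v)
  obtain ⟨y, hy⟩ := (LinearMap.injective_iff_surjective_of_finrank_eq_finrank (le_antisymm
    (LinearMap.finrank_le_finrank_of_injective hinj) (by simpa using hF))).mp hinj (-h x)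
  have hy' : H x y = -h x := hy
  have c1 := b3 y
  rw [hy', norm_neg, b0] at c1
  have c2 := b1 y (by linarith)
  rw [hy', sub_neg_eq_add, sub_add_cancel] at c2
  have c3 : |sin (√2 / 16 * (q * π + y 0))| ≤ ‖h (x + y)‖ := by
    refine abs_le_of_sq_le_sq ?_ (norm_nonneg _)
    rw [hf']
    exact le_add_of_nonneg_right (by positivity)
  have c4 := abs_sin_sub_sin_le (√2 / 16 * (q * π + y 0)) (√2 / 16 * (q * π))
  rw [← mul_sub, add_sub_cancel_left, abs_mul, abs_of_pos (by positivity : 0 < √2 / 16)] at c4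
  have c5 : |y 0| ≤ 4 * e := (PiLp.norm_apply_le y 0).trans c1
  have c6 : √2 ≤ 2 := sqrt_le_iff.mpr (by norm_num)
  have c7 := abs_sub_abs_le_abs_sub (sin (√2 / 16 * (q * π))) (sin (√2 / 16 * (q * π + y 0)))
  rw [abs_sub_comm, ← he] at c7
  nlinarith [abs_nonneg (y 0), sqrt_nonneg 2]

theorem pyth_eq {k : ℕ} {α γ : ℝ} (h0 : 0 < α) (h1 : α ≤ 1) [hγ : Ex (1 + γ)]
    (hk : ∀ g : EuclideanSpace ℝ (Fin (n + 1)) → ℝ, InHalf k α g ↔ InC 1 γ g) :
    pyth k (n + 1) α = (n + 1 + 1 : ℕ) := by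
  refine IsLeast.csInf_eq ⟨⟨_, fun f _ ⟨M, g, g1, g2⟩ => ?_, rfl⟩, ?_⟩
  · obtain ⟨u, u1, u2⟩ := upper fun j => inC_one_iff.mp ((hk _).mp (g1 j))
    exact ⟨_, le_rfl, u, fun j => (hk _).mpr (inC_one_iff.mpr (u1 j)), fun x => (g2 x).trans (u2 x)⟩
  · rintro _ ⟨m, hm, rfl⟩
    by_contra hlt
    let L : Fin (n + 1 + 1) → EuclideanSpace ℝ (Fin (n + 1)) →L[ℝ] ℝ :=
      Fin.cons ((√2 / 16) • EuclideanSpace.proj 0) fun i => EuclideanSpace.proj i
    obtain ⟨m', h2, g, g1, g2⟩ := hm (fun x => ∑ j, sin (L j x) ^ 2)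
      ((BD.sum univ fun j => (BD.sin (L j)).sq).inC k h0 h1)
      ⟨_, fun j x => sin (L j x), fun j => (hk _).mpr ((BD.sin (L j)).inC 1
        (by linarith [hγ.one]) (by linarith [hγ.two])), fun _ => rfl⟩
    obtain ⟨G, a1, a2⟩ := vec_of_sum fun j => inC_one_iff.mp ((hk _).mp (g1 j))
    refine lower ?_ a1 fun x => ?_
    · simp only [Nat.cast_le, not_le] at hlt
      simp; omega
    · rw [a2, ← g2]
      exact (Fin.sum_univ_succ _).trans (by simp [L])

end Pool.Agent.Lib.MP_ca9be0_an
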