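import Mathlib

/-! Polar decomposition; the absolute value of a linear map is Lipschitz. -/

open Finset
open scoped RealInnerProductSpace

namespace Pool.Agent.Lib.MP_ca9be0_an

variable {E F : Type*} [NormedAddCommGroup E] [InnerProductSpace ℝ E] [FiniteDimensional ℝ E]
  [NormedAddCommGroup F] [InnerProductSpace ℝ F] [FiniteDimensional ℝ F]

lemma exists_svd (A : E →L[ℝ] F) : ∃ e : OrthonormalBasis (Fin (Module.finrank ℝ E)) ℝ E,
    ∀ i v, ⟪A (e i), A v⟫ = ‖A (e i)‖ ^ 2 * ⟪e i, v⟫ := by
  have hs : (LinearMap.adjoint A.toLinearMap ∘ₗ A.toLinearMap).IsSymmetric :=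
    LinearMap.isSymmetric_adjoint_comp_self _
  refine ⟨hs.eigenvectorBasis rfl, fun i => ?_⟩
  have key : ∀ v, ⟪A (hs.eigenvectorBasis rfl i), A v⟫ =
      hs.eigenvalues rfl i * ⟪hs.eigenvectorBasis rfl i, v⟫ := by
    intro v
    have := congrArg (fun w => ⟪w, v⟫) (hs.apply_eigenvectorBasis rfl i)
    simp only [LinearMap.comp_apply, LinearMap.adjoint_inner_left, real_inner_smul_left] at this
    exact this
  intro v
  rw [key v, ← real_inner_self_eq_norm_sq, key, real_inner_self_eq_norm_sq,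
    (hs.eigenvectorBasis rfl).orthonormal.1 i]
  ring

theorem exists_polar : ∃ T : (E →L[ℝ] F) → F →L[ℝ] E, (∀ A, ‖T A‖ ≤ 1) ∧
    (∀ A v w, ⟪T A (A v), T A w⟫ = ⟪A v, w⟫) ∧
    ∃ C ≥ 0, ∀ A B, ‖(T A).comp A - (T B).comp B‖ ≤ C * ‖A - B‖ := by
  choose e he using exists_svd (E := E) (F := F)
  obtain ⟨T, hT⟩ : ∃ T : (E →L[ℝ] F) → F →L[ℝ] E, ∀ A w i,
      ⟪e A i, T A w⟫ = ‖A (e A i)‖⁻¹ * ⟪A (e A i), w⟫ := by
    refine ⟨fun A => ∑ i, (‖A (e A i)‖⁻¹ • innerSL ℝ (A (e A i))).smulRight (e A i),
      fun A w i => ?_⟩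
    simpa [_root_.sum_apply] using (e A).orthonormal.inner_right_fintype
      (fun i => ‖A (e A i)‖⁻¹ * ⟪A (e A i), w⟫) i
  have h1 : ∀ A v i, ⟪e A i, T A (A v)⟫ = ‖A (e A i)‖ * ⟪e A i, v⟫ := by
    intro A v i
    rw [hT, he]
    by_cases h : ‖A (e A i)‖ = 0
    · simp [h]
    · field_simp
  have h2 : ∀ A v w, ⟪T A (A v), T A w⟫ = ⟪A v, w⟫ := by
    intro A v w
    rw [← (e A).sum_inner_mul_inner]
    conv_rhs => rw [← (e A).sum_repr' v, map_sum, sum_inner]
    refine sum_congr rfl fun i _ => ?_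
    rw [real_inner_comm, h1, hT, map_smul, real_inner_smul_left]
    by_cases h : A (e A i) = 0
    · simp [h]
    · have := norm_ne_zero_iff.mpr h
      field_simp
  refine ⟨T, fun A => ContinuousLinearMap.opNorm_le_bound _ zero_le_one fun w => ?_, h2,
    (Module.finrank ℝ E) ^ 2, by positivity, fun A B => ?_⟩
  · obtain ⟨v, hv⟩ : ∃ v, T A (A v) = T A w := by
      refine ⟨∑ i, (‖A (e A i)‖⁻¹ * ⟪e A i, T A w⟫) • e A i,
        InnerProductSpace.ext_inner_left_basis (e A).toBasis fun i => ?_⟩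
      rw [OrthonormalBasis.coe_toBasis, h1, (e A).orthonormal.inner_right_fintype]
      by_cases h : ‖A (e A i)‖ = 0
      · simp [h, hT]
      · field_simp
    have a1 := h2 A v w
    have a2 := h2 A v (A v)
    rw [hv, real_inner_self_eq_norm_sq] at a1 a2
    rw [real_inner_self_eq_norm_sq] at a2
    have a3 := real_inner_le_norm (A v) w
    rw [(pow_left_inj₀ (norm_nonneg _) (norm_nonneg _) two_ne_zero).mp a2.symm, ← a1] at a3
    rcases (norm_nonneg (T A w)).eq_or_lt with h | h
    · rw [← h]; positivity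
    · nlinarith
  · have hD := norm_nonneg (A - B)
    have key : ∀ i j, |⟪e A i, ((T A).comp A - (T B).comp B) (e B j)⟫| ≤ ‖A - B‖ := by
      intro i j
      have b1 : T B (B (e B j)) = ‖B (e B j)‖ • e B j := by
        refine InnerProductSpace.ext_inner_left_basis (e B).toBasis fun k => ?_
        rw [OrthonormalBasis.coe_toBasis, h1, real_inner_smul_right]
        by_cases h : k = j
        · rw [h]
        · simp [(e B).orthonormal.2 h]
      have b2 := he A i (e B j)
      have b3 := he B j (e A i)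
      have b4 : |⟪A (e A i), (A - B) (e B j)⟫| ≤ ‖A (e A i)‖ * ‖A - B‖ :=
        (abs_real_inner_le_norm _ _).trans (mul_le_mul_of_nonneg_left
          (by simpa [(e B).orthonormal.1 j] using (A - B).le_opNorm (e B j)) (norm_nonneg _))
      have b5 : |⟪B (e B j), (A - B) (e A i)⟫| ≤ ‖B (e B j)‖ * ‖A - B‖ :=
        (abs_real_inner_le_norm _ _).trans (mul_le_mul_of_nonneg_left
          (by simpa [(e A).orthonormal.1 i] using (A - B).le_opNorm (e A i)) (norm_nonneg _))
      rw [sub_apply, inner_sub_right, b2] at b4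
      rw [sub_apply, inner_sub_right, b3, real_inner_comm (A (e A i)), real_inner_comm (e A i)] at b5
      rw [sub_apply, inner_sub_right, ContinuousLinearMap.comp_apply,
        ContinuousLinearMap.comp_apply, h1, b1, real_inner_smul_right]
      have p0 := norm_nonneg (A (e A i))
      have q0 := norm_nonneg (B (e B j))
      generalize ‖A (e A i)‖ = p at *
      generalize ‖B (e B j)‖ = q at *
      generalize ⟪e A i, e B j⟫ = c at *
      rcases (add_nonneg p0 q0).eq_or_lt with h | h
      · rw [show p = 0 by linarith, show q = 0 by linarith]; simp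
      · refine le_of_mul_le_mul_left ?_ h
        rw [← abs_of_pos h, ← abs_mul, abs_of_pos h, abs_le]
        rw [abs_le] at b4 b5
        constructor <;> nlinarith
    refine ContinuousLinearMap.opNorm_le_bound _ (by positivity) fun v => ?_
    have col : ∀ j, ‖((T A).comp A - (T B).comp B) (e B j)‖ ≤ Module.finrank ℝ E * ‖A - B‖ := by
      intro j
      rw [← (e A).sum_repr' (((T A).comp A - (T B).comp B) (e B j))]
      refine (norm_sum_le_of_le (n := fun _ => ‖A - B‖) _ fun i _ => ?_).trans (by simp)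
      rw [norm_smul, (e A).orthonormal.1 i, mul_one]
      exact key i j
    conv_lhs => rw [← (e B).sum_repr' v, map_sum]
    refine (norm_sum_le_of_le (n := fun _ => ‖v‖ * (Module.finrank ℝ E * ‖A - B‖)) _
      fun j _ => ?_).trans (le_of_eq (by simp; ring))
    rw [map_smul, norm_smul]
    refine mul_le_mul ?_ (col j) (norm_nonneg _) (norm_nonneg _)
    simpa [(e B).orthonormal.1 j] using abs_real_inner_le_norm (e B j) v

end Pool.Agent.Lib.MP_ca9be0_an
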