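import Mathlib
import Pool.Agent.Lib.MP_ca9be0_an.Polar

-- part Pool.Agent.Lib.MP_ca9be0_an.Tame
section

/-! First order jets with Hoelder remainder at a variable scale. -/

namespace Pool.Agent.Lib.MP_ca9be0_an

variable {E X Y Z : Type*} [NormedAddCommGroup E] [NormedSpace ℝ E]
  [NormedAddCommGroup X] [NormedSpace ℝ X] [NormedAddCommGroup Y] [NormedSpace ℝ Y]
  [NormedAddCommGroup Z] [NormedSpace ℝ Z] {s : ℝ}

/-- the exponent range -/
class Ex (s : ℝ) : Prop where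
  one : 1 < s
  two : s ≤ 2

lemma Ex.pos [h : Ex s] : 0 < s := by linarith [h.one]

lemma rpow_le_self [h : Ex s] {t : ℝ} (h0 : 0 ≤ t) (h1 : t ≤ 1) : t ^ s ≤ t := by
  simpa using Real.rpow_le_rpow_of_exponent_ge' h0 h1 zero_le_one h.one.le

lemma sq_le_rpow [h : Ex s] {t : ℝ} (h0 : 0 ≤ t) (h1 : t ≤ 1) : t * t ≤ t ^ s := by
  have := Real.rpow_le_rpow_of_exponent_ge' h0 h1 Ex.pos.le h.two
  rwa [Real.rpow_two, sq] at this

lemma rpow_le_of_le_mul [h : Ex s] {a b c : ℝ} (ha : 0 ≤ a) (hb : 0 ≤ b) (hc : 1 ≤ c)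
    (hab : a ≤ c * b) : a ^ s ≤ c ^ 2 * b ^ s := by
  refine (Real.rpow_le_rpow ha hab Ex.pos.le).trans ?_
  rw [Real.mul_rpow (by linarith) hb, ← Real.rpow_two]
  exact mul_le_mul_of_nonneg_right (Real.rpow_le_rpow_of_exponent_le hc h.two)
    (Real.rpow_nonneg hb _)

lemma rpow_le_of_le_mul' [h : Ex s] {a b c : ℝ} (ha : 0 ≤ a) (hb : 0 ≤ b) (hc0 : 0 ≤ c) (hc : c ≤ 1)
    (hab : a ≤ c * b) : a ^ s ≤ c * b ^ s := by
  refine (Real.rpow_le_rpow ha hab Ex.pos.le).trans ?_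
  rw [Real.mul_rpow hc0 hb]
  exact mul_le_mul_of_nonneg_right (rpow_le_self hc0 hc) (Real.rpow_nonneg hb _)

/-- jet bound of size `m` at the point `x` and scale `r` -/
def Jet (s : ℝ) (u : E → X) (x : E) (r m : ℝ) : Prop :=
  ‖u x‖ ≤ m ∧ ∃ L : E →L[ℝ] X, ‖L‖ * r ≤ m ∧
    ∀ y, ‖y - x‖ ≤ r → ‖u y - u x - L (y - x)‖ ≤ m * (‖y - x‖ / r) ^ s

lemma Jet.nonneg {u : E → X} {x : E} {r m : ℝ} (h : Jet s u x r m) : 0 ≤ m :=
  (norm_nonneg _).trans h.1

lemma Jet.mono [Ex s] {u : E → X} {x : E} {r m r' m' : ℝ} (h : Jet s u x r m) (h0 : 0 < r')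
    (hr : r' ≤ r) (hm : m ≤ m') : Jet s u x r' m' := by
  obtain ⟨h1, L, h2, h3⟩ := h
  refine ⟨h1.trans hm, L, (mul_le_mul_of_nonneg_left hr (norm_nonneg _)).trans (h2.trans hm),
    fun y hy => (h3 y (hy.trans hr)).trans ?_⟩
  have := (norm_nonneg _).trans h1
  have := h0.trans_le hr
  gcongr
  · linarith
  · exact Ex.pos.le

lemma lin_le {L : E →L[ℝ] X} {r m : ℝ} (hr : 0 < r) (h : ‖L‖ * r ≤ m) (d : E) :
    ‖L d‖ ≤ m * (‖d‖ / r) := by
  refine (L.le_opNorm d).trans ?_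
  rw [mul_div_assoc', le_div_iff₀ hr]
  nlinarith [norm_nonneg d]

lemma Jet.sub_le [Ex s] {u : E → X} {x : E} {r m : ℝ} (h : Jet s u x r m) (hr : 0 < r) {y : E}
    (hy : ‖y - x‖ ≤ r) : ‖u y - u x‖ ≤ 2 * m * (‖y - x‖ / r) := by
  have h0 := h.nonneg
  obtain ⟨-, L, h2, h3⟩ := h
  have h4 := lin_le hr h2 (y - x)
  have h5 := rpow_le_self (s := s) (t := ‖y - x‖ / r) (by positivity) ((div_le_one hr).mpr hy)
  have h6 := norm_add_le (u y - u x - L (y - x)) (L (y - x))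
  rw [sub_add_cancel] at h6
  nlinarith [h3 y hy]

lemma Jet.le [Ex s] {u : E → X} {x : E} {r m : ℝ} (h : Jet s u x r m) (hr : 0 < r) {y : E}
    (hy : ‖y - x‖ ≤ r) : ‖u y‖ ≤ 3 * m := by
  have h1 := h.sub_le hr hy
  have h2 := (div_le_one hr).mpr hy
  have h6 := norm_add_le (u y - u x) (u x)
  rw [sub_add_cancel] at h6
  nlinarith [h.1, h.nonneg]

lemma Jet.add {u v : E → X} {x : E} {r m m' : ℝ} (h : Jet s u x r m) (h' : Jet s v x r m') :
    Jet s (fun y => u y + v y) x r (m + m') := by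
  obtain ⟨h1, L, h2, h3⟩ := h
  obtain ⟨h1', L', h2', h3'⟩ := h'
  refine ⟨(norm_add_le _ _).trans (add_le_add h1 h1'), L + L', ?_, fun y hy => ?_⟩
  · rcases le_total r 0 with hr | hr
    · have := norm_nonneg (L + L')
      have := norm_nonneg (u x)
      have := norm_nonneg (v x)
      nlinarith
    · nlinarith [norm_add_le L L']
  · have : u y + v y - (u x + v x) - (L + L') (y - x) =
        (u y - u x - L (y - x)) + (v y - v x - L' (y - x)) := by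
      rw [add_apply]; abel
    rw [this, add_mul]
    exact (norm_add_le _ _).trans (add_le_add (h3 y hy) (h3' y hy))

lemma Jet.const (c : X) (x : E) (r : ℝ) (hr : 0 ≤ r) : Jet s (fun _ => c) x r ‖c‖ :=
  ⟨le_rfl, 0, by simp, fun y _ => by simp only [sub_self, zero_apply, norm_zero]; positivity⟩

lemma Jet.bilin [Ex s] (B : X →L[ℝ] Y →L[ℝ] Z) {u : E → X} {v : E → Y} {x : E} {r m m' : ℝ}
    (hr : 0 < r) (h : Jet s u x r m) (h' : Jet s v x r m') :
    Jet s (fun y => B (u y) (v y)) x r (6 * ‖B‖ * m * m') := by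
  have h0 := h.nonneg
  have h0' := h'.nonneg
  have hB := norm_nonneg B
  have key : ∀ a b (p q : ℝ), ‖a‖ ≤ p → ‖b‖ ≤ q → ‖B a b‖ ≤ ‖B‖ * p * q := fun a b p q h1 h2 =>
    (B.le_opNorm₂ a b).trans (by have := (norm_nonneg _).trans h1; gcongr)
  have g1 := fun y hy => h'.le hr (y := y) hy
  have g2 := fun y hy => h'.sub_le hr (y := y) hy
  obtain ⟨h1, L, h2, h3⟩ := h
  obtain ⟨h1', L', h2', h3'⟩ := h'
  have hmm : 0 ≤ ‖B‖ * m * m' := by positivity
  refine ⟨(key _ _ _ _ h1 h1').trans (by linarith), (B.flip (v x)).comp L + (B (u x)).comp L',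
    ?_, fun y hy => ?_⟩
  · rw [← le_div_iff₀ hr]
    refine ContinuousLinearMap.opNorm_le_bound _ (by positivity) fun d => ?_
    have a1 := key _ _ _ _ (lin_le hr h2 d) h1'
    have a2 := key _ _ _ _ h1 (lin_le hr h2' d)
    have a3 : 0 ≤ ‖d‖ / r := by positivity
    have a4 : 6 * ‖B‖ * m * m' / r * ‖d‖ = 6 * (‖B‖ * m * m') * (‖d‖ / r) := by ring
    rw [a4]
    refine (norm_add_le _ _).trans ((add_le_add a1 a2).trans ?_)
    nlinarith
  · have e : B (u y) (v y) - B (u x) (v x) -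
        ((B.flip (v x)).comp L + (B (u x)).comp L') (y - x) =
        B (u y - u x - L (y - x)) (v y) + B (L (y - x)) (v y - v x) +
          B (u x) (v y - v x - L' (y - x)) := by
      simp only [map_sub, add_apply, ContinuousLinearMap.comp_apply,
        ContinuousLinearMap.flip_apply, sub_apply]
      abel
    have a1 := key _ _ _ _ (h3 y hy) (g1 y hy)
    have a2 := key _ _ _ _ (lin_le hr h2 (y - x)) (g2 y hy)
    have a3 := key _ _ _ _ h1 (h3' y hy)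
    have a4 := sq_le_rpow (s := s) (t := ‖y - x‖ / r) (by positivity) ((div_le_one hr).mpr hy)
    rw [e]
    refine (norm_add₃_le).trans ((add_le_add (add_le_add a1 a2) a3).trans ?_)
    nlinarith

lemma Jet.comp [Ex s] {Φ Φ' : ℝ → ℝ} {S : Set ℝ} {C : ℝ}
    (hΦ : ∀ a ∈ S, |Φ a| ≤ C ∧ |Φ' a| ≤ C ∧
      ∀ b ∈ S, |Φ b - Φ a - Φ' a * (b - a)| ≤ C * (b - a) ^ 2)
    {u : E → ℝ} {x : E} {r m : ℝ} (hr : 0 < r) (h : Jet s u x r m)
    (hS : ∀ y, ‖y - x‖ ≤ r → u y ∈ S) :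
    Jet s (fun y => Φ (u y)) x r (C * (1 + m + 4 * m ^ 2)) := by
  have h0 := h.nonneg
  have g2 := fun y hy => h.sub_le hr (y := y) hy
  obtain ⟨h1, L, h2, h3⟩ := h
  obtain ⟨a1, a2, a3⟩ := hΦ _ (hS x (by simpa using hr.le))
  have hC := (abs_nonneg _).trans a1
  refine ⟨a1.trans (le_mul_of_one_le_right hC (by nlinarith)), Φ' (u x) • L, ?_, fun y hy => ?_⟩
  · rw [norm_smul, mul_assoc]
    exact mul_le_mul a2 (h2.trans (by nlinarith)) (by positivity) hC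
  · have e : Φ (u y) - Φ (u x) - (Φ' (u x) • L) (y - x) =
        (Φ (u y) - Φ (u x) - Φ' (u x) * (u y - u x)) + Φ' (u x) * (u y - u x - L (y - x)) := by
      simp only [smul_apply, smul_eq_mul]; ring
    have a4 := sq_le_rpow (s := s) (t := ‖y - x‖ / r) (by positivity) ((div_le_one hr).mpr hy)
    have a5 : (u y - u x) ^ 2 ≤ (2 * m * (‖y - x‖ / r)) ^ 2 := by
      rw [← sq_abs]; exact pow_le_pow_left₀ (abs_nonneg _) (g2 y hy) 2
    have a6 : |Φ' (u x) * (u y - u x - L (y - x))| ≤ C * (m * (‖y - x‖ / r) ^ s) := by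
      rw [abs_mul]; exact mul_le_mul a2 (h3 y hy) (abs_nonneg _) hC
    have a7 : 0 ≤ (‖y - x‖ / r) ^ s := by positivity
    rw [e]
    refine (abs_add_le _ _).trans ((add_le_add (a3 _ (hS y hy)) a6).trans ?_)
    rw [mul_assoc, ← mul_add]
    refine mul_le_mul_of_nonneg_left ?_ hC
    nlinarith [sq_nonneg m]

/-- uniform jet bounds for a family of functions -/
def Tame (s : ℝ) {ι : Type*} (p : ι → E) (r : ι → ℝ) (u : ι → E → X) (w : ι → ℝ) : Prop :=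
  ∃ η > 0, ∃ C ≥ 0, ∀ i, Jet s (u i) (p i) (η * r i) (C * w i)

/-- a property holds near the points, at the given scales -/
def Near {ι : Type*} (p : ι → E) (r : ι → ℝ) (P : ι → E → Prop) : Prop :=
  ∃ η > 0, ∀ i z, ‖z - p i‖ ≤ η * r i → P i z

section
variable {ι : Type*} {p : ι → E} {r : ι → ℝ}

omit [NormedSpace ℝ E] in
lemma Near.of_forall {P : ι → E → Prop} (h : ∀ i z, P i z) : Near p r P :=
  ⟨1, one_pos, fun i z _ => h i z⟩

omit [NormedSpace ℝ E] in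
lemma Near.mono {P Q : ι → E → Prop} (h : Near p r P) (hPQ : ∀ i z, P i z → Q i z) :
    Near p r Q := by
  obtain ⟨η, h0, h⟩ := h
  exact ⟨η, h0, fun i z hz => hPQ i z (h i z hz)⟩

omit [NormedSpace ℝ E] in
lemma Near.and (hr : ∀ i, 0 < r i) {P Q : ι → E → Prop} (h : Near p r P) (h' : Near p r Q) :
    Near p r fun i z => P i z ∧ Q i z := by
  obtain ⟨η, h0, h⟩ := h
  obtain ⟨η', h0', h'⟩ := h'
  exact ⟨min η η', lt_min h0 h0', fun i z hz =>
    ⟨h i z (hz.trans (mul_le_mul_of_nonneg_right (min_le_left _ _) (hr i).le)),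
      h' i z (hz.trans (mul_le_mul_of_nonneg_right (min_le_right _ _) (hr i).le))⟩⟩

lemma Tame.shrink [Ex s] (hr : ∀ i, 0 < r i) {u : ι → E → X} {w : ι → ℝ} (h : Tame s p r u w)
    {η : ℝ} (hη : 0 < η) : ∃ η' > 0, η' ≤ η ∧ ∃ C ≥ 0, ∀ η'' > 0, η'' ≤ η' →
      ∀ i, Jet s (u i) (p i) (η'' * r i) (C * w i) := by
  obtain ⟨η₁, h0, C, hC, h⟩ := h
  exact ⟨min η η₁, lt_min hη h0, min_le_left _ _, C, hC, fun η'' h1 h2 i =>
    (h i).mono (mul_pos h1 (hr i))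
      (mul_le_mul_of_nonneg_right (h2.trans (min_le_right _ _)) (hr i).le) le_rfl⟩

lemma Tame.reindex {u : ι → E → X} {w : ι → ℝ} (h : Tame s p r u w) {κ : Type*} (f : κ → ι) :
    Tame s (fun k => p (f k)) (fun k => r (f k)) (fun k => u (f k)) (fun k => w (f k)) := by
  obtain ⟨η₁, h0, C, hC, h⟩ := h
  exact ⟨η₁, h0, C, hC, fun k => h _⟩

lemma Tame.weight [Ex s] (hr : ∀ i, 0 < r i) {u : ι → E → X} {w w' : ι → ℝ} (h : Tame s p r u w)
    {c : ℝ} (hc : 0 ≤ c) (hw : ∀ i, w i ≤ c * w' i) : Tame s p r u w' := by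
  obtain ⟨η₁, h0, C, hC, h⟩ := h
  exact ⟨η₁, h0, C * c, by positivity, fun i => (h i).mono (mul_pos h0 (hr i)) le_rfl
    (by rw [mul_assoc]; exact mul_le_mul_of_nonneg_left (hw i) hC)⟩

lemma Tame.congr [Ex s] (hr : ∀ i, 0 < r i) {u v : ι → E → X} {w : ι → ℝ} (h : Tame s p r u w)
    (huv : Near p r fun i z => v i z = u i z) : Tame s p r v w := by
  obtain ⟨η, h0, huv⟩ := huv
  obtain ⟨η', h1, h2, C, hC, h⟩ := h.shrink hr h0
  refine ⟨η', h1, C, hC, fun i => ?_⟩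
  obtain ⟨a1, L, a2, a3⟩ := h η' h1 le_rfl i
  have e : v i (p i) = u i (p i) := huv i _ (by simpa using (mul_pos h0 (hr i)).le)
  refine ⟨e ▸ a1, L, a2, fun y hy => ?_⟩
  rw [e, huv i y (hy.trans (mul_le_mul_of_nonneg_right h2 (hr i).le))]
  exact a3 y hy

lemma Tame.add [Ex s] (hr : ∀ i, 0 < r i) {u v : ι → E → X} {w : ι → ℝ} (h : Tame s p r u w)
    (h' : Tame s p r v w) : Tame s p r (fun i z => u i z + v i z) w := by
  obtain ⟨η, h0, -, C, hC, h⟩ := h.shrink hr one_pos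
  obtain ⟨η', h1, h2, C', hC', h'⟩ := h'.shrink hr h0
  exact ⟨η', h1, C + C', by positivity, fun i => by
    rw [add_mul]; exact (h η' h1 h2 i).add (h' η' h1 le_rfl i)⟩

lemma Tame.bilin [Ex s] (hr : ∀ i, 0 < r i) (B : X →L[ℝ] Y →L[ℝ] Z) {u : ι → E → X}
    {v : ι → E → Y} {w w' : ι → ℝ} (h : Tame s p r u w) (h' : Tame s p r v w') :
    Tame s p r (fun i z => B (u i z) (v i z)) fun i => w i * w' i := by
  obtain ⟨η, h0, -, C, hC, h⟩ := h.shrink hr one_pos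
  obtain ⟨η', h1, h2, C', hC', h'⟩ := h'.shrink hr h0
  refine ⟨η', h1, 6 * ‖B‖ * C * C', by positivity, fun i => ?_⟩
  convert (h η' h1 h2 i).bilin B (mul_pos h1 (hr i)) (h' η' h1 le_rfl i) using 1
  ring

lemma Tame.mul [Ex s] (hr : ∀ i, 0 < r i) {u v : ι → E → ℝ} {w w' : ι → ℝ}
    (h : Tame s p r u w) (h' : Tame s p r v w') :
    Tame s p r (fun i z => u i z * v i z) fun i => w i * w' i :=
  h.bilin hr (ContinuousLinearMap.mul ℝ ℝ) h'

lemma Tame.smul [Ex s] (hr : ∀ i, 0 < r i) {u : ι → E → ℝ} {v : ι → E → X} {w w' : ι → ℝ}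
    (h : Tame s p r u w) (h' : Tame s p r v w') :
    Tame s p r (fun i z => u i z • v i z) fun i => w i * w' i :=
  h.bilin hr (ContinuousLinearMap.lsmul ℝ ℝ) h'

lemma Tame.const [Ex s] (hr : ∀ i, 0 < r i) {c : ι → X} {w : ι → ℝ} {C : ℝ} (hC : 0 ≤ C)
    (h : ∀ i, ‖c i‖ ≤ C * w i) : Tame s p r (fun i _ => c i) w :=
  ⟨1, one_pos, C, hC, fun i => (Jet.const (c i) (p i) (1 * r i) (by simpa using (hr i).le)).mono
    (by simpa using hr i) le_rfl (h i)⟩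

lemma Tame.cmul [Ex s] (hr : ∀ i, 0 < r i) {v : ι → E → X} {w : ι → ℝ} (c : ℝ)
    (h : Tame s p r v w) : Tame s p r (fun i z => c • v i z) w :=
  ((Tame.const hr (c := fun _ => c) (w := fun _ => 1) (norm_nonneg c) (by simp)).smul hr h).weight
    hr zero_le_one (by simp)

lemma Tame.sub [Ex s] (hr : ∀ i, 0 < r i) {u v : ι → E → X} {w : ι → ℝ} (h : Tame s p r u w)
    (h' : Tame s p r v w) : Tame s p r (fun i z => u i z - v i z) w :=
  (h.add hr (h'.cmul hr (-1))).congr hr (Near.of_forall fun i z => by simp [sub_eq_add_neg])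

lemma Tame.clm [Ex s] (hr : ∀ i, 0 < r i) {u : ι → E → X} {w : ι → ℝ} (T : ι → X →L[ℝ] Y)
    (hT : ∀ i, ‖T i‖ ≤ 1) (h : Tame s p r u w) : Tame s p r (fun i z => T i (u i z)) w :=
  ((Tame.const hr (c := T) (w := fun _ => 1) zero_le_one (by simpa using hT)).bilin hr
    (ContinuousLinearMap.id ℝ (X →L[ℝ] Y)) h).weight hr zero_le_one (by simp)

lemma Tame.normsq [Ex s] (hr : ∀ i, 0 < r i) {F : Type*} [NormedAddCommGroup F]
    [InnerProductSpace ℝ F] {u : ι → E → F} {w : ι → ℝ} (h : Tame s p r u w) :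
    Tame s p r (fun i z => ‖u i z‖ ^ 2) fun i => w i * w i :=
  (h.bilin hr (innerSL ℝ) h).congr hr
    (Near.of_forall fun i z => (real_inner_self_eq_norm_sq (u i z)).symm)

lemma Tame.comp [Ex s] (hr : ∀ i, 0 < r i) {Φ Φ' : ℝ → ℝ} {S : Set ℝ} {C : ℝ} (hC : 0 ≤ C)
    (hΦ : ∀ a ∈ S, |Φ a| ≤ C ∧ |Φ' a| ≤ C ∧
      ∀ b ∈ S, |Φ b - Φ a - Φ' a * (b - a)| ≤ C * (b - a) ^ 2)
    {u : ι → E → ℝ} (h : Tame s p r u fun _ => 1) (hS : Near p r fun i z => u i z ∈ S) :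
    Tame s p r (fun i z => Φ (u i z)) fun _ => 1 := by
  obtain ⟨η, h0, hS⟩ := hS
  obtain ⟨η', h1, h2, C', hC', h⟩ := h.shrink hr h0
  refine ⟨η', h1, C * (1 + C' + 4 * C' ^ 2), by positivity, fun i => ?_⟩
  simpa using (h η' h1 le_rfl i).comp hΦ (mul_pos h1 (hr i)) fun y hy =>
    hS i y (hy.trans (mul_le_mul_of_nonneg_right h2 (hr i).le))

lemma Tame.inv [Ex s] (hr : ∀ i, 0 < r i) {u : ι → E → ℝ} {w : ι → ℝ} (hw : ∀ i, 0 < w i)
    (h : Tame s p r u w) {c : ℝ} (hc : 0 < c) (hS : Near p r fun i z => c * w i ≤ u i z) :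
    Tame s p r (fun i z => (u i z)⁻¹) fun i => (w i)⁻¹ := by
  have h1 : Tame s p r (fun i _ => (w i)⁻¹) fun i => (w i)⁻¹ :=
    Tame.const hr zero_le_one fun i => by simp [abs_of_pos (hw i)]
  have h2 := (h1.mul hr h).weight hr (w' := fun _ => 1) zero_le_one
    fun i => by simp [(hw i).ne']
  have h3 := h2.comp hr (Φ := fun t => t⁻¹) (Φ' := fun t => -(t⁻¹ * t⁻¹)) (S := Set.Ici c)
    (C := c⁻¹ + c⁻¹ * c⁻¹ + c⁻¹ * c⁻¹ * c⁻¹) (by positivity) (by
      intro a ha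
      have a0 : 0 < a := hc.trans_le ha
      have a1 : a⁻¹ ≤ c⁻¹ := inv_anti₀ hc ha
      have a2 : a⁻¹ * a⁻¹ ≤ c⁻¹ * c⁻¹ := by gcongr
      have c1 : 0 < c⁻¹ := by positivity
      have c2 : 0 < c⁻¹ * c⁻¹ := by positivity
      have c3 : 0 < c⁻¹ * c⁻¹ * c⁻¹ := by positivity
      refine ⟨by rw [abs_of_pos (by positivity)]; linarith,
        by rw [abs_neg, abs_of_pos (by positivity)]; linarith, fun b hb => ?_⟩
      have b0 : 0 < b := hc.trans_le hb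
      have b1 : b⁻¹ ≤ c⁻¹ := inv_anti₀ hc hb
      have e : b⁻¹ - a⁻¹ - -(a⁻¹ * a⁻¹) * (b - a) = a⁻¹ * a⁻¹ * b⁻¹ * (b - a) ^ 2 := by
        field_simp; ring
      have a3 : a⁻¹ * a⁻¹ * b⁻¹ ≤ c⁻¹ * c⁻¹ * c⁻¹ := by gcongr
      rw [e, abs_of_nonneg (by positivity)]
      exact mul_le_mul_of_nonneg_right (by linarith) (sq_nonneg _))
    (hS.mono fun i z h => by
      rw [Set.mem_Ici, ← div_eq_inv_mul, le_div_iff₀ (hw i)]; exact h)
  refine ((h1.mul hr h3).weight hr zero_le_one (by simp)).congr hr (Near.of_forall fun i z => ?_)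
  have := (hw i).ne'
  by_cases h : u i z = 0
  · simp [h]
  · field_simp

lemma Tame.bound [Ex s] (hr : ∀ i, 0 < r i) {u : ι → E → X} {w : ι → ℝ} (h : Tame s p r u w) :
    ∃ C ≥ 0, Near p r fun i z => ‖u i z‖ ≤ C * w i := by
  obtain ⟨η, h0, C, hC, h⟩ := h
  exact ⟨3 * C, by positivity, η, h0, fun i z hz =>
    ((h i).le (mul_pos h0 (hr i)) hz).trans_eq (mul_assoc _ _ _).symm⟩

lemma Tame.osc [Ex s] (hr : ∀ i, 0 < r i) {u : ι → E → X} {w : ι → ℝ} (hw : ∀ i, 0 ≤ w i)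
    (h : Tame s p r u w) {δ : ℝ} (hδ : 0 < δ) :
    Near p r fun i z => ‖u i z - u i (p i)‖ ≤ δ * w i := by
  obtain ⟨η, h0, C, hC, h⟩ := h
  refine ⟨η * min 1 (δ / (2 * C + 1)), by positivity, fun i z hz => ?_⟩
  have h1 := mul_pos h0 (hr i)
  have h2 : ‖z - p i‖ / (η * r i) ≤ min 1 (δ / (2 * C + 1)) := by
    rw [div_le_iff₀ h1]; linarith
  have h3 := (le_div_iff₀ (by positivity)).mp (h2.trans (min_le_right _ _))
  refine ((h i).sub_le h1 ((div_le_one h1).mp (h2.trans (min_le_left _ _)))).trans ?_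
  have : 0 ≤ ‖z - p i‖ / (η * r i) := by positivity
  nlinarith [hw i]

lemma Tame.sqrt [Ex s] (hr : ∀ i, 0 < r i) {u : ι → E → ℝ} (h : Tame s p r u fun _ => 1)
    (hS : Near p r fun i z => 1 / 4 ≤ u i z) : Tame s p r (fun i z => √(u i z)) fun _ => 1 := by
  obtain ⟨C, hC, hb⟩ := h.bound hr
  refine h.comp hr (Φ := fun t => √t) (Φ' := fun t => 1 / (2 * √t)) (S := Set.Icc (1 / 4) C)
    (C := C + 4) (by positivity) ?_ ((hS.and hr hb).mono fun i z h =>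
      ⟨h.1, (le_abs_self _).trans (by simpa using h.2)⟩)
  intro a ha
  have a0 : 0 ≤ a := by linarith [ha.1]
  have a1 : 1 / 2 ≤ √a := Real.le_sqrt_of_sq_le (by linarith [ha.1])
  have a2 := Real.mul_self_sqrt a0
  refine ⟨by rw [abs_of_pos (by linarith)]; nlinarith [ha.2], ?_, fun b hb => ?_⟩
  · rw [abs_of_pos (by positivity), div_le_iff₀ (by positivity)]; nlinarith
  · have b0 : 0 ≤ b := by linarith [hb.1]
    have b1 : 1 / 2 ≤ √b := Real.le_sqrt_of_sq_le (by linarith [hb.1])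
    have b2 := Real.mul_self_sqrt b0
    generalize √a = x at *
    generalize √b = y at *
    subst a2 b2
    have e : y - x - 1 / (2 * x) * (y * y - x * x) = -((y - x) ^ 2 / (2 * x)) := by
      field_simp; ring
    rw [e, abs_neg, abs_of_nonneg (by positivity), div_le_iff₀ (by positivity),
      show (y * y - x * x) ^ 2 = (y - x) ^ 2 * (y + x) ^ 2 by ring]
    have h1 : 1 ≤ (C + 4) * (y + x) ^ 2 * (2 * x) := by
      have : 1 ≤ (y + x) ^ 2 := by nlinarith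
      have : 1 ≤ (C + 4) * (y + x) ^ 2 := by nlinarith
      nlinarith
    nlinarith [sq_nonneg (y - x)]

lemma Tame.sum [Ex s] (hr : ∀ i, 0 < r i) {κ : Type*} (S : ι → Finset κ) {N : ℕ}
    (hN : ∀ i, (S i).card ≤ N) {u : ι → κ → E → X} {w : ι → ℝ} (hw : ∀ i, 0 ≤ w i)
    (h : Tame s (fun q : Σ i, S i => p q.1) (fun q => r q.1) (fun q => u q.1 q.2)
      fun q => w q.1) : Tame s p r (fun i z => ∑ k ∈ S i, u i k z) w := by
  classical
  obtain ⟨η, h0, C, hC, h⟩ := h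
  refine ⟨η, h0, N * C, by positivity, fun i => ?_⟩
  have key : ∀ T ⊆ S i, Jet s (fun z => ∑ k ∈ T, u i k z) (p i) (η * r i) (T.card * (C * w i)) := by
    intro T
    induction T using Finset.induction_on with
    | empty => intro _; simpa using Jet.const (s := s) (0 : X) (p i) _ (mul_pos h0 (hr i)).le
    | insert k T hk ih =>
      intro hT
      have := (h ⟨i, k, hT (Finset.mem_insert_self _ _)⟩).add
        (ih ((Finset.subset_insert _ _).trans hT))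
      simp only [Finset.sum_insert hk, Finset.card_insert_of_notMem hk]
      convert this using 1
      push_cast; ring
  refine (key _ subset_rfl).mono (mul_pos h0 (hr i)) le_rfl ?_
  rw [mul_assoc]
  exact mul_le_mul_of_nonneg_right (by exact_mod_cast hN i) (mul_nonneg hC (hw i))

lemma Tame.of_taylor [Ex s] (hr : ∀ i, 0 < r i) {u : ι → E → X} {w : ι → ℝ} (L : ι → E →L[ℝ] X)
    {C : ℝ} (hC : 0 ≤ C) (h1 : ∀ i, ‖u i (p i)‖ ≤ C * w i) (h2 : ∀ i, ‖L i‖ * r i ≤ C * w i)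
    {K : ℝ} (h3 : ∀ i z, ‖u i z - u i (p i) - L i (z - p i)‖ ≤ K * ‖z - p i‖ ^ s)
    (h4 : ∀ i, K * r i ^ s ≤ C * w i) : Tame s p r u w := by
  refine ⟨1, one_pos, C, hC, fun i => ⟨h1 i, L i, by simpa using h2 i, fun z _ =>
    (h3 i z).trans ?_⟩⟩
  rw [one_mul, Real.div_rpow (norm_nonneg _) (hr i).le, mul_div_assoc', le_div_iff₀
    (Real.rpow_pos_of_pos (hr i) _), mul_right_comm]
  exact mul_le_mul_of_nonneg_right (h4 i) (by positivity)

end

/-- Taylor inequality -/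
def Tay (s : ℝ) (u : E → X) (U : E → E →L[ℝ] X) (C : ℝ) : Prop :=
  ∀ x y, ‖u y - u x - U x (y - x)‖ ≤ C * ‖y - x‖ ^ s

lemma glob [Ex s] {ρ : E → ℝ} (hρ : ∀ x, 0 ≤ ρ x) {u : E → E → X}
    (h : Tame s (fun x : {x // 0 < ρ x} => x.1) (fun x => ρ x) (fun x => u x) fun x => ρ x ^ s)
    {C : ℝ} (hC : 0 ≤ C) (hb : ∀ x z, ‖u x z‖ ≤ C * (ρ x + ‖z - x‖) ^ s) :
    ∃ C' ≥ 0, ∃ U : E → E →L[ℝ] X, ∀ x z, ‖u x z - u x x - U x (z - x)‖ ≤ C' * ‖z - x‖ ^ s := by
  obtain ⟨η, h0, h1, K, hK, h⟩ := h.shrink (fun x => x.2) one_pos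
  have hη : 1 ≤ η⁻¹ := (one_le_inv₀ h0).mpr h1
  refine ⟨C * (η⁻¹ + 1) ^ 2 + 2 * K * η⁻¹ ^ 2, by positivity, ?_⟩
  have : ∀ x, ∃ L : E →L[ℝ] X, ∀ z, ‖u x z - u x x - L (z - x)‖ ≤
      (C * (η⁻¹ + 1) ^ 2 + 2 * K * η⁻¹ ^ 2) * ‖z - x‖ ^ s := by
    intro x
    by_cases hx : 0 < ρ x
    · obtain ⟨a1, L, a2, a3⟩ := h η h0 le_rfl ⟨x, hx⟩
      refine ⟨L, fun z => ?_⟩
      have hd : 0 ≤ ‖z - x‖ ^ s := by positivity
      have hr := mul_pos h0 hx
      have b0 : ρ x ^ s ≤ η⁻¹ ^ 2 * (η * ρ x) ^ s :=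
        rpow_le_of_le_mul hx.le hr.le hη (by rw [inv_mul_cancel_left₀ h0.ne'])
      have hp := Real.rpow_pos_of_pos hr s
      by_cases hz : ‖z - x‖ ≤ η * ρ x
      · refine (a3 z hz).trans ?_
        rw [Real.div_rpow (norm_nonneg _) hr.le, mul_div_assoc', div_le_iff₀ hp,
          mul_right_comm _ _ ((η * ρ x) ^ s)]
        refine mul_le_mul_of_nonneg_right ?_ hd
        have : 0 ≤ C * (η⁻¹ + 1) ^ 2 * (η * ρ x) ^ s := by positivity
        have : 0 ≤ K * η⁻¹ ^ 2 * (η * ρ x) ^ s := by positivity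
        nlinarith
      · push Not at hz
        have hz0 := hr.trans hz
        have b1 : (ρ x + ‖z - x‖) ^ s ≤ (η⁻¹ + 1) ^ 2 * ‖z - x‖ ^ s :=
          rpow_le_of_le_mul (by positivity) hz0.le (by linarith) (by
            have := (le_inv_mul_iff₀ h0).mpr hz.le
            linarith)
        have b2 : (η * ρ x) ^ s ≤ η * ρ x / ‖z - x‖ * ‖z - x‖ ^ s :=
          rpow_le_of_le_mul' hr.le hz0.le (by positivity) ((div_le_one hz0).mpr hz.le)
            (by rw [div_mul_cancel₀ _ hz0.ne'])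
        have b3 : (η * ρ x) ^ s ≤ ‖z - x‖ ^ s := Real.rpow_le_rpow hr.le hz.le Ex.pos.le
        have b4 := lin_le hr a2 (z - x)
        have b5 : (η * ρ x) ^ s * (‖z - x‖ / (η * ρ x)) ≤ ‖z - x‖ ^ s := by
          refine (mul_le_mul_of_nonneg_right b2 (by positivity)).trans_eq ?_
          field_simp
        have b6 : K * ρ x ^ s * (‖z - x‖ / (η * ρ x)) ≤ K * η⁻¹ ^ 2 * ‖z - x‖ ^ s := by
          calc _ ≤ K * (η⁻¹ ^ 2 * (η * ρ x) ^ s) * (‖z - x‖ / (η * ρ x)) := by gcongr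
            _ = K * η⁻¹ ^ 2 * ((η * ρ x) ^ s * (‖z - x‖ / (η * ρ x))) := by ring
            _ ≤ _ := by gcongr
        have b7 : K * ρ x ^ s ≤ K * η⁻¹ ^ 2 * ‖z - x‖ ^ s := by
          calc _ ≤ K * (η⁻¹ ^ 2 * (η * ρ x) ^ s) := by gcongr
            _ ≤ K * (η⁻¹ ^ 2 * ‖z - x‖ ^ s) := by gcongr
            _ = _ := by ring
        have b8 := (hb x z).trans (mul_le_mul_of_nonneg_left b1 hC)
        refine (norm_sub_le _ _).trans ((add_le_add (norm_sub_le _ _) b4).trans ?_)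
        simp only at a1
        nlinarith
    · have hx' : ρ x = 0 := le_antisymm (not_lt.mp hx) (hρ x)
      refine ⟨0, fun z => ?_⟩
      have b1 := hb x x
      have b2 := hb x z
      simp only [hx', sub_self, norm_zero, add_zero, Real.zero_rpow (Ex.pos (s := s)).ne', mul_zero,
        norm_le_zero_iff, zero_add] at b1 b2
      simp only [b1, sub_zero, zero_apply]
      refine b2.trans (mul_le_mul_of_nonneg_right ?_ (by positivity))
      have : 0 ≤ K * η⁻¹ ^ 2 := by positivity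
      have : 1 ≤ (η⁻¹ + 1) ^ 2 := by nlinarith
      nlinarith
  choose U hU using this
  exact ⟨U, hU⟩

lemma Tay.holder [h : Ex s] {u : E → X} {U : E → E →L[ℝ] X} {C : ℝ} (hC : 0 ≤ C)
    (hT : Tay s u U C) (x y : E) : ‖U x - U y‖ ≤ 6 * C * ‖x - y‖ ^ (s - 1) := by
  rcases eq_or_ne x y with rfl | hxy
  · simp only [sub_self, norm_zero]; positivity
  have hd : 0 < ‖x - y‖ := norm_pos_iff.mpr (sub_ne_zero.mpr hxy)
  refine ContinuousLinearMap.opNorm_le_of_unit_norm (by positivity) fun v hv => ?_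
  have a1 := hT y (x + ‖x - y‖ • v)
  have a2 := hT x (x + ‖x - y‖ • v)
  have a3 := hT y x
  have hv' : ‖‖x - y‖ • v‖ = ‖x - y‖ := by rw [norm_smul, hv, norm_norm, mul_one]
  have a4 : ‖x + ‖x - y‖ • v - y‖ ^ s ≤ 2 ^ 2 * ‖x - y‖ ^ s :=
    rpow_le_of_le_mul (norm_nonneg _) hd.le one_le_two (by
      rw [add_sub_right_comm]; exact (norm_add_le _ _).trans (by rw [hv']; linarith))
  rw [add_sub_cancel_left, hv'] at a2
  have e : ‖x - y‖ • (U x - U y) v = (u (x + ‖x - y‖ • v) - u y - U y (x + ‖x - y‖ • v - y)) -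
      (u (x + ‖x - y‖ • v) - u x - U x (‖x - y‖ • v)) - (u x - u y - U y (x - y)) := by
    simp only [map_sub, map_add, map_smul, sub_apply, smul_sub]; abel
  have a5 : ‖x - y‖ * ‖(U x - U y) v‖ ≤ 6 * C * ‖x - y‖ ^ s := by
    rw [← norm_norm (x - y), ← norm_smul, norm_norm, e]
    refine (norm_sub_le _ _).trans ((add_le_add (norm_sub_le _ _) a3).trans ?_)
    nlinarith
  rw [Real.rpow_sub_one hd.ne', mul_div_assoc', le_div_iff₀ hd]
  linarith

lemma Tay.hasFDerivAt [h : Ex s] {u : E → X} {U : E → E →L[ℝ] X} {C : ℝ}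
    (hT : Tay s u U C) (x : E) : HasFDerivAt u (U x) x := by
  rw [hasFDerivAt_iff_isLittleO]
  refine (Asymptotics.IsBigO.of_bound C (g := fun y => ‖y - x‖ ^ s)
    (Filter.Eventually.of_forall fun y => ?_)).trans_isLittleO ?_
  · rw [Real.norm_of_nonneg (by positivity)]; exact hT x y
  · rw [← Asymptotics.isLittleO_norm_right, Asymptotics.isLittleO_iff]
    intro c hc
    have : ContinuousAt (fun y => ‖y - x‖ ^ (s - 1)) x :=
      (by fun_prop : ContinuousAt (fun y => ‖y - x‖) x).rpow_const (Or.inr (by linarith [h.one]))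
    have h2 := this.eventually (gt_mem_nhds (a := c) (by
      simpa [Real.zero_rpow (show s - 1 ≠ 0 by linarith [h.one])] using hc))
    filter_upwards [h2] with y hy
    rw [Real.norm_of_nonneg (by positivity), norm_norm,
      show s = (s - 1) + 1 by ring, Real.rpow_add_one' (norm_nonneg _) (by linarith [h.one])]
    exact mul_le_mul_of_nonneg_right hy.le (norm_nonneg _)

lemma tay_of_holder [h : Ex s] {u : E → X} {U : E → E →L[ℝ] X} {C : ℝ} (hC : 0 ≤ C)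
    (hu : ∀ x, HasFDerivAt u (U x) x) (hU : ∀ x y, ‖U x - U y‖ ≤ C * ‖x - y‖ ^ (s - 1)) :
    Tay s u U C := by
  intro x y
  have := (convex_closedBall x ‖y - x‖).norm_image_sub_le_of_norm_hasFDerivWithin_le'
    (f := u) (f' := U) (φ := U x) (C := C * ‖y - x‖ ^ (s - 1))
    (fun z _ => (hu z).hasFDerivWithinAt) (fun z hz => (hU z x).trans (by
      rw [mem_closedBall_iff_norm] at hz
      gcongr; linarith [h.one])) (Metric.mem_closedBall_self (norm_nonneg _))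
    (y := y) (by rw [mem_closedBall_iff_norm])
  rwa [mul_assoc, ← Real.rpow_add_one' (norm_nonneg _) (by linarith [h.one]),
    sub_add_cancel] at this

end Pool.Agent.Lib.MP_ca9be0_an
end

-- part Pool.Agent.Lib.MP_ca9be0_an.Part
section

/-! Whitney partitions of unity adapted to a Lipschitz scale function. -/

open Finset

namespace Pool.Agent.Lib.MP_ca9be0_an

variable {E X : Type*} [NormedAddCommGroup E] [InnerProductSpace ℝ E]
  [NormedAddCommGroup X] [NormedSpace ℝ X] {s : ℝ}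

lemma packing [FiniteDimensional ℝ E] : ∃ N : ℕ, ∀ T : Finset E, (∀ a ∈ T, ‖a‖ ≤ 2) →
    (∀ a ∈ T, ∀ b ∈ T, a ≠ b → 1 / 5 ≤ ‖a - b‖) → T.card ≤ N := by
  classical
  obtain ⟨t, -, h1, h2⟩ := finite_cover_balls_of_compact (isCompact_closedBall (0 : E) 2)
    (e := 1 / 10) (by norm_num)
  refine ⟨h1.toFinset.card, fun T hT hs => ?_⟩
  have : ∀ a ∈ T, ∃ c ∈ t, ‖a - c‖ < 1 / 10 := fun a ha => by
    simpa [dist_eq_norm] using h2 (mem_closedBall_zero_iff.mpr (hT a ha))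
  choose! c hc1 hc2 using this
  refine card_le_card_of_injOn c (fun a ha => by simpa using hc1 a ha) fun a ha b hb h => ?_
  by_contra hne
  have := hs a ha b hb hne
  have h3 := hc2 a ha
  have h4 := hc2 b hb
  have := norm_sub_le (a - c a) (b - c b)
  rw [h, sub_sub_sub_cancel_right] at this
  rw [h] at h3
  linarith

/-- a scale function -/
structure Scale (ρ : E → ℝ) : Prop where
  nonneg : ∀ x, 0 ≤ ρ x
  lip : ∀ x y, ρ x ≤ ρ y + ‖x - y‖

/-- a partition of unity at scale `ε ρ` -/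
structure Part (s : ℝ) (ρ : E → ℝ) (ε : ℝ) (φ : E → E → ℝ) (S : E → Finset E) : Prop where
  pos : 0 < ε
  small : ε ≤ 1 / 10
  nonneg : ∀ ν z, 0 ≤ φ ν z
  supp : ∀ ν z, φ ν z ≠ 0 → 0 < ρ ν ∧ ‖z - ν‖ ≤ ε * ρ ν
  card : ∃ N, ∀ x, (S x).card ≤ N
  close : ∀ x, ∀ ν ∈ S x, ‖ν - x‖ ≤ 2 * ε * ρ x
  loc : ∀ x, 0 < ρ x → ∀ z, ‖z - x‖ ≤ ε / 2 * ρ x → ∀ ν, φ ν z ≠ 0 → ν ∈ S x
  one : ∀ x, 0 < ρ x → ∀ z, ‖z - x‖ ≤ ε / 2 * ρ x → ∑ ν ∈ S x, φ ν z = 1
  tame : Tame s (fun q : Σ x : {x // 0 < ρ x}, S x => q.1.1) (fun q => ρ q.1) (fun q => φ q.2)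
    fun _ => 1

lemma bump_taylor (a b : ℝ) :
    |max (1 - b) 0 ^ 2 - max (1 - a) 0 ^ 2 - -(2 * max (1 - a) 0) * (b - a)| ≤ 2 * (b - a) ^ 2 := by
  rw [abs_le]
  rcases le_total (1 - a) 0 with ha | ha <;> rcases le_total (1 - b) 0 with hb | hb <;>
    simp only [max_eq_left, max_eq_right, ha, hb] <;> constructor <;> nlinarith

theorem exists_part [FiniteDimensional ℝ E] [Ex s] {ρ : E → ℝ} (hρ : Scale ρ) {ε : ℝ}
    (h0 : 0 < ε) (h1 : ε ≤ 1 / 10) : ∃ φ S, Part s ρ ε φ S := by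
  classical
  obtain ⟨N, hN⟩ := zorn_subset {N : Set E | (∀ a ∈ N, 0 < ρ a) ∧
      N.Pairwise fun a b => ε / 4 * ρ a ≤ ‖a - b‖ ∨ ε / 4 * ρ b ≤ ‖a - b‖} (by
    intro c hc hch
    refine ⟨⋃₀ c, ⟨fun a ⟨t, ht, ha⟩ => (hc ht).1 a ha, ?_⟩, fun t ht => Set.subset_sUnion_of_mem ht⟩
    exact (Set.pairwise_sUnion hch.directedOn).mpr fun t ht => (hc ht).2)
  have hcov : ∀ x, 0 < ρ x → ∃ ν ∈ N, ‖x - ν‖ ≤ ε / 4 * ρ ν := by
    intro x hx
    by_contra! hcon
    have hxN : x ∉ N := fun h => by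
      have := hcon x h
      rw [sub_self, norm_zero] at this
      exact absurd this (not_lt.mpr (by positivity))
    refine hxN (hN.2 (y := insert x N) ⟨?_, ?_⟩ (Set.subset_insert _ _) (Set.mem_insert _ _))
    · rintro a (rfl | ha)
      · exact hx
      · exact hN.1.1 a ha
    · exact hN.1.2.insert fun b hb _ => ⟨Or.inr (hcon b hb).le,
        Or.inl (by rw [norm_sub_rev]; exact (hcon b hb).le)⟩
  obtain ⟨M, hM⟩ := packing (E := E)
  have hcard : ∀ x, ∀ T : Finset E, (∀ ν ∈ T, 0 < ρ x ∧ ν ∈ N ∧ ‖ν - x‖ ≤ 2 * ε * ρ x) →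
      T.card ≤ M := by
    intro x T hT
    rcases T.eq_empty_or_nonempty with rfl | ⟨a₀, ha₀⟩
    · simp
    have hx := mul_pos h0 (hT a₀ ha₀).1
    have hinj : Function.Injective fun a : E => (ε * ρ x)⁻¹ • (a - x) := fun a b h =>
      sub_left_injective (smul_right_injective E (inv_ne_zero hx.ne') h)
    rw [← card_image_of_injective T hinj]
    refine hM _ ?_ ?_
    · simp only [mem_image, forall_exists_index, and_imp, forall_apply_eq_imp_iff₂]
      intro a ha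
      rw [norm_smul, norm_inv, Real.norm_of_nonneg hx.le, inv_mul_le_iff₀ hx]
      linarith [(hT a ha).2.2]
    · simp only [mem_image, forall_exists_index, and_imp, forall_apply_eq_imp_iff₂]
      intro a ha b hb hab
      rw [← smul_sub, sub_sub_sub_cancel_right, norm_smul, norm_inv, Real.norm_of_nonneg hx.le,
        le_inv_mul_iff₀ hx]
      have k : ∀ a ∈ T, 4 / 5 * ρ x ≤ ρ a := fun a ha => by
        have := hρ.lip x a
        rw [norm_sub_rev] at this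
        nlinarith [(hT a ha).2.2, (hT a ha).1]
      rcases hN.1.2 (hT a ha).2.1 (hT b hb).2.1 (fun h => hab (by rw [h])) with h | h
      · nlinarith [k a ha]
      · nlinarith [k b hb]
  have hfin : ∀ x, {ν | 0 < ρ x ∧ ν ∈ N ∧ ‖ν - x‖ ≤ 2 * ε * ρ x}.Finite := by
    intro x
    by_contra h
    obtain ⟨T, h2, h3⟩ := Set.Infinite.exists_subset_card_eq h (M + 1)
    have := hcard x T fun ν hν => h2 hν
    omega
  obtain ⟨S, hS⟩ : ∃ S : E → Finset E, ∀ x ν, ν ∈ S x ↔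
      0 < ρ x ∧ ν ∈ N ∧ ‖ν - x‖ ≤ 2 * ε * ρ x := ⟨fun x => (hfin x).toFinset, by simp⟩
  obtain ⟨ψ, hψ⟩ : ∃ ψ : E → E → ℝ, ∀ ν z, ψ ν z =
      if ν ∈ N then max (1 - ((ε * ρ ν) ^ 2)⁻¹ * ‖z - ν‖ ^ 2) 0 ^ 2 else 0 := ⟨_, fun _ _ => rfl⟩
  have ψ0 : ∀ ν z, 0 ≤ ψ ν z := fun ν z => by rw [hψ]; positivity
  have ψsupp : ∀ ν z, ψ ν z ≠ 0 → ν ∈ N ∧ ‖z - ν‖ ≤ ε * ρ ν := by
    intro ν z h
    rw [hψ] at h
    have hν : ν ∈ N := by by_contra h'; simp [h'] at h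
    refine ⟨hν, ?_⟩
    by_contra! hcon
    have hp := mul_pos h0 (hN.1.1 ν hν)
    rw [if_pos hν, max_eq_right] at h
    · simp at h
    · rw [sub_nonpos, le_inv_mul_iff₀ (by positivity), mul_one]; gcongr
  have ψloc : ∀ x, 0 < ρ x → ∀ z, ‖z - x‖ ≤ ε / 2 * ρ x → ∀ ν, ψ ν z ≠ 0 → ν ∈ S x := by
    intro x hx z hz ν h
    obtain ⟨a1, a2⟩ := ψsupp ν z h
    refine (hS _ _).mpr ⟨hx, a1, ?_⟩
    have a3 := hρ.lip ν x
    have a4 := norm_sub_le (z - x) (z - ν)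
    rw [sub_sub_sub_cancel_left] at a4
    have a5 := hN.1.1 ν a1
    have a6 : ρ ν ≤ 3 / 2 * ρ x := by nlinarith
    nlinarith
  have hfs : ∀ x, 0 < ρ x → ∀ z, ‖z - x‖ ≤ ε / 2 * ρ x → ∑ᶠ ν, ψ ν z = ∑ ν ∈ S x, ψ ν z :=
    fun x hx z hz => finsum_eq_sum_of_support_subset _ fun ν hν => ψloc x hx z hz ν hν
  have hlow : ∀ x, 0 < ρ x → ∀ z, ‖z - x‖ ≤ ε / 2 * ρ x → 1 / 2 ≤ ∑ ν ∈ S x, ψ ν z := by
    intro x hx z hz
    obtain ⟨ν, a1, a2⟩ := hcov z (by
      have := hρ.lip x z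
      rw [norm_sub_rev] at this
      nlinarith)
    have hp := mul_pos h0 (hN.1.1 ν a1)
    have a3 : 1 / 2 ≤ ψ ν z := by
      rw [hψ, if_pos a1]
      have : ((ε * ρ ν) ^ 2)⁻¹ * ‖z - ν‖ ^ 2 ≤ 1 / 16 := by
        rw [inv_mul_le_iff₀ (by positivity)]
        nlinarith [norm_nonneg (z - ν)]
      have := le_max_left (1 - ((ε * ρ ν) ^ 2)⁻¹ * ‖z - ν‖ ^ 2) 0
      nlinarith
    exact a3.trans (single_le_sum (fun ν _ => ψ0 ν z) (ψloc x hx z hz ν (by linarith)))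
  have hr : ∀ q : Σ x : {x // 0 < ρ x}, S x, 0 < ρ q.1 := fun q => q.1.2
  have hcmp : ∀ q : Σ x : {x // 0 < ρ x}, S x, 4 / 5 * ρ q.1 ≤ ρ q.2 := fun q => by
    have := hρ.lip q.1 q.2
    rw [norm_sub_rev] at this
    nlinarith [((hS _ _).mp q.2.2).2.2, hr q]
  have t1 : Tame s (fun q : Σ x : {x // 0 < ρ x}, S x => q.1.1) (fun q => ρ q.1)
      (fun q z => z - q.2) fun q => ρ q.1 :=
    Tame.of_taylor hr (fun _ => ContinuousLinearMap.id ℝ E) (K := 0) zero_le_one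
      (fun q => by rw [norm_sub_rev]; nlinarith [((hS _ _).mp q.2.2).2.2, hr q])
      (fun q => mul_le_mul_of_nonneg_right ContinuousLinearMap.norm_id_le (hr q).le)
      (by simp) fun q => by simpa using (hr q).le
  have t2 := ((Tame.const hr (c := fun q => ((ε * ρ q.2) ^ 2)⁻¹)
    (w := fun q => (ρ q.1 * ρ q.1)⁻¹) (C := 2 * (ε ^ 2)⁻¹) (by positivity) (fun q => by
      have := hr q
      have := hcmp q
      rw [Real.norm_of_nonneg (by positivity), mul_assoc, ← mul_inv, le_mul_inv_iff₀ (by positivity),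
        inv_mul_le_iff₀ (by have : 0 < ρ q.2 := by linarith
                            positivity), mul_pow]
      have : ρ q.1 * ρ q.1 ≤ ρ q.2 ^ 2 * 2 := by nlinarith
      nlinarith [sq_nonneg ε])).mul hr (t1.normsq hr)).weight hr (w' := fun _ => 1) zero_le_one
      fun q => by rw [inv_mul_cancel₀ (mul_pos (hr q) (hr q)).ne', mul_one]
  have t3 := (t2.comp hr (Φ := fun t => max (1 - t) 0 ^ 2) (Φ' := fun t => -(2 * max (1 - t) 0))
    (S := Set.Ici 0) (C := 2) zero_le_two (fun a ha => by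
      have b1 : max (1 - a) 0 ≤ 1 := max_le (by linarith [Set.mem_Ici.mp ha]) zero_le_one
      have b2 := le_max_right (1 - a) 0
      exact ⟨by rw [abs_of_nonneg (by positivity)]; nlinarith,
        by rw [abs_neg, abs_of_nonneg (by positivity)]; linarith, fun b _ => bump_taylor a b⟩)
    (Near.of_forall fun q z => Set.mem_Ici.mpr (by positivity))).congr hr
    (v := fun q => ψ q.2) (Near.of_forall fun q z => by
      rw [hψ, if_pos ((hS _ _).mp q.2.2).2.1])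
  have hc : ∀ x, (S x).card ≤ M := fun x => hcard x _ fun ν h => (hS _ _).mp h
  have t4 := (Tame.sum (p := fun x : {x // 0 < ρ x} => x.1) (fun x => x.2) (fun x => S x)
    (fun x => hc x) (u := fun _ ν => ψ ν) (fun _ => zero_le_one) t3).congr (fun x => x.2)
    (v := fun _ z => ∑ᶠ ν, ψ ν z) ⟨ε / 2, by positivity, fun x z hz => hfs x x.2 z hz⟩
  have t5 := t4.inv (fun x => x.2) (fun _ => one_pos) (c := 1 / 2) (by norm_num)
    ⟨ε / 2, by positivity, fun x z hz => by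
      beta_reduce; rw [hfs x x.2 z hz, mul_one]; exact hlow x x.2 z hz⟩
  refine ⟨fun ν z => ψ ν z * (∑ᶠ ν, ψ ν z)⁻¹, S, h0, h1,
    fun ν z => mul_nonneg (ψ0 _ _) (inv_nonneg.mpr (finsum_nonneg fun _ => ψ0 _ _)),
    fun ν z h => ?_, ⟨M, hc⟩, fun x ν h => ((hS _ _).mp h).2.2,
    fun x hx z hz ν h => ψloc x hx z hz ν (left_ne_zero_of_mul h), fun x hx z hz => ?_, ?_⟩
  · have := ψsupp ν z (left_ne_zero_of_mul h)
    exact ⟨hN.1.1 ν this.1, this.2⟩
  · rw [← sum_mul, hfs x hx z hz, mul_inv_cancel₀ (by linarith [hlow x hx z hz])]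
  · exact (t3.mul hr (t5.reindex Sigma.fst)).weight hr zero_le_one (by simp)

/-- gluing with a partition of unity -/
noncomputable def glue (φ : E → E → ℝ) (u : E → E → X) (z : E) : X := ∑ᶠ ν, φ ν z • u ν z

namespace Part

variable {ρ : E → ℝ} {ε : ℝ} {φ : E → E → ℝ} {S : E → Finset E}

lemma glue_eq (h : Part s ρ ε φ S) (u : E → E → X) {x z : E} (hx : 0 < ρ x)
    (hz : ‖z - x‖ ≤ ε / 2 * ρ x) : glue φ u z = ∑ ν ∈ S x, φ ν z • u ν z :=
  finsum_eq_sum_of_support_subset _ fun ν hν => h.loc x hx z hz ν (left_ne_zero_of_smul hν)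

lemma self (h : Part s ρ ε φ S) {z : E} (hz : 0 < ρ z) : ‖z - z‖ ≤ ε / 2 * ρ z := by
  have := h.pos
  rw [sub_self, norm_zero]; positivity

lemma cmp (h : Part s ρ ε φ S) (hρ : Scale ρ) {ν z : E} (hν : φ ν z ≠ 0) :
    9 / 10 * ρ ν ≤ ρ z ∧ ρ z ≤ 11 / 10 * ρ ν ∧ ‖z - ν‖ ≤ 1 / 10 * ρ ν ∧ 0 < ρ ν := by
  obtain ⟨a1, a2⟩ := h.supp ν z hν
  have a3 := hρ.lip ν z
  have a4 := hρ.lip z ν
  rw [norm_sub_rev] at a3
  have := h.small
  exact ⟨by nlinarith, by nlinarith, by nlinarith, a1⟩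

lemma cmp' (h : Part s ρ ε φ S) (hρ : Scale ρ) {x ν : E} (hν : ν ∈ S x) :
    4 / 5 * ρ x ≤ ρ ν ∧ ρ ν ≤ 6 / 5 * ρ x ∧ ‖ν - x‖ ≤ 1 / 5 * ρ x := by
  have a2 := h.close x ν hν
  have a3 := hρ.lip x ν
  have a4 := hρ.lip ν x
  rw [norm_sub_rev] at a3
  have := h.small
  have := hρ.nonneg x
  exact ⟨by nlinarith, by nlinarith, by nlinarith⟩

lemma glue_zero (h : Part s ρ ε φ S) (hρ : Scale ρ) (u : E → E → X) {z : E} (hz : ¬ 0 < ρ z) :
    glue φ u z = 0 := by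
  refine finsum_eq_zero_of_forall_eq_zero fun ν => ?_
  by_contra hν
  have := h.cmp hρ (left_ne_zero_of_smul hν)
  exact hz (by linarith [this.1, this.2.2.2])

lemma glue_tame [Ex s] (h : Part s ρ ε φ S) {u : {x // 0 < ρ x} → E → E → X}
    {w : {x // 0 < ρ x} → ℝ} (hw : ∀ x, 0 ≤ w x)
    (hu : Tame s (fun q : Σ x : {x // 0 < ρ x}, S x => q.1.1) (fun q => ρ q.1)
      (fun q => u q.1 q.2) fun q => w q.1) :
    Tame s (fun x : {x // 0 < ρ x} => x.1) (fun x => ρ x) (fun x => glue φ (u x)) w := by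
  obtain ⟨N, hN⟩ := h.card
  have := h.pos
  exact (Tame.sum (p := fun x : {x // 0 < ρ x} => x.1) (fun x => x.2) (fun x => S x)
    (fun x => hN x) (u := fun x ν z => φ ν z • u x ν z) hw
    ((h.tame.smul (fun q => q.1.2) hu).weight (fun q => q.1.2) zero_le_one (by simp))).congr
    (fun x => x.2) ⟨ε / 2, by positivity, fun x z hz => h.glue_eq _ x.2 hz⟩

lemma glue_const (h : Part s ρ ε φ S) {u : E → E → X} {z : E} (hz : 0 < ρ z) {c : X}
    (hc : ∀ ν, φ ν z ≠ 0 → u ν z = c) : glue φ u z = c := by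
  rw [h.glue_eq u hz (h.self hz), ← one_smul ℝ c, ← h.one z hz z (h.self hz), sum_smul]
  refine sum_congr rfl fun ν _ => ?_
  by_cases h' : φ ν z = 0
  · simp [h']
  · rw [hc ν h']

lemma glue_add (h : Part s ρ ε φ S) (u v : E → E → X) {z : E} (hz : 0 < ρ z) :
    glue φ (fun ν z => u ν z + v ν z) z = glue φ u z + glue φ v z := by
  simp only [h.glue_eq _ hz (h.self hz), smul_add, sum_add_distrib]

lemma glue_clm {Y : Type*} [NormedAddCommGroup Y] [NormedSpace ℝ Y] (h : Part s ρ ε φ S)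
    (u : E → E → X) (T : X →L[ℝ] Y) {z : E} (hz : 0 < ρ z) :
    glue φ (fun ν z => T (u ν z)) z = T (glue φ u z) := by
  simp only [h.glue_eq _ hz (h.self hz), map_sum, map_smul]

lemma glue_le (h : Part s ρ ε φ S) {u : E → E → X} {z : E} (hz : 0 < ρ z) {M : ℝ}
    (hu : ∀ ν, φ ν z ≠ 0 → ‖u ν z‖ ≤ M) : ‖glue φ u z‖ ≤ M := by
  rw [h.glue_eq u hz (h.self hz), ← one_mul M, ← h.one z hz z (h.self hz), sum_mul]
  refine norm_sum_le_of_le _ fun ν _ => ?_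
  by_cases h' : φ ν z = 0
  · simp [h']
  · rw [norm_smul, Real.norm_of_nonneg (h.nonneg _ _)]
    exact mul_le_mul_of_nonneg_left (hu ν h') (h.nonneg _ _)

lemma le_glue (h : Part s ρ ε φ S) {u : E → E → ℝ} {z : E} (hz : 0 < ρ z) {M : ℝ}
    (hu : ∀ ν, φ ν z ≠ 0 → M ≤ u ν z) : M ≤ glue φ u z := by
  rw [h.glue_eq u hz (h.self hz), ← one_mul M, ← h.one z hz z (h.self hz), sum_mul]
  refine sum_le_sum fun ν _ => ?_
  by_cases h' : φ ν z = 0
  · simp [h']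
  · exact mul_le_mul_of_nonneg_left (hu ν h') (h.nonneg _ _)

end Part

end Pool.Agent.Lib.MP_ca9be0_an
end

-- part Pool.Agent.Lib.MP_ca9be0_an.Correct
section

/-! Absorbing a tame nonnegative defect with one extra square. -/

open Finset
open scoped RealInnerProductSpace

namespace Pool.Agent.Lib.MP_ca9be0_an

variable {E X F : Type*} [NormedAddCommGroup E] [InnerProductSpace ℝ E]
  [NormedAddCommGroup X] [NormedSpace ℝ X] [NormedAddCommGroup F] [InnerProductSpace ℝ F] {s : ℝ}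

lemma Tay.hol [h : Ex s] {u : E → X} {U : E → E →L[ℝ] X} {C : ℝ} (hC : 0 ≤ C)
    (hT : Tay s u U C) {x y : E} {r : ℝ} (hr : 0 < r) (hxy : ‖x - y‖ ≤ r) :
    ‖U x - U y‖ * r ≤ 6 * C * r ^ s := by
  have h1 : ‖U x - U y‖ ≤ 6 * C * r ^ (s - 1) :=
    (hT.holder hC x y).trans (by gcongr; linarith [h.one])
  rwa [Real.rpow_sub_one hr.ne', mul_div_assoc', le_div_iff₀ hr] at h1

lemma Tay.add {u v : E → X} {U V : E → E →L[ℝ] X} {C C' : ℝ} (h : Tay s u U C)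
    (h' : Tay s v V C') : Tay s (fun z => u z + v z) (fun z => U z + V z) (C + C') := by
  intro x y
  have : u y + v y - (u x + v x) - (U x + V x) (y - x) =
      (u y - u x - U x (y - x)) + (v y - v x - V x (y - x)) := by rw [add_apply]; abel
  rw [this, add_mul]
  exact (norm_add_le _ _).trans (add_le_add (h x y) (h' x y))

lemma tay_of_tame [Ex s] {ρ : E → ℝ} (hρ : Scale ρ) {u : E → X}
    (h : Tame s (fun x : {x // 0 < ρ x} => x.1) (fun x => ρ x) (fun _ => u) fun x => ρ x ^ s)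
    (h0 : ∀ z, ¬ 0 < ρ z → u z = 0) : ∃ C ≥ 0, ∃ U, Tay s u U C := by
  obtain ⟨η, -, C, hC, h'⟩ := id h
  refine glob (u := fun _ => u) hρ.nonneg h hC fun x z => ?_
  have := hρ.nonneg x
  by_cases hz : 0 < ρ z
  · exact (h' ⟨z, hz⟩).1.trans (mul_le_mul_of_nonneg_left
      (Real.rpow_le_rpow hz.le (hρ.lip z x) Ex.pos.le) hC)
  · rw [h0 z hz, norm_zero]; positivity

lemma exists_dir [FiniteDimensional ℝ E] (a : F) (L : E →L[ℝ] F) {R m : ℝ} (hR : 0 < R)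
    (hm : 0 < m) (h : ∀ d, ‖d‖ ≤ R → m ≤ ‖a + L d‖) :
    ∃ ζ : F, ‖ζ‖ ≤ 1 ∧ m ≤ ⟪ζ, a⟫ ∧ ‖(innerSL ℝ ζ).comp L‖ * R ≤ ⟪ζ, a⟫ := by
  have hK : Convex ℝ ((fun d => a + L d) '' Metric.closedBall 0 R) := by
    simpa [Set.image_image] using
      ((convex_closedBall (0 : E) R).linear_image L.toLinearMap).translate a
  obtain ⟨v, hv, h1⟩ := exists_norm_eq_iInf_of_complete_convex
    ((Metric.nonempty_closedBall.mpr hR.le).image _)
    ((isCompact_closedBall (0 : E) R).image (by fun_prop)).isComplete hK 0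
  rw [norm_eq_iInf_iff_real_inner_le_zero hK hv] at h1
  obtain ⟨d₀, hd₀, rfl⟩ := hv
  have h2 := h d₀ (by simpa using hd₀)
  beta_reduce at h1
  generalize a + L d₀ = v at *
  have hv := hm.trans_le h2
  have key : ∀ d, ‖d‖ ≤ R → m ≤ ⟪‖v‖⁻¹ • v, a⟫ + ⟪‖v‖⁻¹ • v, L d⟫ := by
    intro d hd
    have := h1 _ ⟨d, by simpa using hd, rfl⟩
    rw [zero_sub, inner_neg_left, inner_sub_right, real_inner_self_eq_norm_sq] at this
    rw [← inner_add_right, real_inner_smul_left, le_inv_mul_iff₀ hv]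
    nlinarith
  refine ⟨‖v‖⁻¹ • v, by rw [norm_smul, norm_inv, norm_norm, inv_mul_cancel₀ hv.ne'],
    by simpa using key 0 (by simpa using hR.le), ?_⟩
  have h3 : m ≤ ⟪‖v‖⁻¹ • v, a⟫ := by simpa using key 0 (by simpa using hR.le)
  rw [← le_div_iff₀ hR]
  refine ContinuousLinearMap.opNorm_le_of_unit_norm (div_nonneg (hm.le.trans h3) hR.le)
    fun d hd => ?_
  have a1 := key (R • d) (by rw [norm_smul, hd, Real.norm_of_nonneg hR.le, mul_one])
  have a2 := key (-(R • d)) (by rw [norm_neg, norm_smul, hd, Real.norm_of_nonneg hR.le, mul_one])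
  rw [map_neg, inner_neg_right] at a2
  rw [map_smul, real_inner_smul_right] at a1 a2
  rw [le_div_iff₀ hR, ContinuousLinearMap.comp_apply, innerSL_apply_apply, Real.norm_eq_abs,
    ← abs_of_pos hR, ← abs_mul, abs_le]
  constructor <;> linarith

theorem correct [FiniteDimensional ℝ E] [Ex s] {ρ : E → ℝ} (hρ : Scale ρ) {h : E → F}
    {H : E → E →L[ℝ] F} {C : ℝ} (hC : 0 ≤ C) (hT : Tay s h H C) {D : E → ℝ}
    (hD : Tame s (fun x : {x // 0 < ρ x} => x.1) (fun x => ρ x) (fun _ => D)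
      fun x => ρ x ^ s * ρ x ^ s) (hD0 : ∀ z, 0 ≤ D z) (hDz : ∀ z, ¬ 0 < ρ z → D z = 0)
    (hl : ∀ z, ρ z ^ s * ρ z ^ s ≤ ‖h z‖ ^ 2 + D z) :
    ∃ (h' : E → F) (h₀ : E → ℝ), (∃ C ≥ 0, ∃ U, Tay s h' U C) ∧ (∃ C ≥ 0, ∃ U, Tay s h₀ U C) ∧
      ∀ z, ‖h' z‖ ^ 2 + h₀ z ^ 2 = ‖h z‖ ^ 2 + D z := by
  have hr : ∀ x : {x // 0 < ρ x}, 0 < ρ x := fun x => x.2
  have ω0 : ∀ x, 0 < ρ x → 0 < ρ x ^ s := fun x hx => Real.rpow_pos_of_pos hx s
  obtain ⟨η, hη, hosc⟩ := hD.osc hr (fun x => by have := ω0 _ x.2; positivity) (δ := 1 / 8)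
    (by norm_num)
  obtain ⟨ε, e0, e1, e2, e3⟩ : ∃ ε > 0, ε ≤ 1 / 80 ∧ 8 * ε ≤ η ∧ C * (8 * ε) ≤ 1 / 10 := by
    refine ⟨min (η / 8) (1 / (80 * (C + 1))), by positivity, (min_le_right _ _).trans ?_,
      by linarith [min_le_left (η / 8) (1 / (80 * (C + 1)))], ?_⟩
    · exact one_div_le_one_div_of_le (by norm_num) (by linarith)
    · have := (le_div_iff₀ (by positivity)).mp (min_le_right (η / 8) (1 / (80 * (C + 1))))
      have : 0 < min (η / 8) (1 / (80 * (C + 1))) := by positivity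
      nlinarith
  have herr : ∀ ν z, 0 < ρ ν → ‖z - ν‖ ≤ 8 * ε * ρ ν →
      ‖h z - h ν - H ν (z - ν)‖ ≤ 1 / 10 * ρ ν ^ s := fun ν z hν hz => by
    have := rpow_le_of_le_mul' (s := s) (norm_nonneg _) hν.le (by positivity) (by linarith) hz
    have := ω0 ν hν
    nlinarith [hT ν z]
  have hdir : ∀ ν, ∃ (ζ : F) (c : ℝ), 0 < ρ ν → ‖ζ‖ ≤ 1 ∧ 2 / 5 * ρ ν ^ s ≤ ⟪ζ, h ν⟫ + c ∧
      ‖(innerSL ℝ ζ).comp (H ν)‖ * (8 * ε * ρ ν) ≤ ⟪ζ, h ν⟫ + c ∧ |c| ≤ ρ ν ^ s ∧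
      (c = 0 ∨ 1 / 4 * (ρ ν ^ s * ρ ν ^ s) ≤ D ν) := by
    intro ν
    by_cases hν : 0 < ρ ν
    swap
    · exact ⟨0, 0, fun h => absurd h hν⟩
    have w := ω0 ν hν
    by_cases h1 : 1 / 4 * (ρ ν ^ s * ρ ν ^ s) ≤ D ν
    · exact ⟨0, ρ ν ^ s, fun _ => ⟨by simp, by simp; linarith, by simp [w.le],
        (abs_of_pos w).le, Or.inr h1⟩⟩
    obtain ⟨ζ, a1, a2, a3⟩ := exists_dir (h ν) (H ν) (R := 8 * ε * ρ ν) (m := 2 / 5 * ρ ν ^ s)
      (by positivity) (by positivity) fun d hd => by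
        have b1 := herr ν (ν + d) hν (by simpa using hd)
        have b2 := hosc ⟨ν, hν⟩ (ν + d) (by
          simpa using hd.trans (mul_le_mul_of_nonneg_right e2 hν.le))
        have b3 := hρ.lip ν (ν + d)
        have b4 := hl (ν + d)
        simp only [add_sub_cancel_left, sub_add_cancel_left, norm_neg, Real.norm_eq_abs] at b1 b2 b3
        have b5 : ρ ν ^ s ≤ (10 / 9) ^ 2 * ρ (ν + d) ^ s :=
          rpow_le_of_le_mul hν.le (hρ.nonneg _) (by norm_num) (by nlinarith)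
        have b6 : 1 / 2 * ρ ν ^ s ≤ ‖h (ν + d)‖ := by
          refine
            (abs_le_of_sq_le_sq' ?_ (norm_nonneg _)).2
          nlinarith [(abs_le.mp b2).2]
        have b7 := norm_add_le (h (ν + d) - h ν - H ν d) (h ν + H ν d)
        rw [show h (ν + d) - h ν - H ν d + (h ν + H ν d) = h (ν + d) by abel] at b7
        linarith
    exact ⟨ζ, 0, fun _ => ⟨a1, by simpa using a2, by simpa using a3, by simp [w.le], Or.inl rfl⟩⟩
  choose ζ c hζ using hdir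
  obtain ⟨ℓ, hℓ⟩ : ∃ ℓ : E → E → ℝ, ∀ ν z, ℓ ν z = ⟪ζ ν, h z⟫ + c ν := ⟨_, fun _ _ => rfl⟩
  simp only [← hℓ] at hζ
  have hℓ1 : ∀ ν z, 0 < ρ ν → ‖z - ν‖ ≤ 4 * ε * ρ ν → |ℓ ν z - ℓ ν ν| ≤ 3 / 4 * ℓ ν ν := by
    intro ν z hν hz
    obtain ⟨a1, a2, a3, -⟩ := hζ ν hν
    have hp : 0 < 8 * ε * ρ ν := by positivity
    have b1 := herr ν z hν (by linarith)
    have b2 := lin_le hp a3 (z - ν)
    have b3 : ‖z - ν‖ / (8 * ε * ρ ν) ≤ 1 / 2 := by rw [div_le_iff₀ hp]; linarith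
    have b4 := abs_real_inner_le_norm (ζ ν) (h z - h ν - H ν (z - ν))
    have e : ℓ ν z - ℓ ν ν = ⟪ζ ν, h z - h ν - H ν (z - ν)⟫ + ⟪ζ ν, H ν (z - ν)⟫ := by
      simp only [hℓ, inner_sub_right]; ring
    have w := ω0 ν hν
    rw [e]
    refine (abs_add_le _ _).trans ?_
    simp only [ContinuousLinearMap.comp_apply, innerSL_apply_apply, Real.norm_eq_abs] at b2
    nlinarith [norm_nonneg (h z - h ν - H ν (z - ν))]
  obtain ⟨φ, S, hP⟩ := exists_part (s := s) hρ e0 (by linarith)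
  have hq : ∀ q : Σ x : {x // 0 < ρ x}, S x, 0 < ρ q.1 := fun q => q.1.2
  have hq' : ∀ q : Σ x : {x // 0 < ρ x}, S x, 0 < ρ q.2 ∧ ρ q.1 ^ s ≤ 4 * ℓ q.2 q.2 ∧
      ρ q.2 ^ s ≤ 2 * ρ q.1 ^ s := fun q => by
    obtain ⟨a1, a2, -⟩ := hP.cmp' hρ q.2.2
    have a3 : 0 < ρ q.2 := by linarith [hq q]
    have a4 : ρ q.1 ^ s ≤ (5 / 4) ^ 2 * ρ q.2 ^ s :=
      rpow_le_of_le_mul (hq q).le a3.le (by norm_num) (by linarith)
    have a5 : ρ q.2 ^ s ≤ (6 / 5) ^ 2 * ρ q.1 ^ s :=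
      rpow_le_of_le_mul a3.le (hq q).le (by norm_num) a2
    exact ⟨a3, by linarith [(hζ _ a3).2.1, ω0 _ a3], by linarith [ω0 _ (hq q)]⟩
  have hn : ∀ q : Σ x : {x // 0 < ρ x}, S x, ∀ z, ‖z - q.1.1‖ ≤ ε * ρ q.1 →
      |ℓ q.2 z - ℓ q.2 q.2| ≤ 3 / 4 * ℓ q.2 q.2 := fun q z hz => hℓ1 _ _ (hq' q).1 (by
    have a1 := hP.close _ _ q.2.2
    have a2 := (hP.cmp' hρ q.2.2).1
    have a3 := norm_sub_le (z - q.1) (q.2 - q.1)
    rw [sub_sub_sub_cancel_right] at a3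
    nlinarith [mul_le_mul_of_nonneg_left a2 e0.le, mul_pos e0 (hq q)])
  have lpos : ∀ q : Σ x : {x // 0 < ρ x}, S x, 0 < ℓ q.2 q.2 := fun q => by
    linarith [(hq' q).2.1, ω0 _ (hq q)]
  have t1 : Tame s (fun q : Σ x : {x // 0 < ρ x}, S x => q.1.1) (fun q => ρ q.1)
      (fun q => ℓ q.2) fun q => ℓ q.2 q.2 := by
    refine Tame.of_taylor hq (fun q => (innerSL ℝ (ζ q.2)).comp (H q.1)) (K := C)
      (C := 2 + ε⁻¹ + 24 * C) (by positivity) (fun q => ?_) (fun q => ?_) (fun q z => ?_)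
      fun q => ?_
    · have := abs_le.mp (hn q q.1 (by simpa using (mul_pos e0 (hq q)).le))
      have := lpos q
      have : 0 ≤ (ε⁻¹ + 24 * C) * ℓ q.2 q.2 := by positivity
      rw [Real.norm_eq_abs, abs_le]; constructor <;> nlinarith
    · obtain ⟨a1, -, a3, -⟩ := hζ _ (hq' q).1
      obtain ⟨b1, -, b3⟩ := hP.cmp' hρ q.2.2
      have b4 := hT.hol hC (x := q.1) (y := q.2) (hq q) (by rw [norm_sub_rev]; linarith [hq q])
      have b5 : ‖(innerSL ℝ (ζ q.2)).comp (H q.1)‖ ≤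
          ‖(innerSL ℝ (ζ q.2)).comp (H q.2)‖ + ‖H q.1 - H q.2‖ := by
        rw [← add_sub_cancel (H q.2) (H q.1), ContinuousLinearMap.comp_add, add_sub_cancel_left]
        refine (norm_add_le _ _).trans (add_le_add_right ((ContinuousLinearMap.opNorm_comp_le _ _).trans
          (mul_le_of_le_one_left (norm_nonneg _) (by simpa using a1))) _)
      have b6 : ‖(innerSL ℝ (ζ q.2)).comp (H q.2)‖ * ρ q.1 ≤ ε⁻¹ * ℓ q.2 q.2 := by
        rw [le_inv_mul_iff₀ e0]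
        refine le_trans ?_ a3
        rw [mul_left_comm]
        exact mul_le_mul_of_nonneg_left (by nlinarith [hq q]) (norm_nonneg _)
      nlinarith [(hq' q).2.1, lpos q, hq q]
    · have e : ℓ q.2 z - ℓ q.2 q.1 - (innerSL ℝ (ζ q.2)).comp (H q.1) (z - q.1) =
          ⟪ζ q.2, h z - h q.1 - H q.1 (z - q.1)⟫ := by
        simp only [hℓ, inner_sub_right, ContinuousLinearMap.comp_apply, innerSL_apply_apply]; ring
      rw [e]
      exact (abs_real_inner_le_norm _ _).trans ((mul_le_of_le_one_left (norm_nonneg _)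
        (hζ _ (hq' q).1).1).trans (hT _ _))
    · have := lpos q
      have : 0 ≤ (2 + ε⁻¹) * ℓ q.2 q.2 := by positivity
      nlinarith [(hq' q).2.1]
  have t2 := (t1.inv hq lpos (c := 1 / 4) (by norm_num) ⟨ε, e0, fun q z hz => by
    have := abs_le.mp (hn q z hz); beta_reduce; linarith⟩).weight hq
    (w' := fun q => (ρ q.1 ^ s)⁻¹) (c := 4) (by norm_num) fun q => by
      rw [le_mul_inv_iff₀ (ω0 _ (hq q)), inv_mul_le_iff₀ (lpos q)]; linarith [(hq' q).2.1]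
  have winv : ∀ x : {x // 0 < ρ x}, 0 ≤ (ρ x ^ s)⁻¹ := fun x => inv_nonneg.mpr (ω0 _ x.2).le
  have tV := hP.glue_tame (u := fun _ ν z => (ℓ ν z)⁻¹ • ζ ν) winv
    ((t2.smul hq (Tame.const hq (c := fun q => ζ q.2) (w := fun _ => 1) zero_le_one
      fun q => by simpa using (hζ _ (hq' q).1).1)).weight hq zero_le_one (by simp))
  have tW := hP.glue_tame (u := fun _ ν z => (ℓ ν z)⁻¹ * c ν) (w := fun _ => 1)
    (fun _ => zero_le_one)
    ((t2.mul hq (Tame.const hq (c := fun q => c q.2) (w := fun q => ρ q.1 ^ s) zero_le_two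
      fun q => (hζ _ (hq' q).1).2.2.2.1.trans (hq' q).2.2)).weight hq zero_le_one
      fun q => by rw [inv_mul_cancel₀ (ω0 _ (hq q)).ne', mul_one])
  have tk := hP.glue_tame (u := fun _ ν _ => 1 / 40 * ρ ν ^ s) (w := fun x => ρ x ^ s)
    (fun x => (ω0 _ x.2).le) (Tame.const hq zero_le_one fun q => by
      have := ω0 _ (hq' q).1
      rw [Real.norm_of_nonneg (by positivity)]; linarith [(hq' q).2.2])
  obtain ⟨V, hV⟩ : ∃ V, V = glue φ fun ν z => (ℓ ν z)⁻¹ • ζ ν := ⟨_, rfl⟩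
  obtain ⟨W, hW⟩ : ∃ W, W = glue φ fun ν z => (ℓ ν z)⁻¹ * c ν := ⟨_, rfl⟩
  obtain ⟨k, hk⟩ : ∃ k, k = glue φ fun ν _ => 1 / 40 * ρ ν ^ s := ⟨_, rfl⟩
  simp only [← hV, ← hW, ← hk] at tV tW tk
  have act : ∀ ν z, φ ν z ≠ 0 → 0 < ρ ν ∧ ρ z ^ s ≤ 5 / 4 * ρ ν ^ s ∧ ρ ν ^ s ≤ 5 / 4 * ρ z ^ s ∧
      1 / 10 * ρ ν ^ s ≤ ℓ ν z := fun ν z hν => by
    obtain ⟨a1, a2, -, a4⟩ := hP.cmp hρ hν
    have a5 : ρ z ^ s ≤ (11 / 10) ^ 2 * ρ ν ^ s :=
      rpow_le_of_le_mul (hρ.nonneg _) a4.le (by norm_num) a2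
    have a6 : ρ ν ^ s ≤ (10 / 9) ^ 2 * ρ z ^ s :=
      rpow_le_of_le_mul a4.le (hρ.nonneg _) (by norm_num) (by linarith)
    have a7 := abs_le.mp (hℓ1 ν z a4 (by nlinarith [(hP.supp ν z hν).2]))
    have := ω0 _ a4
    exact ⟨a4, by linarith, by linarith, by linarith [(hζ _ a4).2.1]⟩
  have k1 : ∀ z, 0 < ρ z → 1 / 50 * ρ z ^ s ≤ k z := fun z hz =>
    hk ▸ hP.le_glue hz fun ν hν => by linarith [(act ν z hν).2.1]
  have k2 : ∀ z, 0 < ρ z → |k z| ≤ 1 / 32 * ρ z ^ s := fun z hz => by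
    rw [hk, ← Real.norm_eq_abs]
    refine hP.glue_le hz fun ν hν => ?_
    have := ω0 _ (act ν z hν).1
    rw [Real.norm_of_nonneg (by positivity)]; linarith [(act ν z hν).2.2.1]
  have near : Near (fun x : {x // 0 < ρ x} => x.1) (fun x => ρ x) fun x z =>
      0 < ρ z ∧ ρ x ^ s ≤ 4 * ρ z ^ s := ⟨1 / 2, by norm_num, fun x z hz => by
    have := hρ.lip x z
    rw [norm_sub_rev] at this
    have h1 : ρ x ≤ 2 * ρ z := by linarith
    exact ⟨by linarith [x.2], (rpow_le_of_le_mul x.2.le (hρ.nonneg _) one_le_two h1).trans_eq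
      (by norm_num)⟩⟩
  have tW' := (tW.mul hr (tk.inv hr (fun x => ω0 _ x.2) (c := 1 / 200) (by norm_num)
    (near.mono fun x z hz => by linarith [k1 z hz.1, hz.2]))).weight hr
    (w' := fun x => (ρ x ^ s)⁻¹) zero_le_one (by simp)
  have tD := hD.sub hr (tk.mul hr tk)
  have tN := (tV.normsq hr).add hr (tW'.mul hr tW')
  have hQ : ∀ z, 0 < ρ z →
      1 / 4 ≤ 1 + (D z - k z * k z) * (‖V z‖ ^ 2 + W z * (k z)⁻¹ * (W z * (k z)⁻¹)) := by
    intro z hz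
    have w := ω0 z hz
    have b0 : k z * k z ≤ 1 / 32 * ρ z ^ s * (1 / 32 * ρ z ^ s) := by
      rw [← abs_mul_abs_self]; exact mul_self_le_mul_self (abs_nonneg _) (k2 z hz)
    by_cases h1 : k z * k z ≤ D z
    · nlinarith [mul_nonneg (sub_nonneg.mpr h1)
        (add_nonneg (sq_nonneg ‖V z‖) (mul_self_nonneg (W z * (k z)⁻¹)))]
    have b1 : W z = 0 := hW ▸ hP.glue_const hz fun ν hν => by
      obtain ⟨a1, a2, -⟩ := act ν z hν
      rcases (hζ ν a1).2.2.2.2 with h2 | h2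
      · rw [h2, mul_zero]
      · have := abs_le.mp (hosc ⟨ν, a1⟩ z ((hP.supp ν z hν).2.trans
          (mul_le_mul_of_nonneg_right (by linarith) a1.le)))
        have := mul_self_le_mul_self w.le a2
        exact absurd (by nlinarith) h1
    have b2 : ‖V z‖ ≤ 13 * (ρ z ^ s)⁻¹ := hV ▸ hP.glue_le hz fun ν hν => by
      obtain ⟨a1, a2, -, a4⟩ := act ν z hν
      have a5 : 0 < ℓ ν z := by linarith [ω0 ν a1]
      rw [norm_smul, norm_inv, Real.norm_of_nonneg a5.le]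
      refine (mul_le_of_le_one_right (by positivity) (hζ ν a1).1).trans ?_
      rw [le_mul_inv_iff₀ w, inv_mul_le_iff₀ a5]; linarith
    rw [le_mul_inv_iff₀ w] at b2
    have b3 := mul_self_le_mul_self (by positivity) b2
    rw [b1]
    nlinarith [mul_nonneg (hD0 z) (sq_nonneg ‖V z‖), sq_nonneg ‖V z‖]
  have one : Tame s (fun x : {x // 0 < ρ x} => x.1) (fun x => ρ x) (fun _ _ => (1 : ℝ))
      fun _ => 1 := Tame.const hr zero_le_one (by simp)
  have tS := (one.add hr ((one.add hr ((tD.mul hr tN).weight hr zero_le_one fun x => by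
    have := (ω0 _ x.2).ne'
    exact le_of_eq (by field_simp))).sqrt hr (near.mono fun x z hz => hQ z hz.1))).inv hr
    (fun _ => one_pos) one_pos (Near.of_forall fun x z => by simp)
  have tt := tD.mul hr tS
  obtain ⟨C₁, c1, U₁, u1⟩ := tay_of_tame hρ ((tt.smul hr tV).weight hr zero_le_one fun x => by
    have := (ω0 _ x.2).ne'
    exact le_of_eq (by field_simp)) fun z hz => by rw [hV, hP.glue_zero hρ _ hz, smul_zero]
  have u2 := tay_of_tame hρ (tk.add hr ((tt.mul hr tW').weight hr zero_le_one fun x => by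
    have := (ω0 _ x.2).ne'
    exact le_of_eq (by field_simp))) fun z hz => by
      rw [hW, hP.glue_zero hρ _ hz, hk, hP.glue_zero hρ _ hz]; simp
  refine ⟨_, _, ⟨_, add_nonneg hC c1, _, hT.add u1⟩, u2, fun z => ?_⟩
  by_cases hz : 0 < ρ z
  swap
  · rw [hV, hW, hk]
    simp [hP.glue_zero hρ _ hz, hDz z hz]
  have b1 : ⟪h z, V z⟫ + W z = 1 := by
    rw [hV, hW, ← innerSL_apply_apply ℝ, ← hP.glue_clm _ _ hz, ← hP.glue_add _ _ hz]
    refine hP.glue_const hz fun ν hν => ?_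
    obtain ⟨a1, -, -, a4⟩ := act ν z hν
    have a5 : 0 < ℓ ν z := by linarith [ω0 ν a1]
    rw [innerSL_apply_apply, real_inner_smul_right, ← mul_add, real_inner_comm, ← hℓ,
      inv_mul_cancel₀ a5.ne']
  have b2 := Real.mul_self_sqrt (le_trans (by norm_num) (hQ z hz))
  have b3 := Real.sqrt_nonneg
    (1 + (D z - k z * k z) * (‖V z‖ ^ 2 + W z * (k z)⁻¹ * (W z * (k z)⁻¹)))
  have b4 : 0 < k z := by linarith [k1 z hz, ω0 z hz]
  rw [norm_add_sq_real, real_inner_smul_right, norm_smul, mul_pow, Real.norm_eq_abs, sq_abs]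
  generalize √(1 + (D z - k z * k z) * (‖V z‖ ^ 2 + W z * (k z)⁻¹ * (W z * (k z)⁻¹))) = A at *
  have b5 : W z = k z * (W z * (k z)⁻¹) := by field_simp
  generalize W z * (k z)⁻¹ = B at *
  have b6 : (1 + A)⁻¹ * (1 + A) = 1 := inv_mul_cancel₀ (by linarith)
  generalize (1 + A)⁻¹ = T at *
  rw [eq_sub_of_add_eq b1, b5]
  linear_combination (D z - k z * k z) * (1 - T * (1 - A)) * b6 - (D z - k z * k z) * T ^ 2 * b2

end Pool.Agent.Lib.MP_ca9be0_an
end

-- part Pool.Agent.Lib.MP_ca9be0_an.Upper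
section

/-! The squared norm of a map with Hoelder derivative on `E` is a sum of `dim E + 1` squares. -/

open Finset
open scoped RealInnerProductSpace

namespace Pool.Agent.Lib.MP_ca9be0_an

variable {E F : Type*} [NormedAddCommGroup E] [InnerProductSpace ℝ E]
  [NormedAddCommGroup F] [InnerProductSpace ℝ F] {s : ℝ} {g : E → F} {G : E → E →L[ℝ] F}

lemma exists_scale [Ex s] (hT : Tay s g G 1) : ∃ (ρ : E → ℝ) (y : E → E), Scale ρ ∧
    (∀ x, ρ x ^ s ≤ ‖g x‖) ∧ ∀ x, ‖x - y x‖ ≤ 2 * ρ x ∧ ‖g (y x)‖ ≤ (2 * ρ x) ^ s := by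
  have hs := Ex.pos (s := s)
  obtain ⟨f, hf⟩ : ∃ f : E → E → ℝ, ∀ x y, f x y = ‖x - y‖ + ‖g y‖ ^ s⁻¹ := ⟨_, fun _ _ => rfl⟩
  have f0 : ∀ x y, 0 ≤ f x y := fun x y => by rw [hf]; positivity
  have fb : ∀ x, BddBelow (Set.range (f x)) := fun x => ⟨0, by rintro _ ⟨y, rfl⟩; exact f0 x y⟩
  have key : ∀ x y δ, f x y ≤ δ → ‖x - y‖ ≤ δ ∧ ‖g y‖ ≤ δ ^ s := fun x y δ h => by
    rw [hf] at h
    have h1 : 0 ≤ ‖g y‖ ^ s⁻¹ := by positivity
    refine ⟨by linarith, ?_⟩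
    rw [← Real.rpow_inv_rpow (norm_nonneg (g y)) hs.ne']
    exact Real.rpow_le_rpow h1 (by linarith [norm_nonneg (x - y)]) hs.le
  have ρ0 : ∀ x, 0 ≤ ⨅ y, f x y := fun x => Real.iInf_nonneg (f0 x)
  have : ∀ x, ∃ y, ‖x - y‖ ≤ 2 * (⨅ y, f x y) ∧ ‖g y‖ ≤ (2 * ⨅ y, f x y) ^ s := by
    intro x
    rcases (ρ0 x).eq_or_lt with h | h
    · refine ⟨x, by simp [← h], ?_⟩
      rw [← h, mul_zero, Real.zero_rpow hs.ne']
      refine le_of_forall_pos_le_add fun δ hδ => ?_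
      have hd : 0 < min 1 (δ / (2 + ‖G x‖)) := by positivity
      obtain ⟨y, hy⟩ := exists_lt_of_ciInf_lt (h ▸ hd : ⨅ y, f x y < _)
      obtain ⟨a1, a2⟩ := key x y _ hy.le
      have a3 := rpow_le_self (s := s) hd.le (min_le_left _ _)
      have a4 := (le_div_iff₀ (by positivity)).mp (min_le_right 1 (δ / (2 + ‖G x‖)))
      have a5 := hT x y
      rw [norm_sub_rev] at a1
      have a6 := Real.rpow_le_rpow (norm_nonneg _) a1 hs.le
      have a7 := ((G x).le_opNorm (y - x)).trans (mul_le_mul_of_nonneg_left a1 (norm_nonneg _))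
      have a8 : ‖g x‖ ≤ ‖g y‖ + ‖g y - g x - G x (y - x)‖ + ‖G x (y - x)‖ := by
        conv_lhs => rw [show g x = g y - (g y - g x - G x (y - x)) - G x (y - x) by abel]
        exact (norm_sub_le _ _).trans (add_le_add_left (norm_sub_le _ _) _)
      nlinarith
    · obtain ⟨y, hy⟩ := exists_lt_of_ciInf_lt (by linarith : ⨅ y, f x y < 2 * ⨅ y, f x y)
      exact ⟨y, key x y _ hy.le⟩
  choose y hy using this
  refine ⟨fun x => ⨅ y, f x y, y, ⟨ρ0, fun x z => ?_⟩, fun x => ?_, hy⟩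
  · rw [← sub_le_iff_le_add]
    refine le_ciInf fun w => ?_
    have h1 := ciInf_le (fb x) w
    have := norm_sub_le_norm_sub_add_norm_sub x z w
    rw [hf] at h1 ⊢
    linarith
  · have h1 := ciInf_le (fb x) x
    rw [hf, sub_self, norm_zero, zero_add] at h1
    rw [← Real.rpow_inv_rpow (norm_nonneg (g x)) hs.ne']
    exact Real.rpow_le_rpow (ρ0 x) h1 hs.le

lemma key_est [Ex s] (hT : Tay s g G 1) {T T' : F →L[ℝ] E} (h1 : ‖T‖ ≤ 1) (h1' : ‖T'‖ ≤ 1)
    {C : ℝ} (hC : 0 ≤ C) {y y' z : E} (h2 : ‖T.comp (G y) - T'.comp (G y')‖ ≤ C * ‖G y - G y'‖)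
    {r : ℝ} (hr : 0 < r) (a2 : ‖g y'‖ ≤ r ^ s) (a3 : ‖z - y‖ ≤ r)
    (a4 : ‖z - y'‖ ≤ r) : ‖T (g z) - T' (g z)‖ ≤ (12 + 12 * C) * r ^ s ∧
      ‖T.comp (G z) - T'.comp (G z)‖ * r ≤ (12 + 12 * C) * r ^ s := by
  have hs := Ex.pos (s := s)
  have b0 : ‖y' - y‖ ≤ 2 * r := by
    have := norm_sub_le (z - y) (z - y')
    rw [sub_sub_sub_cancel_left] at this
    linarith
  have b1 : (2 * r) ^ s ≤ 2 ^ 2 * r ^ s := rpow_le_of_le_mul (by positivity) hr.le one_le_two le_rfl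
  have b2 := hT.hol zero_le_one (x := y) (y := y') (r := 2 * r) (by positivity)
    (by rwa [norm_sub_rev])
  have b3 : ‖T.comp (G y) - T'.comp (G y')‖ * r ≤ 12 * C * r ^ s := by
    have : ‖G y - G y'‖ * r ≤ 12 * r ^ s := by linarith
    nlinarith
  have c : ∀ (T : F →L[ℝ] E), ‖T‖ ≤ 1 → ∀ w, ‖T w‖ ≤ ‖w‖ := fun T h w =>
    (T.le_opNorm w).trans (mul_le_of_le_one_left (norm_nonneg _) h)
  have c' : ∀ (T : F →L[ℝ] E), ‖T‖ ≤ 1 → ∀ A : E →L[ℝ] F, ‖T.comp A‖ ≤ ‖A‖ := fun T h A =>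
    (T.opNorm_comp_le A).trans (mul_le_of_le_one_left (norm_nonneg _) h)
  constructor
  · have e : T (g z) - T' (g z) = T (g z - g y - G y (z - y)) - T' (g z - g y' - G y' (z - y')) +
        (T.comp (G y) - T'.comp (G y')) (z - y') - T (g y' - g y - G y (y' - y)) +
        T (g y') - T' (g y') := by
      simp only [map_sub, sub_apply, ContinuousLinearMap.comp_apply]; abel
    have d1 := (c T h1 _).trans (hT y z)
    have d2 := (c T' h1' _).trans (hT y' z)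
    have d3 := (lin_le hr b3 (z - y')).trans (mul_le_of_le_one_right (by positivity)
      ((div_le_one hr).mpr a4))
    have d4 := (c T h1 _).trans (hT y y')
    have d5 := Real.rpow_le_rpow (norm_nonneg _) a3 hs.le
    have d6 := Real.rpow_le_rpow (norm_nonneg _) a4 hs.le
    have d7 := Real.rpow_le_rpow (norm_nonneg _) b0 hs.le
    have d8 := c T h1 (g y')
    have d9 := c T' h1' (g y')
    rw [e]
    refine (norm_sub_le _ _).trans ((add_le_add_left ((norm_add_le _ _).trans (add_le_add_left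
      ((norm_sub_le _ _).trans (add_le_add_left ((norm_add_le _ _).trans (add_le_add_left
      (norm_sub_le _ _) _)) _)) _)) _).trans ?_)
    have := Real.rpow_pos_of_pos hr s
    linarith
  · have e : T.comp (G z) - T'.comp (G z) = T.comp (G z - G y) +
        (T.comp (G y) - T'.comp (G y')) - T'.comp (G z - G y') := by
      simp only [ContinuousLinearMap.comp_sub]; abel
    have d1 := hT.hol zero_le_one hr a3
    have d2 := hT.hol zero_le_one hr a4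
    have d3 := (norm_sub_le _ _).trans (add_le_add ((norm_add_le _ _).trans
      (add_le_add_left (c' T h1 (G z - G y)) (‖T.comp (G y) - T'.comp (G y')‖)))
      (c' T' h1' (G z - G y')))
    rw [e]
    nlinarith

theorem reduce [FiniteDimensional ℝ E] [FiniteDimensional ℝ F] [Ex s] (hT : Tay s g G 1) :
    ∃ (h : E → E) (h₀ : E → ℝ), (∃ C ≥ 0, ∃ U, Tay s h U C) ∧ (∃ C ≥ 0, ∃ U, Tay s h₀ U C) ∧
      ∀ z, ‖h z‖ ^ 2 + h₀ z ^ 2 = ‖g z‖ ^ 2 := by
  have hs := Ex.pos (s := s)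
  obtain ⟨ρ, y, hρ, r1, r2⟩ := exists_scale hT
  obtain ⟨T₀, p1, p2, C, hC, p3⟩ := exists_polar (E := E) (F := F)
  obtain ⟨φ, S, hP⟩ := exists_part (s := s) hρ (ε := 1 / 10) (by norm_num) le_rfl
  obtain ⟨T, hTy⟩ : ∃ T : E → F →L[ℝ] E, ∀ x, T x = T₀ (G (y x)) := ⟨_, fun _ => rfl⟩
  have q1 : ∀ x, ‖T x‖ ≤ 1 := fun x => hTy x ▸ p1 _
  have c : ∀ x w, ‖T x w‖ ≤ ‖w‖ := fun x w =>
    ((T x).le_opNorm w).trans (mul_le_of_le_one_left (norm_nonneg _) (q1 x))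
  have ω0 : ∀ x, 0 < ρ x → 0 < ρ x ^ s := fun x hx => Real.rpow_pos_of_pos hx s
  have gz : ∀ z, ¬ 0 < ρ z → g z = 0 := fun z hz => by
    have h0 : ρ z = 0 := le_antisymm (not_lt.mp hz) (hρ.nonneg z)
    have := r2 z
    rw [h0, mul_zero, Real.zero_rpow hs.ne', norm_le_zero_iff, norm_le_zero_iff, sub_eq_zero] at this
    rw [this.1, this.2]
  have hy : ∀ ν z r, ρ ν ≤ r → ‖z - ν‖ ≤ r → ‖g (y ν)‖ ≤ (3 * r) ^ s ∧ ‖z - y ν‖ ≤ 3 * r :=
    fun ν z r h1 h2 => by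
      have := hρ.nonneg ν
      exact ⟨(r2 ν).2.trans (Real.rpow_le_rpow (by positivity) (by linarith) hs.le),
        (norm_sub_le_norm_sub_add_norm_sub z ν _).trans (by linarith [(r2 ν).1])⟩
  have KE : ∀ ν x z r r', 0 < r → ρ ν ≤ r → ρ x ≤ r → ‖z - ν‖ ≤ r → ‖z - x‖ ≤ r → 0 ≤ r' →
      r ≤ 2 * r' → ‖T ν (g z) - T x (g z)‖ ≤ (12 + 12 * C) * 36 * r' ^ s ∧
      ‖(T ν).comp (G z) - (T x).comp (G z)‖ * r ≤ (12 + 12 * C) * 36 * r' ^ s := by
    intro ν x z r r' hr h1 h2 h3 h4 h5 h6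
    obtain ⟨a1, a2⟩ := key_est hT (q1 ν) (q1 x) hC (by rw [hTy, hTy]; exact p3 _ _)
      (by positivity) (hy x z r h2 h4).1 (hy ν z r h1 h3).2 (hy x z r h2 h4).2
    have a3 : (3 * r) ^ s ≤ 6 ^ 2 * r' ^ s :=
      rpow_le_of_le_mul (by positivity) h5 (by norm_num) (by linarith)
    have a4 : (12 + 12 * C) * (3 * r) ^ s ≤ (12 + 12 * C) * 36 * r' ^ s := by nlinarith
    exact ⟨a1.trans a4, by nlinarith [norm_nonneg ((T ν).comp (G z) - (T x).comp (G z))]⟩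
  have hr : ∀ x : {x // 0 < ρ x}, 0 < ρ x := fun x => x.2
  have hq : ∀ q : Σ x : {x // 0 < ρ x}, S x, 0 < ρ q.1 := fun q => q.1.2
  have near : Near (fun x : {x // 0 < ρ x} => x.1) (fun x => ρ x) fun _ z => 0 < ρ z :=
    ⟨1 / 2, by norm_num, fun x z hz => by
      have := hρ.lip x z
      rw [norm_sub_rev] at this
      linarith [x.2]⟩
  have tc : Tame s (fun q : Σ x : {x // 0 < ρ x}, S x => q.1.1) (fun q => ρ q.1)
      (fun q z => T q.2 (g z) - T q.1 (g z)) fun q => ρ q.1 ^ s := by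
    have k : ∀ q : Σ x : {x // 0 < ρ x}, S x, _ := fun q => KE q.2 q.1 q.1 (2 * ρ q.1) (ρ q.1)
      (by linarith [hq q]) (by linarith [(hP.cmp' hρ q.2.2).2.1, hq q]) (by linarith [hq q])
      (by rw [norm_sub_rev]; linarith [(hP.cmp' hρ q.2.2).2.2, hq q])
      (by simpa using (hq q).le) (hq q).le le_rfl
    refine Tame.of_taylor hq (fun q => (T q.2).comp (G q.1) - (T q.1).comp (G q.1)) (K := 2)
      (by positivity) (fun q => (k q).1) (fun q => le_trans (mul_le_mul_of_nonneg_left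
        (by linarith [hq q]) (norm_nonneg _)) (k q).2) (fun q z => ?_) fun q =>
        mul_le_mul_of_nonneg_right (by linarith) (ω0 _ (hq q)).le
    have e : T q.2 (g z) - T q.1 (g z) - (T q.2 (g q.1) - T q.1 (g q.1)) -
        ((T q.2).comp (G q.1) - (T q.1).comp (G q.1)) (z - q.1.1) =
        T q.2 (g z - g q.1 - G q.1 (z - q.1.1)) - T q.1 (g z - g q.1 - G q.1 (z - q.1.1)) := by
      simp only [map_sub, sub_apply, ContinuousLinearMap.comp_apply]; abel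
    rw [e]
    have a1 := c q.2 (g z - g q.1 - G q.1 (z - q.1.1))
    have a2 := c q.1 (g z - g q.1 - G q.1 (z - q.1.1))
    exact (norm_sub_le _ _).trans (by linarith [hT q.1 z])
  have te : Tame s (fun q : Σ x : {x // 0 < ρ x}, S x => q.1.1) (fun q => ρ q.1)
      (fun q z => g z - G (y q.2) (z - y q.2)) fun q => ρ q.1 ^ s := by
    have k : ∀ q : Σ x : {x // 0 < ρ x}, S x, _ := fun q => hy q.2 q.1 (2 * ρ q.1)
      (by linarith [(hP.cmp' hρ q.2.2).2.1, hq q])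
      (by rw [norm_sub_rev]; linarith [(hP.cmp' hρ q.2.2).2.2, hq q])
    have k' : ∀ q : Σ x : {x // 0 < ρ x}, S x, (3 * (2 * ρ q.1)) ^ s ≤ 6 ^ 2 * ρ q.1 ^ s :=
      fun q => rpow_le_of_le_mul (by linarith [hq q]) (hq q).le (by norm_num) (by linarith)
    refine Tame.of_taylor hq (fun q => G q.1 - G (y q.2)) (K := 1) (C := 72)
      (by positivity) (fun q => ?_) (fun q => ?_) (fun q z => ?_) fun q =>
        mul_le_mul_of_nonneg_right (by linarith) (ω0 _ (hq q)).le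
    · have a1 := hT (y q.2) q.1
      have a2 := Real.rpow_le_rpow (norm_nonneg _) (k q).2 hs.le
      have a3 := norm_add_le (g q.1 - g (y q.2) - G (y q.2) (q.1.1 - y q.2)) (g (y q.2))
      rw [sub_right_comm, sub_add_cancel] at a3
      rw [sub_right_comm] at a1
      linarith [(k q).1, k' q]
    · linarith [hT.hol zero_le_one (by linarith [hq q]) (k q).2, k' q, ω0 _ (hq q)]
    · refine le_of_eq_of_le (congrArg _ ?_) (hT q.1 z)
      simp only [map_sub, sub_apply]; abel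
  obtain ⟨h, hh⟩ : ∃ h, h = glue φ fun ν z => T ν (g z) := ⟨_, rfl⟩
  have hsub : ∀ x z, 0 < ρ z → glue φ (fun ν z => T ν (g z) - T x (g z)) z = h z - T x (g z) := by
    intro x z hz
    simp only [sub_eq_add_neg]
    rw [hP.glue_add _ _ hz, hh,
      hP.glue_const (u := fun _ z => -T x (g z)) hz fun _ _ => rfl]
  have tb := (hP.glue_tame (u := fun x ν z => T ν (g z) - T x (g z)) (fun x => (ω0 _ x.2).le)
    tc).congr hr (v := fun x z => h z - T x (g z)) (near.mono fun x z hz => (hsub x z hz).symm)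
  obtain ⟨C₁, c1, U, hU⟩ := glob (u := fun x z => h z - T x (g z)) hρ.nonneg tb
    (C := (12 + 12 * C) * 36) (by positivity) fun x z => by
      have := hρ.nonneg x
      by_cases hz : 0 < ρ z
      · rw [← hsub x z hz]
        refine hP.glue_le hz fun ν hν => ?_
        obtain ⟨a1, -, a3, -⟩ := hP.cmp hρ hν
        have a4 := hρ.lip z x
        have a5 := norm_nonneg (z - x)
        exact (KE ν x z (2 * (ρ x + ‖z - x‖)) _ (by linarith) (by linarith) (by linarith)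
          (by linarith) (by linarith) (by linarith) le_rfl).1
      · rw [hh, hP.glue_zero hρ _ hz, gz z hz, map_zero, sub_zero, norm_zero]; positivity
  have hTh : Tay s h (fun x => U x + (T x).comp (G x)) (C₁ + 1) := by
    intro x z
    have e : h z - h x - (U x + (T x).comp (G x)) (z - x) =
        (h z - T x (g z) - (h x - T x (g x)) - U x (z - x)) + T x (g z - g x - G x (z - x)) := by
      simp only [map_sub, add_apply, ContinuousLinearMap.comp_apply]; abel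
    rw [e, add_mul]
    exact (norm_add_le _ _).trans (add_le_add (hU x z) ((c _ _).trans (hT x z)))
  have tD := ((hP.glue_tame (u := fun x ν z => ‖g z - G (y ν) (z - y ν)‖ ^ 2 -
      ‖T ν (g z - G (y ν) (z - y ν))‖ ^ 2 + ‖T ν (g z) - T x (g z)‖ ^ 2)
    (fun x => (mul_pos (ω0 _ x.2) (ω0 _ x.2)).le) (((te.normsq hq).sub hq
      ((te.clm hq (fun q => T q.2) fun q => q1 _).normsq hq)).add hq (tc.normsq hq))).sub hr
    (tb.normsq hr)).congr hr (v := fun _ z => ‖g z‖ ^ 2 - ‖h z‖ ^ 2) (near.mono fun x z hz => by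
      have e : ∀ ν, ‖g z - G (y ν) (z - y ν)‖ ^ 2 - ‖T ν (g z - G (y ν) (z - y ν))‖ ^ 2 +
          ‖T ν (g z) - T x (g z)‖ ^ 2 = ‖g z‖ ^ 2 + ‖T x (g z)‖ ^ 2 +
          ((-2 : ℝ) • innerSL ℝ (T x (g z))) (T ν (g z)) := by
        intro ν
        have a1 := p2 (G (y ν)) (z - y ν) (g z)
        have a2 := p2 (G (y ν)) (z - y ν) (G (y ν) (z - y ν))
        rw [← hTy] at a1 a2
        rw [real_inner_self_eq_norm_sq, real_inner_self_eq_norm_sq] at a2
        generalize G (y ν) (z - y ν) = w at *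
        rw [map_sub, norm_sub_sq_real, norm_sub_sq_real, norm_sub_sq_real, smul_apply,
          innerSL_apply_apply, smul_eq_mul, real_inner_comm (T x (g z)),
          real_inner_comm w, real_inner_comm (T ν w)]
        linarith
      have e' : glue φ (fun ν z => ‖g z - G (y ν) (z - y ν)‖ ^ 2 -
          ‖T ν (g z - G (y ν) (z - y ν))‖ ^ 2 + ‖T ν (g z) - T x (g z)‖ ^ 2) z =
          glue φ (fun ν z' => ‖g z‖ ^ 2 + ‖T x (g z)‖ ^ 2 +
          ((-2 : ℝ) • innerSL ℝ (T x (g z))) (T ν (g z'))) z := by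
        simp only [glue, e]
      rw [e', hP.glue_add _ _ hz, hP.glue_clm _ _ hz, hP.glue_const hz fun _ _ => rfl, ← hh,
        norm_sub_sq_real, smul_apply, innerSL_apply_apply, smul_eq_mul, real_inner_comm]
      ring)
  have hle : ∀ z, ‖h z‖ ≤ ‖g z‖ := fun z => by
    by_cases hz : 0 < ρ z
    · exact hh ▸ hP.glue_le hz fun ν _ => c _ _
    · rw [hh, hP.glue_zero hρ _ hz, norm_zero]; positivity
  obtain ⟨h', h₀, a1, a2, a3⟩ := correct hρ (by positivity) hTh tD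
    (fun z => sub_nonneg.mpr (pow_le_pow_left₀ (norm_nonneg _) (hle z) 2))
    (fun z hz => by rw [hh, hP.glue_zero hρ _ hz, gz z hz]; simp) fun z => by
      rw [add_sub_cancel, sq]
      exact mul_self_le_mul_self (Real.rpow_nonneg (hρ.nonneg z) s) (r1 z)
  exact ⟨h', h₀, a1, a2, fun z => by rw [a3, add_sub_cancel]⟩

end Pool.Agent.Lib.MP_ca9be0_an
end
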